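import Pool.Agent.TH954.X.VarX
import Pool.Agent.TH954.V.CanL

/-!
# The parallelogram law for heights on abelian varieties, uniform in the field
-/

set_option autoImplicit false
set_option linter.unusedSectionVars false

open MvPolynomial NumberField Height Pool.Agent.TH954.V

namespace Pool.Agent.TH954.X

lemma sup_tensor {L : Type} [Field L] {ι κ : Type} [Finite ι] [Finite κ]
    (w : AbsoluteValue L ℝ) {x : ι → L} {y : κ → L} (hx : x ≠ 0) (hy : y ≠ 0) :
    (⨆ p : ι × κ, w (x p.1 * y p.2)) = (⨆ i, w (x i)) * ⨆ j, w (y j) := by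
  have : Nonempty ι := let ⟨i, _⟩ := Function.ne_iff.mp hx; ⟨i⟩
  have : Nonempty κ := let ⟨i, _⟩ := Function.ne_iff.mp hy; ⟨i⟩
  refine le_antisymm (ciSup_le (fun p => ?_)) ?_
  · rw [w.map_mul]
    exact mul_le_mul (le_supW w x p.1) (le_supW w y p.2) (w.nonneg _) (sup_posW w hx).le
  · obtain ⟨i, hi⟩ := exists_supW w x
    obtain ⟨j, hj⟩ := exists_supW w y
    rw [← hi, ← hj, ← w.map_mul]
    exact le_ciSup (f := fun p : ι × κ => w (x p.1 * y p.2)) (Set.finite_range _).bddAbove (i, j)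

theorem par_unif {K : Type} [Field K] [NumberField K] {n : ℕ} (A : AbR K n) :
    ∃ C : ℝ, 0 ≤ C ∧ ∀ (L : Type) [Field L] [NumberField L] [Algebra K L] (P Q : A.Pt L),
      |logHeight (P + Q).1 + logHeight (P - Q).1 - 2 * (logHeight P.1 + logHeight Q.1)| ≤
        C * Module.finrank ℚ L := by
  classical
  set Fm : Finset (Fin n × Fin n → MvPolynomial (Fin 2 × Fin n) K) :=
    {fun p => A.Λ p.1 p.2} with hFm
  have hvec : ∀ (F : Type) [Field F] [Algebra K F] (P : Fin 2 → A.Pt F),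
      (fun j => (P j).1) = ![(P 0).1, (P 1).1] := by
    intro F _ _ P
    funext j
    fin_cases j <;> rfl
  have hsp : ∀ (F : Type) [Field F] [Algebra K F] (P Q : A.Pt F), ∃ s : F, s ≠ 0 ∧
      ∀ i j, ev (A.Λ i j) ![P.1, Q.1] = s * ((P + Q).1 i * (P - Q).1 j) :=
    fun F _ _ P Q => A.Λ_spec F P Q
  have htne : ∀ (F : Type) [Field F] [Algebra K F] (P Q : A.Pt F),
      (fun p : Fin n × Fin n => P.1 p.1 * Q.1 p.2) ≠ 0 := by
    intro F _ _ P Q h0
    obtain ⟨i, hi, -⟩ := P.2.1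
    obtain ⟨j, hj, -⟩ := Q.2.1
    have := congrFun h0 (i, j)
    simp [hi, hj] at this
  have hFam : IsFam (wqX (fun _ : Fin 2 => A.var)) (fun _ => 2) Fm := by
    constructor
    · intro C hC c
      rw [hFm, Finset.mem_singleton] at hC
      rw [hC]
      exact A.Λ_hom c.1 c.2
    · intro F _ _ u hu
      obtain ⟨P, r, hr, rfl⟩ := exists_ptA A hu
      obtain ⟨s, hs, hs'⟩ := hsp F (P 0) (P 1)
      obtain ⟨p, hp⟩ := Function.ne_iff.mp (htne F (P 0 + P 1) (P 0 - P 1))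
      refine ⟨_, Finset.mem_singleton_self _, p, ?_⟩
      rw [ev_smul (A.Λ_hom p.1 p.2), hvec, hs']
      refine mul_ne_zero (Finset.prod_ne_zero_iff.mpr (fun j _ => pow_ne_zero _ (hr j)))
        (mul_ne_zero hs hp)
  obtain ⟨B, M, e0, hM, hB⟩ := locF_fam (wqX (fun _ : Fin 2 => A.var)) (wqX_MH _)
    (fun _ _ _ _ _ => True) Fm hFam
  obtain ⟨C1, hC1, hC1'⟩ := tot_kap B hM e0
  choose A' M' hM' hA' using fun p : Fin n × Fin n =>
    nvW_le (A.Λ p.1 p.2) (fun _ => 2) (A.Λ_hom p.1 p.2)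
  choose C2 hC2 hC2' using fun p => tot_kap (A' p) (hM' p) 1
  refine ⟨C1 + ∑ p, C2 p, add_nonneg hC1 (Finset.sum_nonneg (fun p _ => hC2 p)),
    fun L _ _ _ P Q => ?_⟩
  obtain ⟨s, hs0, hs⟩ := hsp L P Q
  set t : Fin n × Fin n → L := fun p => (P + Q).1 p.1 * (P - Q).1 p.2 with ht
  have ht0 : t ≠ 0 := htne L (P + Q) (P - Q)
  set u : Fin 2 → Fin n → L := ![P.1, Q.1] with hu
  have hOn : OnS (wqX (fun _ : Fin 2 => A.var)) u := by
    have := onS_ptA A ![P, Q]
    rw [hvec] at this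
    exact this
  have hev : (fun p : Fin n × Fin n => ev (A.Λ p.1 p.2) u) = s • t := by
    funext p
    rw [hs, Pi.smul_apply, smul_eq_mul]
  have hTg : Tg Fm u t := by
    refine ⟨ht0, fun C hC => ⟨s, ?_⟩⟩
    rw [hFm, Finset.mem_singleton] at hC
    rw [hC]
    exact hev
  have hP0 := P.2.1.ne_zero
  have hQ0 := Q.2.1.ne_zero
  have hS0 := (P + Q).2.1.ne_zero
  have hR0 := (P - Q).2.1.ne_zero
  have hkp : ∀ (B : Finset K) (m e : ℕ), 1 ≤ m → ∀ w : AbsoluteValue L ℝ, 0 < kap B m e w :=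
    fun B m e hm w => zero_lt_one.trans_le (one_le_kap B hm e w)
  have Fs : FS (fun w : AbsoluteValue L ℝ => Real.log (w s)) := FS_log hs0
  have FP : FS (fun w : AbsoluteValue L ℝ => Real.log (⨆ c, w (P.1 c))) := FS_sup' hP0
  have FQ : FS (fun w : AbsoluteValue L ℝ => Real.log (⨆ c, w (Q.1 c))) := FS_sup' hQ0
  have FS1 : FS (fun w : AbsoluteValue L ℝ => Real.log (⨆ c, w ((P + Q).1 c))) := FS_sup' hS0
  have FR1 : FS (fun w : AbsoluteValue L ℝ => Real.log (⨆ c, w ((P - Q).1 c))) := FS_sup' hR0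
  have hprod : ∀ w : AbsoluteValue L ℝ, ∏ j : Fin 2, (⨆ c, w (u j c)) ^ 2 =
      (⨆ c, w (P.1 c)) ^ 2 * (⨆ c, w (Q.1 c)) ^ 2 := by
    intro w
    rw [Fin.prod_univ_two]
    rfl
  have hpos : ∀ w : AbsoluteValue L ℝ, 0 < (⨆ c, w (P.1 c)) ^ 2 * (⨆ c, w (Q.1 c)) ^ 2 :=
    fun w => mul_pos (pow_pos (sup_posW w hP0) _) (pow_pos (sup_posW w hQ0) _)
  have hlogprod : ∀ w : AbsoluteValue L ℝ,
      Real.log ((⨆ c, w (P.1 c)) ^ 2 * (⨆ c, w (Q.1 c)) ^ 2) =
      2 * Real.log (⨆ c, w (P.1 c)) + 2 * Real.log (⨆ c, w (Q.1 c)) := by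
    intro w
    rw [Real.log_mul (pow_pos (sup_posW w hP0) _).ne' (pow_pos (sup_posW w hQ0) _).ne',
      Real.log_pow, Real.log_pow]
    push_cast
    ring
  have hsupt : ∀ w : AbsoluteValue L ℝ, (⨆ p, w (t p)) =
      (⨆ c, w ((P + Q).1 c)) * ⨆ c, w ((P - Q).1 c) := fun w => sup_tensor w hS0 hR0
  have htpos : ∀ w : AbsoluteValue L ℝ, 0 < ⨆ p, w (t p) := fun w => sup_posW w ht0
  have hlogt : ∀ w : AbsoluteValue L ℝ, Real.log (w s * ⨆ p, w (t p)) =
      Real.log (w s) + (Real.log (⨆ c, w ((P + Q).1 c)) + Real.log (⨆ c, w ((P - Q).1 c))) := by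
    intro w
    rw [Real.log_mul (w.pos hs0).ne' (htpos w).ne', hsupt w,
      Real.log_mul (sup_posW w hS0).ne' (sup_posW w hR0).ne']
  -- lower bound
  have hlow : ∀ w : AbsoluteValue L ℝ,
      2 * Real.log (⨆ c, w (P.1 c)) + 2 * Real.log (⨆ c, w (Q.1 c)) ≤
      Real.log (kap B M e0 w) + (Real.log (w s) +
        (Real.log (⨆ c, w ((P + Q).1 c)) + Real.log (⨆ c, w ((P - Q).1 c)))) := by
    intro w
    obtain ⟨C, hC, s', hs', hle⟩ := hB L w u hOn trivial t hTg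
    rw [hFm, Finset.mem_singleton] at hC
    subst hC
    have h1 : s' = s := by
      have hs2 : s' • t = s • t := by rw [← hs', hev]
      obtain ⟨c, hc⟩ := Function.ne_iff.mp ht0
      have h2 := congrFun hs2 c
      rw [Pi.smul_apply, Pi.smul_apply, smul_eq_mul, smul_eq_mul] at h2
      exact mul_right_cancel₀ hc h2
    rw [h1, hprod] at hle
    have h3 := Real.log_le_log (hpos w) hle
    rw [hlogprod, Real.log_mul (hkp _ _ _ hM w).ne' (mul_pos (w.pos hs0) (htpos w)).ne',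
      hlogt] at h3
    exact h3
  have hupp : ∀ w : AbsoluteValue L ℝ, Real.log (w s) +
        (Real.log (⨆ c, w ((P + Q).1 c)) + Real.log (⨆ c, w ((P - Q).1 c))) ≤
      ∑ p, Real.log (kap (A' p) (M' p) 1 w) +
        (2 * Real.log (⨆ c, w (P.1 c)) + 2 * Real.log (⨆ c, w (Q.1 c))) := by
    intro w
    have hne : Nonempty (Fin n × Fin n) := let ⟨i, _⟩ := Function.ne_iff.mp ht0; ⟨i⟩
    obtain ⟨p, hp⟩ := exists_supW w t
    have h1 := hA' p L w u hOn.1
    unfold nvW at h1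
    rw [hprod, div_le_iff₀ (hpos w), congrFun hev p, Pi.smul_apply, smul_eq_mul, w.map_mul,
      hp] at h1
    have h3 := Real.log_le_log (mul_pos (w.pos hs0) (htpos w)) h1
    rw [hlogt, Real.log_mul (hkp _ _ _ (hM' p) w).ne' (hpos w).ne', hlogprod] at h3
    have h4 : Real.log (kap (A' p) (M' p) 1 w) ≤ ∑ p, Real.log (kap (A' p) (M' p) 1 w) :=
      Finset.single_le_sum (f := fun p => Real.log (kap (A' p) (M' p) 1 w))
        (fun p _ => Real.log_nonneg (one_le_kap _ (hM' p) 1 w)) (Finset.mem_univ p)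
    linarith
  have FL := FS_add (FS_mul FP 2) (FS_mul FQ 2)
  have FR := FS_add Fs (FS_add FS1 FR1)
  have t1 := tot_le FL (FS_add (hC1' L).1 FR) (fun w => hlow (ai w)) (fun v => hlow (av v))
  rw [tot_add (FS_mul FP 2) (FS_mul FQ 2), tot_mul FP, tot_mul FQ, tot_add (hC1' L).1 FR,
    tot_add Fs (FS_add FS1 FR1), tot_add FS1 FR1, tot_log hs0, tot_sup' hP0, tot_sup' hQ0,
    tot_sup' hS0, tot_sup' hR0] at t1
  have Fk : FS (fun w : AbsoluteValue L ℝ => ∑ p, Real.log (kap (A' p) (M' p) 1 w)) :=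
    FS_sum _ (fun p _ => (hC2' p L).1)
  have t2 := tot_le FR (FS_add Fk FL) (fun w => hupp (ai w)) (fun v => hupp (av v))
  rw [tot_add Fk FL, tot_add (FS_mul FP 2) (FS_mul FQ 2), tot_mul FP, tot_mul FQ,
    tot_add Fs (FS_add FS1 FR1), tot_add FS1 FR1, tot_log hs0, tot_sup' hP0, tot_sup' hQ0,
    tot_sup' hS0, tot_sup' hR0, tot_sum _ (fun p _ => (hC2' p L).1)] at t2
  have h1 := (hC1' L).2
  have h2 : ∑ p, tot (fun w : AbsoluteValue L ℝ => Real.log (kap (A' p) (M' p) 1 w)) ≤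
      (∑ p, C2 p) * Module.finrank ℚ L := by
    rw [Finset.sum_mul]
    exact Finset.sum_le_sum (fun p _ => (hC2' p L).2)
  have h3 : 0 ≤ C1 * (Module.finrank ℚ L : ℝ) := mul_nonneg hC1 (Nat.cast_nonneg _)
  have h4 : 0 ≤ (∑ p, C2 p) * (Module.finrank ℚ L : ℝ) :=
    mul_nonneg (Finset.sum_nonneg (fun p _ => hC2 p)) (Nat.cast_nonneg _)
  rw [abs_le, add_mul]
  constructor <;> linarith

/-- canonical heights compared with the naive heights, with a uniform constant -/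
theorem canA {K : Type} [Field K] [NumberField K] {n : ℕ} (A : AbR K n) :
    ∃ C : ℝ, 0 ≤ C ∧ ∀ (L : Type) [Field L] [NumberField L] [Algebra K L],
      ∃ q : A.Pt L → ℝ, (∀ P, 0 ≤ q P) ∧
        (∀ P Q, q (P + Q) + q (P - Q) = 2 * (q P + q Q)) ∧
        (∀ P, |q P - logHeight P.1| ≤ C * Module.finrank ℚ L) := by
  obtain ⟨C, hC, hpar⟩ := par_unif A
  refine ⟨C, hC, fun L _ _ _ => ?_⟩
  set E : ℝ := C * Module.finrank ℚ L with hE
  have hE0 : 0 ≤ E := mul_nonneg hC (Nat.cast_nonneg _)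
  obtain ⟨q, Cq, hq1, hq2, hq3⟩ := H437R2.Man.MW.canon (fun P : A.Pt L => logHeight P.1) E
    (fun P => logHeight_nonneg _) (fun P Q => hpar L P Q)
  have hCq : 0 ≤ Cq := (abs_nonneg _).trans (hq1 0)
  have h0 : logHeight (0 : A.Pt L).1 ≤ E / 2 := by
    have h1 := (abs_le.mp (hpar L (0 : A.Pt L) 0)).1
    rw [add_zero, sub_zero] at h1
    linarith
  have h00 : 0 ≤ logHeight (0 : A.Pt L).1 := logHeight_nonneg _
  have hdbl : ∀ R : A.Pt L, |logHeight ((2 : ℤ) • R).1 - 4 * logHeight R.1| ≤ 3 / 2 * E := by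
    intro R
    have h1 := abs_le.mp (hpar L R R)
    rw [sub_self] at h1
    rw [two_zsmul, abs_le]
    constructor <;> linarith [h1.1, h1.2]
  have hiter : ∀ (n : ℕ) (R : A.Pt L),
      |logHeight ((2 ^ n : ℤ) • R).1 - 4 ^ n * logHeight R.1| ≤ E * 4 ^ n := by
    intro n R
    have h1 : |logHeight ((2 ^ n : ℤ) • R).1 - 4 ^ n * logHeight R.1| ≤
        E * ((4 ^ n - 1) / 2) := by
      induction n with
      | zero => simp
      | succ n ih =>
        have h2 := hdbl ((2 ^ n : ℤ) • R)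
        rw [smul_smul] at h2
        have h3 : (2 : ℤ) * 2 ^ n = 2 ^ (n + 1) := by ring
        rw [h3] at h2
        rw [abs_le] at h2 ih ⊢
        have h4 : (4 : ℝ) ^ (n + 1) = 4 * 4 ^ n := by ring
        rw [h4]
        constructor <;> nlinarith [h2.1, h2.2, ih.1, ih.2]
    refine h1.trans (mul_le_mul_of_nonneg_left ?_ hE0)
    have : (0 : ℝ) < 4 ^ n := by positivity
    linarith
  have hq4 : ∀ (n : ℕ) (R : A.Pt L), q ((2 ^ n : ℤ) • R) = 4 ^ n * q R := by
    intro n R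
    rw [q_zsmul hq3]
    push_cast
    rw [← pow_mul, mul_comm n 2, pow_mul]
    norm_num
  refine ⟨q, hq2, hq3, fun R => ?_⟩
  rw [abs_le]
  constructor
  · have h1 : logHeight R.1 - q R - E ≤ 0 := by
      refine arch4 (B := Cq) (fun n => ?_)
      have h2 := (abs_le.mp (hq1 ((2 ^ n : ℤ) • R))).1
      have h4 := (abs_le.mp (hiter n R)).1
      rw [hq4] at h2
      linarith
    linarith
  · have h1 : q R - logHeight R.1 - E ≤ 0 := by
      refine arch4 (B := Cq) (fun n => ?_)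
      have h2 := (abs_le.mp (hq1 ((2 ^ n : ℤ) • R))).2
      have h4 := (abs_le.mp (hiter n R)).2
      rw [hq4] at h2
      linarith
    linarith

end Pool.Agent.TH954.X
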