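import Pool.Agent.TH954.X.GenDefs

/-!
# Products of geometrically irreducible varieties have generic points
(job of helper954, written by helper511)
-/

set_option autoImplicit false
set_option linter.unusedSectionVars false

open MvPolynomial
open scoped TensorProduct

namespace Pool.Agent.TH954.X

namespace Gen

section pts

variable {K : Type} [Field K] {n : ℕ}

/-- `v` is the vector of a point -/
def Pv (B : Blk K n) {F : Type} [Field F] [Algebra K F] (v : Fin n → F) : Prop :=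
  ∃ P : B.Pt F, B.vec F P = v

lemma Pv.map {B : Blk K n} {F1 F2 : Type} [Field F1] [Algebra K F1] [Field F2] [Algebra K F2]
    (φ : F1 →ₐ[K] F2) {v : Fin n → F1} (h : Pv B v) : Pv B (fun c => φ (v c)) := by
  obtain ⟨P, rfl⟩ := h
  have hev : ∀ g : MvPolynomial (Fin n) K,
      aeval (fun c => φ (B.vec F1 P c)) g = φ (aeval (B.vec F1 P) g) := by
    intro g
    rw [MvPolynomial.comp_aeval_apply]
  refine (B.s0_pt F2 _ ?_ ?_).resolve_left ?_
  · obtain ⟨i, hi, hj⟩ := B.normed F1 P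
    exact ⟨i, by beta_reduce; rw [hi, map_one], fun j hj' => by
      beta_reduce; rw [hj j hj', map_zero]⟩
  · intro i
    rw [hev, B.on F1 P i, map_zero]
  · rw [hev]
    exact fun h => B.s0_ne F1 P ((map_eq_zero φ).1 h)

lemma aeval_smul_hom {Ω : Type} [Field Ω] [Algebra K Ω] {g : MvPolynomial (Fin n) K} {a : ℕ}
    (hg : g.IsHomogeneous a) (s : Ω) (u : Fin n → Ω) :
    aeval (s • u) g = s ^ a * aeval u g := by
  rw [aeval_def, aeval_def, eval₂_eq', eval₂_eq', Finset.mul_sum]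
  refine Finset.sum_congr rfl (fun m hm => ?_)
  have h1 : ∑ i, m i = a := by
    have h2 := hg (mem_support_iff.1 hm)
    rw [← h2, Finsupp.weight_apply, Finsupp.sum_fintype _ _ (by simp)]
    simp
  have h2 : ∏ i, (s • u) i ^ m i = s ^ a * ∏ i, u i ^ m i := by
    rw [← h1, ← Finset.prod_pow_eq_pow_sum, ← Finset.prod_mul_distrib]
    refine Finset.prod_congr rfl (fun i _ => ?_)
    rw [Pi.smul_apply, smul_eq_mul, mul_pow]
  rw [h2]
  ring

lemma common (K : Type) [Field K] (F1 F2 : Type) [Field F1] [Field F2] [Algebra K F1]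
    [Algebra K F2] :
    ∃ (F3 : Type) (_ : Field F3) (_ : Algebra K F3),
      Nonempty (F1 →ₐ[K] F3) ∧ Nonempty (F2 →ₐ[K] F3) := by
  have hnt : Nontrivial (F1 ⊗[K] F2) :=
    Algebra.TensorProduct.nontrivial_of_algebraMap_injective_of_flat_left K F1 F2
      (algebraMap K F2).injective
  obtain ⟨M, hM⟩ := Ideal.exists_maximal (F1 ⊗[K] F2)
  let _ := Ideal.Quotient.field M
  exact ⟨(F1 ⊗[K] F2) ⧸ M, inferInstance, inferInstance,
    ⟨(Ideal.Quotient.mkₐ K M).comp Algebra.TensorProduct.includeLeft⟩,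
    ⟨(Ideal.Quotient.mkₐ K M).comp Algebra.TensorProduct.includeRight⟩⟩

end pts

section spec

variable {K : Type} [Field K] {n : ℕ} {ι : Type} [Fintype ι] [DecidableEq ι]

/-- the form in the group `i` obtained by specialising the other groups -/
noncomputable def spec {F : Type} [Field F] [Algebra K F] (i : ι) (v : ι → Fin n → F)
    (Φ : MvPolynomial (ι × Fin n) K) : MvPolynomial (Fin n) F :=
  aeval (fun p : ι × Fin n => if p.1 = i then X p.2 else C (v p.1 p.2)) Φ

lemma spec_hom {F : Type} [Field F] [Algebra K F] (i : ι) (v : ι → Fin n → F)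
    {Φ : MvPolynomial (ι × Fin n) K} {τ : ι → ℕ} (hΦ : MH τ Φ) :
    (spec i v Φ).IsHomogeneous (τ i) := by
  unfold spec
  rw [aeval_def, eval₂_eq']
  refine IsHomogeneous.sum _ _ _ (fun m hm => ?_)
  have h1 : (∏ p : ι × Fin n, (if p.1 = i then (X p.2 : MvPolynomial (Fin n) F)
      else C (v p.1 p.2)) ^ m p).IsHomogeneous (∑ p : ι × Fin n, (if p.1 = i then m p else 0)) := by
    refine IsHomogeneous.prod _ _ _ (fun p _ => ?_)
    split_ifs with h
    · exact isHomogeneous_X_pow _ _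
    · rw [← C_pow]
      exact isHomogeneous_C _ _
  have h2 : ∑ p : ι × Fin n, (if p.1 = i then m p else 0) = τ i := by
    rw [Fintype.sum_prod_type, Finset.sum_eq_single i]
    · simp only [if_true]
      exact hΦ m hm i
    · intro j _ hj
      simp [hj]
    · simp
  rw [h2] at h1
  have h3 : algebraMap K (MvPolynomial (Fin n) F) (coeff m Φ) =
      C (algebraMap K F (coeff m Φ)) := rfl
  rw [h3]
  exact h1.C_mul _

lemma spec_eval {F F' : Type} [Field F] [Algebra K F] [Field F'] [Algebra K F'] [Algebra F F']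
    [IsScalarTower K F F'] (i : ι) (v : ι → Fin n → F) (Φ : MvPolynomial (ι × Fin n) K)
    (x : Fin n → F') :
    aeval x (spec i v Φ) =
      ev Φ (fun j => if j = i then x else fun c => algebraMap F F' (v j c)) := by
  unfold spec ev
  have h := MvPolynomial.comp_aeval_apply
    (f := fun p : ι × Fin n => if p.1 = i then (X p.2 : MvPolynomial (Fin n) F)
      else C (v p.1 p.2)) ((aeval x : MvPolynomial (Fin n) F →ₐ[F] F').restrictScalars K) Φ
  refine (h.trans ?_)
  congr 1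
  congr 1
  funext p
  by_cases hp : p.1 = i
  · simp [hp]
  · simp [hp]

lemma spec_self {F : Type} [Field F] [Algebra K F] (i : ι) (v : ι → Fin n → F)
    (Φ : MvPolynomial (ι × Fin n) K) : aeval (v i) (spec i v Φ) = ev Φ v := by
  rw [spec_eval]
  congr 1
  funext j
  by_cases hj : j = i
  · subst hj; simp
  · simp [hj]

end spec

section main

variable {K : Type} [Field K] {n : ℕ} {ι : Type} [Fintype ι]

/-- `Φ` does not vanish identically on the product -/
def N (C : ι → Blk K n) (Φ : MvPolynomial (ι × Fin n) K) : Prop :=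
  ∃ (F : Type) (_ : Field F) (_ : Algebra K F) (v : ι → Fin n → F),
    (∀ i, Pv (C i) (v i)) ∧ ev Φ v ≠ 0

open Classical in
lemma agree (C : ι → Blk K n) (hirr : ∀ i, (C i).Irr) {Φ Ψ : MvPolynomial (ι × Fin n) K}
    {τ σ : ι → ℕ} (hΦ : MH τ Φ) (hΨ : MH σ Ψ) (h1 : N C Φ) (h2 : N C Ψ) (T : Finset ι) :
    ∃ (F : Type) (_ : Field F) (_ : Algebra K F) (v w : ι → Fin n → F),
      (∀ i, Pv (C i) (v i)) ∧ (∀ i, Pv (C i) (w i)) ∧ ev Φ v ≠ 0 ∧ ev Ψ w ≠ 0 ∧
      ∀ i ∈ T, v i = w i := by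
  induction T using Finset.induction_on with
  | empty =>
    obtain ⟨F1, _, _, v, hv, hv'⟩ := h1
    obtain ⟨F2, _, _, w, hw, hw'⟩ := h2
    obtain ⟨F3, _, _, ⟨φ⟩, ⟨ψ⟩⟩ := common K F1 F2
    refine ⟨F3, inferInstance, inferInstance, fun i c => φ (v i c), fun i c => ψ (w i c),
      fun i => (hv i).map φ, fun i => (hw i).map ψ, ?_, ?_, by simp⟩
    · have : ev Φ (fun i c => φ (v i c)) = φ (ev Φ v) := by
        unfold ev
        rw [MvPolynomial.comp_aeval_apply]
      rw [this]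
      exact fun h => hv' ((map_eq_zero φ).1 h)
    · have : ev Ψ (fun i c => ψ (w i c)) = ψ (ev Ψ w) := by
        unfold ev
        rw [MvPolynomial.comp_aeval_apply]
      rw [this]
      exact fun h => hw' ((map_eq_zero ψ).1 h)
  | insert a T ha ih =>
    obtain ⟨F, iF, iA, v, w, hv, hw, hvΦ, hwΨ, hT⟩ := ih
    have hg : (C a).NonZ F (spec a v Φ) := by
      obtain ⟨P, hP⟩ := hv a
      refine ⟨F, iF, iA, Algebra.id F, inferInstance, P, ?_⟩
      rw [hP, spec_self]
      exact hvΦ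
    have hh : (C a).NonZ F (spec a w Ψ) := by
      obtain ⟨P, hP⟩ := hw a
      refine ⟨F, iF, iA, Algebra.id F, inferInstance, P, ?_⟩
      rw [hP, spec_self]
      exact hwΨ
    obtain ⟨F', iF', iKF', iFF', itower, P, hP⟩ :=
      hirr a F _ _ _ _ (spec_hom a v hΦ) (spec_hom a w hΨ) hg hh
    rw [map_mul, spec_eval, spec_eval] at hP
    let φ : F →ₐ[K] F' := IsScalarTower.toAlgHom K F F'
    refine ⟨F', iF', iKF', _, _, ?_, ?_, left_ne_zero_of_mul hP, right_ne_zero_of_mul hP, ?_⟩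
    · intro j
      by_cases hj : j = a
      · subst hj
        rw [if_pos rfl]
        exact ⟨P, rfl⟩
      · rw [if_neg hj]
        exact (hv j).map φ
    · intro j
      by_cases hj : j = a
      · subst hj
        rw [if_pos rfl]
        exact ⟨P, rfl⟩
      · rw [if_neg hj]
        exact (hw j).map φ
    · intro j hj
      by_cases hja : j = a
      · rw [if_pos hja, if_pos hja]
      · rw [if_neg hja, if_neg hja]
        rw [hT j ((Finset.mem_insert.1 hj).resolve_left hja)]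

lemma N_mul (C : ι → Blk K n) (hirr : ∀ i, (C i).Irr) {Φ Ψ : MvPolynomial (ι × Fin n) K}
    {τ σ : ι → ℕ} (hΦ : MH τ Φ) (hΨ : MH σ Ψ) (h1 : N C Φ) (h2 : N C Ψ) : N C (Φ * Ψ) := by
  obtain ⟨F, iF, iA, v, w, hv, hw, hvΦ, hwΨ, hT⟩ := agree C hirr hΦ hΨ h1 h2 Finset.univ
  have hvw : v = w := funext fun i => hT i (Finset.mem_univ i)
  subst hvw
  refine ⟨F, iF, iA, v, hv, ?_⟩
  have : ev (Φ * Ψ) v = ev Φ v * ev Ψ v := by
    unfold ev
    rw [map_mul]
  rw [this]
  exact mul_ne_zero hvΦ hwΨ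

lemma N_prod (C : ι → Blk K n) (hirr : ∀ i, (C i).Irr) (h0 : N C 1) {A : Type}
    (S : Finset A) (Φ : A → MvPolynomial (ι × Fin n) K) (hS : ∀ a ∈ S, ∃ τ, MH τ (Φ a))
    (hN : ∀ a ∈ S, N C (Φ a)) : (∃ τ, MH τ (∏ a ∈ S, Φ a)) ∧ N C (∏ a ∈ S, Φ a) := by
  classical
  induction S using Finset.induction_on with
  | empty => 
    rw [Finset.prod_empty]
    exact ⟨⟨_, MH_one⟩, h0⟩
  | insert a S ha ih =>
    rw [Finset.prod_insert ha]
    obtain ⟨⟨τ, hτ⟩, h2⟩ := ih (fun b hb => hS b (Finset.mem_insert_of_mem hb))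
      (fun b hb => hN b (Finset.mem_insert_of_mem hb))
    obtain ⟨σ, hσ⟩ := hS a (Finset.mem_insert_self _ _)
    exact ⟨⟨_, MH_mul hσ hτ⟩, N_mul C hirr hσ hτ (hN a (Finset.mem_insert_self _ _)) h2⟩

/-! ### Homogenisation in one group -/

/-- a bound for the degrees -/
noncomputable def bd (C : ι → Blk K n) (q : MvPolynomial ((i : ι) × Fin (C i).g) K) : ℕ :=
  1 + ∑ m ∈ q.support, ∑ s, m s

lemma lt_bd (C : ι → Blk K n) (q : MvPolynomial ((i : ι) × Fin (C i).g) K)
    {m : ((i : ι) × Fin (C i).g) →₀ ℕ} (hm : m ∈ q.support) (i : ι) :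
    ∑ c, m ⟨i, c⟩ < bd C q := by
  have h1 : ∑ c, m ⟨i, c⟩ ≤ ∑ s, m s := by
    rw [Fintype.sum_sigma]
    exact Finset.single_le_sum (f := fun i : ι => ∑ c, m ⟨i, c⟩) (fun _ _ => Nat.zero_le _)
      (Finset.mem_univ i)
  have h2 : ∑ s, m s ≤ ∑ m ∈ q.support, ∑ s, m s :=
    Finset.single_le_sum (f := fun m : ((i : ι) × Fin (C i).g) →₀ ℕ => ∑ s, m s)
      (fun _ _ => Nat.zero_le _) hm
  unfold bd
  omega

open Classical in
/-- homogenisation in the group `a`, the other groups being specialised -/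
noncomputable def hm1 (C : ι → Blk K n) (q : MvPolynomial ((i : ι) × Fin (C i).g) K)
    {F : Type} [Field F] [Algebra K F] (y : ((i : ι) × Fin (C i).g) → F) (a : ι) :
    MvPolynomial (Option (Fin (C a).g)) F :=
  ∑ m ∈ q.support, MvPolynomial.C (algebraMap K F (coeff m q) *
      ∏ i ∈ Finset.univ.erase a, ∏ c, y ⟨i, c⟩ ^ m ⟨i, c⟩) *
    (X none ^ (bd C q - ∑ c, m ⟨a, c⟩) * ∏ c, X (some c) ^ m ⟨a, c⟩)

lemma hm1_hom (C : ι → Blk K n) (q : MvPolynomial ((i : ι) × Fin (C i).g) K)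
    {F : Type} [Field F] [Algebra K F] (y : ((i : ι) × Fin (C i).g) → F) (a : ι) :
    (hm1 C q y a).IsHomogeneous (bd C q) := by
  unfold hm1
  refine IsHomogeneous.sum _ _ _ (fun m hm => ?_)
  have h1 : (X none ^ (bd C q - ∑ c, m ⟨a, c⟩) * ∏ c, X (some c) ^ m ⟨a, c⟩ :
      MvPolynomial (Option (Fin (C a).g)) F).IsHomogeneous
      ((bd C q - ∑ c, m ⟨a, c⟩) + ∑ c, m ⟨a, c⟩) :=
    (isHomogeneous_X_pow _ _).mul (IsHomogeneous.prod _ _ _ (fun c _ => isHomogeneous_X_pow _ _))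
  rw [Nat.sub_add_cancel (lt_bd C q hm a).le] at h1
  exact h1.C_mul _

open Classical in
lemma hm1_eval (C : ι → Blk K n) (q : MvPolynomial ((i : ι) × Fin (C i).g) K)
    {F : Type} [Field F] [Algebra K F] (y : ((i : ι) × Fin (C i).g) → F) (a : ι)
    {F' : Type} [Field F'] [Algebra F F'] (t : Option (Fin (C a).g) → F') :
    aeval t (hm1 C q y a) = ∑ m ∈ q.support, algebraMap F F' (algebraMap K F (coeff m q) *
      ∏ i ∈ Finset.univ.erase a, ∏ c, y ⟨i, c⟩ ^ m ⟨i, c⟩) *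
    (t none ^ (bd C q - ∑ c, m ⟨a, c⟩) * ∏ c, t (some c) ^ m ⟨a, c⟩) := by
  unfold hm1
  simp only [map_sum, map_mul, map_pow, map_prod, aeval_X, aeval_C]

lemma aeval_eq (C : ι → Blk K n) (q : MvPolynomial ((i : ι) × Fin (C i).g) K)
    {F : Type} [Field F] [Algebra K F] (y : ((i : ι) × Fin (C i).g) → F) :
    aeval y q = ∑ m ∈ q.support, algebraMap K F (coeff m q) *
      ∏ i, ∏ c, y ⟨i, c⟩ ^ m ⟨i, c⟩ := by
  rw [aeval_def, eval₂_eq']
  refine Finset.sum_congr rfl (fun m _ => ?_)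
  rw [Fintype.prod_sigma]

lemma pow_sub_mul {F : Type} [Field F] {g : ℕ} (z : F) (hz : z ≠ 0) (x : Fin g → F)
    (m : Fin g → ℕ) (D : ℕ) (hD : ∑ c, m c ≤ D) :
    z ^ (D - ∑ c, m c) * ∏ c, x c ^ m c = z ^ D * ∏ c, (x c / z) ^ m c := by
  have h1 : ∏ c, (x c / z) ^ m c = (∏ c, x c ^ m c) / z ^ (∑ c, m c) := by
    simp only [div_pow]
    rw [Finset.prod_div_distrib, Finset.prod_pow_eq_pow_sum]
  rw [h1, pow_sub₀ _ hz hD]
  field_simp

lemma replace (C : ι → Blk K n) (hind : ∀ i, (C i).Ind)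
    (q : MvPolynomial ((i : ι) × Fin (C i).g) K) (hq : q ≠ 0) (T : Finset ι) :
    ∃ (F : Type) (_ : Field F) (_ : Algebra K F) (y : ((i : ι) × Fin (C i).g) → F),
      aeval y q ≠ 0 ∧ ∀ i ∈ T, ∃ v : Fin n → F, Pv (C i) v ∧ v (C i).z0 ≠ 0 ∧
        ∀ a, y ⟨i, a⟩ = v ((C i).z a) / v (C i).z0 := by
  classical
  induction T using Finset.induction_on with
  | empty =>
    refine ⟨FractionRing (MvPolynomial ((i : ι) × Fin (C i).g) K), inferInstance, inferInstance,
      fun s => algebraMap (MvPolynomial ((i : ι) × Fin (C i).g) K)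
        (FractionRing (MvPolynomial ((i : ι) × Fin (C i).g) K)) (X s), ?_, by simp⟩
    have h1 : aeval (fun s : (i : ι) × Fin (C i).g =>
        algebraMap (MvPolynomial ((i : ι) × Fin (C i).g) K)
          (FractionRing (MvPolynomial ((i : ι) × Fin (C i).g) K)) (X s)) q =
        algebraMap (MvPolynomial ((i : ι) × Fin (C i).g) K)
          (FractionRing (MvPolynomial ((i : ι) × Fin (C i).g) K)) q := by
      have h := MvPolynomial.comp_aeval_apply (f := (X : ((i : ι) × Fin (C i).g) → _))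
        (IsScalarTower.toAlgHom K (MvPolynomial ((i : ι) × Fin (C i).g) K)
          (FractionRing (MvPolynomial ((i : ι) × Fin (C i).g) K))) q
      rw [aeval_X_left_apply] at h
      exact h.symm
    rw [h1]
    intro h
    exact hq ((IsFractionRing.injective (MvPolynomial ((i : ι) × Fin (C i).g) K)
      (FractionRing (MvPolynomial ((i : ι) × Fin (C i).g) K))) (by rw [h, map_zero]))
  | insert a T ha ih =>
    obtain ⟨F, iF, iA, y, hy, hT⟩ := ih
    -- the form is nonzero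
    have hsplit : ∀ (F' : Type) [Field F'] (y' : ((i : ι) × Fin (C i).g) → F')
        (m : ((i : ι) × Fin (C i).g) →₀ ℕ),
        ∏ i, ∏ c, y' ⟨i, c⟩ ^ m ⟨i, c⟩ = (∏ c, y' ⟨a, c⟩ ^ m ⟨a, c⟩) *
          ∏ i ∈ Finset.univ.erase a, ∏ c, y' ⟨i, c⟩ ^ m ⟨i, c⟩ := by
      intro F' _ y' m
      exact (Finset.mul_prod_erase Finset.univ (fun i => ∏ c, y' ⟨i, c⟩ ^ m ⟨i, c⟩)
        (Finset.mem_univ a)).symm
    have hG0 : hm1 C q y a ≠ 0 := by
      intro h0
      apply hy
      have h1 := hm1_eval C q y a (F' := F) (fun o => Option.elim o 1 (fun c => y ⟨a, c⟩))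
      rw [h0, map_zero] at h1
      rw [aeval_eq, h1]
      refine Finset.sum_congr rfl (fun m _ => ?_)
      rw [hsplit F y m]
      simp only [Algebra.algebraMap_self, RingHom.id_apply, Option.elim, one_pow, one_mul]
      ring
    obtain ⟨F', iF', iKF', iFF', itower, P, hP⟩ := hind a F _ _ (hm1_hom C q y a) hG0
    rw [aeval_rename, hm1_eval] at hP
    set v : Fin n → F' := (C a).vec F' P with hv
    simp only [Function.comp_apply, Option.elim] at hP
    have hz : v (C a).z0 ≠ 0 := by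
      intro h0
      apply hP
      refine Finset.sum_eq_zero (fun m hm => ?_)
      have := lt_bd C q hm a
      rw [h0, zero_pow (by omega), zero_mul, mul_zero]
    let φ : F →ₐ[K] F' := IsScalarTower.toAlgHom K F F'
    let y' : ((i : ι) × Fin (C i).g) → F' := fun s =>
      if s.1 = a then v ((C s.1).z s.2) / v (C s.1).z0 else φ (y s)
    have hy'a : ∀ c, y' ⟨a, c⟩ = v ((C a).z c) / v (C a).z0 := fun c => if_pos rfl
    have hy'i : ∀ i, i ≠ a → ∀ c, y' ⟨i, c⟩ = φ (y ⟨i, c⟩) := fun i hi c => if_neg hi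
    refine ⟨F', iF', iKF', y', ?_, ?_⟩
    · have h1 : (v (C a).z0) ^ bd C q * aeval y' q ≠ 0 := by
        intro h2
        apply hP
        rw [← h2, aeval_eq, Finset.mul_sum]
        refine Finset.sum_congr rfl (fun m hm => ?_)
        rw [hsplit F' y' m, pow_sub_mul _ hz (fun c => v ((C a).z c)) (fun c => m ⟨a, c⟩) _
          (lt_bd C q hm a).le]
        have h3 : ∏ i ∈ Finset.univ.erase a, ∏ c, y' ⟨i, c⟩ ^ m ⟨i, c⟩ =
            φ (∏ i ∈ Finset.univ.erase a, ∏ c, y ⟨i, c⟩ ^ m ⟨i, c⟩) := by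
          rw [map_prod]
          refine Finset.prod_congr rfl (fun i hi => ?_)
          rw [map_prod]
          refine Finset.prod_congr rfl (fun c _ => ?_)
          rw [hy'i i (Finset.ne_of_mem_erase hi), map_pow]
        rw [h3]
        simp only [hy'a]
        rw [map_mul, ← IsScalarTower.algebraMap_apply K F F']
        have h4 : ∀ x : F, algebraMap F F' x = φ x := fun _ => rfl
        rw [h4]
        ring
      exact right_ne_zero_of_mul h1
    · intro i hi
      by_cases hia : i = a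
      · subst hia
        exact ⟨v, ⟨P, rfl⟩, hz, hy'a⟩
      · obtain ⟨w, hw1, hw2, hw3⟩ := hT i ((Finset.mem_insert.1 hi).resolve_left hia)
        refine ⟨fun c => φ (w c), hw1.map φ, fun h => hw2 ((map_eq_zero φ).1 h), fun c => ?_⟩
        rw [hy'i i hia, hw3, map_div₀]

/-! ### Homogenisation in all groups -/

/-- homogenisation in all groups -/
noncomputable def hmA (C : ι → Blk K n) (q : MvPolynomial ((i : ι) × Fin (C i).g) K) :
    MvPolynomial (ι × Fin n) K :=
  ∑ m ∈ q.support, MvPolynomial.C (coeff m q) *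
    ∏ i, (X (i, (C i).z0) ^ (bd C q - ∑ c, m ⟨i, c⟩) * ∏ c, X (i, (C i).z c) ^ m ⟨i, c⟩)

open Classical in
lemma MH_X (i : ι) (c : Fin n) :
    MH (fun j => if j = i then 1 else 0) (X (i, c) : MvPolynomial (ι × Fin n) K) := by
  intro m hm j
  rw [support_X, Finset.mem_singleton] at hm
  subst hm
  by_cases hj : j = i
  · subst hj
    beta_reduce
    rw [if_pos rfl, Finset.sum_eq_single c]
    · simp
    · intro d _ hd
      rw [Finsupp.single_apply, if_neg]
      intro h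
      exact hd (Prod.ext_iff.1 h).2.symm
    · simp
  · beta_reduce
    rw [if_neg hj]
    refine Finset.sum_eq_zero (fun d _ => ?_)
    rw [Finsupp.single_apply, if_neg]
    intro h
    exact hj (Prod.ext_iff.1 h).1.symm

lemma MH_hmA (C : ι → Blk K n) (q : MvPolynomial ((i : ι) × Fin (C i).g) K) :
    MH (fun _ => bd C q) (hmA C q) := by
  classical
  unfold hmA
  refine MH_sum _ _ _ (fun m hm => ?_)
  have h1 : ∀ i : ι, MH (fun j => if j = i then bd C q else 0)
      (X (i, (C i).z0) ^ (bd C q - ∑ c, m ⟨i, c⟩) * ∏ c, X (i, (C i).z c) ^ m ⟨i, c⟩ :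
        MvPolynomial (ι × Fin n) K) := by
    intro i
    have h2 := MH_mul (MH_pow (MH_X (K := K) i (C i).z0) (bd C q - ∑ c, m ⟨i, c⟩))
      (MH_prod Finset.univ _ _ (fun (c : Fin (C i).g) _ =>
        MH_pow (MH_X (K := K) i ((C i).z c)) (m ⟨i, c⟩)))
    have h3 : (fun j : ι => (bd C q - ∑ c, m ⟨i, c⟩) * (if j = i then 1 else 0) +
        ∑ c, m ⟨i, c⟩ * (if j = i then 1 else 0)) = fun j => if j = i then bd C q else 0 := by
      funext j
      by_cases hj : j = i
      · simp only [if_pos hj, mul_one]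
        exact Nat.sub_add_cancel (lt_bd C q hm i).le
      · simp only [if_neg hj, mul_zero, Finset.sum_const_zero, add_zero]
    rw [h3] at h2
    exact h2
  have h4 := MH_mul (MH_C (ι := ι) (n := n) (coeff m q)) (MH_prod Finset.univ _ _ (fun i _ => h1 i))
  have h5 : (fun j : ι => 0 + ∑ i, if j = i then bd C q else 0) = fun _ => bd C q := by
    funext j
    simp
  rw [h5] at h4
  exact h4

lemma ev_hmA (C : ι → Blk K n) (q : MvPolynomial ((i : ι) × Fin (C i).g) K)
    {F : Type} [Field F] [Algebra K F] (v : ι → Fin n → F) (hz : ∀ i, v i (C i).z0 ≠ 0) :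
    ev (hmA C q) v = (∏ i, v i (C i).z0 ^ bd C q) *
      aeval (fun s : (i : ι) × Fin (C i).g => v s.1 ((C s.1).z s.2) / v s.1 (C s.1).z0) q := by
  rw [aeval_eq, Finset.mul_sum]
  unfold ev hmA
  simp only [map_sum, map_mul, map_pow, map_prod, aeval_X, aeval_C]
  refine Finset.sum_congr rfl (fun m hm => ?_)
  have h1 : ∀ i, v i (C i).z0 ^ (bd C q - ∑ c, m ⟨i, c⟩) * ∏ c, v i ((C i).z c) ^ m ⟨i, c⟩ =
      v i (C i).z0 ^ bd C q * ∏ c, (v i ((C i).z c) / v i (C i).z0) ^ m ⟨i, c⟩ := fun i =>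
    pow_sub_mul _ (hz i) (fun c => v i ((C i).z c)) (fun c => m ⟨i, c⟩) _ (lt_bd C q hm i).le
  simp only [h1]
  rw [Finset.prod_mul_distrib]
  ring

lemma N_hmA (C : ι → Blk K n) (hind : ∀ i, (C i).Ind)
    (q : MvPolynomial ((i : ι) × Fin (C i).g) K) (hq : q ≠ 0) : N C (hmA C q) := by
  obtain ⟨F, iF, iA, y, hy, hT⟩ := replace C hind q hq Finset.univ
  choose v hv1 hv2 hv3 using fun i => hT i (Finset.mem_univ i)
  refine ⟨F, iF, iA, v, hv1, ?_⟩
  rw [ev_hmA C q v hv2]
  refine mul_ne_zero (Finset.prod_ne_zero_iff.2 fun i _ => pow_ne_zero _ (hv2 i)) ?_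
  have : (fun s : (i : ι) × Fin (C i).g => v s.1 ((C s.1).z s.2) / v s.1 (C s.1).z0) = y := by
    funext s
    exact (hv3 s.1 s.2).symm
  rw [this]
  exact hy

lemma N_z0 (C : ι → Blk K n) (hind : ∀ i, (C i).Ind) :
    N C (∏ i, X (i, (C i).z0)) ∧ N C 1 := by
  obtain ⟨F, iF, iA, y, hy, hT⟩ := replace C hind 1 one_ne_zero Finset.univ
  choose v hv1 hv2 hv3 using fun i => hT i (Finset.mem_univ i)
  refine ⟨⟨F, iF, iA, v, hv1, ?_⟩, ⟨F, iF, iA, v, hv1, ?_⟩⟩
  · unfold ev
    rw [map_prod]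
    simp only [aeval_X]
    exact Finset.prod_ne_zero_iff.2 fun i _ => hv2 i
  · unfold ev
    rw [map_one]
    exact one_ne_zero

end main

/-! ### Compactness -/

lemma compact {K : Type} [Field K] {A : Type} [DecidableEq A] (F : Finset A → Type)
    [∀ S, Field (F S)] [∀ S, Algebra K (F S)] :
    ∃ (Ω : Type) (_ : Field Ω) (_ : Algebra K Ω) (_ : IsAlgClosed Ω)
      (ψ : (∀ S, F S) →ₐ[K] Ω),
      ∀ x : ∀ S, F S, (∃ S0 : Finset A, ∀ S, S0 ⊆ S → x S ≠ 0) → ψ x ≠ 0 := by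
  let J : Ideal (∀ S, F S) :=
    { carrier := {x | ∃ S0 : Finset A, ∀ S, S0 ⊆ S → x S = 0}
      add_mem' := by
        rintro x y ⟨S0, h0⟩ ⟨S1, h1⟩
        refine ⟨S0 ∪ S1, fun S hS => ?_⟩
        rw [Pi.add_apply, h0 S (Finset.union_subset_left hS), h1 S (Finset.union_subset_right hS),
          add_zero]
      zero_mem' := ⟨∅, fun _ _ => rfl⟩
      smul_mem' := by
        rintro c x ⟨S0, h0⟩
        refine ⟨S0, fun S hS => ?_⟩
        rw [smul_eq_mul, Pi.mul_apply, h0 S hS, mul_zero] }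
  have hJ : J ≠ ⊤ := by
    intro h
    have h1 : (1 : ∀ S, F S) ∈ J := by rw [h]; exact Submodule.mem_top
    obtain ⟨S0, h0⟩ := h1
    exact one_ne_zero (h0 S0 (le_refl _))
  obtain ⟨M, hM, hJM⟩ := Ideal.exists_le_maximal J hJ
  let _ := Ideal.Quotient.field M
  let ψ : (∀ S, F S) →ₐ[K] AlgebraicClosure ((∀ S, F S) ⧸ M) :=
    (IsScalarTower.toAlgHom K ((∀ S, F S) ⧸ M) (AlgebraicClosure ((∀ S, F S) ⧸ M))).comp
      (Ideal.Quotient.mkₐ K M)
  refine ⟨AlgebraicClosure ((∀ S, F S) ⧸ M), inferInstance, inferInstance, inferInstance, ψ, ?_⟩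
  rintro x ⟨S0, h0⟩ hx
  have h1 : ψ (1 - x * fun S => (x S)⁻¹) = 1 := by
    rw [map_sub, map_mul, hx, zero_mul, sub_zero, map_one]
  have h2 : (1 - x * fun S => (x S)⁻¹) ∈ M := by
    apply hJM
    refine ⟨S0, fun S hS => ?_⟩
    rw [Pi.sub_apply, Pi.mul_apply, Pi.one_apply, mul_inv_cancel₀ (h0 S hS), sub_self]
  have h3 : ψ (1 - x * fun S => (x S)⁻¹) = 0 := by
    show algebraMap ((∀ S, F S) ⧸ M) (AlgebraicClosure ((∀ S, F S) ⧸ M))
      (Ideal.Quotient.mk M _) = 0
    rw [Ideal.Quotient.eq_zero_iff_mem.2 h2, map_zero]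
  rw [h3] at h1
  exact zero_ne_one h1

section fin

variable {K : Type} [Field K] {n : ℕ} {ι : Type} [Fintype ι]

/-- generic vectors -/
lemma generic (C : ι → Blk K n) (hirr : ∀ i, (C i).Irr) (hind : ∀ i, (C i).Ind) :
    ∃ (Ω : Type) (_ : Field Ω) (_ : Algebra K Ω) (_ : IsAlgClosed Ω) (u : ι → Fin n → Ω),
      (∀ i, Pv (C i) (u i)) ∧ ∀ (Φ : MvPolynomial (ι × Fin n) K) (τ : ι → ℕ), MH τ Φ →
        N C Φ → ev Φ u ≠ 0 := by
  classical
  let A : Type := {Φ : MvPolynomial (ι × Fin n) K // (∃ τ, MH τ Φ) ∧ N C Φ}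
  obtain ⟨hz0, h1⟩ := N_z0 C hind
  have hS : ∀ S : Finset A, N C (∏ a ∈ S, a.1) := fun S =>
    (N_prod C hirr h1 S (fun a => a.1) (fun a _ => a.2.1) (fun a _ => a.2.2)).2
  choose F iF iA v hv hne using hS
  obtain ⟨Ω, iΩ, iKΩ, iΩc, ψ, hψ⟩ := compact (K := K) F
  let u0 : ι → Fin n → Ω := fun i c => ψ (fun S => v S i c)
  have hev : ∀ Φ : MvPolynomial (ι × Fin n) K, ev Φ u0 = ψ (fun S => ev Φ (v S)) := by
    intro Φ
    have e1 : ev Φ u0 = ψ (aeval (fun (p : ι × Fin n) (S : Finset A) => v S p.1 p.2) Φ) := by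
      rw [MvPolynomial.comp_aeval_apply]
      rfl
    rw [e1]
    congr 1
    funext S
    have e2 := MvPolynomial.comp_aeval_apply
      (f := fun (p : ι × Fin n) (S : Finset A) => v S p.1 p.2)
      (Pi.evalAlgHom K F S) Φ
    exact e2
  have hgen : ∀ Φ : MvPolynomial (ι × Fin n) K, (∃ τ, MH τ Φ) → N C Φ → ev Φ u0 ≠ 0 := by
    intro Φ hτ hN
    rw [hev]
    apply hψ
    refine ⟨{(⟨Φ, hτ, hN⟩ : A)}, fun S hS => ?_⟩
    have hmem : (⟨Φ, hτ, hN⟩ : A) ∈ S := hS (Finset.mem_singleton_self _)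
    have h2 := hne S
    unfold ev at h2 ⊢
    rw [map_prod] at h2
    exact Finset.prod_ne_zero_iff.1 h2 _ hmem
  -- the vectors are nonzero
  have hzz : ∀ i, u0 i (C i).z0 ≠ 0 := by
    have h2 := hgen _ ⟨_, MH_prod Finset.univ _ _ (fun i _ => MH_X (K := K) i (C i).z0)⟩ hz0
    unfold ev at h2
    rw [map_prod] at h2
    simp only [aeval_X] at h2
    exact fun i => Finset.prod_ne_zero_iff.1 h2 i (Finset.mem_univ i)
  have hone : ∀ (i : ι) (g : MvPolynomial (Fin n) K),
      aeval (u0 i) g = ψ (fun S => aeval (v S i) g) := by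
    intro i g
    have h2 := hev (rename (fun c => (i, c)) g)
    rw [ev_rename] at h2
    rw [h2]
    congr 1
    funext S
    rw [ev_rename]
  choose s u hs hu hus using fun i => exists_normed (v := u0 i)
    (fun h => hzz i (by rw [h]; rfl))
  have hsc : ∀ (i : ι) (g : MvPolynomial (Fin n) K) (a : ℕ), g.IsHomogeneous a →
      aeval (u0 i) g = s i ^ a * aeval (u i) g := by
    intro i g a hg
    rw [hus i]
    exact aeval_smul_hom hg (s i) (u i)
  refine ⟨Ω, iΩ, iKΩ, iΩc, u, ?_, ?_⟩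
  · intro i
    refine ((C i).s0_pt Ω (u i) (hu i) ?_).resolve_left ?_
    · intro m
      have h2 := hone i ((C i).V.eqn m)
      have h3 : (fun S => aeval (v S i) ((C i).V.eqn m)) = (0 : ∀ S, F S) := by
        funext S
        obtain ⟨P, hP⟩ := hv S i
        rw [← hP]
        exact (C i).on (F S) P m
      rw [h3, map_zero, hsc i _ _ ((C i).V.hom m)] at h2
      exact (mul_eq_zero.1 h2).resolve_left (pow_ne_zero _ (hs i))
    · intro h2
      have h3 := hone i (C i).s0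
      rw [hsc i _ _ (C i).s0_hom, h2, mul_zero] at h3
      refine hψ _ ⟨∅, fun S _ => ?_⟩ h3.symm
      obtain ⟨P, hP⟩ := hv S i
      rw [← hP]
      exact (C i).s0_ne (F S) P
  · intro Φ τ hτ hN h2
    apply hgen Φ ⟨τ, hτ⟩ hN
    have h3 : u0 = fun i => s i • u i := funext hus
    rw [h3, ev_smul hτ, h2, mul_zero]

end fin

end Gen

open Gen in
theorem gen : T_gen := by
  intro K _ n β ι _ _ k e B hirr hind
  let C : ι → Blk K n := fun i => B (e.symm i).1
  obtain ⟨Ω, iΩ, iKΩ, iΩc, u, hu, hgen⟩ := generic C (fun i => hirr _) (fun i => hind _)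
  have h3 : ∀ (b : β) (j : Fin (k b)), ∃ P : (B b).Pt Ω, (B b).vec Ω P = u (e ⟨b, j⟩) := by
    intro b j
    have := hu (e ⟨b, j⟩)
    unfold Pv at this
    simp only [C] at this
    rw [e.symm_apply_apply] at this
    exact this
  choose P hP using h3
  have hcrd : crd e B P = u := by
    funext l
    have h4 := hP (e.symm l).1 (e.symm l).2
    have h5 : e ⟨(e.symm l).1, (e.symm l).2⟩ = l := e.apply_symm_apply l
    rw [h5] at h4
    exact h4
  have hNof : ∀ Φ : MvPolynomial (ι × Fin n) K,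
      (∃ (F : Type) (_ : Field F) (_ : Algebra K F) (Q : ∀ b, Fin (k b) → (B b).Pt F),
        ev Φ (crd e B Q) ≠ 0) → N C Φ := by
    rintro Φ ⟨F, iF, iA, Q, hQ⟩
    exact ⟨F, iF, iA, crd e B Q, fun i => ⟨Q (e.symm i).1 (e.symm i).2, rfl⟩, hQ⟩
  have hz0 : ∀ i, u i (C i).z0 ≠ 0 := by
    have h2 := hgen _ _ (MH_prod Finset.univ _ _ (fun i _ => by
      classical exact MH_X (K := K) i (C i).z0)) (N_z0 C (fun i => hind _)).1
    unfold ev at h2
    rw [map_prod] at h2
    simp only [aeval_X] at h2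
    exact fun i => Finset.prod_ne_zero_iff.1 h2 i (Finset.mem_univ i)
  refine ⟨Ω, iΩ, iKΩ, iΩc, P, ?_, ?_, ?_⟩
  · intro i
    rw [hcrd]
    exact hz0 i
  · rw [hcrd, algebraicIndependent_iff]
    intro q hq
    by_contra hq0
    have h2 := hgen _ _ (MH_hmA C q) (N_hmA C (fun i => hind _) q hq0)
    rw [ev_hmA C q u hz0] at h2
    apply h2
    have h4 : aeval (fun s : (i : ι) × Fin (C i).g => u s.1 ((C s.1).z s.2) / u s.1 (C s.1).z0) q
        = 0 := hq
    rw [h4, mul_zero]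
  · intro Φ τ hτ hN
    rw [hcrd]
    exact hgen Φ τ hτ (hNof Φ hN)

end Pool.Agent.TH954.X
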