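import Pool.Agent.TH954.X.NullX

/-!
# Local estimates for families of forms and for an auxiliary form
-/

set_option autoImplicit false
set_option linter.unusedSectionVars false

open MvPolynomial Pool.Agent.TH954.V

namespace Pool.Agent.TH954.X

/-- `u` represents a point of the closed subset `wq = 0` of a product of projective spaces -/
def OnS {K F : Type} [Field K] [Field F] [Algebra K F] {ι : Type} {n : ℕ} {E : Type}
    (wq : E → MvPolynomial (ι × Fin n) K) (u : ι → Fin n → F) : Prop :=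
  (∀ j, u j ≠ 0) ∧ ∀ i, ev (wq i) u = 0

/-- `t` represents the image of the point `u` under the map given by the family `Fm` -/
def Tg {K F : Type} [Field K] [Field F] [Algebra K F] {ι : Type} {n : ℕ} {κ : Type}
    (Fm : Finset (κ → MvPolynomial (ι × Fin n) K)) (u : ι → Fin n → F) (t : κ → F) :
    Prop :=
  t ≠ 0 ∧ ∀ C ∈ Fm, ∃ s : F, (fun c => ev (C c) u) = s • t

/-- a family of tuples of forms of multidegree `σ` which defines a map on `wq = 0` -/
def IsFam {K : Type} [Field K] {ι : Type} {n : ℕ} {E : Type} {κ : Type}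
    (wq : E → MvPolynomial (ι × Fin n) K)
    (σ : ι → ℕ) (Fm : Finset (κ → MvPolynomial (ι × Fin n) K)) : Prop :=
  (∀ C ∈ Fm, ∀ c, MH σ (C c)) ∧
  ∀ (F : Type) [Field F] [Algebra K F] (u : ι → Fin n → F), OnS wq u →
    ∃ C ∈ Fm, ∃ c, ev (C c) u ≠ 0

/-- conditions on an absolute value and a family of vectors -/
abbrev Cond (K : Type) [Field K] (ι : Type) (n : ℕ) : Type 1 :=
  ∀ (L : Type) [Field L] [Algebra K L], AbsoluteValue L ℝ → (ι → Fin n → L) → Prop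

/-- the local lower bound for a family of forms, under the condition `Un` -/
def LocF {K : Type} [Field K] {ι : Type} [Fintype ι] {n : ℕ} {E : Type} {κ : Type}
    (wq : E → MvPolynomial (ι × Fin n) K) (Un : Cond K ι n)
    (σ : ι → ℕ) (Fm : Finset (κ → MvPolynomial (ι × Fin n) K)) : Prop :=
  ∃ (A : Finset K) (M e : ℕ), 1 ≤ M ∧ ∀ (L : Type) [Field L] [Algebra K L]
      (w : AbsoluteValue L ℝ) (u : ι → Fin n → L), OnS wq u → Un L w u →
      ∀ t : κ → L, Tg Fm u t →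
      ∃ C ∈ Fm, ∃ s : L, (fun c => ev (C c) u) = s • t ∧
        ∏ j, (⨆ c, w (u j c)) ^ σ j ≤ kap A M e w * (w s * ⨆ c, w (t c))

section

variable {K : Type} [Field K] {ι : Type} [Fintype ι] {n : ℕ} {E : Type} [Fintype E]

lemma Tg.exists_ne {F : Type} [Field F] [Algebra K F] {κ : Type}
    {Fm : Finset (κ → MvPolynomial (ι × Fin n) K)}
    {u : ι → Fin n → F} (hu : ∃ C ∈ Fm, ∃ c, ev (C c) u ≠ 0) {t : κ → F} (ht : Tg Fm u t) :
    ∃ C ∈ Fm, ∃ s : F, s ≠ 0 ∧ (fun c => ev (C c) u) = s • t := by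
  obtain ⟨C, hC, c, hc⟩ := hu
  obtain ⟨s, hs⟩ := ht.2 C hC
  refine ⟨C, hC, s, ?_, hs⟩
  rintro rfl
  apply hc
  have := congrFun hs c
  rw [zero_smul] at this
  exact this

/-- Local lower bound for a family of forms without common zero. -/
theorem locF_fam (wq : E → MvPolynomial (ι × Fin n) K) (hw : ∀ i, ∃ δ, MH δ (wq i))
    {κ : Type} [Fintype κ] {σ : ι → ℕ} (Un : Cond K ι n)
    (Fm : Finset (κ → MvPolynomial (ι × Fin n) K)) (hFm : IsFam wq σ Fm) :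
    LocF wq Un σ Fm := by
  classical
  choose ρ hρ using hw
  let e' := Fintype.equivFin (↥Fm × κ)
  obtain ⟨N, hN, t', F, iF, iA, η, hη0, hη1, hη2, hη3⟩ := nullW K wq (fun i => ⟨ρ i, hρ i⟩)
    (fun i => (e'.symm i).1.1 (e'.symm i).2) (fun i => ⟨_, hFm.1 _ (e'.symm i).1.2 _⟩)
  have hempty : Fin t' → False := by
    intro i
    obtain ⟨C, hC, c, hne⟩ := hFm.2 (F i) (η i) ⟨fun j => (hη0 i j).ne_zero, hη1 i⟩
    apply hne
    have := hη2 i (e' (⟨C, hC⟩, c))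
    simpa using this
  have h1 := hη3 1 ⟨_, MH_one⟩ (fun i => (hempty i).elim)
  obtain ⟨A, M, hM1, hA⟩ := locW_null wq ρ hρ (fun i => (e'.symm i).1.1 (e'.symm i).2)
    (fun _ => σ) (fun i => hFm.1 _ (e'.symm i).1.2 _) 1 (fun _ => 0) MH_one N h1
  refine ⟨A, M, 1, hM1, fun L _ _ w u hu _ t ht => ?_⟩
  have h2 := hA L w u hu.1 hu.2
  have h3 : nvW w (fun _ => 0) (1 : MvPolynomial (ι × Fin n) K) u = 1 := by
    simp [nvW, ev]
  rw [h3, one_pow] at h2
  have hM0 : 0 ≤ kap A M 1 w := zero_le_one.trans (one_le_kap A hM1 1 w)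
  have hne : Nonempty (Fin (Fintype.card (↥Fm × κ))) := by
    by_contra hcon
    rw [not_nonempty_iff] at hcon
    rw [Real.iSup_of_isEmpty, mul_zero] at h2
    linarith
  obtain ⟨i, hi⟩ := Finite.exists_max
    (fun i => nvW w σ ((e'.symm i).1.1 (e'.symm i).2) u)
  have h4 : (⨆ i, nvW w σ ((e'.symm i).1.1 (e'.symm i).2) u) ≤
      nvW w σ ((e'.symm i).1.1 (e'.symm i).2) u := ciSup_le hi
  have h5 : 1 ≤ kap A M 1 w * nvW w σ ((e'.symm i).1.1 (e'.symm i).2) u :=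
    h2.trans (mul_le_mul_of_nonneg_left h4 hM0)
  obtain ⟨s, hs⟩ := ht.2 _ (e'.symm i).1.2
  refine ⟨_, (e'.symm i).1.2, s, hs, ?_⟩
  have hpos : 0 < ∏ j, (⨆ c, w (u j c)) ^ σ j :=
    Finset.prod_pos (fun j _ => pow_pos (sup_posW w (hu.1 j)) _)
  have h6 : w (ev ((e'.symm i).1.1 (e'.symm i).2) u) ≤ w s * ⨆ c, w (t c) := by
    have h7 : ev ((e'.symm i).1.1 (e'.symm i).2) u = (s • t) (e'.symm i).2 :=
      congrFun hs (e'.symm i).2
    rw [h7, Pi.smul_apply, smul_eq_mul, w.map_mul]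
    exact mul_le_mul_of_nonneg_left (le_supW w _ _) (w.nonneg _)
  unfold nvW at h5
  rw [← mul_div_assoc, one_le_div hpos] at h5
  exact h5.trans (mul_le_mul_of_nonneg_left h6 hM0)

lemma nvW_mul (L : Type) [Field L] [Algebra K L] (w : AbsoluteValue L ℝ) (σ τ : ι → ℕ)
    (f g : MvPolynomial (ι × Fin n) K) (u : ι → Fin n → L) :
    nvW w (fun j => σ j + τ j) (f * g) u = nvW w σ f u * nvW w τ g u := by
  unfold nvW
  have h1 : ev (f * g) u = ev f u * ev g u := by simp only [ev, map_mul]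
  rw [h1, w.map_mul]
  simp_rw [pow_add]
  rw [Finset.prod_mul_distrib, mul_div_mul_comm]

/-- The local estimate for the auxiliary form. -/
theorem locX_G (wq : E → MvPolynomial (ι × Fin n) K) (hw : ∀ i, ∃ δ, MH δ (wq i)) {s : ℕ}
    (Un : Cond K ι n)
    (f : Fin s → MvPolynomial (ι × Fin n) K)
    (δ : Fin s → ι → ℕ) (hf : ∀ i, MH (δ i) (f i)) {N : ℕ} {t' : ℕ}
    (F : Fin t' → Type) [∀ i, Field (F i)] [∀ i, Algebra K (F i)]
    (η : ∀ i, ι → Fin n → F i)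
    (hη : ∀ S : MvPolynomial (ι × Fin n) K, (∃ σ, MH σ S) → (∀ i, ev S (η i) = 0) →
      ∀ c : ι → Fin n,
        (S * ∏ j, X (j, c j)) ^ N ∈ Ideal.span (Set.range f ∪ Set.range wq))
    {κ : Type} [Fintype κ] {n' : ℕ} (σ : κ → ι → ℕ)
    (Fm : κ → Finset (Fin n' → MvPolynomial (ι × Fin n) K))
    (hMH : ∀ l, ∀ C ∈ Fm l, ∀ c, MH (σ l) (C c))
    (hLoc : ∀ l, LocF wq Un (σ l) (Fm l))
    (S0 : MvPolynomial (ι × Fin n) K) (τ0 : ι → ℕ) (hS0 : MH τ0 S0)
    (hU0 : ∃ (A : Finset K) (M e : ℕ), 1 ≤ M ∧ ∀ (L : Type) [Field L] [Algebra K L]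
      (w : AbsoluteValue L ℝ) (u : ι → Fin n → L), OnS wq u → Un L w u →
      1 ≤ kap A M e w * nvW w τ0 S0 u)
    (G : MvPolynomial (κ × Fin n') K) (d : κ → ℕ) (hd : MH d G)
    (hG : ∀ i, ev S0 (η i) = 0 ∨
      ∃ t : κ → Fin n' → F i, (∀ l, Tg (Fm l) (η i) (t l)) ∧ ev G t = 0) :
    ∃ (A : Finset K) (M e : ℕ), 1 ≤ M ∧ ∀ (L : Type) [Field L] [Algebra K L]
      (w : AbsoluteValue L ℝ) (u : ι → Fin n → L), OnS wq u → Un L w u →
      ∀ t : κ → Fin n' → L, (∀ l, Tg (Fm l) u (t l)) →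
        (w (ev G t) / ∏ l, (⨆ c, w (t l c)) ^ d l) ^ N ≤
          kap A M e w * ⨆ i, nvW w (δ i) (f i) u := by
  classical
  choose A1 M1 e1 hM11 hA1 using hLoc
  choose ρ hρ using hw
  obtain ⟨A0, M0, e0, hM01, hA0⟩ := hU0
  -- the forms attached to a choice
  have h1 : ∀ T : (l : κ) → ↥(Fm l), ∃ (A : Finset K) (M : ℕ), 1 ≤ M ∧
      ∀ (L : Type) [Field L] [Algebra K L]
      (w : AbsoluteValue L ℝ) (u : ι → Fin n → L), OnS wq u →
        (nvW w τ0 S0 u * nvW w (fun j => ∑ l, d l * σ l j) (cmp G (fun l => (T l).1)) u) ^ N ≤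
        kap A M 1 w * ⨆ i, nvW w (δ i) (f i) u := by
    intro T
    have hhomT := MH_cmp hd (fun l => (T l).1) σ (fun l c => hMH l _ (T l).2 c)
    have hhomS := MH_mul hS0 hhomT
    obtain ⟨A, M, hM, hA⟩ := locW_null wq ρ hρ f δ hf _ _ hhomS N (hη _ ⟨_, hhomS⟩ (fun i => by
      have hmul : ev (S0 * cmp G (fun l => (T l).1)) (η i) =
          ev S0 (η i) * ev (cmp G (fun l => (T l).1)) (η i) := by simp only [ev, map_mul]
      rw [hmul]
      rcases hG i with h0 | ⟨t, ht, h0⟩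
      · rw [h0, zero_mul]
      · choose r hr using fun l => (ht l).2 _ (T l).2
        rw [ev_cmp]
        have h3 : (fun (l : κ) (c : Fin n') => ev ((T l).1 c) (η i)) = fun l => r l • t l := by
          funext l
          exact hr l
        rw [h3, ev_smul hd, h0, mul_zero, mul_zero]))
    refine ⟨A, M, hM, fun L _ _ w u hu => ?_⟩
    rw [← nvW_mul]
    exact hA L w u hu.1 hu.2
  choose A2 M2 hM21 hA2 using h1
  obtain ⟨B1, hB1⟩ := kap_prod_le Finset.univ A1 (fun i => M1 i ^ (d i * N))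
    (fun i => e1 i * (d i * N))
  obtain ⟨B2, hB2⟩ := kap_prod_le Finset.univ A2 M2 (fun _ => 1)
  refine ⟨(B1 ∪ B2) ∪ A0, ((∏ i, M1 i ^ (d i * N)) * ∏ T, M2 T) * M0 ^ N,
    ((∑ i, e1 i * (d i * N)) + ∑ _T : ((l : κ) → ↥(Fm l)), 1) + e0 * N, ?_, ?_⟩
  · exact Nat.mul_pos (Nat.mul_pos (Finset.prod_pos (fun i _ => pow_pos (hM11 i) _))
      (Finset.prod_pos (fun T _ => hM21 T))) (pow_pos hM01 _)
  intro L _ _ w u hu hUn t ht
  have hsup0 : 0 ≤ ⨆ i, nvW w (δ i) (f i) u :=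
    Real.iSup_nonneg (fun i => nvW_nonneg _ _ _ _)
  have hk0 : 1 ≤ kap A0 (M0 ^ N) (e0 * N) w := one_le_kap _ (Nat.one_le_pow _ _ hM01) _ _
  have hk1' : 1 ≤ ∏ i, kap (A1 i) (M1 i ^ (d i * N)) (e1 i * (d i * N)) w :=
    one_le_prodR _ (fun i _ => one_le_kap _ (Nat.one_le_pow _ _ (hM11 i)) _ _)
  have hk2' : 1 ≤ ∏ T, kap (A2 T) (M2 T) 1 w :=
    one_le_prodR _ (fun T _ => one_le_kap _ (hM21 T) _ _)
  have hcomb : (∏ i, kap (A1 i) (M1 i ^ (d i * N)) (e1 i * (d i * N)) w) *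
      (∏ T, kap (A2 T) (M2 T) 1 w) * kap A0 (M0 ^ N) (e0 * N) w ≤
      kap ((B1 ∪ B2) ∪ A0) (((∏ i, M1 i ^ (d i * N)) * ∏ T, M2 T) * M0 ^ N)
        (((∑ i, e1 i * (d i * N)) + ∑ _T : ((l : κ) → ↥(Fm l)), 1) + e0 * N) w := by
    refine le_trans ?_ (kap_mul_le (B1 ∪ B2) A0 _ _ _ _ w)
    refine mul_le_mul_of_nonneg_right ?_ (zero_le_one.trans hk0)
    refine le_trans ?_ (kap_mul_le B1 B2 _ _ _ _ w)
    exact mul_le_mul (hB1 L w) (hB2 L w) (zero_le_one.trans hk2')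
      (zero_le_one.trans (hk1'.trans (hB1 L w)))
  refine le_trans ?_ (mul_le_mul_of_nonneg_right hcomb hsup0)
  choose T0 hT0 r hr1 hr2 using fun l => hA1 l L w u hu hUn (t l) (ht l)
  set T : (l : κ) → ↥(Fm l) := fun l => ⟨T0 l, hT0 l⟩ with hT
  set g : L := ev G t with hg
  set ww : κ → ℝ := fun l => ⨆ c, w (t l c) with hww
  set Q : ι → ℝ := fun j => ⨆ c, w (u j c) with hQ
  have hw0 : ∀ l, 0 < ww l := fun l => sup_posW w (ht l).1
  have hQ0 : ∀ j, 0 < Q j := fun j => sup_posW w (hu.1 j)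
  have hk2 : ∀ T, 1 ≤ kap (A2 T) (M2 T) 1 w := fun T => one_le_kap _ (hM21 T) _ _
  -- value of the form attached to `T`
  have h3 : ev (cmp G (fun l => (T l).1)) u = (∏ l, r l ^ d l) * g := by
    rw [ev_cmp]
    have h3 : (fun (l : κ) (c : Fin n') => ev ((T l).1 c) u) = fun l => r l • t l := by
      funext l
      exact hr1 l
    rw [h3, ev_smul hd]
  have h4 : nvW w (fun j => ∑ l, d l * σ l j) (cmp G (fun l => (T l).1)) u =
      (∏ l, w (r l) ^ d l) * w g / ∏ l, (∏ j, Q j ^ σ l j) ^ d l := by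
    unfold nvW
    rw [h3, w.map_mul, w.map_prod]
    simp_rw [w.map_pow]
    congr 1
    rw [show (∏ j, (⨆ c, w (u j c)) ^ (∑ l, d l * σ l j)) =
      ∏ j, Q j ^ (∑ l, d l * σ l j) from rfl]
    have : ∀ l, (∏ j, Q j ^ σ l j) ^ d l = ∏ j, Q j ^ (d l * σ l j) := by
      intro l
      rw [← Finset.prod_pow]
      refine Finset.prod_congr rfl (fun j _ => ?_)
      rw [← pow_mul, mul_comm]
    simp_rw [this]
    rw [Finset.prod_comm]
    refine Finset.prod_congr rfl (fun j _ => ?_)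
    rw [Finset.prod_pow_eq_pow_sum]
  have h5 : w g / ∏ l, ww l ^ d l ≤ (∏ l, kap (A1 l) (M1 l) (e1 l) w ^ d l) *
      nvW w (fun j => ∑ l, d l * σ l j) (cmp G (fun l => (T l).1)) u := by
    rw [h4]
    have hA0 : 0 < ∏ l, ww l ^ d l := Finset.prod_pos (fun l _ => pow_pos (hw0 l) _)
    have hB0 : 0 < ∏ l, (∏ j, Q j ^ σ l j) ^ d l := Finset.prod_pos
      (fun i _ => pow_pos (Finset.prod_pos (fun j _ => pow_pos (hQ0 j) _)) _)
    rw [← mul_div_assoc, div_le_div_iff₀ hA0 hB0]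
    have h6 : ∏ l, (∏ j, Q j ^ σ l j) ^ d l ≤
        (∏ l, kap (A1 l) (M1 l) (e1 l) w ^ d l) *
          ((∏ l, w (r l) ^ d l) * ∏ l, ww l ^ d l) := by
      rw [← Finset.prod_mul_distrib, ← Finset.prod_mul_distrib]
      refine Finset.prod_le_prod (fun i _ => pow_nonneg (Finset.prod_nonneg
        (fun j _ => pow_nonneg (hQ0 j).le _)) _) (fun i _ => ?_)
      rw [← mul_pow, ← mul_pow]
      exact pow_le_pow_left₀ (Finset.prod_nonneg (fun j _ => pow_nonneg (hQ0 j).le _)) (hr2 i) _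
    calc w g * ∏ l, (∏ j, Q j ^ σ l j) ^ d l ≤
          w g * ((∏ l, kap (A1 l) (M1 l) (e1 l) w ^ d l) *
            ((∏ l, w (r l) ^ d l) * ∏ l, ww l ^ d l)) :=
          mul_le_mul_of_nonneg_left h6 (w.nonneg _)
      _ = _ := by ring
  have h7 : 0 ≤ w g / ∏ l, ww l ^ d l := div_nonneg (w.nonneg _)
    (Finset.prod_nonneg (fun l _ => pow_nonneg (hw0 l).le _))
  have h8 : nvW w (fun j => ∑ l, d l * σ l j) (cmp G (fun l => (T l).1)) u ^ N ≤
      kap A0 (M0 ^ N) (e0 * N) w *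
        (nvW w τ0 S0 u * nvW w (fun j => ∑ l, d l * σ l j) (cmp G (fun l => (T l).1)) u) ^ N := by
    rw [← kap_pow, ← mul_pow]
    refine pow_le_pow_left₀ (nvW_nonneg _ _ _ _) ?_ N
    rw [← mul_assoc]
    exact le_mul_of_one_le_left (nvW_nonneg _ _ _ _) (hA0 L w u hu hUn)
  calc (w g / ∏ l, ww l ^ d l) ^ N ≤ ((∏ l, kap (A1 l) (M1 l) (e1 l) w ^ d l) *
      nvW w (fun j => ∑ l, d l * σ l j) (cmp G (fun l => (T l).1)) u) ^ N :=
        pow_le_pow_left₀ h7 h5 N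
    _ = (∏ i, kap (A1 i) (M1 i ^ (d i * N)) (e1 i * (d i * N)) w) *
      nvW w (fun j => ∑ l, d l * σ l j) (cmp G (fun l => (T l).1)) u ^ N := by
        rw [mul_pow, ← Finset.prod_pow]
        simp_rw [← pow_mul, kap_pow]
    _ ≤ (∏ i, kap (A1 i) (M1 i ^ (d i * N)) (e1 i * (d i * N)) w) *
          (kap A0 (M0 ^ N) (e0 * N) w * (kap (A2 T) (M2 T) 1 w * ⨆ i, nvW w (δ i) (f i) u)) := by
        refine mul_le_mul_of_nonneg_left (h8.trans
          (mul_le_mul_of_nonneg_left (hA2 T L w u hu) (zero_le_one.trans hk0)))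
          (zero_le_one.trans hk1')
    _ ≤ (∏ i, kap (A1 i) (M1 i ^ (d i * N)) (e1 i * (d i * N)) w) *
          (kap A0 (M0 ^ N) (e0 * N) w *
            ((∏ T, kap (A2 T) (M2 T) 1 w) * ⨆ i, nvW w (δ i) (f i) u)) := by
        refine mul_le_mul_of_nonneg_left (mul_le_mul_of_nonneg_left
          (mul_le_mul_of_nonneg_right ?_ hsup0) (zero_le_one.trans hk0))
          (zero_le_one.trans hk1')
        rw [← Finset.mul_prod_erase Finset.univ (fun T => kap (A2 T) (M2 T) 1 w)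
          (Finset.mem_univ T)]
        exact le_mul_of_one_le_right (zero_le_one.trans (hk2 T))
          (one_le_prodR _ (fun T _ => hk2 T))
    _ = _ := by ring

end

end Pool.Agent.TH954.X
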