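import Pool.Agent.TH954.X.Defs

/-!
# Monomials in algebraically independent coordinates
-/

set_option autoImplicit false
set_option linter.unusedSectionVars false

open MvPolynomial

namespace Pool.Agent.TH954.X

lemma BoxX.ev_expand {K F : Type} [Field K] [Field F] [Algebra K F] {ι : Type} [Fintype ι] {n : ℕ}
    (f : MvPolynomial (ι × Fin n) K) (u : ι → Fin n → F) :
    ev f u = ∑ m ∈ f.support, algebraMap K F (coeff m f) * ∏ p, u p.1 p.2 ^ m p := by
  unfold ev
  rw [aeval_def, eval₂_eq']

theorem boxX : T_boxX := by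
  classical
  intro K _ ι _ n g z0 z hz hz0 d
  -- the exponent attached to an element of the box
  let Box := (l : ι) → Fin (g l) → Fin (d l + 1)
  let ex : Box → ι × Fin n → ℕ := fun a p =>
    (∑ i, if z p.1 i = p.2 then (a p.1 i : ℕ) else 0) +
      if p.2 = z0 p.1 then g p.1 * d p.1 - ∑ i, (a p.1 i : ℕ) else 0
  let toE : Box → (ι × Fin n →₀ ℕ) := fun a => Finsupp.equivFunOnFinite.symm (ex a)
  have hexz : ∀ (a : Box) l i, ex a (l, z l i) = a l i := by
    intro a l i
    simp only [ex]
    rw [if_neg (hz0 l i), add_zero, Finset.sum_eq_single i]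
    · simp
    · intro j _ hj
      rw [if_neg (fun h => hj (hz l h))]
    · simp
  have hsumle : ∀ (a : Box) l, ∑ i, (a l i : ℕ) ≤ g l * d l := by
    intro a l
    calc ∑ i, (a l i : ℕ) ≤ ∑ _i : Fin (g l), d l :=
          Finset.sum_le_sum (fun i _ => Nat.lt_succ_iff.mp (a l i).2)
      _ = g l * d l := by simp
  have htoEinj : Function.Injective toE := by
    intro a b hab
    have h1 : ex a = ex b := Finsupp.equivFunOnFinite.symm.injective hab
    funext l i
    apply Fin.ext
    rw [← hexz a l i, ← hexz b l i, h1]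
  have hsum : ∀ (a : Box) l, ∑ c, ex a (l, c) = g l * d l := by
    intro a l
    have e0 : ∀ c, ex a (l, c) = (∑ i : Fin (g l), if z l i = c then (a l i : ℕ) else 0) +
        if c = z0 l then g l * d l - ∑ i : Fin (g l), (a l i : ℕ) else 0 := fun c => rfl
    rw [Finset.sum_congr rfl (fun c _ => e0 c), Finset.sum_add_distrib, Finset.sum_comm]
    have h1 : ∑ i : Fin (g l), ∑ c : Fin n, (if z l i = c then (a l i : ℕ) else 0) =
        ∑ i, (a l i : ℕ) := by
      refine Finset.sum_congr rfl (fun i _ => ?_)
      rw [Finset.sum_ite_eq]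
      simp
    rw [h1, Finset.sum_ite_eq']
    simp only [Finset.mem_univ, if_true]
    have := hsumle a l
    omega
  refine ⟨Finset.univ.image toE, ?_, ?_, ?_⟩
  · intro e he l
    obtain ⟨a, -, rfl⟩ := Finset.mem_image.mp he
    exact hsum a l
  · rw [Finset.card_image_of_injective _ htoEinj, Finset.card_univ]
    simp only [Box, Fintype.card_pi, Fintype.card_fin, Finset.prod_const, Finset.card_univ]
  · intro G hG0 hGs Ω _ _ t ht hind
    -- the polynomial in the ratios
    let toH : Box → (((i : ι) × Fin (g i)) →₀ ℕ) := fun a =>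
      Finsupp.equivFunOnFinite.symm (fun p => (a p.1 p.2 : ℕ))
    have htoHinj : Function.Injective toH := by
      intro a b hab
      have h1 := Finsupp.equivFunOnFinite.symm.injective hab
      funext l i
      apply Fin.ext
      exact congrFun h1 (⟨l, i⟩ : (i : ι) × Fin (g i))
    set H : MvPolynomial ((i : ι) × Fin (g i)) K :=
      ∑ a : Box, coeff (toE a) G • monomial (toH a) (1 : K) with hH
    have hcoeff : ∀ a : Box, coeff (toH a) H = coeff (toE a) G := by
      intro a
      rw [hH, coeff_sum, Finset.sum_eq_single a]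
      · rw [coeff_smul, coeff_monomial, if_pos rfl, smul_eq_mul, mul_one]
      · intro b _ hne
        rw [coeff_smul, coeff_monomial, if_neg (fun h => hne (htoHinj h)), smul_zero]
      · intro h
        exact absurd (Finset.mem_univ _) h
    have hH0 : H ≠ 0 := by
      intro h0
      obtain ⟨e, he⟩ := MvPolynomial.support_nonempty.mpr hG0
      obtain ⟨a, -, rfl⟩ := Finset.mem_image.mp (hGs he)
      rw [mem_support_iff, ← hcoeff a, h0, coeff_zero] at he
      exact he rfl
    have hmon : ∀ a : Box, ∏ p, t p.1 p.2 ^ (toE a) p =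
        (∏ l, t l (z0 l) ^ (g l * d l)) *
          ∏ p : (i : ι) × Fin (g i), (t p.1 (z p.1 p.2) / t p.1 (z0 p.1)) ^ (toH a) p := by
      intro a
      change ∏ p : ι × Fin n, t p.1 p.2 ^ ex a p = (∏ l, t l (z0 l) ^ (g l * d l)) *
        ∏ p : (i : ι) × Fin (g i), (t p.1 (z p.1 p.2) / t p.1 (z0 p.1)) ^ (a p.1 p.2 : ℕ)
      rw [Fintype.prod_prod_type, Fintype.prod_sigma, ← Finset.prod_mul_distrib]
      refine Finset.prod_congr rfl (fun l _ => ?_)
      simp only [ex]
      simp_rw [pow_add]
      rw [Finset.prod_mul_distrib]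
      have h1 : ∏ c : Fin n, t l c ^ (∑ i, if z l i = c then (a l i : ℕ) else 0) =
          ∏ i, t l (z l i) ^ (a l i : ℕ) := by
        simp_rw [← Finset.prod_pow_eq_pow_sum]
        rw [Finset.prod_comm]
        refine Finset.prod_congr rfl (fun i _ => ?_)
        rw [Finset.prod_eq_single (z l i)]
        · simp
        · intro c _ hc
          rw [if_neg (Ne.symm hc), pow_zero]
        · simp
      have h2 : ∏ c : Fin n, t l c ^ (if c = z0 l then g l * d l - ∑ i, (a l i : ℕ) else 0) =
          t l (z0 l) ^ (g l * d l - ∑ i, (a l i : ℕ)) := by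
        rw [Finset.prod_eq_single (z0 l)]
        · simp
        · intro c _ hc
          rw [if_neg hc, pow_zero]
        · simp
      rw [h1, h2]
      simp_rw [div_pow]
      rw [Finset.prod_div_distrib, Finset.prod_pow_eq_pow_sum]
      have h3 : t l (z0 l) ^ (g l * d l) = t l (z0 l) ^ (g l * d l - ∑ i, (a l i : ℕ)) *
          t l (z0 l) ^ (∑ i, (a l i : ℕ)) := by
        rw [← pow_add]
        congr 1
        have := hsumle a l
        omega
      rw [h3]
      have h4 : t l (z0 l) ^ (∑ i, (a l i : ℕ)) ≠ 0 := pow_ne_zero _ (ht l)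
      field_simp
    have hevG : ev G t = (∏ l, t l (z0 l) ^ (g l * d l)) *
        aeval (fun p : (i : ι) × Fin (g i) => t p.1 (z p.1 p.2) / t p.1 (z0 p.1)) H := by
      rw [BoxX.ev_expand]
      rw [Finset.sum_subset hGs (fun e _ he => by
        rw [notMem_support_iff.mp he, map_zero, zero_mul])]
      rw [Finset.sum_image (fun a _ b _ h => htoEinj h), hH, map_sum, Finset.mul_sum]
      refine Finset.sum_congr rfl (fun a _ => ?_)
      rw [hmon a, map_smul, aeval_monomial, map_one, one_mul, Algebra.smul_def]
      rw [Finsupp.prod_fintype _ _ (fun _ => pow_zero _)]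
      ring
    rw [hevG]
    refine mul_ne_zero (Finset.prod_ne_zero_iff.mpr (fun l _ => pow_ne_zero _ (ht l))) ?_
    intro h0
    exact hH0 ((injective_iff_map_eq_zero _).mp hind H h0)

end Pool.Agent.TH954.X
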