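import Pool.Agent.TH954.X.MainX

/-!
# The main theorem for products of blocks, for points near points of small rank
-/

set_option autoImplicit false
set_option linter.unusedSectionVars false

open MvPolynomial NumberField Height Pool.Agent.TH954.V

namespace Pool.Agent.TH954.X

/-- conditions on tuples of points, depending on two real parameters -/
abbrev RkC {K : Type} [Field K] {n : ℕ} (B : Blk K n) (k : ℕ) : Type 1 :=
  ∀ (_ : ℝ) (L : Type) [Field L] [NumberField L] [Algebra K L] (_ : ℝ), (Fin k → B.Pt L) → Prop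

/-- the facts needed about `k` copies of the variety `B`, for tuples of points with the property
`rk` (near points of rank at most `r`): for every `ε` and every large `T` a finite set `I` of choices
of `k` maps `B ^ k → B` and `k` degrees -/
def BlkOK2 {K : Type} [Field K] [NumberField K] {n : ℕ} (B : Blk K n) (k r : ℕ)
    (rk : RkC B k) (Un : Cond K (Fin k) n) : Prop :=
  ∀ ε : ℝ, 0 < ε → ∃ (c : ℝ) (C1 : ℕ), 0 < c ∧ ∀ T : ℝ, 1 ≤ T →
    ∃ (I : Type) (_ : Fintype I) (d : I → Fin k → ℕ) (σ : I → Fin k → Fin k → ℕ)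
      (Fam : I → Fin k → Finset (Fin n → MvPolynomial (Fin k × Fin n) K))
      (map : I → Fin k → ∀ (F : Type) [Field F] [Algebra K F], (Fin k → B.Pt F) → B.Pt F),
      (∀ i l, ∀ C ∈ Fam i l, ∀ c, MH (σ i l) (C c)) ∧
      (∀ i l (F : Type) [Field F] [Algebra K F] (P : Fin k → B.Pt F),
        (∀ C ∈ Fam i l, ∃ s : F, (fun c => ev (C c) (fun j => B.vec F (P j))) =
          s • B.vec F (map i l F P)) ∧
        ∃ C ∈ Fam i l, ∃ c, ev (C c) (fun j => B.vec F (P j)) ≠ 0) ∧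
      (∀ i l, LocF (wqX (fun _ : Fin k => B.V)) Un (σ i l) (Fam i l)) ∧
      (∀ i, ∑ l, (d i l : ℝ) * ∑ j, (σ i l j : ℝ) ≤ C1 * T) ∧
      (∀ i (Ω : Type) [Field Ω] [Algebra K Ω] [IsAlgClosed Ω] (P : Fin k → B.Pt Ω),
        ∃ Q : Fin k → B.Pt Ω, ∀ l, map i l Ω Q = P l) ∧
      (∀ i, c * T ^ k ≤ T ^ r * ∏ l, ((d i l : ℝ) + 1)) ∧
      ∃ δ : ℝ, 0 < δ ∧ ∃ C : ℝ, 0 ≤ C ∧ ∀ (L : Type) [Field L] [NumberField L] [Algebra K L]
        (P : Fin k → B.Pt L) (H : ℝ), (Module.finrank ℚ L : ℝ) ≤ H →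
        ∑ j, logHeight (B.vec L (P j)) ≤ H → rk δ L H P →
        ∃ i, ∑ l, (d i l : ℝ) * logHeight (B.vec L (map i l L P)) ≤
          ε * H + C * Module.finrank ℚ L

/-- near points of rank at most `r` -/
def AbR.rk2 {K : Type} [Field K] {n : ℕ} (A : AbR K n) (k r : ℕ) : RkC A.blk k :=
  fun δ L _ _ _ H P => ∃ P' : Fin k → A.Pt L, A.rk k r L P' ∧
    ∑ j, logHeight ((show A.Pt L from P j) - P' j).1 ≤ δ * H

/-- near points of rank at most `r` -/
def trk2 (K : Type) [Field K] (n : ℕ) (hn : 2 ≤ n) (k r : ℕ) : RkC (tblk K n hn) k :=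
  fun δ L _ _ _ H x => ∃ x' : Fin k → Lˣ, trk K k r L x' ∧
    ∑ j, logHeight (tvec n (((show Lˣ from x j) / x' j : Lˣ) : L)) ≤ δ * H

/-- **Target.** The torus. -/
def T_blkT2 : Prop := ∀ (K : Type) [Field K] [NumberField K] (n : ℕ) (hn : 2 ≤ n) (k r : ℕ)
  (S : Finset K), BlkOK2 (tblk K n hn) k r (trk2 K n hn k r) (tUn K n hn k S)

/-- **Target.** Powers of abelian varieties. -/
def T_blkA2 : Prop := ∀ (K : Type) [Field K] [NumberField K] (n : ℕ) (A : AbR K n) (k r : ℕ),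
  BlkOK2 A.blk k r (A.rk2 k r) (fun _ _ _ _ _ => True)

open Classical in
theorem main2 {K : Type} [Field K] [NumberField K] {n : ℕ} {β ι : Type} [Fintype β] [Fintype ι]
    {k : β → ℕ} (e : ((b : β) × Fin (k b)) ≃ ι) (B : β → Blk K n) (r : β → ℕ)
    (rk : ∀ b, RkC (B b) (k b))
    (Un : ∀ b, Cond K (Fin (k b)) n)
    (hmono : ∀ b (δ δ' : ℝ) (L : Type) [Field L] [NumberField L] [Algebra K L] (H : ℝ)
      (P : Fin (k b) → (B b).Pt L), δ ≤ δ' → 0 ≤ H → rk b δ L H P → rk b δ' L H P)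
    (hB : ∀ b, BlkOK2 (B b) (k b) (r b) (rk b) (Un b)) (hU : ∀ b, UnOK (B b) (k b) (Un b))
    (hbox : T_boxX) (hgen : GenX e B) (y : ℕ)
    (hy : y + ∑ b, r b * (B b).g < ∑ b, k b * (B b).g) {s : ℕ}
    (f : Fin s → MvPolynomial (ι × Fin n) K) (δ : Fin s → ι → ℕ)
    (hf : ∀ i, MH (δ i) (f i))
    (hdim : ∀ (F : Type) [Field F] [Algebra K F] (η : ∀ b, Fin (k b) → (B b).Pt F),
      (∀ i, ev (f i) (crd e B η) = 0) →
      Algebra.trdeg K (IntermediateField.adjoin K
        (Set.range (fun p : ι × Fin n => crd e B η p.1 p.2))) ≤ (y : Cardinal))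
    (ε : ℝ) (hε : 0 < ε) :
    ∃ (Φ : MvPolynomial (ι × Fin n) K) (τ : ι → ℕ), MH τ Φ ∧
      (∃ (F : Type) (_ : Field F) (_ : Algebra K F) (P : ∀ b, Fin (k b) → (B b).Pt F),
        ev Φ (crd e B P) ≠ 0) ∧
      ∃ δ0 : ℝ, 0 < δ0 ∧ ∃ C : ℝ, ∀ (L : Type) [Field L] [NumberField L] [Algebra K L]
        (P : ∀ b, Fin (k b) → (B b).Pt L),
        (∀ b, rk b δ0 L (Module.finrank ℚ L + ∑ i, logHeight (crd e B P i)) (P b)) →
        ev Φ (crd e B P) ≠ 0 →
        (∀ w : AbsoluteValue L ℝ, UnX e Un L w (crd e B P) → ∃ i, ev (f i) (crd e B P) ≠ 0) ∧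
        FS (fun w : AbsoluteValue L ℝ => if UnX e Un L w (crd e B P) then
          -Real.log (⨆ i, nvW w (δ i) (f i) (crd e B P)) else 0) ∧
        hYX (UnX e Un) f δ (crd e B P) ≤
          ε * ∑ i, logHeight (crd e B P i) + C * Module.finrank ℚ L := by
  -- the Nullstellensatz
  obtain ⟨N, hN, t', F, iF, iA, η, hη0, hη1, hη2, hη3⟩ := nullW K (wqX (VX e B))
    (wqX_MH _) f (fun i => ⟨δ i, hf i⟩)
  have hOnη : ∀ i, OnS (wqX (VX e B)) (η i) := fun i => ⟨fun j => (hη0 i j).ne_zero, hη1 i⟩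
  -- the points outside the zero set of the product of the forms `s0`
  have hpt : ∀ i : Fin t', ev (S0X e B) (η i) ≠ 0 →
      ∃ P : ∀ b, Fin (k b) → (B b).Pt (F i), crd e B P = η i := by
    intro i hi
    have h1 : ∀ l : ι, ∀ m : Fin (B (e.symm l).1).V.e,
        aeval (η i l) ((B (e.symm l).1).V.eqn m) = 0 := by
      intro l m
      have h2 := (hOnη i).2 ⟨l, m⟩
      unfold wqX at h2
      rw [ev_rename] at h2
      exact h2
    have h2 : ∀ l : ι, ∃ P : (B (e.symm l).1).Pt (F i), (B (e.symm l).1).vec (F i) P = η i l := by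
      intro l
      refine ((B (e.symm l).1).s0_pt (F i) (η i l) (hη0 i l) (h1 l)).resolve_left ?_
      rw [ev_S0X] at hi
      exact Finset.prod_ne_zero_iff.mp hi l (Finset.mem_univ _)
    have h3 : ∀ (b : β) (j : Fin (k b)), ∃ P : (B b).Pt (F i),
        (B b).vec (F i) P = η i (e ⟨b, j⟩) := by
      intro b j
      have := h2 (e ⟨b, j⟩)
      rw [e.symm_apply_apply] at this
      exact this
    choose P hP using h3
    refine ⟨P, ?_⟩
    funext l
    have h4 := hP (e.symm l).1 (e.symm l).2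
    have h5 : e ⟨(e.symm l).1, (e.symm l).2⟩ = l := e.apply_symm_apply l
    rw [h5] at h4
    exact h4
  let τS := {i : Fin t' // ev (S0X e B) (η i) ≠ 0}
  choose Pη hPη using fun i : τS => hpt i.1 i.2
  obtain ⟨c, hc, hcount⟩ := countX (y := y) (fun i : τS => F i.1) (fun i : τS => η i.1)
    (fun i => by
      have h1 := hdim (F i.1) (Pη i) (fun l => by rw [hPη]; exact hη2 i.1 l)
      rw [hPη] at h1
      exact h1)
  -- constants
  have hN0 : (0 : ℝ) < N := by exact_mod_cast hN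
  set Gs : ℝ := 1 + ∑ b, ((B b).g : ℝ) with hGs
  have hGs1 : 1 ≤ Gs := by
    have : 0 ≤ ∑ b, ((B b).g : ℝ) := Finset.sum_nonneg (fun _ _ => Nat.cast_nonneg _)
    linarith
  have hGs0 : 0 < Gs := by linarith
  set ε' : ℝ := ε / (N * Gs) with hε'
  have hε'0 : 0 < ε' := by positivity
  choose cb C1 hcb hB1 using fun b => hB b ε' hε'0
  set c2 : ℝ := ∑ b, ((B b).g : ℝ) * C1 b with hc2
  have hc20 : 0 ≤ c2 := Finset.sum_nonneg (fun b _ => by positivity)
  set c3 : ℝ := ∏ b, cb b ^ (B b).g with hc3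
  have hc30 : 0 < c3 := Finset.prod_pos (fun b _ => pow_pos (hcb b) _)
  obtain ⟨T, hT1, hT2⟩ := exists_T y c c3 c2 (Nat.cast_nonneg _) hc30 hc20
  have hT0 : 0 < T := by linarith
  choose I iI d σ Fam map hMH hrep hLoc hdeg hsol hprod δb hδb CT hCT0 hCT using
    fun b => hB1 b T hT1
  -- the data attached to a choice `p`
  let κd : (∀ b, I b) → ι → ℕ := fun p l => d (e.symm l).1 (p (e.symm l).1) (e.symm l).2
  let κg : ι → ℕ := fun l => (B (e.symm l).1).g
  let κσ : (∀ b, I b) → ι → ι → ℕ := fun p l =>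
    embd e (e.symm l).1 (σ (e.symm l).1 (p (e.symm l).1) (e.symm l).2)
  let κF : (∀ b, I b) → ι → Finset (Fin n → MvPolynomial (ι × Fin n) K) := fun p l =>
    embF e (e.symm l).1 (Fam (e.symm l).1 (p (e.symm l).1) (e.symm l).2)
  let κm : (∀ b, I b) → ∀ (F : Type) [Field F] [Algebra K F],
      (∀ b, Fin (k b) → (B b).Pt F) → ι → Fin n → F := fun p F _ _ P =>
    crd e B (fun b j => map b (p b) j F (P b))
  have hκMH : ∀ p l, ∀ C ∈ κF p l, ∀ c, MH (κσ p l) (C c) := by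
    intro p l C hC c
    obtain ⟨C', hC', rfl⟩ := Finset.mem_image.mp hC
    exact emb_MH e _ (hMH _ _ _ C' hC' c)
  have hκTg : ∀ p l (F : Type) [Field F] [Algebra K F] (P : ∀ b, Fin (k b) → (B b).Pt F),
      Tg (κF p l) (crd e B P) (κm p F P l) := by
    intro p l F _ _ P
    refine (Tg_embF e _ _ _ _).mpr ⟨?_, ?_⟩
    · exact ((B (e.symm l).1).normed F _).ne_zero
    · have h1 := (hrep (e.symm l).1 (p _) (e.symm l).2 F (P (e.symm l).1)).1
      have h2 : (fun j => crd e B P (e ⟨(e.symm l).1, j⟩)) =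
          fun j => (B (e.symm l).1).vec F (P (e.symm l).1 j) := by
        funext j
        exact crd_apply e B P _ j
      rw [h2]
      exact h1
  have hκne : ∀ p l (F : Type) [Field F] [Algebra K F] (P : ∀ b, Fin (k b) → (B b).Pt F),
      ∃ C ∈ κF p l, ∃ c, ev (C c) (crd e B P) ≠ 0 := by
    intro p l F _ _ P
    obtain ⟨C, hC, c, hc⟩ := (hrep (e.symm l).1 (p _) (e.symm l).2 F (P (e.symm l).1)).2
    refine ⟨_, Finset.mem_image_of_mem _ hC, c, ?_⟩
    rw [ev_emb]
    have h2 : (fun j => crd e B P (e ⟨(e.symm l).1, j⟩)) =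
        fun j => (B (e.symm l).1).vec F (P (e.symm l).1 j) := by
      funext j
      exact crd_apply e B P _ j
    rw [h2]
    exact hc
  have hκLoc : ∀ p l, LocF (wqX (VX e B)) (UnX e Un) (κσ p l) (κF p l) := fun p l =>
    LocF_embF e B Un _ _ _ (hLoc _ _ _)
  -- the generic point
  obtain ⟨Ω, iΩ, iAΩ, iCΩ, P0, hP0z, hP0ind, hP0gen⟩ := hgen
  have hz : ∀ i : ι, Function.Injective (B (e.symm i).1).z := by
    intro i a b hab
    have hinj := hP0ind.injective
    have h1 : (⟨i, a⟩ : (i : ι) × Fin (B (e.symm i).1).g) = ⟨i, b⟩ := hinj (by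
      simp only [hab])
    simpa using h1
  have hz0 : ∀ (i : ι) (a : Fin (B (e.symm i).1).g),
      (B (e.symm i).1).z a ≠ (B (e.symm i).1).z0 := by
    intro i a ha
    have h1 : crd e B P0 i ((B (e.symm i).1).z a) / crd e B P0 i (B (e.symm i).1).z0 = 1 := by
      rw [ha]
      exact div_self (hP0z i)
    have h2 := hP0ind.transcendental ⟨i, a⟩
    simp only at h2
    rw [h1] at h2
    exact h2 isAlgebraic_one
  choose Bx hBx1 hBx2 hBx3 using fun dd : ι → ℕ => hbox K ι n κg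
    (fun i => (B (e.symm i).1).z0) (fun i => (B (e.symm i).1).z) hz hz0 dd
  -- counting
  have hcnt : ∀ p, c * (1 + ∑ l, κg l * κd p l * ∑ j, κσ p l j) ^ y <
      ∏ l, (κd p l + 1) ^ κg l := by
    intro p
    have h1 : ∑ l, (κg l : ℝ) * κd p l * ∑ j, (κσ p l j : ℝ) ≤ c2 * T := by
      have h2 : ∀ l, ∑ j, (κσ p l j : ℝ) =
          ∑ j, (σ (e.symm l).1 (p (e.symm l).1) (e.symm l).2 j : ℝ) := by
        intro l
        have := sum_embd e (e.symm l).1 (σ (e.symm l).1 (p (e.symm l).1) (e.symm l).2)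
        exact_mod_cast this
      simp_rw [h2]
      have h3 := Equiv.sum_comp e.symm (fun x : (b : β) × Fin (k b) =>
        ((B x.1).g : ℝ) * d x.1 (p x.1) x.2 * ∑ j, (σ x.1 (p x.1) x.2 j : ℝ))
      refine (le_of_eq h3).trans ?_
      rw [Fintype.sum_sigma, hc2, Finset.sum_mul]
      refine Finset.sum_le_sum (fun b _ => ?_)
      have h4 := mul_le_mul_of_nonneg_left (hdeg b (p b)) (Nat.cast_nonneg (α := ℝ) (B b).g)
      refine le_trans (le_of_eq ?_) (h4.trans (le_of_eq (by ring)))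
      rw [Finset.mul_sum]
      exact Finset.sum_congr rfl (fun j _ => by ring)
    have h5 : c3 * T ^ (y + 1) ≤ ∏ l, ((κd p l : ℝ) + 1) ^ κg l := by
      have h6 : ∏ b, (cb b * T ^ k b) ^ (B b).g ≤
          ∏ b, (T ^ r b * ∏ l, ((d b (p b) l : ℝ) + 1)) ^ (B b).g := by
        refine Finset.prod_le_prod (fun b _ => by have := hcb b; positivity) (fun b _ => ?_)
        exact pow_le_pow_left₀ (by have := hcb b; positivity) (hprod b (p b)) _
      have h7 : ∏ b, (cb b * T ^ k b) ^ (B b).g = c3 * T ^ (∑ b, k b * (B b).g) := by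
        rw [hc3, ← Finset.prod_pow_eq_pow_sum, ← Finset.prod_mul_distrib]
        refine Finset.prod_congr rfl (fun b _ => ?_)
        rw [mul_pow, pow_mul]
      have h8 : ∏ b, (T ^ r b * ∏ l, ((d b (p b) l : ℝ) + 1)) ^ (B b).g =
          T ^ (∑ b, r b * (B b).g) * ∏ l, ((κd p l : ℝ) + 1) ^ κg l := by
        have h9 := Equiv.prod_comp e.symm (fun x : (b : β) × Fin (k b) =>
          ((d x.1 (p x.1) x.2 : ℝ) + 1) ^ (B x.1).g)
        have h10 : ∏ l, ((κd p l : ℝ) + 1) ^ κg l =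
            ∏ b, ∏ j, ((d b (p b) j : ℝ) + 1) ^ (B b).g := by
          rw [← Fintype.prod_sigma (fun x : (b : β) × Fin (k b) =>
            ((d x.1 (p x.1) x.2 : ℝ) + 1) ^ (B x.1).g)]
          exact h9
        rw [h10, ← Finset.prod_pow_eq_pow_sum, ← Finset.prod_mul_distrib]
        refine Finset.prod_congr rfl (fun b _ => ?_)
        rw [mul_pow, pow_mul, Finset.prod_pow]
      rw [h7, h8] at h6
      have h11 : T ^ (∑ b, r b * (B b).g) * (c3 * T ^ (y + 1)) ≤
          c3 * T ^ (∑ b, k b * (B b).g) := by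
        have h12 : T ^ (∑ b, r b * (B b).g + (y + 1)) ≤ T ^ (∑ b, k b * (B b).g) :=
          pow_le_pow_right₀ hT1 (by omega)
        calc T ^ (∑ b, r b * (B b).g) * (c3 * T ^ (y + 1)) =
            c3 * T ^ (∑ b, r b * (B b).g + (y + 1)) := by rw [pow_add]; ring
          _ ≤ _ := mul_le_mul_of_nonneg_left h12 hc30.le
      exact le_of_mul_le_mul_left (h11.trans h6) (pow_pos hT0 _)
    have h13 : (c : ℝ) * (1 + ∑ l, (κg l : ℝ) * κd p l * ∑ j, (κσ p l j : ℝ)) ^ y ≤
        c * (1 + c2 * T) ^ y := by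
      refine mul_le_mul_of_nonneg_left (pow_le_pow_left₀ ?_ (by linarith) y) (Nat.cast_nonneg _)
      exact add_nonneg zero_le_one (Finset.sum_nonneg (fun l _ => by positivity))
    have h14 := (h13.trans_lt hT2).trans_le h5
    exact_mod_cast h14
  -- the auxiliary forms
  have hGex : ∀ p : (∀ b, I b), ∃ G : MvPolynomial (ι × Fin n) K, G ≠ 0 ∧
      G.support ⊆ Bx (κd p) ∧ MH (fun l => κg l * κd p l) G ∧
      ∀ i : τS, ev G (κm p (F i.1) (Pη i)) = 0 := by
    intro p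
    refine hcount ι n (κσ p) (κF p) (hκMH p) (fun i => κm p (F i.1) (Pη i))
      (fun i l => ?_) (fun i l => ?_) (fun l => κg l * κd p l) (Bx (κd p)) (hBx1 (κd p)) ?_
    · have := hκTg p l (F i.1) (Pη i)
      rw [hPη] at this
      exact this
    · have := hκne p l (F i.1) (Pη i)
      rw [hPη] at this
      exact this
    · rw [hBx2]
      exact hcnt p
  choose G hG0 hGs' hGMH hGη using hGex
  -- the global inequality
  choose Cu hCu0 hCu using fun p : (∀ b, I b) => globX (wqX (VX e B)) (UnX e Un) f δ hf (G p)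
    (fun l => κg l * κd p l) (hGMH p) (κF p)
    (locX_G (wqX (VX e B)) (wqX_MH _) (UnX e Un) f δ hf F η hη3 (κσ p) (κF p) (hκMH p)
      (hκLoc p) (S0X e B) _ (S0X_MH e B) (S0X_Un e B Un hU) (G p) (fun l => κg l * κd p l)
      (hGMH p) (fun i => by
        by_cases hi : ev (S0X e B) (η i) = 0
        · exact Or.inl hi
        · right
          refine ⟨κm p (F i) (Pη ⟨i, hi⟩), fun l => ?_, hGη p ⟨i, hi⟩⟩
          have := hκTg p l (F i) (Pη ⟨i, hi⟩)
          rw [hPη ⟨i, hi⟩] at this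
          exact this))
  -- the forms on the product
  have hform : ∀ p : (∀ b, I b), ∃ (Ψ : MvPolynomial (ι × Fin n) K)
      (τ : ι → ℕ), MH τ Ψ ∧ ev Ψ (crd e B P0) ≠ 0 ∧
      ∀ (L : Type) [Field L] [Algebra K L] (P : ∀ b, Fin (k b) → (B b).Pt L),
        ev Ψ (crd e B P) ≠ 0 → ev (G p) (κm p L P) ≠ 0 := by
    intro p
    choose Q hQ using fun b => hsol b (p b) Ω (P0 b)
    choose T0 hT0 ee hee using fun l => hκne p l Ω Q
    have hMH' := MH_cmp (hGMH p) T0 (κσ p) (fun l c => hκMH p _ _ (hT0 l) c)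
    have hval : ∀ (L : Type) [Field L] [Algebra K L] (P : ∀ b, Fin (k b) → (B b).Pt L),
        ∃ rr : ι → L, (∀ l, (fun c => ev (T0 l c) (crd e B P)) = rr l • κm p L P l) ∧
          ev (cmp (G p) T0) (crd e B P) =
          (∏ l, rr l ^ (κg l * κd p l)) * ev (G p) (κm p L P) := by
      intro L _ _ P
      choose rr hrr using fun l => (hκTg p l L P).2 _ (hT0 l)
      refine ⟨rr, hrr, ?_⟩
      rw [ev_cmp]
      have h3 : (fun (l : ι) (c : Fin n) => ev (T0 l c) (crd e B P)) =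
          fun l => rr l • κm p L P l := by
        funext l
        exact hrr l
      rw [h3, ev_smul (hGMH p)]
    refine ⟨cmp (G p) T0, _, hMH', ?_, ?_⟩
    · refine hP0gen _ _ hMH' ⟨Ω, iΩ, iAΩ, Q, ?_⟩
      obtain ⟨rr, hrr, hev⟩ := hval Ω Q
      rw [hev]
      refine mul_ne_zero (Finset.prod_ne_zero_iff.mpr (fun l _ => pow_ne_zero _ ?_)) ?_
      · intro h0
        apply hee l
        have := congrFun (hrr l) (ee l)
        rw [h0, zero_smul] at this
        exact this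
      · have h1 : κm p Ω Q = crd e B P0 := by
          change crd e B (fun b j => map b (p b) j Ω (Q b)) = crd e B P0
          have : (fun b j => map b (p b) j Ω (Q b)) = P0 := by
            funext b j
            exact hQ b j
          rw [this]
        rw [h1]
        exact hBx3 (κd p) (G p) (hG0 p) (hGs' p) Ω (crd e B P0) hP0z hP0ind
    · intro L _ _ P hP hcon
      obtain ⟨rr, hrr, hev⟩ := hval L P
      rw [hev, hcon, mul_zero] at hP
      exact hP rfl
  choose Ψ τ hΨ1 hΨ2 hΨ3 using hform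
  have hevprod : ∀ (L : Type) [Field L] [Algebra K L] (u : ι → Fin n → L),
      ev (∏ p, Ψ p) u = ∏ p, ev (Ψ p) u := by
    intro L _ _ u
    simp only [ev, map_prod]
  refine ⟨∏ p, Ψ p, _, MH_prod Finset.univ τ Ψ (fun p _ => hΨ1 p),
    ⟨Ω, iΩ, iAΩ, P0, ?_⟩, ?_⟩
  · rw [hevprod]
    exact Finset.prod_ne_zero_iff.mpr (fun p _ => hΨ2 p)
  -- the constants
  obtain ⟨δ0, hδ0, hδ0b⟩ : ∃ δ0 : ℝ, 0 < δ0 ∧ ∀ b, δ0 ≤ δb b := by
    rcases isEmpty_or_nonempty β with h | h
    · exact ⟨1, one_pos, fun b => (IsEmpty.false b).elim⟩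
    · obtain ⟨b0, hb0⟩ := Finite.exists_min δb
      exact ⟨δb b0, hδb b0, hb0⟩
  refine ⟨δ0, hδ0, ε + N * ∑ b, ((B b).g : ℝ) * CT b + ∑ p, Cu p,
    fun L _ _ _ P hrk hP => ?_⟩
  rw [hevprod, Finset.prod_ne_zero_iff] at hP
  set DL : ℝ := (Module.finrank ℚ L : ℝ) with hDL
  have hDL0 : 0 ≤ DL := Nat.cast_nonneg _
  have hh0 : ∀ b, 0 ≤ ∑ j, logHeight ((B b).vec L (P b j)) := fun b =>
    Finset.sum_nonneg (fun _ _ => logHeight_nonneg _)
  have h2 : ∑ i, logHeight (crd e B P i) = ∑ b, ∑ j, logHeight ((B b).vec L (P b j)) := by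
    have h3 := Equiv.sum_comp e.symm (fun x : (b : β) × Fin (k b) =>
      logHeight ((B x.1).vec L (P x.1 x.2)))
    refine h3.trans ?_
    rw [Fintype.sum_sigma]
  set H : ℝ := DL + ∑ i, logHeight (crd e B P i) with hH
  have hS0 : 0 ≤ ∑ i, logHeight (crd e B P i) := Finset.sum_nonneg (fun _ _ => logHeight_nonneg _)
  have hH0 : 0 ≤ H := add_nonneg hDL0 hS0
  choose p hp using fun b => hCT b L (P b) H (by linarith) (by
    have h4 : ∑ j, logHeight ((B b).vec L (P b j)) ≤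
        ∑ b, ∑ j, logHeight ((B b).vec L (P b j)) :=
      Finset.single_le_sum (f := fun b => ∑ j, logHeight ((B b).vec L (P b j)))
        (fun b _ => hh0 b) (Finset.mem_univ b)
    linarith) (hmono b _ _ L H (P b) (hδ0b b) hH0 (hrk b))
  obtain ⟨hne, hFS, hbound⟩ := hCu p L (crd e B P) (onS_crd e B P) (κm p L P)
    (fun l => hκTg p l L P) (hΨ3 p L P (hP p (Finset.mem_univ _)))
  refine ⟨hne, hFS, hbound.trans ?_⟩
  have h1 : ∑ l, ((κg l * κd p l : ℕ) : ℝ) * logHeight (κm p L P l) =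
      ∑ b, ((B b).g : ℝ) * ∑ j, (d b (p b) j : ℝ) *
        logHeight ((B b).vec L (map b (p b) j L (P b))) := by
    have h2 := Equiv.sum_comp e.symm (fun x : (b : β) × Fin (k b) =>
      (((B x.1).g * d x.1 (p x.1) x.2 : ℕ) : ℝ) *
        logHeight ((B x.1).vec L (map x.1 (p x.1) x.2 L (P x.1))))
    refine h2.trans ?_
    rw [Fintype.sum_sigma]
    refine Finset.sum_congr rfl (fun b _ => ?_)
    rw [Finset.mul_sum]
    refine Finset.sum_congr rfl (fun j _ => ?_)
    push_cast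
    ring
  have h3 : ∑ b, ((B b).g : ℝ) * ∑ j, (d b (p b) j : ℝ) *
        logHeight ((B b).vec L (map b (p b) j L (P b))) ≤
      Gs * (ε' * H) + (∑ b, ((B b).g : ℝ) * CT b) * DL := by
    have h4 : ∀ b, ((B b).g : ℝ) * ∑ j, (d b (p b) j : ℝ) *
        logHeight ((B b).vec L (map b (p b) j L (P b))) ≤
        ((B b).g : ℝ) * (ε' * H) + ((B b).g : ℝ) * CT b * DL := by
      intro b
      have h5 := mul_le_mul_of_nonneg_left (hp b) (Nat.cast_nonneg (α := ℝ) (B b).g)
      refine h5.trans (le_of_eq (by ring))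
    refine (Finset.sum_le_sum (fun b _ => h4 b)).trans ?_
    rw [Finset.sum_add_distrib, ← Finset.sum_mul, ← Finset.sum_mul]
    have h6 : ∑ b, ((B b).g : ℝ) ≤ Gs := by linarith
    have h7 := mul_le_mul_of_nonneg_right h6 (mul_nonneg hε'0.le hH0)
    linarith
  rw [h1]
  have h5 := mul_le_mul_of_nonneg_left h3 hN0.le
  have h6 : Cu p ≤ ∑ p, Cu p :=
    Finset.single_le_sum (f := fun p => Cu p) (fun p _ => hCu0 p) (Finset.mem_univ p)
  have h7 := mul_le_mul_of_nonneg_right h6 hDL0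
  have h8 : (N : ℝ) * (Gs * ε') = ε := by
    rw [hε']
    field_simp
  calc (N : ℝ) * (∑ b, ((B b).g : ℝ) * ∑ j, (d b (p b) j : ℝ) *
        logHeight ((B b).vec L (map b (p b) j L (P b)))) + Cu p * DL ≤
      N * (Gs * (ε' * H) + (∑ b, ((B b).g : ℝ) * CT b) * DL) + (∑ p, Cu p) * DL := by linarith
    _ = (N * (Gs * ε')) * H + (N * (∑ b, ((B b).g : ℝ) * CT b) + ∑ p, Cu p) * DL := by ring
    _ = _ := by rw [h8, hH]; ring

end Pool.Agent.TH954.X
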