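import Pool.Agent.TH954.X.BlkT
import Pool.Agent.TH954.X.Main2

/-!
# The block of the torus, for points near points of small rank (after X/BlkT of helper364)
-/

set_option autoImplicit false
set_option linter.unusedSectionVars false

open MvPolynomial NumberField Height Pool.Agent.TH954.V

namespace Pool.Agent.TH954.X.BT

/-- the explicit form of the target -/
def BlkT2' (K : Type) [Field K] [NumberField K] (n : ℕ) (hn : 2 ≤ n) (k r : ℕ) (S : Finset K) : Prop :=
  ∀ ε : ℝ, 0 < ε → ∃ (c : ℝ) (C1 : ℕ), 0 < c ∧ ∀ T : ℝ, 1 ≤ T →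
    ∃ (I : Type) (_ : Fintype I) (d : I → Fin k → ℕ) (σ : I → Fin k → Fin k → ℕ)
      (Fam : I → Fin k → Finset (Fin n → MvPolynomial (Fin k × Fin n) K))
      (map : I → Fin k → ∀ (F : Type) [Field F] [Algebra K F], (Fin k → Fˣ) → Fˣ),
      (∀ i l, ∀ C ∈ Fam i l, ∀ c, MH (σ i l) (C c)) ∧
      (∀ i l (F : Type) [Field F] [Algebra K F] (P : Fin k → Fˣ),
        (∀ C ∈ Fam i l, ∃ s : F, (fun c => ev (C c) (fun j => tvec n ((P j : Fˣ) : F))) =
          s • tvec n ((map i l F P : Fˣ) : F)) ∧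
        ∃ C ∈ Fam i l, ∃ c, ev (C c) (fun j => tvec n ((P j : Fˣ) : F)) ≠ 0) ∧
      (∀ i l, LocF (wqX (fun _ : Fin k => tVar K n)) (tUn K n hn k S) (σ i l) (Fam i l)) ∧
      (∀ i, ∑ l, (d i l : ℝ) * ∑ j, (σ i l j : ℝ) ≤ C1 * T) ∧
      (∀ i (Ω : Type) [Field Ω] [Algebra K Ω] [IsAlgClosed Ω] (P : Fin k → Ωˣ),
        ∃ Q : Fin k → Ωˣ, ∀ l, map i l Ω Q = P l) ∧
      (∀ i, c * T ^ k ≤ T ^ r * ∏ l, ((d i l : ℝ) + 1)) ∧
      ∃ δ : ℝ, 0 < δ ∧ ∃ C : ℝ, 0 ≤ C ∧ ∀ (L : Type) [Field L] [NumberField L] [Algebra K L]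
        (P : Fin k → Lˣ) (H : ℝ), (Module.finrank ℚ L : ℝ) ≤ H →
        ∑ j, logHeight (tvec n ((P j : Lˣ) : L)) ≤ H →
        (∃ x' : Fin k → Lˣ, trk K k r L x' ∧
          ∑ j, logHeight (tvec n ((P j / x' j : Lˣ) : L)) ≤ δ * H) →
        ∃ i, ∑ l, (d i l : ℝ) * logHeight (tvec n ((map i l L P : Lˣ) : L)) ≤
          ε * H + C * Module.finrank ℚ L

/-- The torus, explicit form. -/
theorem blkT2_core (hlat : T_latU) (hsemi : T_semi) (hsolve : T_solveR) (K : Type) [Field K]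
    [NumberField K] (n : ℕ) (hn : 2 ≤ n) (k r : ℕ) (S : Finset K) : BlkT2' K n hn k r S := by
  classical
  intro ε hε
  rcases Nat.eq_zero_or_pos k with hk | hk
  · subst hk
    refine ⟨1, 0, one_pos, fun T hT => ⟨Unit, inferInstance, fun _ l => l.elim0, fun _ l => l.elim0,
      fun _ l => l.elim0, fun _ l => l.elim0, fun _ l => l.elim0, fun _ l => l.elim0, fun _ l => l.elim0,
      fun _ => by simp, fun _ Ω _ _ _ P => ⟨P, fun l => l.elim0⟩, fun _ => ?_, 1, one_pos, 0, le_rfl,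
      fun L _ _ _ P H h0 _ _ => ⟨(), by
        have : 0 ≤ H := le_trans (Nat.cast_nonneg _) h0
        simp only [Finset.univ_eq_empty, Finset.sum_empty, zero_mul, add_zero]
        positivity⟩⟩⟩
    simpa using one_le_pow₀ hT
  obtain ⟨c, hc, hlat'⟩ := hlat r k hk (ε / 4) (by positivity)
  refine ⟨c, 1, hc, fun T hT1 => ?_⟩
  obtain ⟨H, D, hHD⟩ := hlat' T hT1
  set I : Type := {x : (Fin k → Fin k → ℤ) × (Fin k → ℕ) // LinearIndependent ℤ x.1 ∧
    (∀ i j, |x.1 i j| ≤ H) ∧ (∀ i, x.2 i ≤ D) ∧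
    ∑ l, (x.2 l : ℝ) * ∑ t, |(x.1 l t : ℝ)| ≤ T ∧
    c * T ^ k ≤ T ^ r * ∏ l, ((x.2 l : ℝ) + 1)} with hI
  have hfin : Finite I := by
    have h1 : {u : Fin k → Fin k → ℤ | ∀ i j, |u i j| ≤ H}.Finite := by
      have := Set.Finite.pi' (ι := Fin k) (κ := fun _ => Fin k → ℤ) (t := fun _ => {v | ∀ j, |v j| ≤ H})
        (fun i => by
          have := Set.Finite.pi' (ι := Fin k) (κ := fun _ => ℤ) (t := fun _ => {v | |v| ≤ H})
            (fun j => by
              refine (Set.finite_Icc (-H) H).subset fun v hv => ?_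
              exact abs_le.mp hv)
          exact this)
      exact this
    have h2 : {d : Fin k → ℕ | ∀ i, d i ≤ D}.Finite :=
      Set.Finite.pi' (ι := Fin k) (κ := fun _ => ℕ) (t := fun _ => {v | v ≤ D}) (fun i => Set.finite_Iic D)
    have h3 := h1.prod h2
    exact Set.Finite.to_subtype (s := {x : (Fin k → Fin k → ℤ) × (Fin k → ℕ) | LinearIndependent ℤ x.1 ∧
      (∀ i j, |x.1 i j| ≤ H) ∧ (∀ i, x.2 i ≤ D) ∧
      ∑ l, (x.2 l : ℝ) * ∑ t, |(x.1 l t : ℝ)| ≤ T ∧
      c * T ^ k ≤ T ^ r * ∏ l, ((x.2 l : ℝ) + 1)}) (h3.subset fun x hx => ⟨hx.2.1, hx.2.2.1⟩)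
  refine ⟨I, Fintype.ofFinite I, fun i l => i.1.2 l, fun i l j => (i.1.1 l j).natAbs,
    fun i l => {tup K hn (i.1.1 l)}, fun i l F _ _ P => mon (i.1.1 l) P, ?_, ?_, ?_, ?_, ?_, ?_,
    min 1 (ε / (4 * T)), lt_min one_pos (by positivity), 0, le_rfl, ?_⟩
  · intro i l C hC c
    rw [Finset.mem_singleton] at hC
    subst hC
    exact MH_tup K hn _ c
  · intro i l F _ _ P
    obtain ⟨s, hs0, hs⟩ := ev_tup (K := K) hn (i.1.1 l) P
    refine ⟨fun C hC => ?_, tup K hn (i.1.1 l), Finset.mem_singleton_self _, ⟨0, by omega⟩, ?_⟩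
    · rw [Finset.mem_singleton] at hC
      subst hC
      exact ⟨s, hs⟩
    · have h1 := congrFun hs ⟨0, by omega⟩
      have h2 : ev (tup K hn (i.1.1 l) ⟨0, by omega⟩) (fun j => tvec n ((P j : Fˣ) : F)) = s := by
        rw [h1]
        simp [tvec]
      change ev (tup K hn (i.1.1 l) ⟨0, by omega⟩) (fun j => tvec n ((P j : Fˣ) : F)) ≠ 0
      rw [h2]
      exact hs0
  · intro i l
    exact loc_tup hn S (i.1.1 l)
  · intro i
    have h1 := i.2.2.2.2.1
    rw [Nat.cast_one, one_mul]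
    refine le_trans (le_of_eq ?_) h1
    refine Finset.sum_congr rfl fun l _ => ?_
    congr 1
    refine Finset.sum_congr rfl fun j _ => ?_
    rw [Nat.cast_natAbs, Int.cast_abs]
  · intro i Ω _ _ _ P
    exact solveT hsolve (i.1.1) i.2.1 P
  · intro i
    exact i.2.2.2.2.2
  · rintro L _ _ _ P H hH0 hH1 ⟨P', hP', hnear⟩
    obtain ⟨nn, hnn1, hnn⟩ := hsemi (Additive Lˣ) (hT L) hT_nonneg hT_add hT_smul r k
      (fun j => Additive.ofMul (P' j)) hP'
    obtain ⟨u, hu1, hu2, d, hd1, hd2, hd3, hd4⟩ := hHD nn hnn1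
    refine ⟨⟨(u, d), hu1, hu2, hd1, hd2, hd3⟩, ?_⟩
    have hT0 : 0 < T := by linarith
    have hH : 0 ≤ H := le_trans (Nat.cast_nonneg _) hH0
    set δ : ℝ := min 1 (ε / (4 * T)) with hδ
    have hδ1 : δ ≤ 1 := min_le_left _ _
    have hδ2 : δ ≤ ε / (4 * T) := min_le_right _ _
    have hδ0 : 0 < δ := lt_min one_pos (by positivity)
    have hh : ∀ x : Lˣ, logHeight (tvec n (x : L)) = hT L (Additive.ofMul x) := fun x =>
      logHeight_tvec hn _
    change ∑ l, (d l : ℝ) * logHeight (tvec n ((mon (u l) P : Lˣ) : L)) ≤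
      ε * H + 0 * (Module.finrank ℚ L : ℝ)
    rw [zero_mul, add_zero]
    simp only [hh] at hH1 hnear ⊢
    set X : Fin k → Additive Lˣ := fun j => Additive.ofMul (P j) with hX
    set X' : Fin k → Additive Lˣ := fun j => Additive.ofMul (P' j) with hX'
    have hdiff : ∀ j, Additive.ofMul (P j / P' j) = X j - X' j := fun j => rfl
    simp only [hdiff] at hnear
    have hmon : ∀ l, Additive.ofMul (mon (u l) P) = ∑ j, u l j • X j := by
      intro l
      unfold mon
      rw [ofMul_prod]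
      rfl
    have hsumX' : ∑ j, hT L (X' j) ≤ 2 * H := by
      have h1 : ∀ j, hT L (X' j) ≤ hT L (X j) + hT L (X j - X' j) := by
        intro j
        have h2 := hT_add (X j) (-(X j - X' j))
        have h3 : X j + -(X j - X' j) = X' j := by abel
        have h4 : hT L (-(X j - X' j)) = hT L (X j - X' j) := by
          have := hT_smul (-1) (X j - X' j)
          rw [neg_one_zsmul] at this
          rw [this]
          simp
        rw [h3, h4] at h2
        exact h2
      have h2 := Finset.sum_le_sum (fun j (_ : j ∈ Finset.univ) => h1 j)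
      rw [Finset.sum_add_distrib] at h2
      have h3 : δ * H ≤ 1 * H := mul_le_mul_of_nonneg_right hδ1 hH
      linarith
    have hsum0 : 0 ≤ ∑ j, hT L (X' j) := Finset.sum_nonneg fun j _ => hT_nonneg _
    have hn0 : ∀ j, hT L (X j - X' j) ≤ δ * H := fun j =>
      (Finset.single_le_sum (f := fun j => hT L (X j - X' j)) (fun _ _ => hT_nonneg _)
        (Finset.mem_univ j)).trans hnear
    have hterm : ∀ l, hT L (∑ j, u l j • X j) ≤
        (∑ j, hT L (X' j)) * (∑ i, |∑ j, (u l j : ℝ) * nn i j|) +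
          (∑ j, |(u l j : ℝ)|) * (δ * H) := by
      intro l
      have h1 : ∑ j, u l j • X j = ∑ j, u l j • X' j + ∑ j, u l j • (X j - X' j) := by
        rw [← Finset.sum_add_distrib]
        refine Finset.sum_congr rfl fun j _ => ?_
        rw [zsmul_sub]
        abel
      have h2 : hT L (∑ j, u l j • (X j - X' j)) ≤ ∑ j, |(u l j : ℝ)| * hT L (X j - X' j) := by
        have h3 : ∀ s : Finset (Fin k), hT L (∑ j ∈ s, u l j • (X j - X' j)) ≤
            ∑ j ∈ s, |(u l j : ℝ)| * hT L (X j - X' j) := by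
          intro s
          induction s using Finset.induction_on with
          | empty =>
            have := hT_smul (L := L) 0 0
            simp at this
            simp [this]
          | insert a s ha ih =>
            rw [Finset.sum_insert ha, Finset.sum_insert ha]
            refine (hT_add _ _).trans ?_
            rw [hT_smul]
            linarith
        exact h3 Finset.univ
      have h4 : ∑ j, |(u l j : ℝ)| * hT L (X j - X' j) ≤ (∑ j, |(u l j : ℝ)|) * (δ * H) := by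
        rw [Finset.sum_mul]
        exact Finset.sum_le_sum fun j _ => mul_le_mul_of_nonneg_left (hn0 j) (abs_nonneg _)
      rw [h1]
      have h5 := hT_add (∑ j, u l j • X' j) (∑ j, u l j • (X j - X' j))
      have h6 := hnn (u l)
      linarith
    have hA : ∑ l, (d l : ℝ) * hT L (∑ j, u l j • X j) ≤
        (∑ j, hT L (X' j)) * (∑ l, (d l : ℝ) * ∑ i, |∑ j, (u l j : ℝ) * nn i j|) +
          (∑ l, (d l : ℝ) * ∑ j, |(u l j : ℝ)|) * (δ * H) := by
      rw [Finset.mul_sum, Finset.sum_mul, ← Finset.sum_add_distrib]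
      refine Finset.sum_le_sum fun l _ => ?_
      have := mul_le_mul_of_nonneg_left (hterm l) (Nat.cast_nonneg (α := ℝ) (d l))
      refine this.trans (le_of_eq (by ring))
    have hB : (∑ j, hT L (X' j)) * (∑ l, (d l : ℝ) * ∑ i, |∑ j, (u l j : ℝ) * nn i j|) ≤
        (2 * H) * (ε / 4) := by
      refine mul_le_mul hsumX' hd4 ?_ (by positivity)
      exact Finset.sum_nonneg fun l _ => mul_nonneg (Nat.cast_nonneg _)
        (Finset.sum_nonneg fun i _ => abs_nonneg _)
    have hC : (∑ l, (d l : ℝ) * ∑ j, |(u l j : ℝ)|) * (δ * H) ≤ (ε / 4) * H := by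
      have h1 : (∑ l, (d l : ℝ) * ∑ j, |(u l j : ℝ)|) * (δ * H) ≤ T * (ε / (4 * T) * H) :=
        mul_le_mul hd2 (mul_le_mul_of_nonneg_right hδ2 hH) (by positivity) hT0.le
      refine h1.trans (le_of_eq ?_)
      field_simp
    calc ∑ l, (d l : ℝ) * hT L (Additive.ofMul (mon (u l) P)) =
        ∑ l, (d l : ℝ) * hT L (∑ j, u l j • X j) := by
          refine Finset.sum_congr rfl fun l _ => ?_
          rw [hmon]
      _ ≤ (2 * H) * (ε / 4) + (ε / 4) * H := by linarith
      _ ≤ ε * H := by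
        have : 0 ≤ ε * H := by positivity
        linarith

end Pool.Agent.TH954.X.BT

namespace Pool.Agent.TH954.X

open BT

theorem blk_of2 {K : Type} [Field K] [NumberField K] {n : ℕ} {hn : 2 ≤ n} {k r : ℕ} {S : Finset K}
    (h : BlkT2' K n hn k r S) :
    BlkOK2 (tblk K n hn) k r (trk2 K n hn k r) (tUn K n hn k S) := h

/-- **The torus.** -/
theorem blkT2 (hlat : T_latU) (hsemi : T_semi) (hsolve : T_solveR) : T_blkT2 :=
  fun K _ _ n hn k r S => blk_of2 (blkT2_core hlat hsemi hsolve K n hn k r S)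

end Pool.Agent.TH954.X
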