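import Pool.Agent.TH954.X.MainX

/-!
# Geometric irreducibility and independent coordinates: definitions and targets
-/

set_option autoImplicit false

open MvPolynomial

namespace Pool.Agent.TH954.X

/-- the form `g` over `F` does not vanish identically on the points, over extension fields of `F` -/
def Blk.NonZ {K : Type} [Field K] {n : ℕ} (B : Blk K n) (F : Type) [Field F] [Algebra K F]
    (g : MvPolynomial (Fin n) F) : Prop :=
  ∃ (F' : Type) (_ : Field F') (_ : Algebra K F') (_ : Algebra F F') (_ : IsScalarTower K F F')
    (P : B.Pt F'), aeval (B.vec F' P) g ≠ 0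

/-- geometric irreducibility: over every extension field, a product of two forms that do not vanish
identically does not vanish identically -/
def Blk.Irr {K : Type} [Field K] {n : ℕ} (B : Blk K n) : Prop :=
  ∀ (F : Type) [Field F] [Algebra K F] (g h : MvPolynomial (Fin n) F) (a b : ℕ),
    g.IsHomogeneous a → h.IsHomogeneous b → B.NonZ F g → B.NonZ F h → B.NonZ F (g * h)

/-- over every extension field, a nonzero form in the coordinates `z0`, `z` does not vanish
identically -/
def Blk.Ind {K : Type} [Field K] {n : ℕ} (B : Blk K n) : Prop :=
  ∀ (F : Type) [Field F] [Algebra K F] (g : MvPolynomial (Option (Fin B.g)) F) (a : ℕ),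
    g.IsHomogeneous a → g ≠ 0 → B.NonZ F (rename (fun o => Option.elim o B.z0 B.z) g)

/-- **Target.** Products of geometrically irreducible varieties have generic points, at which the
quotients of coordinates `z / z0` are algebraically independent. -/
def T_gen : Prop := ∀ (K : Type) [Field K] (n : ℕ) (β ι : Type) [Fintype β] [Fintype ι]
  (k : β → ℕ) (e : ((b : β) × Fin (k b)) ≃ ι) (B : β → Blk K n),
  (∀ b, (B b).Irr) → (∀ b, (B b).Ind) → GenX e B

/-- **Target.** The torus is geometrically irreducible and its coordinate is independent. -/
def T_irrT : Prop := ∀ (K : Type) [Field K] (n : ℕ) (hn : 2 ≤ n),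
  (tblk K n hn).Irr ∧ (tblk K n hn).Ind

end Pool.Agent.TH954.X
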