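import Pool.Agent.TH954.X.Main2
import Pool.Agent.TH954.X.GenDefs

/-!
# The main theorem for products of blocks, for finitely many rank conditions
-/

set_option autoImplicit false
set_option linter.unusedSectionVars false

open MvPolynomial NumberField Height Pool.Agent.TH954.V

namespace Pool.Agent.TH954.X

/-- a positive lower bound for finitely many positive numbers -/
lemma exists_lower {R : Type} [Finite R] (δ : R → ℝ) (hδ : ∀ i, 0 < δ i) :
    ∃ δ0 : ℝ, 0 < δ0 ∧ ∀ i, δ0 ≤ δ i := by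
  have := Fintype.ofFinite R
  have h0 : 0 ≤ ∑ i, 1 / δ i := Finset.sum_nonneg (fun i _ => (one_div_pos.mpr (hδ i)).le)
  refine ⟨1 / (1 + ∑ i, 1 / δ i), by positivity, fun i => ?_⟩
  have h1 : 1 / δ i ≤ ∑ i, 1 / δ i :=
    Finset.single_le_sum (f := fun i => 1 / δ i) (fun j _ => (one_div_pos.mpr (hδ j)).le)
      (Finset.mem_univ i)
  rw [one_div_le (by positivity) (hδ i)]
  linarith

open Classical in
theorem main3 {K : Type} [Field K] [NumberField K] {n : ℕ} {β ι R : Type} [Fintype β] [Fintype ι]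
    [Finite R]
    {k : β → ℕ} (e : ((b : β) × Fin (k b)) ≃ ι) (B : β → Blk K n) (r : R → β → ℕ)
    (rk : R → ∀ b, RkC (B b) (k b))
    (Un : ∀ b, Cond K (Fin (k b)) n)
    (hmono : ∀ p b (δ δ' : ℝ) (L : Type) [Field L] [NumberField L] [Algebra K L] (H : ℝ)
      (P : Fin (k b) → (B b).Pt L), δ ≤ δ' → 0 ≤ H → rk p b δ L H P → rk p b δ' L H P)
    (hB : ∀ p b, BlkOK2 (B b) (k b) (r p b) (rk p b) (Un b)) (hU : ∀ b, UnOK (B b) (k b) (Un b))
    (hbox : T_boxX) (hgen : GenX e B) (y : ℕ)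
    (hy : ∀ p, y + ∑ b, r p b * (B b).g < ∑ b, k b * (B b).g) {s : ℕ}
    (f : Fin s → MvPolynomial (ι × Fin n) K) (δ : Fin s → ι → ℕ)
    (hf : ∀ i, MH (δ i) (f i))
    (hdim : ∀ (F : Type) [Field F] [Algebra K F] (η : ∀ b, Fin (k b) → (B b).Pt F),
      (∀ i, ev (f i) (crd e B η) = 0) →
      Algebra.trdeg K (IntermediateField.adjoin K
        (Set.range (fun p : ι × Fin n => crd e B η p.1 p.2))) ≤ (y : Cardinal))
    (ε : ℝ) (hε : 0 < ε) :
    ∃ (Φ : MvPolynomial (ι × Fin n) K) (τ : ι → ℕ), MH τ Φ ∧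
      (∃ (F : Type) (_ : Field F) (_ : Algebra K F) (P : ∀ b, Fin (k b) → (B b).Pt F),
        ev Φ (crd e B P) ≠ 0) ∧
      ∃ δ0 : ℝ, 0 < δ0 ∧ ∃ C : ℝ, ∀ (L : Type) [Field L] [NumberField L] [Algebra K L]
        (P : ∀ b, Fin (k b) → (B b).Pt L),
        (∃ p, ∀ b, rk p b δ0 L (Module.finrank ℚ L + ∑ i, logHeight (crd e B P i)) (P b)) →
        ev Φ (crd e B P) ≠ 0 →
        (∀ w : AbsoluteValue L ℝ, UnX e Un L w (crd e B P) → ∃ i, ev (f i) (crd e B P) ≠ 0) ∧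
        FS (fun w : AbsoluteValue L ℝ => if UnX e Un L w (crd e B P) then
          -Real.log (⨆ i, nvW w (δ i) (f i) (crd e B P)) else 0) ∧
        hYX (UnX e Un) f δ (crd e B P) ≤
          ε * ∑ i, logHeight (crd e B P i) + C * Module.finrank ℚ L := by
  have hR := Fintype.ofFinite R
  choose Φ τ h1 h2 δ1 hδ1 C h3 using fun p => main2 e B (r p) (rk p) Un (hmono p) (hB p) hU hbox
    hgen y (hy p) f δ hf hdim ε hε
  obtain ⟨Ω, iΩ, iAΩ, iCΩ, P0, hP0z, hP0ind, hP0gen⟩ := hgen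
  obtain ⟨δ0, hδ0, hδle⟩ := exists_lower δ1 hδ1
  have hevprod : ∀ (L : Type) [Field L] [Algebra K L] (u : ι → Fin n → L),
      ev (∏ p, Φ p) u = ∏ p, ev (Φ p) u := by
    intro L _ _ P
    simp only [ev, map_prod]
  refine ⟨∏ p, Φ p, _, MH_prod Finset.univ τ Φ (fun p _ => h1 p), ⟨Ω, iΩ, iAΩ, P0, ?_⟩,
    δ0, hδ0, ∑ p, |C p|, fun L _ _ _ P hP hΦ => ?_⟩
  · rw [hevprod]
    exact Finset.prod_ne_zero_iff.mpr (fun p _ => hP0gen _ _ (h1 p) (h2 p))
  rw [hevprod, Finset.prod_ne_zero_iff] at hΦ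
  obtain ⟨p, hp⟩ := hP
  have hH0 : 0 ≤ (Module.finrank ℚ L : ℝ) + ∑ i, logHeight (crd e B P i) :=
    add_nonneg (Nat.cast_nonneg _) (Finset.sum_nonneg (fun _ _ => logHeight_nonneg _))
  obtain ⟨h4, h5, h6⟩ := h3 p L P (fun b => hmono p b _ _ L _ _ (hδle p) hH0 (hp b))
    (hΦ p (Finset.mem_univ _))
  refine ⟨h4, h5, h6.trans ?_⟩
  have h7 : C p ≤ ∑ p, |C p| := (le_abs_self _).trans
    (Finset.single_le_sum (f := fun p => |C p|) (fun _ _ => abs_nonneg _) (Finset.mem_univ p))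
  have h8 := mul_le_mul_of_nonneg_right h7 (Nat.cast_nonneg (α := ℝ) (Module.finrank ℚ L))
  linarith

end Pool.Agent.TH954.X
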