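import Pool.Agent.TH954.X.AbV
import Pool.Agent.TH954.X.Main3
import Pool.Agent.TH954.X.BlkT2
import Pool.Agent.TH954.X.BoxX

/-!
# Products of powers of abelian varieties, and tori
-/

set_option autoImplicit false
set_option linter.unusedSectionVars false

open MvPolynomial NumberField Height Pool.Agent.TH954.V

namespace Pool.Agent.TH954.X

lemma finrank_closure_le {M : Type} [AddCommGroup M] {ι : Type} [Fintype ι] (x : ι → M) :
    Module.finrank ℤ (AddSubgroup.closure (Set.range x)) ≤ Fintype.card ι := by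
  have h1 := finrank_range_le_card (R := ℤ) x
  unfold Set.finrank at h1
  rw [← AddSubgroup.toIntSubmodule_closure] at h1
  exact h1

lemma AbR.rk_min {K : Type} [Field K] {n : ℕ} (A : AbR K n) (k r : ℕ) (L : Type) [Field L]
    [Algebra K L] (P : Fin k → A.Pt L) (h : A.rk k r L P) : A.rk k (min r k) L P := by
  rcases le_total r k with h1 | h1
  · rw [min_eq_left h1]
    exact h
  · rw [min_eq_right h1]
    unfold AbR.rk
    refine (finrank_closure_le _).trans (le_of_eq ?_)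
    rw [Fintype.card_prod, Fintype.card_fin, Fintype.card_fin, mul_comm]

lemma trk_min (K : Type) [Field K] (k r : ℕ) (L : Type) [Field L]
    [Algebra K L] (x : Fin k → Lˣ) (h : trk K k r L x) : trk K k (min r k) L x := by
  rcases le_total r k with h1 | h1
  · rw [min_eq_left h1]
    exact h
  · rw [min_eq_right h1]
    unfold trk
    refine (finrank_closure_le _).trans (le_of_eq ?_)
    rw [Fintype.card_fin]

section abelian

variable {K : Type} [Field K] {n β : ℕ}

/-- the coordinates of a family of points -/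
def crdA (A : Fin β → AbV K n) {k : Fin β → ℕ} {F : Type} [Field F] [Algebra K F]
    (P : ∀ b, Fin (k b) → (A b).Pt F) : ((b : Fin β) × Fin (k b)) → Fin n → F :=
  fun s => (P s.1 s.2).1

/-- the blocks -/
noncomputable def BA (A : Fin β → AbV K n) : Fin β → Blk K n := fun b => (A b).toAbR.blk

lemma trueUn (A : Fin β → AbV K n) (k : Fin β → ℕ) (b : Fin β) :
    UnOK (BA A b) (k b) (fun _ _ _ _ _ => True) := by
  refine ⟨∅, 1, 0, le_rfl, fun L _ _ w u _ _ j => ?_⟩
  change (⨆ c, w (u j c)) ^ 0 ≤ kap ∅ 1 0 w * w (aeval (u j) (1 : MvPolynomial (Fin n) K))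
  rw [pow_zero, map_one, w.map_one, mul_one]
  exact one_le_kap _ le_rfl _ _

/-- the ranks `r b ≤ k b` with `y + ∑ r b * dim A b < ∑ k b * dim A b` -/
def RA (A : Fin β → AbV K n) (k : Fin β → ℕ) (y : ℕ) : Type :=
  {r : ∀ b, Fin (k b + 1) // y + ∑ b, (r b).1 * (A b).dim < ∑ b, k b * (A b).dim}

instance (A : Fin β → AbV K n) (k : Fin β → ℕ) (y : ℕ) : Finite (RA A k y) := by
  unfold RA
  infer_instance

theorem finA (hblk : T_blkA2) (hgen : T_gen) [NumberField K] (A : Fin β → AbV K n)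
    (k : Fin β → ℕ) (y : ℕ) {s : ℕ}
    (f : Fin s → MvPolynomial (((b : Fin β) × Fin (k b)) × Fin n) K)
    (δ : Fin s → ((b : Fin β) × Fin (k b)) → ℕ) (hf : ∀ i, MH (δ i) (f i))
    (hdim : ∀ (F : Type) [Field F] [Algebra K F] (P : ∀ b, Fin (k b) → (A b).Pt F),
      (∀ i, ev (f i) (crdA A P) = 0) →
      Algebra.trdeg K (IntermediateField.adjoin K
        (Set.range (fun p : ((b : Fin β) × Fin (k b)) × Fin n => crdA A P p.1 p.2))) ≤
          (y : Cardinal))
    (ε : ℝ) (hε : 0 < ε) :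
    ∃ (Φ : MvPolynomial (((b : Fin β) × Fin (k b)) × Fin n) K)
      (τ : ((b : Fin β) × Fin (k b)) → ℕ), MH τ Φ ∧
      (∃ (F : Type) (_ : Field F) (_ : Algebra K F) (P : ∀ b, Fin (k b) → (A b).Pt F),
        ev Φ (crdA A P) ≠ 0) ∧
      ∃ δ0 : ℝ, 0 < δ0 ∧ ∃ C : ℝ, ∀ (L : Type) [Field L] [NumberField L] [Algebra K L]
        (P P' : ∀ b, Fin (k b) → (A b).Pt L) (r : Fin β → ℕ),
        y + ∑ b, r b * (A b).dim < ∑ b, k b * (A b).dim →
        (∀ b, (A b).toAbR.rk (k b) (r b) L (P' b)) →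
        ∑ i : (b : Fin β) × Fin (k b), logHeight (P i.1 i.2 - P' i.1 i.2).1 ≤
          δ0 * (Module.finrank ℚ L + ∑ i, logHeight (crdA A P i)) →
        ev Φ (crdA A P) ≠ 0 →
        (∃ i, ev (f i) (crdA A P) ≠ 0) ∧
        FS (fun w : AbsoluteValue L ℝ => -Real.log (⨆ i, nvW w (δ i) (f i) (crdA A P))) ∧
        tot (fun w => -Real.log (⨆ i, nvW w (δ i) (f i) (crdA A P))) ≤
          ε * ∑ i, logHeight (crdA A P i) + C * Module.finrank ℚ L := by
  classical
  obtain ⟨Φ, τ, h1, h2, δ0, hδ0, C, h3⟩ := main3 (R := RA A k y) (Equiv.refl _) (BA A)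
    (fun r b => (r.1 b).1)
    (fun r b => (A b).toAbR.rk2 (k b) (r.1 b).1) (fun _ _ _ _ _ _ => True)
    (by
      rintro r b δ δ' L _ _ _ H P hδ hH ⟨P', hP', hP⟩
      exact ⟨P', hP', hP.trans (mul_le_mul_of_nonneg_right hδ hH)⟩)
    (fun r b => hblk K n (A b).toAbR (k b) (r.1 b).1) (trueUn A k) boxX
    (hgen K n (Fin β) _ k (Equiv.refl _) (BA A) (fun b => (A b).irr) (fun b => (A b).ind)) y
    (fun r => r.2)
    f δ hf (fun F _ _ η hη => hdim F η hη) ε hε
  refine ⟨Φ, τ, h1, h2, δ0, hδ0, C, fun L _ _ _ P P' r hr hP' hnear hP => ?_⟩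
  let r' : RA A k y := ⟨fun b => ⟨min (r b) (k b), by omega⟩, lt_of_le_of_lt
    (Nat.add_le_add_left (Finset.sum_le_sum
      (fun b _ => Nat.mul_le_mul_right _ (min_le_left _ _))) _) hr⟩
  obtain ⟨h4, h5, h6⟩ := h3 L P ⟨r', fun b => ⟨P' b, AbR.rk_min _ _ _ _ _ (hP' b), by
    refine le_trans ?_ hnear
    rw [Fintype.sum_sigma]
    exact Finset.single_le_sum
      (f := fun b => ∑ j, logHeight (P b j - P' b j).1)
      (fun b _ => Finset.sum_nonneg (fun j _ => logHeight_nonneg _)) (Finset.mem_univ b)⟩⟩ hP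
  let Un0 : ∀ b, Cond K (Fin (k b)) n := fun _ _ _ _ _ _ => True
  have hUn : ∀ (w : AbsoluteValue L ℝ) (u : ((b : Fin β) × Fin (k b)) → Fin n → L),
      UnX (Equiv.refl _) Un0 L w u := fun w u b => trivial
  have hfun : (fun w : AbsoluteValue L ℝ =>
      if UnX (Equiv.refl _) Un0 L w (crdA A P) then
        -Real.log (⨆ i, nvW w (δ i) (f i) (crdA A P)) else 0) =
      fun w => -Real.log (⨆ i, nvW w (δ i) (f i) (crdA A P)) := by
    funext w
    rw [if_pos (hUn w _)]
  refine ⟨h4 AbsoluteValue.trivial (hUn _ _), ?_, ?_⟩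
  · rw [← hfun]
    exact h5
  · rw [← hfun]
    exact h6

end abelian

end Pool.Agent.TH954.X
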