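import Pool.Agent.TH954.X.Defs
import Pool.Agent.TH954.V.TotL

/-!
# Multihomogeneous polynomials and their values; absolute values
-/

set_option autoImplicit false
set_option linter.unusedSectionVars false

open MvPolynomial

namespace Pool.Agent.TH954.X

section mh

variable {K : Type} [Field K] {ι : Type} [Fintype ι] {n : ℕ}

lemma MH_one : MH (fun _ => 0) (1 : MvPolynomial (ι × Fin n) K) := by
  classical
  intro m hm i
  have : m = 0 := by
    by_contra h
    rw [mem_support_iff, coeff_one, if_neg (Ne.symm h)] at hm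
    exact hm rfl
  simp [this]

lemma MH_C (z : K) : MH (fun _ => 0) (C z : MvPolynomial (ι × Fin n) K) := by
  classical
  intro m hm i
  have : m = 0 := by
    by_contra h
    rw [mem_support_iff, coeff_C, if_neg (Ne.symm h)] at hm
    exact hm rfl
  simp [this]

lemma MH_mul {d e : ι → ℕ} {f g : MvPolynomial (ι × Fin n) K}
    (hf : MH d f) (hg : MH e g) : MH (fun i => d i + e i) (f * g) := by
  classical
  intro m hm i
  obtain ⟨m1, h1, m2, h2, h3⟩ := Finset.mem_add.mp (support_mul f g hm)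
  rw [← h3]
  simp only [Finsupp.coe_add, Pi.add_apply, Finset.sum_add_distrib, hf m1 h1 i, hg m2 h2 i]

lemma MH_pow {d : ι → ℕ} {f : MvPolynomial (ι × Fin n) K}
    (hf : MH d f) (r : ℕ) : MH (fun i => r * d i) (f ^ r) := by
  induction r with
  | zero =>
    rw [pow_zero]
    have : (fun i : ι => 0 * d i) = fun _ => 0 := by funext i; simp
    rw [this]
    exact MH_one
  | succ r ih =>
    rw [pow_succ]
    have : (fun i : ι => (r + 1) * d i) = fun i => r * d i + d i := by funext i; ring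
    rw [this]
    exact MH_mul ih hf

lemma MH_prod {α : Type} (s : Finset α) (d : α → ι → ℕ)
    (f : α → MvPolynomial (ι × Fin n) K) (hf : ∀ i ∈ s, MH (d i) (f i)) :
    MH (fun j => ∑ i ∈ s, d i j) (∏ i ∈ s, f i) := by
  classical
  induction s using Finset.induction_on with
  | empty => simpa using MH_one
  | insert a s ha ih =>
    rw [Finset.prod_insert ha]
    simp only [Finset.sum_insert ha]
    exact MH_mul (hf a (Finset.mem_insert_self _ _))
      (ih (fun i hi => hf i (Finset.mem_insert_of_mem hi)))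

lemma MH_sum {α : Type} (s : Finset α) (d : ι → ℕ)
    (f : α → MvPolynomial (ι × Fin n) K) (hf : ∀ i ∈ s, MH d (f i)) :
    MH d (∑ i ∈ s, f i) := by
  classical
  intro m hm i
  obtain ⟨j, hj, hjm⟩ := Finset.mem_biUnion.mp (support_sum hm)
  exact hf j hj m hjm i

/-- composition with forms -/
noncomputable def cmp {κ : Type} [Fintype κ] {n' : ℕ} (G : MvPolynomial (κ × Fin n') K)
    (C : κ → Fin n' → MvPolynomial (ι × Fin n) K) : MvPolynomial (ι × Fin n) K :=
  aeval (fun p : κ × Fin n' => C p.1 p.2) G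

lemma MH_cmp {κ : Type} [Fintype κ] {n' : ℕ} {G : MvPolynomial (κ × Fin n') K} {d : κ → ℕ} (hG : MH d G)
    (C : κ → Fin n' → MvPolynomial (ι × Fin n) K) (σ : κ → ι → ℕ)
    (hC : ∀ l c, MH (σ l) (C l c)) : MH (fun j => ∑ l, d l * σ l j) (cmp G C) := by
  unfold cmp
  rw [aeval_def, eval₂_eq']
  refine MH_sum _ _ _ (fun e he => ?_)
  have h1 := MH_prod Finset.univ (fun (p : κ × Fin n') (j : ι) => e p * σ p.1 j)
    (fun p => C p.1 p.2 ^ e p) (fun p _ => MH_pow (hC p.1 p.2) (e p))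
  have h2 := MH_mul (MH_C (ι := ι) (n := n) (coeff e G)) h1
  have h3 : (fun j : ι => 0 + ∑ p : κ × Fin n', e p * σ p.1 j) =
      fun j => ∑ l, d l * σ l j := by
    funext j
    rw [zero_add, Fintype.sum_prod_type]
    refine Finset.sum_congr rfl (fun l _ => ?_)
    rw [← hG e he l, Finset.sum_mul]
  rw [h3] at h2
  exact h2

variable {F : Type} [Field F] [Algebra K F]

lemma ev_cmp {κ : Type} [Fintype κ] {n' : ℕ} (G : MvPolynomial (κ × Fin n') K)
    (C : κ → Fin n' → MvPolynomial (ι × Fin n) K) (u : ι → Fin n → F) :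
    ev (cmp G C) u = ev G (fun l c => ev (C l c) u) := by
  unfold ev cmp
  have h : (aeval (fun p : ι × Fin n => u p.1 p.2)).comp
      (aeval (fun p : κ × Fin n' => C p.1 p.2)) =
      aeval (R := K) (fun p : κ × Fin n' =>
        aeval (fun p : ι × Fin n => u p.1 p.2) (C p.1 p.2)) := by
    apply algHom_ext
    intro p
    simp
  exact congrArg (fun φ => φ G) h

lemma ev_smul {d : ι → ℕ} {f : MvPolynomial (ι × Fin n) K} (hf : MH d f)
    (s : ι → F) (u : ι → Fin n → F) :
    ev f (fun j => s j • u j) = (∏ j, s j ^ d j) * ev f u := by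
  unfold ev
  rw [aeval_def, aeval_def, eval₂_eq', eval₂_eq', Finset.mul_sum]
  refine Finset.sum_congr rfl (fun m hm => ?_)
  have h1 : ∏ p : ι × Fin n, ((s p.1 • u p.1) p.2) ^ m p =
      (∏ i, s i ^ d i) * ∏ p : ι × Fin n, u p.1 p.2 ^ m p := by
    simp_rw [Pi.smul_apply, smul_eq_mul, mul_pow]
    rw [Finset.prod_mul_distrib]
    congr 1
    rw [Fintype.prod_prod_type]
    refine Finset.prod_congr rfl (fun i _ => ?_)
    change ∏ y, s i ^ m (i, y) = s i ^ d i
    rw [Finset.prod_pow_eq_pow_sum, hf m hm i]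
  rw [h1]
  ring

lemma ev_expand (f : MvPolynomial (ι × Fin n) K) (u : ι → Fin n → F) :
    ev f u = ∑ m ∈ f.support, algebraMap K F (coeff m f) * ∏ p, u p.1 p.2 ^ m p := by
  unfold ev
  rw [aeval_def, eval₂_eq']

end mh

section abv

variable {L : Type} [Field L] {ι : Type} [Finite ι]

lemma le_supW (v : AbsoluteValue L ℝ) (u : ι → L) (c : ι) : v (u c) ≤ ⨆ c, v (u c) :=
  le_ciSup (f := fun c => v (u c)) (Set.finite_range _).bddAbove c

lemma exists_supW [Nonempty ι] (v : AbsoluteValue L ℝ) (u : ι → L) :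
    ∃ c, v (u c) = ⨆ c, v (u c) := by
  obtain ⟨c, hc⟩ := Finite.exists_max (fun c => v (u c))
  exact ⟨c, le_antisymm (le_supW v u c) (ciSup_le hc)⟩

lemma sup_smulW (v : AbsoluteValue L ℝ) (s : L) (u : ι → L) :
    (⨆ c, v ((s • u) c)) = v s * ⨆ c, v (u c) := by
  have : (fun c => v ((s • u) c)) = fun c => v s * v (u c) := by
    funext c
    rw [Pi.smul_apply, smul_eq_mul, v.map_mul]
  rw [show (⨆ c, v ((s • u) c)) = iSup (fun c => v ((s • u) c)) from rfl, this]
  exact (Real.mul_iSup_of_nonneg (v.nonneg s) _).symm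

lemma sup_posW (v : AbsoluteValue L ℝ) {u : ι → L} (hu : u ≠ 0) : 0 < ⨆ c, v (u c) := by
  obtain ⟨c, hc⟩ := Function.ne_iff.mp hu
  exact (v.pos hc).trans_le (le_supW v u c)

end abv

section loc

variable {K L : Type} [Field K] [Field L] [Algebra K L] {ι : Type} [Fintype ι] {n : ℕ}

/-- normalised absolute value of a multihomogeneous form -/
noncomputable def nvW (w : AbsoluteValue L ℝ) (σ : ι → ℕ)
    (f : MvPolynomial (ι × Fin n) K) (u : ι → Fin n → L) : ℝ :=
  w (ev f u) / ∏ j, (⨆ c, w (u j c)) ^ σ j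

lemma nvW_nonneg (w : AbsoluteValue L ℝ) (σ : ι → ℕ)
    (f : MvPolynomial (ι × Fin n) K) (u : ι → Fin n → L) : 0 ≤ nvW w σ f u := by
  refine div_nonneg (w.nonneg _) (Finset.prod_nonneg (fun j _ => pow_nonneg ?_ _))
  exact Real.iSup_nonneg (fun c => w.nonneg _)

lemma nvW_smul (w : AbsoluteValue L ℝ) {σ : ι → ℕ}
    {f : MvPolynomial (ι × Fin n) K} (hf : MH σ f) (s : ι → L)
    (hs : ∀ j, s j ≠ 0) (u : ι → Fin n → L) :
    nvW w σ f (fun j => s j • u j) = nvW w σ f u := by
  unfold nvW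
  rw [ev_smul hf, w.map_mul, w.map_prod]
  simp_rw [w.map_pow]
  have h1 : ∏ j, (⨆ c, w ((s j • u j) c)) ^ σ j =
      (∏ j, w (s j) ^ σ j) * ∏ j, (⨆ c, w (u j c)) ^ σ j := by
    rw [← Finset.prod_mul_distrib]
    refine Finset.prod_congr rfl (fun j _ => ?_)
    rw [sup_smulW, mul_pow]
  rw [h1]
  refine mul_div_mul_left _ _ ?_
  exact Finset.prod_ne_zero_iff.mpr (fun j _ => pow_ne_zero _ ((w.ne_zero_iff).mpr (hs j)))

/-- the set of coefficients -/
noncomputable def cfsW [DecidableEq K] {σ : Type} (f : MvPolynomial σ K) : Finset K :=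
  f.support.image (fun m => coeff m f)

open Pool.Agent.TH954.V in
open Classical in
lemma evW_le (w : AbsoluteValue L ℝ) (f : MvPolynomial (ι × Fin n) K)
    (A : Finset K) (hA : ∀ m ∈ f.support, coeff m f ∈ A) (M : ℕ) (hM : f.support.card ≤ M)
    (u : ι → Fin n → L) (hu : ∀ j c, w (u j c) ≤ 1) :
    w (ev f u) ≤ kap A M 1 w := by
  unfold kap
  rw [pow_one, ev_expand]
  have hterm : ∀ m ∈ f.support, w (algebraMap K L (coeff m f) *
      ∏ p, u p.1 p.2 ^ m p) ≤ cM A w := by
    intro m hm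
    rw [w.map_mul]
    have h1 : w (∏ p, u p.1 p.2 ^ m p) ≤ 1 := by
      rw [w.map_prod]
      refine Finset.prod_le_one (fun _ _ => w.nonneg _) (fun p _ => ?_)
      rw [w.map_pow]
      exact pow_le_one₀ (w.nonneg _) (hu _ _)
    calc _ ≤ w (algebraMap K L (coeff m f)) * 1 :=
          mul_le_mul_of_nonneg_left h1 (w.nonneg _)
      _ ≤ _ := by rw [mul_one]; exact le_cM A w (hA m hm)
  split_ifs with h
  · rw [one_mul]
    exact ult_sum h _ _ (zero_le_one.trans (one_le_cM A w)) hterm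
  · refine (w.sum_le _ _).trans ((Finset.sum_le_sum hterm).trans ?_)
    rw [Finset.sum_const, nsmul_eq_mul]
    exact mul_le_mul_of_nonneg_right (by exact_mod_cast hM) (zero_le_one.trans (one_le_cM A w))

/-- normalisation of coordinates -/
lemma exists_normW (w : AbsoluteValue L ℝ) (u : ι → Fin n → L) (hu : ∀ j, u j ≠ 0) :
    ∃ (c : ι → Fin n) (r : ι → L), (∀ j, r j ≠ 0) ∧
      (∀ j, (⨆ e, w ((r j • u j) e)) = 1) ∧ ∀ j, (r j • u j) (c j) = 1 := by
  have hne' : ∀ j : ι, Nonempty (Fin n) := fun j => by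
    obtain ⟨c, -⟩ := Function.ne_iff.mp (hu j)
    exact ⟨c⟩
  have h0 : ∀ j, ∃ c, w (u j c) = ⨆ c, w (u j c) := fun j => by
    have := hne' j
    exact exists_supW w (u j)
  choose c hc using h0
  have hpos : ∀ j, 0 < w (u j (c j)) := fun j => by
    rw [hc]
    exact sup_posW w (hu j)
  have hne : ∀ j, u j (c j) ≠ 0 := fun j => w.pos_iff.mp (hpos j)
  refine ⟨c, fun j => (u j (c j))⁻¹, fun j => inv_ne_zero (hne j), fun j => ?_, fun j => ?_⟩
  · rw [sup_smulW, map_inv₀, ← hc j]
    exact inv_mul_cancel₀ (hpos j).ne'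
  · rw [Pi.smul_apply, smul_eq_mul]
    exact inv_mul_cancel₀ (hne j)

lemma nvW_norm (w : AbsoluteValue L ℝ) (u : ι → Fin n → L) (r : ι → L)
    (hr : ∀ j, r j ≠ 0) (hs : ∀ j, (⨆ e, w ((r j • u j) e)) = 1)
    {τ : ι → ℕ} {g : MvPolynomial (ι × Fin n) K} (hg : MH τ g) :
    nvW w τ g u = w (ev g (fun j => r j • u j)) := by
  rw [← nvW_smul w hg r hr]
  unfold nvW
  simp only [hs, one_pow, Finset.prod_const_one, div_one]

end loc

section null

open Pool.Agent.TH954.V

variable {K : Type} [Field K] {ι : Type} [Fintype ι] {n : ℕ}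

/-- From the ideal membership to the local inequality. -/
theorem locW_null {s : ℕ} {E : Type} [Fintype E] (wq : E → MvPolynomial (ι × Fin n) K)
    (ρ : E → ι → ℕ) (hw : ∀ i, MH (ρ i) (wq i))
    (f : Fin s → MvPolynomial (ι × Fin n) K)
    (δ : Fin s → ι → ℕ) (hf : ∀ i, MH (δ i) (f i))
    (S : MvPolynomial (ι × Fin n) K) (σ : ι → ℕ) (hS : MH σ S) (N : ℕ)
    (h : ∀ c : ι → Fin n,
        (S * ∏ j, X (j, c j)) ^ N ∈ Ideal.span (Set.range f ∪ Set.range wq)) :
    ∃ (A : Finset K) (M : ℕ), 1 ≤ M ∧ ∀ (L : Type) [Field L] [Algebra K L]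
      (w : AbsoluteValue L ℝ) (u : ι → Fin n → L), (∀ j, u j ≠ 0) →
      (∀ i, ev (wq i) u = 0) →
      nvW w σ S u ^ N ≤ kap A M 1 w * ⨆ i, nvW w (δ i) (f i) u := by
  classical
  have h1 : ∀ c : ι → Fin n, ∃ (A : Fin s → MvPolynomial (ι × Fin n) K),
      ∀ (L : Type) [Field L] [Algebra K L] (u : ι → Fin n → L)
        (r : ι → L), (∀ i, ev (wq i) u = 0) →
        ev (S * ∏ j, X (j, c j)) (fun j => r j • u j) ^ N =
          ∑ i, ev (A i) (fun j => r j • u j) * ev (f i) (fun j => r j • u j) := by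
    intro c
    have h2 := h c
    rw [Ideal.span_union, Submodule.mem_sup] at h2
    obtain ⟨y, hy, z, hz, hyz⟩ := h2
    obtain ⟨A, hA⟩ := (Ideal.mem_span_range_iff_exists_fun).mp hy
    obtain ⟨B, hB⟩ := (Ideal.mem_span_range_iff_exists_fun).mp hz
    refine ⟨A, fun L _ _ u r hu => ?_⟩
    have h3 : ev ((S * ∏ j, X (j, c j)) ^ N) (fun j => r j • u j) =
        ev (∑ i, A i * f i) (fun j => r j • u j) +
        ev (∑ i, B i * wq i) (fun j => r j • u j) := by
      rw [← hyz, ← hA, ← hB]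
      simp only [ev, map_add]
    have h4 : ev (∑ i, B i * wq i) (fun j => r j • u j) = 0 := by
      have : ev (∑ i, B i * wq i) (fun j => r j • u j) =
          ∑ i, ev (B i) (fun j => r j • u j) * ev (wq i) (fun j => r j • u j) := by
        simp only [ev, map_sum, map_mul]
      rw [this]
      refine Finset.sum_eq_zero (fun i _ => ?_)
      rw [ev_smul (hw i), hu i, mul_zero, mul_zero]
    rw [h4, add_zero] at h3
    have h5 : ev ((S * ∏ j, X (j, c j)) ^ N) (fun j => r j • u j) =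
        ev (S * ∏ j, X (j, c j)) (fun j => r j • u j) ^ N := by
      simp only [ev, map_pow]
    rw [← h5, h3]
    simp only [ev, map_sum, map_mul]
  choose A hA using h1
  set M0 : ℕ := ∑ c : ι → Fin n, ∑ i, (A c i).support.card with hM0
  refine ⟨Finset.univ.biUnion (fun c : ι → Fin n =>
    Finset.univ.biUnion (fun i => cfsW (A c i))), (M0 + 1) * (s + 1),
    Nat.mul_pos (Nat.succ_pos _) (Nat.succ_pos _), fun L _ _ w u hu0 hu => ?_⟩
  obtain ⟨c, r, hr, hsup, hc⟩ := exists_normW w u hu0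
  have h0 : 0 ≤ ⨆ i, nvW w (δ i) (f i) u :=
    Real.iSup_nonneg (fun i => nvW_nonneg _ _ _ _)
  have hp1 : ∀ j e, w ((r j • u j) e) ≤ 1 := fun j e => by
    rw [← hsup j]
    exact le_supW w _ e
  have hp2 : nvW w σ S u ^ N =
      w (∑ i, ev (A c i) (fun j => r j • u j) * ev (f i) (fun j => r j • u j)) := by
    rw [← hA c L u r hu, w.map_pow, nvW_norm w u r hr hsup hS]
    congr 2
    simp only [ev, map_mul, map_prod, aeval_X, hc, Finset.prod_const_one, mul_one]
  rw [hp2]
  refine sum_mul_le w _ (M0 + 1) _ _ (fun i => ?_) h0 (fun i => ?_)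
  · refine evW_le w _ _ (fun m hm => ?_) _ ?_ _ hp1
    · simp only [Finset.mem_biUnion, Finset.mem_univ, true_and]
      exact ⟨c, i, Finset.mem_image_of_mem _ hm⟩
    · have h8 : (A c i).support.card ≤ ∑ i, (A c i).support.card :=
        Finset.single_le_sum (f := fun i => (A c i).support.card) (fun _ _ => Nat.zero_le _)
          (Finset.mem_univ i)
      have h9 : (∑ i, (A c i).support.card) ≤ M0 :=
        Finset.single_le_sum (f := fun c => ∑ i, (A c i).support.card) (fun _ _ => Nat.zero_le _)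
          (Finset.mem_univ c)
      omega
  · rw [← nvW_norm w u r hr hsup (hf i)]
    exact le_ciSup (f := fun i => nvW w (δ i) (f i) u) (Set.finite_range _).bddAbove i

/-- upper bound for the normalised values -/
theorem nvW_le (f : MvPolynomial (ι × Fin n) K) (δ : ι → ℕ) (hf : MH δ f) :
    ∃ (A : Finset K) (M : ℕ), 1 ≤ M ∧ ∀ (L : Type) [Field L] [Algebra K L]
      (w : AbsoluteValue L ℝ) (u : ι → Fin n → L), (∀ j, u j ≠ 0) →
      nvW w δ f u ≤ kap A M 1 w := by
  classical
  refine ⟨cfsW f, f.support.card + 1, Nat.succ_pos _, fun L _ _ w u hu0 => ?_⟩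
  obtain ⟨c, r, hr, hsup, hc⟩ := exists_normW w u hu0
  rw [nvW_norm w u r hr hsup hf]
  refine evW_le w _ _ (fun m hm => Finset.mem_image_of_mem _ hm) _ (Nat.le_succ _) _
    (fun j e => ?_)
  rw [← hsup j]
  exact le_supW w _ e

end null

end Pool.Agent.TH954.X
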