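import Pool.Agent.TH954.X.BlkA
import Pool.Agent.TH954.X.Main2

/-!
# Powers of an abelian variety with endomorphisms, as a block: points near points of small rank
-/

set_option autoImplicit false
set_option linter.unusedSectionVars false

open MvPolynomial NumberField Height Pool.Agent.TH954.V

namespace Pool.Agent.TH954.X

theorem blkA2 (hfam : T_famR) (hlat : T_latT) (hgr : T_greedy) (hsolve : T_solveR) : T_blkA2 := by
  classical
  intro K _ _ n A k r ε hε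
  rcases Nat.eq_zero_or_pos k with hk0 | hk0
  · subst hk0
    refine ⟨1, 0, one_pos, fun T hT => ⟨Unit, inferInstance, fun _ _ => 0, fun _ _ _ => 0,
      fun _ l => l.elim0, fun _ l => l.elim0, fun _ l => l.elim0, fun _ l => l.elim0,
      fun _ l => l.elim0, fun _ => ?_, fun _ Ω _ _ _ P => ⟨P, fun l => l.elim0⟩, fun _ => ?_,
      1, one_pos, 0, le_rfl, fun L _ _ _ P HH hHH _ _ => ⟨(), ?_⟩⟩⟩
    · simp
    · rw [Finset.univ_eq_empty, Finset.prod_empty, pow_zero, mul_one, mul_one]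
      exact one_le_pow₀ hT
    · have h1 : (0 : ℝ) ≤ HH := le_trans (Nat.cast_nonneg _) hHH
      rw [Finset.univ_eq_empty, Finset.sum_empty, zero_mul, add_zero]
      exact mul_nonneg hε.le h1
  set ρ : ℕ := A.ρ with hρ
  have hρ0 : 0 < ρ := A.ρ_pos
  set κ : ℕ := k * ρ with hκ
  have hκ0 : 0 < κ := Nat.mul_pos hk0 hρ0
  obtain ⟨Ch, hCh, hcan⟩ := canA A
  obtain ⟨c1, B1, hc1, hB1, hend⟩ := end_height A
  obtain ⟨cf, hcf⟩ := hfam K n A k
  choose Dn hDn1 hDn2 hDn3 using hcf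
  choose Fam hhom hrep using hDn3
  have hIsFam : ∀ v, IsFam (wqX (fun _ : Fin k => A.var)) (fun _ => Dn v) (Fam v) := by
    intro v
    refine ⟨hhom v, fun F _ _ u hu => ?_⟩
    obtain ⟨P, s, hs, rfl⟩ := exists_ptA A hu
    obtain ⟨C, hC, e, he⟩ := (hrep v F P).2
    refine ⟨C, hC, e, ?_⟩
    rw [ev_smul (hhom v C hC e)]
    exact mul_ne_zero (Finset.prod_ne_zero_iff.mpr (fun j _ => pow_ne_zero _ (hs j))) he
  set ε' : ℝ := ε / (16 * (1 + ρ * c1)) with hε'
  have hden : 0 < 16 * (1 + (ρ:ℝ) * c1) := by positivity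
  have hε'0 : 0 < ε' := div_pos hε hden
  obtain ⟨c, hc, hH⟩ := hlat (ρ * r) κ hκ0 ε' hε'0
  set c' : ℝ := min 1 c with hc'
  have hc'0 : 0 < c' := lt_min one_pos hc
  have hc'ρ : c' ^ ρ ≤ c := by
    calc c' ^ ρ ≤ c' ^ 1 := pow_le_pow_of_le_one hc'0.le (min_le_left _ _) hρ0
      _ = c' := pow_one _
      _ ≤ c := min_le_right _ _
  refine ⟨c', 2 * cf * k, hc'0, fun T hT => ?_⟩
  have hT0 : 0 < T := by linarith
  obtain ⟨H, D, hHD⟩ := hH T hT
  set good : (Fin k → Fin k → Fin ρ → ℤ) → (Fin k → ℕ) → Prop := fun v d =>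
    LinearIndependent A.R (fun (l j : Fin k) => ∑ a, v l j a • A.basis a) ∧
    (∑ l, (d l : ℝ) * ∑ _j : Fin k, (Dn (v l) : ℝ)) ≤ ((2 * cf * k : ℕ) : ℝ) * T ∧
    c' * T ^ k ≤ T ^ r * ∏ l, ((d l : ℝ) + 1) with hgood
  have hfin := (BdX_finite k ρ H D good).to_subtype
  refine ⟨↥(BdX k ρ H D good), Fintype.ofFinite _, fun p => p.1.2, fun p l _ => Dn (p.1.1 l),
    fun p l => Fam (p.1.1 l), fun p l F _ _ P => A.lin (p.1.1 l) P, ?_, ?_, ?_, ?_, ?_, ?_, ?_⟩
  · intro p l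
    exact hhom (p.1.1 l)
  · intro p l F _ _ P
    exact hrep (p.1.1 l) F P
  · intro p l
    exact locF_fam (wqX (fun _ : Fin k => A.var)) (wqX_MH _) _ (Fam (p.1.1 l)) (hIsFam _)
  · intro p
    exact p.2.2.2.2.1
  · intro p Ω _ _ _ P
    obtain ⟨Q, hQ⟩ := hsolve A.R A.ρ A.ρ_pos A.basis (A.Pt Ω) (A.act Ω)
      (fun P m hm => A.div Ω P m hm) k _ p.2.2.2.1 P
    refine ⟨Q, fun l => ?_⟩
    change A.lin (p.1.1 l) Q = P l
    rw [lin_end]
    exact hQ l
  · intro p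
    exact p.2.2.2.2.2
  -- heights
  set E2 : ℝ := 2 ^ κ * (H : ℝ) ^ 2 with hE2
  have hE20 : 0 ≤ E2 := by positivity
  set δ : ℝ := min 1 (ε / (4 * (1 + k * D * E2 * (ρ * c1)))) with hδ
  have hden2 : 0 < 4 * (1 + (k : ℝ) * D * E2 * (ρ * c1)) := by positivity
  have hδ0 : 0 < δ := lt_min one_pos (div_pos hε hden2)
  have hδ1 : δ ≤ 1 := min_le_left _ _
  have hδ2 : δ * (4 * (1 + k * D * E2 * (ρ * c1))) ≤ ε := by
    rw [← le_div_iff₀ hden2]
    exact min_le_right _ _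
  refine ⟨δ, hδ0, 2 * ε' * (1 + 5 * (ρ * c1) * k * Ch + κ * (B1 + Ch)) +
    2 * k * D * E2 * (κ * (B1 + Ch)) + k * D * Ch, by positivity,
    fun L _ _ _ P0 HH hDH hPH hnear => ?_⟩
  obtain ⟨P, hrk, hPP⟩ := hnear
  change Fin k → A.Pt L at P0
  change ∑ j, logHeight (P0 j).1 ≤ HH at hPH
  change ∑ j, logHeight (P0 j - P j).1 ≤ δ * HH at hPP
  obtain ⟨q, hq2, hq3, hqh⟩ := hcan L
  set e := finProdFinEquiv (m := k) (n := ρ) with he
  set Rt : Fin κ → A.Pt L := fun t => A.end' L (A.basis (e.symm t).2) (P (e.symm t).1) with hRt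
  have hrange : Set.range Rt = Set.range
      (fun p : Fin k × Fin A.ρ => A.end' L (A.basis p.2) (P p.1)) :=
    e.symm.surjective.range_comp (fun p : Fin k × Fin A.ρ => A.end' L (A.basis p.2) (P p.1))
  have hrk' : Module.finrank ℤ (AddSubgroup.closure (Set.range Rt)) ≤ ρ * r := by
    rw [hrange]
    exact hrk
  have hfg : AddGroup.FG (AddSubgroup.closure (Set.range Rt)) := by
    rw [AddGroup.fg_iff_addSubgroup_fg]
    exact ⟨Finset.univ.image Rt, by rw [Finset.coe_image, Finset.coe_univ, Set.image_univ]⟩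
  obtain ⟨Nm, hNm⟩ := gram_decomp Rt hfg hrk' q hq2 hq3
  set DL : ℝ := (Module.finrank ℚ L : ℝ) with hDL
  have hDL0 : 0 < DL := by
    have : 0 < Module.finrank ℚ L := Module.finrank_pos
    rw [hDL]
    exact_mod_cast this
  set M2 : ℝ := 1 + (∑ t, q (Rt t)) / DL with hM2
  have hM21 : 1 ≤ M2 := by
    have : 0 ≤ (∑ t, q (Rt t)) / DL :=
      div_nonneg (Finset.sum_nonneg (fun _ _ => hq2 _)) hDL0.le
    linarith
  have hsq : (√DL) ^ 2 = DL := Real.sq_sqrt hDL0.le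
  have hcol : ∀ j, q (Rt j) = ∑ l, Nm l j ^ 2 := by
    intro j
    have h1 := hNm (Pi.single j 1)
    have h2 : ∑ i, (Pi.single j 1 : Fin κ → ℤ) i • Rt i = Rt j := by
      rw [Finset.sum_eq_single j]
      · simp
      · intro i _ hi
        simp [hi]
      · simp
    rw [h2] at h1
    rw [h1]
    refine Finset.sum_congr rfl (fun l _ => ?_)
    congr 1
    rw [Finset.sum_eq_single j]
    · simp
    · intro i _ hi
      simp [hi]
    · simp
  obtain ⟨u, hu1, hu2, d, hd0, hd1, hd2, hd3⟩ := hHD (fun l j => Nm l j / √DL) (√M2)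
    (by rw [Real.one_le_sqrt]; exact hM21) (by
      intro l j
      rw [← Real.sqrt_sq_eq_abs]
      apply Real.sqrt_le_sqrt
      rw [div_pow, hsq]
      have h1 : Nm l j ^ 2 ≤ ∑ l, Nm l j ^ 2 :=
        Finset.single_le_sum (f := fun l => Nm l j ^ 2) (fun _ _ => sq_nonneg _)
          (Finset.mem_univ l)
      rw [← hcol j] at h1
      have h2 : q (Rt j) ≤ ∑ j, q (Rt j) :=
        Finset.single_le_sum (f := fun j => q (Rt j)) (fun _ _ => hq2 _) (Finset.mem_univ j)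
      have h3 : Nm l j ^ 2 / DL ≤ (∑ j, q (Rt j)) / DL :=
        div_le_div_of_nonneg_right (h1.trans h2) hDL0.le
      linarith)
  rw [Real.sq_sqrt (by linarith)] at hd3
  -- the vectors over `R`
  have hw : LinearIndependent ℤ (fun l => toR A k (u l)) :=
    hu1.map' (toR A k).toLinearMap (LinearEquiv.ker _)
  obtain ⟨σ0, hσ1, hσ2⟩ := hgr A.R A.ρ A.ρ_pos A.basis k (fun l => toR A k (u l)) hw d
  have hnt : Nontrivial A.R := ⟨⟨A.basis ⟨0, hρ0⟩, 0, A.basis.ne_zero _⟩⟩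
  have hσinj : Function.Injective σ0 := by
    intro x y hxy
    exact hσ1.injective (by simp only [hxy])
  set v : Fin k → Fin k → Fin ρ → ℤ := fun i j a => u (σ0 i) (e (j, a)) with hv
  set d' : Fin k → ℕ := fun i => d (σ0 i) with hd'
  have hnorm1 : ∀ j, 1 ≤ ∑ t, (u j t : ℝ) ^ 2 := by
    intro j
    obtain ⟨t0, ht0⟩ := Function.ne_iff.mp (hu1.ne_zero j)
    have h1 : (u j t0 : ℝ) ^ 2 ≤ ∑ t, (u j t : ℝ) ^ 2 :=
      Finset.single_le_sum (f := fun t => (u j t : ℝ) ^ 2) (fun _ _ => sq_nonneg _)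
        (Finset.mem_univ t0)
    have h2 : (1 : ℤ) ≤ (u j t0) ^ 2 := by
      have h3 : u j t0 ≠ 0 := ht0
      have : 0 < (u j t0) ^ 2 := by positivity
      omega
    have h4 : (1 : ℝ) ≤ (u j t0 : ℝ) ^ 2 := by exact_mod_cast h2
    linarith
  have hvu : ∀ l, ∑ j, ∑ a, ((v l j a : ℤ) : ℝ) ^ 2 = ∑ t, (u (σ0 l) t : ℝ) ^ 2 := by
    intro l
    rw [← e.sum_comp, Fintype.sum_prod_type]
  have hDn : ∀ l, (Dn (v l) : ℝ) ≤ 2 * cf * ∑ t, (u (σ0 l) t : ℝ) ^ 2 := by
    intro l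
    have h1 : (Dn (v l) : ℝ) ≤ cf * (1 + ∑ j, ∑ a, ((v l j a : ℤ) : ℝ) ^ 2) := by
      exact_mod_cast hDn2 (v l)
    rw [hvu] at h1
    have h2 := hnorm1 (σ0 l)
    have h3 : (0 : ℝ) ≤ cf := Nat.cast_nonneg _
    nlinarith
  have hsub : ∀ f : Fin κ → ℝ, (∀ t, 0 ≤ f t) → ∑ l, f (σ0 l) ≤ ∑ t, f t := by
    intro f hf
    rw [← Finset.sum_image (f := f) (s := Finset.univ) (g := σ0)
      (fun x _ y _ h => hσinj h)]
    exact Finset.sum_le_sum_of_subset_of_nonneg (Finset.subset_univ _) (fun t _ _ => hf t)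
  have hsum1 : (∑ l, (d' l : ℝ) * ∑ _j : Fin k, (Dn (v l) : ℝ)) ≤ ((2 * cf * k : ℕ) : ℝ) * T := by
    have h1 : ∀ l ∈ (Finset.univ : Finset (Fin k)), (d' l : ℝ) * ∑ _j : Fin k, (Dn (v l) : ℝ) ≤
        (2 * cf * k) * ((d (σ0 l) : ℝ) * ∑ t, (u (σ0 l) t : ℝ) ^ 2) := by
      intro l _
      rw [Finset.sum_const, Finset.card_univ, Fintype.card_fin, nsmul_eq_mul]
      have h2 := mul_le_mul_of_nonneg_left (hDn l)
        (by positivity : (0 : ℝ) ≤ (d' l : ℝ) * k)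
      calc (d' l : ℝ) * (k * Dn (v l)) = d' l * k * Dn (v l) := by ring
        _ ≤ d' l * k * (2 * cf * ∑ t, (u (σ0 l) t : ℝ) ^ 2) := h2
        _ = _ := by rw [hd']; ring
    refine (Finset.sum_le_sum h1).trans ?_
    rw [← Finset.mul_sum]
    have h3 := hsub (fun t => (d t : ℝ) * ∑ i, (u t i : ℝ) ^ 2)
      (fun t => mul_nonneg (Nat.cast_nonneg _) (Finset.sum_nonneg (fun _ _ => sq_nonneg _)))
    have h4 : (0 : ℝ) ≤ 2 * cf * k := by positivity
    push_cast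
    exact mul_le_mul_of_nonneg_left (h3.trans hd1) h4
  have hprod1 : c' * T ^ k ≤ T ^ r * ∏ l, ((d' l : ℝ) + 1) := by
    have h1 : (∏ l, ((d l : ℝ) + 1)) ≤ (∏ i, ((d (σ0 i) : ℝ) + 1)) ^ ρ := by
      exact_mod_cast hσ2
    have h2 : (c' * T ^ k) ^ ρ ≤ (T ^ r * ∏ l, ((d' l : ℝ) + 1)) ^ ρ := by
      calc (c' * T ^ k) ^ ρ = c' ^ ρ * T ^ κ := by rw [mul_pow, ← pow_mul, hκ]
        _ ≤ c * T ^ κ := mul_le_mul_of_nonneg_right hc'ρ (by positivity)
        _ ≤ T ^ (ρ * r) * ∏ l, ((d l : ℝ) + 1) := hd2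
        _ ≤ T ^ (ρ * r) * (∏ i, ((d (σ0 i) : ℝ) + 1)) ^ ρ :=
            mul_le_mul_of_nonneg_left h1 (by positivity)
        _ = _ := by rw [mul_pow, ← pow_mul, mul_comm ρ r]
    exact le_of_pow_le_pow_left₀ hρ0.ne' (by positivity) h2
  have hgd : (v, d') ∈ BdX k ρ H D good := by
    refine ⟨fun i j a => hu2 _ _, fun i => hd0 _, ?_, hsum1, hprod1⟩
    have h1 : (fun (l j : Fin k) => ∑ a, v l j a • A.basis a) =
        fun i => toR A k (u (σ0 i)) := by
      funext l j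
      rw [toR_apply]
    change LinearIndependent A.R (fun (l j : Fin k) => ∑ a, v l j a • A.basis a)
    rw [h1]
    exact hσ1
  refine ⟨⟨(v, d'), hgd⟩, ?_⟩
  change ∑ l, (d' l : ℝ) * logHeight (A.lin (v l) P0).1 ≤
    ε * HH + (2 * ε' * (1 + 5 * (ρ * c1) * k * Ch + κ * (B1 + Ch)) +
    2 * k * D * E2 * (κ * (B1 + Ch)) + k * D * Ch) * DL
  have hlin : ∀ l, A.lin (v l) P = ∑ t, u (σ0 l) t • Rt t := by
    intro l
    rw [← e.sum_comp, Fintype.sum_prod_type]
    unfold AbR.lin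
    refine Finset.sum_congr rfl (fun j _ => Finset.sum_congr rfl (fun a _ => ?_))
    rw [hRt]
    simp only [Equiv.symm_apply_apply]
    rfl
  have hS : ∀ l, q (A.lin (v l) P) =
      DL * ∑ i, (∑ t, (u (σ0 l) t : ℝ) * (Nm i t / √DL)) ^ 2 := by
    intro l
    rw [hlin, hNm, Finset.mul_sum]
    refine Finset.sum_congr rfl (fun i _ => ?_)
    have h1 : ∑ j, (u (σ0 l) j : ℝ) * (Nm i j / √DL) = (∑ j, (u (σ0 l) j : ℝ) * Nm i j) / √DL := by
      rw [Finset.sum_div]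
      exact Finset.sum_congr rfl (fun j _ => by ring)
    rw [h1, div_pow, hsq, mul_div_cancel₀ _ hDL0.ne']
  have hupp : ∀ R : A.Pt L, logHeight R.1 ≤ q R + Ch * DL := fun R => by
    have := (abs_le.mp (hqh R)).1
    linarith
  have hlow : ∀ R : A.Pt L, q R ≤ logHeight R.1 + Ch * DL := fun R => by
    have := (abs_le.mp (hqh R)).2
    linarith
  -- the seminorm
  have hq2add : ∀ R S : A.Pt L, q (R + S) ≤ 2 * q R + 2 * q S := by
    intro R S
    have h1 := hq3 R S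
    have h2 := hq2 (R - S)
    linarith
  have hq2sub : ∀ R S : A.Pt L, q (R - S) ≤ 2 * q R + 2 * q S := by
    intro R S
    have h1 := hq3 R S
    have h2 := hq2 (R + S)
    linarith
  have hqsum : ∀ (s : Finset (Fin κ)) (x : Fin κ → A.Pt L),
      q (∑ t ∈ s, x t) ≤ 2 ^ s.card * ∑ t ∈ s, q (x t) := by
    intro s x
    induction s using Finset.induction_on with
    | empty =>
      have h1 := hq3 (0 : A.Pt L) 0
      rw [add_zero, sub_zero] at h1
      rw [Finset.sum_empty, Finset.sum_empty]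
      linarith
    | insert a s ha ih =>
      rw [Finset.sum_insert ha, Finset.sum_insert ha, Finset.card_insert_of_notMem ha, pow_succ]
      have h1 := hq2add (x a) (∑ t ∈ s, x t)
      have h2 := hq2 (x a)
      have h3 : (1 : ℝ) ≤ 2 ^ s.card := one_le_pow₀ (by norm_num)
      nlinarith
  have hzs : ∀ (m : ℤ) (R : A.Pt L), q (m • R) = (m : ℝ) ^ 2 * q R := q_zsmul hq3
  -- differences
  set Df : Fin k → A.Pt L := fun j => P0 j - P j with hDf
  have hlinadd : ∀ l, A.lin (v l) P0 = A.lin (v l) P + A.lin (v l) Df := by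
    intro l
    rw [lin_end, lin_end, lin_end, ← Finset.sum_add_distrib]
    refine Finset.sum_congr rfl (fun j _ => ?_)
    rw [← map_add]
    congr 1
    exact (add_sub_cancel (P j) (P0 j)).symm
  have hbas : ∀ (S : Fin k → A.Pt L), ∑ p : Fin k × Fin ρ, q (A.end' L (A.basis p.2) (S p.1)) ≤
      ρ * c1 * ∑ j, logHeight (S j).1 + κ * (B1 + Ch) * DL := by
    intro S
    have h1 : ∀ p : Fin k × Fin ρ, q (A.end' L (A.basis p.2) (S p.1)) ≤
        c1 * logHeight (S p.1).1 + (B1 + Ch) * DL := by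
      intro p
      have h3 := hlow (A.end' L (A.basis p.2) (S p.1))
      have h4 := hend L p.2 (S p.1)
      linarith
    refine (Finset.sum_le_sum (fun p _ => h1 p)).trans (le_of_eq ?_)
    rw [Fintype.sum_prod_type, Finset.mul_sum]
    simp only [Finset.sum_const, Finset.card_univ, Fintype.card_fin, nsmul_eq_mul]
    rw [← Finset.mul_sum, Finset.sum_add_distrib, ← Finset.mul_sum, Finset.sum_const,
      Finset.card_univ, Fintype.card_fin, nsmul_eq_mul, hκ, ← Finset.mul_sum]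
    push_cast
    ring
  have hqDf : ∀ l, q (A.lin (v l) Df) ≤ E2 * (ρ * c1 * (δ * HH) + κ * (B1 + Ch) * DL) := by
    intro l
    have h1 : A.lin (v l) Df = ∑ t, u (σ0 l) t • A.end' L (A.basis (e.symm t).2)
        (Df (e.symm t).1) := by
      rw [← e.sum_comp, Fintype.sum_prod_type]
      unfold AbR.lin
      refine Finset.sum_congr rfl (fun j _ => Finset.sum_congr rfl (fun a _ => ?_))
      simp only [Equiv.symm_apply_apply]
      rfl
    rw [h1]
    refine (hqsum Finset.univ _).trans ?_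
    rw [Finset.card_univ, Fintype.card_fin, hE2, mul_assoc]
    refine mul_le_mul_of_nonneg_left ?_ (by positivity)
    have h2 : ∀ t : Fin κ, q (u (σ0 l) t • A.end' L (A.basis (e.symm t).2) (Df (e.symm t).1)) ≤
        (H : ℝ) ^ 2 * q (A.end' L (A.basis (e.symm t).2) (Df (e.symm t).1)) := by
      intro t
      rw [hzs]
      refine mul_le_mul_of_nonneg_right ?_ (hq2 _)
      have h3 : |((u (σ0 l) t : ℤ) : ℝ)| ≤ (H : ℝ) := by exact_mod_cast hu2 (σ0 l) t
      rw [← sq_abs]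
      exact pow_le_pow_left₀ (abs_nonneg _) h3 2
    refine (Finset.sum_le_sum (fun t _ => h2 t)).trans ?_
    rw [← Finset.mul_sum]
    refine mul_le_mul_of_nonneg_left ?_ (sq_nonneg _)
    rw [e.symm.sum_comp (fun p : Fin k × Fin ρ => q (A.end' L (A.basis p.2) (Df p.1)))]
    refine (hbas Df).trans ?_
    have h4 : (0 : ℝ) ≤ ρ * c1 := by positivity
    have h5 := mul_le_mul_of_nonneg_left hPP h4
    linarith
  have hP'H : ∑ j, logHeight (P j).1 ≤ 4 * HH + 5 * k * Ch * DL := by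
    have h1 : ∀ j, logHeight (P j).1 ≤ 2 * logHeight (P0 j).1 +
        2 * logHeight (P0 j - P j).1 + 5 * Ch * DL := by
      intro j
      have h2 := hupp (P j)
      have h3 : P j = P0 j - (P0 j - P j) := by abel
      have h4 := hq2sub (P0 j) (P0 j - P j)
      rw [← h3] at h4
      have h5 := hlow (P0 j)
      have h6 := hlow (P0 j - P j)
      linarith
    refine (Finset.sum_le_sum (fun j _ => h1 j)).trans ?_
    rw [Finset.sum_add_distrib, Finset.sum_add_distrib, ← Finset.mul_sum, ← Finset.mul_sum,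
      Finset.sum_const, Finset.card_univ, Fintype.card_fin, nsmul_eq_mul]
    have h7 : δ * HH ≤ 1 * HH := mul_le_mul_of_nonneg_right hδ1 (hDL0.le.trans hDH)
    linarith
  have hHH0 : 0 ≤ HH := hDL0.le.trans hDH
  set X : ℝ := E2 * (ρ * c1 * (δ * HH) + κ * (B1 + Ch) * DL) with hX
  have hX0 : 0 ≤ X := by positivity
  have hterm : ∀ l, (d' l : ℝ) * logHeight (A.lin (v l) P0).1 ≤
      2 * DL * ((d (σ0 l) : ℝ) * ∑ i, (∑ t, (u (σ0 l) t : ℝ) * (Nm i t / √DL)) ^ 2) +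
        D * (2 * X + Ch * DL) := by
    intro l
    have h1 := hupp (A.lin (v l) P0)
    have h0 := hq2add (A.lin (v l) P) (A.lin (v l) Df)
    rw [← hlinadd l] at h0
    have h6 := hqDf l
    rw [hS l] at h0
    have h7 : logHeight (A.lin (v l) P0).1 ≤
        2 * (DL * ∑ i, (∑ t, (u (σ0 l) t : ℝ) * (Nm i t / √DL)) ^ 2) + (2 * X + Ch * DL) := by
      linarith
    have h2 := mul_le_mul_of_nonneg_left h7 (Nat.cast_nonneg (α := ℝ) (d' l))
    have h3 : (d' l : ℝ) ≤ D := by exact_mod_cast hd0 (σ0 l)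
    have h4 := mul_le_mul_of_nonneg_right h3
      (by positivity : (0 : ℝ) ≤ 2 * X + Ch * DL)
    have h5 : (d (σ0 l) : ℝ) = d' l := rfl
    rw [h5]
    linarith
  have hsum2 : ∑ l, (d (σ0 l) : ℝ) * ∑ i, (∑ t, (u (σ0 l) t : ℝ) * (Nm i t / √DL)) ^ 2 ≤
      ε' * M2 := by
    refine le_trans ?_ hd3
    exact hsub (fun m => (d m : ℝ) * ∑ i, (∑ t, (u m t : ℝ) * (Nm i t / √DL)) ^ 2)
      (fun t => mul_nonneg (Nat.cast_nonneg _) (Finset.sum_nonneg (fun _ _ => sq_nonneg _)))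
  have hsumle : ∑ l, (d' l : ℝ) * logHeight (A.lin (v l) P0).1 ≤
      2 * DL * (ε' * M2) + k * (D * (2 * X + Ch * DL)) := by
    refine (Finset.sum_le_sum (fun l _ => hterm l)).trans ?_
    rw [Finset.sum_add_distrib, ← Finset.mul_sum, Finset.sum_const, Finset.card_univ,
      Fintype.card_fin, nsmul_eq_mul]
    have := mul_le_mul_of_nonneg_left hsum2 (by positivity : (0 : ℝ) ≤ 2 * DL)
    linarith
  have hqR : ∑ t, q (Rt t) ≤ ρ * c1 * (4 * HH + 5 * k * Ch * DL) + κ * (B1 + Ch) * DL := by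
    have h1 : ∑ t, q (Rt t) = ∑ p : Fin k × Fin ρ, q (A.end' L (A.basis p.2) (P p.1)) := by
      rw [hRt, e.symm.sum_comp (fun p : Fin k × Fin ρ => q (A.end' L (A.basis p.2) (P p.1)))]
    rw [h1]
    refine (hbas P).trans ?_
    have h4 : (0 : ℝ) ≤ ρ * c1 := by positivity
    have h5 := mul_le_mul_of_nonneg_left hP'H h4
    linarith
  have hM2D : DL * M2 = DL + ∑ t, q (Rt t) := by
    rw [hM2]
    field_simp
  have hε1 : ε' * (16 * (ρ * c1)) ≤ ε := by
    have h1 : ε' * (16 * (1 + ρ * c1)) = ε := by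
      rw [hε']
      field_simp
    nlinarith
  have h6 := mul_le_mul_of_nonneg_left hqR (by positivity : (0 : ℝ) ≤ 2 * ε')
  have h7 := mul_le_mul_of_nonneg_right hε1 hHH0
  have h8 := mul_le_mul_of_nonneg_right hδ2 hHH0
  have h9 : 0 ≤ δ * HH := by positivity
  calc _ ≤ 2 * DL * (ε' * M2) + k * (D * (2 * X + Ch * DL)) := hsumle
    _ = 2 * ε' * (DL * M2) + k * (D * (2 * X + Ch * DL)) := by ring
    _ = 2 * ε' * DL + 2 * ε' * (∑ t, q (Rt t)) + k * (D * (2 * X + Ch * DL)) := by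
        rw [hM2D]; ring
    _ ≤ 2 * ε' * DL + 2 * ε' * (ρ * c1 * (4 * HH + 5 * k * Ch * DL) + κ * (B1 + Ch) * DL) +
        k * (D * (2 * X + Ch * DL)) := by linarith
    _ = ε' * (16 * (ρ * c1)) * HH / 2 + (δ * (4 * (1 + k * D * E2 * (ρ * c1))) * HH / 2 -
          2 * (δ * HH)) +
        (2 * ε' * (1 + 5 * (ρ * c1) * k * Ch + κ * (B1 + Ch)) +
    2 * k * D * E2 * (κ * (B1 + Ch)) + k * D * Ch) * DL := by
        rw [hX]; ring
    _ ≤ _ := by linarith

end Pool.Agent.TH954.X
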