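import Pool.Agent.TH954.X.Defs

/-!
# Families of forms for linear combinations with coefficients in an endomorphism ring (job 2793)
-/

set_option autoImplicit false
set_option linter.unusedSectionVars false

open MvPolynomial

namespace Pool.Agent.TH954.X.FamR

section hom

variable {K : Type} [Field K] {n : ℕ} {ι : Type} [Fintype ι] [DecidableEq ι]

/-- the weights of the `i`-th group -/
def wt (ι : Type) [DecidableEq ι] (n : ℕ) (i : ι) : ι × Fin n → ℕ := fun p => if p.1 = i then 1 else 0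

lemma weight_wt (i : ι) (m : ι × Fin n →₀ ℕ) :
    Finsupp.weight (wt ι n i) m = ∑ j, m (i, j) := by
  rw [Finsupp.weight_apply, Finsupp.sum_fintype _ _ (by simp), Fintype.sum_prod_type]
  simp only [wt, smul_eq_mul, mul_ite, mul_one, mul_zero]
  rw [Finset.sum_eq_single i]
  · simp
  · intro l _ hl
    simp [hl]
  · simp

lemma mh_iff {d : ι → ℕ} {f : MvPolynomial (ι × Fin n) K} :
    MH d f ↔ ∀ i, IsWeightedHomogeneous (wt ι n i) f (d i) := by
  constructor
  · intro h i m hm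
    rw [weight_wt]
    exact h m (by rwa [mem_support_iff]) i
  · intro h m hm i
    rw [← weight_wt]
    exact h i (by rwa [mem_support_iff] at hm)

end hom

section subst

variable {K : Type} [Field K] {n : ℕ} {ι : Type} [Fintype ι] [DecidableEq ι]

/-- substitution of two tuples of forms -/
noncomputable def sb (f : MvPolynomial (Fin 2 × Fin n) K)
    (p q : Fin n → MvPolynomial (ι × Fin n) K) : MvPolynomial (ι × Fin n) K :=
  bind₁ (fun t : Fin 2 × Fin n => (![p, q] : Fin 2 → Fin n → _) t.1 t.2) f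

lemma sb_hom {f : MvPolynomial (Fin 2 × Fin n) K} (hf : MH (fun _ => 2) f)
    {p q : Fin n → MvPolynomial (ι × Fin n) K} {d e : ℕ}
    (hp : ∀ c, MH (fun _ => d) (p c)) (hq : ∀ c, MH (fun _ => e) (q c)) :
    MH (fun _ => 2 * d + 2 * e) (sb f p q) := by
  rw [mh_iff]
  intro i
  unfold sb
  rw [← aeval_eq_bind₁, aeval_def, eval₂_eq]
  apply IsWeightedHomogeneous.sum
  intro m hm
  have h2 := hf m hm
  have h3 : IsWeightedHomogeneous (wt ι n i)
      (∏ t ∈ m.support, ((![p, q] : Fin 2 → Fin n → MvPolynomial (ι × Fin n) K) t.1 t.2) ^ m t)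
      (∑ t ∈ m.support, m t • ((![d, e] : Fin 2 → ℕ) t.1)) := by
    apply IsWeightedHomogeneous.prod
    rintro ⟨t1, t2⟩ _
    apply IsWeightedHomogeneous.pow
    fin_cases t1
    · exact mh_iff.mp (hp t2) i
    · exact mh_iff.mp (hq t2) i
  have h4 : (∑ t ∈ m.support, m t • ((![d, e] : Fin 2 → ℕ) t.1)) = 2 * d + 2 * e := by
    have h5 : (∑ t ∈ m.support, m t • ((![d, e] : Fin 2 → ℕ) t.1)) =
        ∑ t, m t • ((![d, e] : Fin 2 → ℕ) t.1) := by
      apply Finset.sum_subset (Finset.subset_univ _)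
      intro t _ ht
      rw [Finsupp.notMem_support_iff] at ht
      rw [ht, zero_smul]
    rw [h5, Fintype.sum_prod_type, Fin.sum_univ_two]
    simp only [Matrix.cons_val_zero, Matrix.cons_val_one, smul_eq_mul]
    rw [← Finset.sum_mul, ← Finset.sum_mul, h2 0, h2 1]
  rw [h4] at h3
  have h6 := (isWeightedHomogeneous_C (wt ι n i) (coeff m f)).mul h3
  rw [zero_add] at h6
  exact h6

variable {F : Type} [Field F] [Algebra K F]

lemma ev_sb (f : MvPolynomial (Fin 2 × Fin n) K)
    (p q : Fin n → MvPolynomial (ι × Fin n) K) (u : ι → Fin n → F) :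
    ev (sb f p q) u = ev f ![fun c => ev (p c) u, fun c => ev (q c) u] := by
  unfold ev sb
  rw [aeval_bind₁]
  congr 2
  funext t
  obtain ⟨t1, t2⟩ := t
  fin_cases t1
  · rfl
  · rfl

lemma ev_smul {f : MvPolynomial (Fin 2 × Fin n) K} (hf : MH (fun _ => 2) f) (s t : F)
    (u v : Fin n → F) : ev f ![s • u, t • v] = s ^ 2 * t ^ 2 * ev f ![u, v] := by
  unfold ev
  rw [aeval_def, eval₂_eq, aeval_def, eval₂_eq, Finset.mul_sum]
  apply Finset.sum_congr rfl
  intro m hm
  have h2 := hf m hm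
  have h3 : ∏ i ∈ m.support, ((![s • u, t • v] : Fin 2 → Fin n → F) i.1 i.2) ^ m i =
      s ^ 2 * t ^ 2 * ∏ i ∈ m.support, ((![u, v] : Fin 2 → Fin n → F) i.1 i.2) ^ m i := by
    have e1 : ∀ w : Fin 2 → Fin n → F, ∏ i ∈ m.support, (w i.1 i.2) ^ m i =
        ∏ i, (w i.1 i.2) ^ m i := by
      intro w
      apply Finset.prod_subset (Finset.subset_univ _)
      intro i _ hi
      rw [Finsupp.notMem_support_iff] at hi
      rw [hi, pow_zero]
    rw [e1, e1, Fintype.prod_prod_type, Fintype.prod_prod_type, Fin.prod_univ_two,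
      Fin.prod_univ_two]
    simp only [Matrix.cons_val_zero, Matrix.cons_val_one, Pi.smul_apply, smul_eq_mul, mul_pow]
    rw [Finset.prod_mul_distrib, Finset.prod_mul_distrib, Finset.prod_pow_eq_pow_sum,
      Finset.prod_pow_eq_pow_sum, h2 0, h2 1]
    ring
  rw [h3]
  ring

lemma ev_C (u : ι → Fin n → F) (x : K) :
    ev (C x : MvPolynomial (ι × Fin n) K) u = algebraMap K F x := by
  simp [ev]

lemma ev_X (u : ι → Fin n → F) (p : ι × Fin n) :
    ev (X p : MvPolynomial (ι × Fin n) K) u = u p.1 p.2 := by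
  simp [ev]

lemma ev_mul (f g : MvPolynomial (ι × Fin n) K) (u : ι → Fin n → F) :
    ev (f * g) u = ev f u * ev g u := by
  simp [ev]

lemma ev_prod {κ : Type} (s : Finset κ) (f : κ → MvPolynomial (ι × Fin n) K)
    (u : ι → Fin n → F) : ev (∏ i ∈ s, f i) u = ∏ i ∈ s, ev (f i) u := by
  simp [ev]

lemma ev_pow (f : MvPolynomial (ι × Fin n) K) (d : ℕ) (u : ι → Fin n → F) :
    ev (f ^ d) u = ev f u ^ d := by
  simp [ev]

end subst

/-- a finite family of forms representing an integral linear combination -/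
def RepG {K : Type} [Field K] {n : ℕ} (A : AbR K n) (ι : Type) [Fintype ι] (v : ι → ℤ) (D : ℕ) :
    Prop :=
  ∃ Fam : Finset (Fin n → MvPolynomial (ι × Fin n) K),
    (∀ C ∈ Fam, ∀ c, MH (fun _ => D) (C c)) ∧
    ∀ (F : Type) [Field F] [Algebra K F] (P : ι → A.Pt F),
      (∀ C ∈ Fam, ∃ s : F, (fun c => ev (C c) (fun j => (P j).1)) = s • (∑ j, v j • P j).1) ∧
      ∃ C ∈ Fam, ∃ c, ev (C c) (fun j => (P j).1) ≠ 0

section rep

variable {K : Type} [Field K] {n : ℕ} {A : AbR K n} {ι : Type} [Fintype ι] [DecidableEq ι]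

lemma ex_ne {F : Type} [Field F] [Algebra K F] (P : A.Pt F) : ∃ c, P.1 c ≠ 0 := by
  obtain ⟨i, hi, _⟩ := P.2.1
  exact ⟨i, by rw [hi]; exact one_ne_zero⟩

lemma spec' {F : Type} [Field F] [Algebra K F] (P Q : A.Pt F) : ∃ s : F, s ≠ 0 ∧
    ∀ i j, ev (A.Λ i j) ![P.1, Q.1] = s * ((P + Q).1 i * (P - Q).1 j) :=
  A.Λ_spec F P Q

/-- the common part of sum and difference -/
theorem rep_core {v v' : ι → ℤ} {D D' : ℕ} (h : RepG A ι v D) (h' : RepG A ι v' D') :
    RepG A ι (v + v') (2 * D + 2 * D') ∧ RepG A ι (v - v') (2 * D + 2 * D') := by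
  classical
  obtain ⟨Fam, hF1, hF2⟩ := h
  obtain ⟨Fam', hF1', hF2'⟩ := h'
  have hev : ∀ (F : Type) [Field F] [Algebra K F] (P : ι → A.Pt F), ∃ r : F, r ≠ 0 ∧
      (∀ p ∈ Fam, ∀ q ∈ Fam', ∃ s t : F, ∀ i j, ev (sb (A.Λ i j) p q) (fun j => (P j).1) =
        s ^ 2 * t ^ 2 * (r * ((∑ j, (v + v') j • P j).1 i * (∑ j, (v - v') j • P j).1 j))) ∧
      ∃ p ∈ Fam, ∃ q ∈ Fam', ∃ s t : F, s ≠ 0 ∧ t ≠ 0 ∧
        ∀ i j, ev (sb (A.Λ i j) p q) (fun j => (P j).1) =
        s ^ 2 * t ^ 2 * (r * ((∑ j, (v + v') j • P j).1 i * (∑ j, (v - v') j • P j).1 j)) := by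
    intro F _ _ P
    obtain ⟨g1, C, hC, c, hc⟩ := hF2 F P
    obtain ⟨g1', C', hC', c', hc'⟩ := hF2' F P
    have hsum : ∑ j, (v + v') j • P j = ∑ j, v j • P j + ∑ j, v' j • P j := by
      rw [← Finset.sum_add_distrib]
      exact Finset.sum_congr rfl (fun j _ => by rw [Pi.add_apply, add_zsmul])
    have hdif : ∑ j, (v - v') j • P j = ∑ j, v j • P j - ∑ j, v' j • P j := by
      rw [← Finset.sum_sub_distrib]
      exact Finset.sum_congr rfl (fun j _ => by rw [Pi.sub_apply, sub_zsmul, sub_eq_add_neg])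
    obtain ⟨r, hr, hspec⟩ := spec' (∑ j, v j • P j) (∑ j, v' j • P j)
    have key : ∀ (p q : Fin n → MvPolynomial (ι × Fin n) K) (s t : F),
        (fun c => ev (p c) (fun j => (P j).1)) = s • (∑ j, v j • P j).1 →
        (fun c => ev (q c) (fun j => (P j).1)) = t • (∑ j, v' j • P j).1 →
        ∀ i j, ev (sb (A.Λ i j) p q) (fun j => (P j).1) =
        s ^ 2 * t ^ 2 * (r * ((∑ j, (v + v') j • P j).1 i * (∑ j, (v - v') j • P j).1 j)) := by
      intro p q s t hs ht i j
      rw [ev_sb, hs, ht, ev_smul (A.Λ_hom i j), hspec, hsum, hdif]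
    refine ⟨r, hr, ?_, C, hC, C', hC', ?_⟩
    · intro p hp q hq
      obtain ⟨s, hs⟩ := g1 p hp
      obtain ⟨t, ht⟩ := g1' q hq
      exact ⟨s, t, key p q s t hs ht⟩
    · obtain ⟨s, hs⟩ := g1 C hC
      obtain ⟨t, ht⟩ := g1' C' hC'
      refine ⟨s, t, ?_, ?_, key C C' s t hs ht⟩
      · rintro rfl
        apply hc
        have := congrFun hs c
        simpa using this
      · rintro rfl
        apply hc'
        have := congrFun ht c'
        simpa using this
  constructor
  · refine ⟨(Finset.univ ×ˢ (Fam ×ˢ Fam')).image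
      (fun x : Fin n × _ × _ => fun i => sb (A.Λ i x.1) x.2.1 x.2.2), ?_, ?_⟩
    · intro C hC c
      rw [Finset.mem_image] at hC
      obtain ⟨⟨j, p, q⟩, hx, rfl⟩ := hC
      simp only [Finset.mem_product, Finset.mem_univ, true_and] at hx
      exact sb_hom (A.Λ_hom c j) (hF1 p hx.1) (hF1' q hx.2)
    · intro F _ _ P
      obtain ⟨r, hr, h1, C, hC, C', hC', s, t, hs, ht, h2⟩ := hev F P
      constructor
      · intro T hT
        rw [Finset.mem_image] at hT
        obtain ⟨⟨j, p, q⟩, hx, rfl⟩ := hT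
        simp only [Finset.mem_product, Finset.mem_univ, true_and] at hx
        obtain ⟨s, t, h3⟩ := h1 p hx.1 q hx.2
        refine ⟨s ^ 2 * t ^ 2 * (r * (∑ j, (v - v') j • P j).1 j), ?_⟩
        funext i
        simp only [Pi.smul_apply, smul_eq_mul]
        rw [h3]
        ring
      · obtain ⟨i, hi⟩ := ex_ne (∑ j, (v + v') j • P j)
        obtain ⟨j, hj⟩ := ex_ne (∑ j, (v - v') j • P j)
        refine ⟨_, Finset.mem_image.mpr ⟨(j, C, C'), by simp [hC, hC'], rfl⟩, i, ?_⟩
        simp only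
        rw [h2]
        exact mul_ne_zero (mul_ne_zero (pow_ne_zero _ hs) (pow_ne_zero _ ht))
          (mul_ne_zero hr (mul_ne_zero hi hj))
  · refine ⟨(Finset.univ ×ˢ (Fam ×ˢ Fam')).image
      (fun x : Fin n × _ × _ => fun j => sb (A.Λ x.1 j) x.2.1 x.2.2), ?_, ?_⟩
    · intro C hC c
      rw [Finset.mem_image] at hC
      obtain ⟨⟨i, p, q⟩, hx, rfl⟩ := hC
      simp only [Finset.mem_product, Finset.mem_univ, true_and] at hx
      exact sb_hom (A.Λ_hom i c) (hF1 p hx.1) (hF1' q hx.2)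
    · intro F _ _ P
      obtain ⟨r, hr, h1, C, hC, C', hC', s, t, hs, ht, h2⟩ := hev F P
      constructor
      · intro T hT
        rw [Finset.mem_image] at hT
        obtain ⟨⟨i, p, q⟩, hx, rfl⟩ := hT
        simp only [Finset.mem_product, Finset.mem_univ, true_and] at hx
        obtain ⟨s, t, h3⟩ := h1 p hx.1 q hx.2
        refine ⟨s ^ 2 * t ^ 2 * (r * (∑ j, (v + v') j • P j).1 i), ?_⟩
        funext j
        simp only [Pi.smul_apply, smul_eq_mul]
        rw [h3]
        ring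
      · obtain ⟨i, hi⟩ := ex_ne (∑ j, (v + v') j • P j)
        obtain ⟨j, hj⟩ := ex_ne (∑ j, (v - v') j • P j)
        refine ⟨_, Finset.mem_image.mpr ⟨(i, C, C'), by simp [hC, hC'], rfl⟩, j, ?_⟩
        simp only
        rw [h2]
        exact mul_ne_zero (mul_ne_zero (pow_ne_zero _ hs) (pow_ne_zero _ ht))
          (mul_ne_zero hr (mul_ne_zero hi hj))

theorem rep_add {v v' : ι → ℤ} {D D' : ℕ} (h : RepG A ι v D) (h' : RepG A ι v' D') :
    RepG A ι (v + v') (2 * D + 2 * D') := (rep_core h h').1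

theorem rep_sub {v v' : ι → ℤ} {D D' : ℕ} (h : RepG A ι v D) (h' : RepG A ι v' D') :
    RepG A ι (v - v') (2 * D + 2 * D') := (rep_core h h').2

lemma mh_X (l : ι) (c : Fin n) (i : ι) :
    IsWeightedHomogeneous (wt ι n i) (X (l, c) : MvPolynomial (ι × Fin n) K)
      (if l = i then 1 else 0) := by
  have := isWeightedHomogeneous_X K (wt ι n i) (l, c)
  exact this

theorem rep_single (j : ι) : RepG A ι (Pi.single j 1) 1 := by
  classical
  refine ⟨(Finset.univ : Finset (ι → Fin n)).image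
    (fun c t => X (j, t) * ∏ l ∈ Finset.univ.erase j, X (l, c l)), ?_, ?_⟩
  · intro C hC t
    rw [Finset.mem_image] at hC
    obtain ⟨c, _, rfl⟩ := hC
    rw [mh_iff]
    intro i
    have h1 : IsWeightedHomogeneous (wt ι n i)
        (∏ l ∈ Finset.univ.erase j, (X (l, c l) : MvPolynomial (ι × Fin n) K))
        (∑ l ∈ Finset.univ.erase j, if l = i then 1 else 0) :=
      IsWeightedHomogeneous.prod _ _ _ (fun l _ => mh_X l (c l) i)
    have h2 := (mh_X (K := K) j t i).mul h1
    have h3 : (if j = i then 1 else 0) + (∑ l ∈ Finset.univ.erase j, if l = i then 1 else 0) =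
        1 := by
      rw [Finset.add_sum_erase _ (fun l => if l = i then 1 else 0) (Finset.mem_univ j)]
      simp
    rw [h3] at h2
    exact h2
  · intro F _ _ P
    have hsum : ∑ l, (Pi.single j 1 : ι → ℤ) l • P l = P j := by
      rw [Finset.sum_eq_single j]
      · simp
      · intro l _ hl
        simp [hl]
      · simp
    have hev : ∀ (c : ι → Fin n) (t : Fin n),
        ev (X (j, t) * ∏ l ∈ Finset.univ.erase j, X (l, c l) :
          MvPolynomial (ι × Fin n) K) (fun j => (P j).1) =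
        (∏ l ∈ Finset.univ.erase j, (P l).1 (c l)) * (P j).1 t := by
      intro c t
      rw [ev_mul, ev_prod, ev_X, mul_comm]
      simp only [ev_X]
    rw [hsum]
    constructor
    · intro T hT
      rw [Finset.mem_image] at hT
      obtain ⟨c, _, rfl⟩ := hT
      refine ⟨∏ l ∈ Finset.univ.erase j, (P l).1 (c l), ?_⟩
      funext t
      exact hev c t
    · choose c hc using fun l => ex_ne (P l)
      refine ⟨_, Finset.mem_image_of_mem _ (Finset.mem_univ c), c j, ?_⟩
      rw [hev]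
      exact mul_ne_zero (Finset.prod_ne_zero_iff.mpr (fun l _ => hc l)) (hc j)

/-- base change of a rational point -/
def bc {F : Type} [Field F] [Algebra K F] (P : A.Pt K) : A.Pt F :=
  ⟨fun i => algebraMap K F (P.1 i), by
    obtain ⟨i, h1, h2⟩ := P.2.1
    refine ⟨⟨i, ?_, fun j hj => ?_⟩, fun i => ?_⟩
    · change algebraMap K F (P.1 i) = 1
      rw [h1, map_one]
    · change algebraMap K F (P.1 j) = 0
      rw [h2 j hj, map_zero]
    · have h3 := P.2.2 i
      have h4 : aeval (fun i => algebraMap K F (P.1 i)) (A.eqn i) =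
          algebraMap K F (aeval P.1 (A.eqn i)) := aeval_algebraMap_apply F P.1 (A.eqn i)
      rw [h4, h3, map_zero]⟩

theorem rep_zero (D : ℕ) : RepG A ι 0 D := by
  classical
  refine ⟨(Finset.univ : Finset (Fin n × (ι → Fin n))).image
    (fun x j => C (ev (A.Λ x.1 j) ![(0 : A.Pt K).1, (0 : A.Pt K).1]) * ∏ l, X (l, x.2 l) ^ D),
    ?_, ?_⟩
  · intro T hT t
    rw [Finset.mem_image] at hT
    obtain ⟨⟨i0, c⟩, _, rfl⟩ := hT
    rw [mh_iff]
    intro i
    have h1 : IsWeightedHomogeneous (wt ι n i)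
        (∏ l, (X (l, c l) : MvPolynomial (ι × Fin n) K) ^ D)
        (∑ l, D • (if l = i then 1 else 0)) :=
      IsWeightedHomogeneous.prod _ _ _ (fun l _ => (mh_X l (c l) i).pow D)
    have h3 : (∑ l : ι, D • (if l = i then 1 else 0)) = D := by
      simp
    rw [h3] at h1
    have h4 := (isWeightedHomogeneous_C (wt ι n i)
      (ev (A.Λ i0 t) ![(0 : A.Pt K).1, (0 : A.Pt K).1])).mul h1
    rw [zero_add] at h4
    exact h4
  · intro F _ _ P
    have hsum : ∑ l, (0 : ι → ℤ) l • P l = 0 := by simp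
    obtain ⟨r, hr, hspec⟩ := spec' (bc (F := F) (0 : A.Pt K)) (bc (F := F) (0 : A.Pt K))
    rw [sub_self] at hspec
    have hΛ : ∀ i j, algebraMap K F (ev (A.Λ i j) ![(0 : A.Pt K).1, (0 : A.Pt K).1]) =
        r * ((bc (F := F) (0 : A.Pt K) + bc (F := F) (0 : A.Pt K)).1 i * (0 : A.Pt F).1 j) := by
      intro i j
      rw [← hspec i j]
      unfold ev
      rw [← aeval_algebraMap_apply]
      congr 2
      funext t
      obtain ⟨t1, t2⟩ := t
      fin_cases t1
      · rfl
      · rfl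
    have hev : ∀ (i : Fin n) (c : ι → Fin n) (j : Fin n),
        ev (C (ev (A.Λ i j) ![(0 : A.Pt K).1, (0 : A.Pt K).1]) * ∏ l, X (l, c l) ^ D :
          MvPolynomial (ι × Fin n) K) (fun j => (P j).1) =
        r * (bc (F := F) (0 : A.Pt K) + bc (F := F) (0 : A.Pt K)).1 i *
          (∏ l, (P l).1 (c l) ^ D) * (0 : A.Pt F).1 j := by
      intro i c j
      rw [ev_mul, ev_C, ev_prod, hΛ]
      simp only [ev_pow, ev_X]
      ring
    rw [hsum]
    constructor
    · intro T hT
      rw [Finset.mem_image] at hT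
      obtain ⟨⟨i, c⟩, _, rfl⟩ := hT
      refine ⟨r * (bc (F := F) (0 : A.Pt K) + bc (F := F) (0 : A.Pt K)).1 i *
          (∏ l, (P l).1 (c l) ^ D), ?_⟩
      funext t
      exact hev i c t
    · choose c hc using fun l => ex_ne (P l)
      obtain ⟨i, hi⟩ := ex_ne (bc (F := F) (0 : A.Pt K) + bc (F := F) (0 : A.Pt K))
      obtain ⟨j, hj⟩ := ex_ne (0 : A.Pt F)
      refine ⟨_, Finset.mem_image_of_mem _ (Finset.mem_univ (i, c)), j, ?_⟩
      rw [hev]
      exact mul_ne_zero (mul_ne_zero (mul_ne_zero hr hi)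
        (Finset.prod_ne_zero_iff.mpr (fun l _ => pow_ne_zero _ (hc l)))) hj

theorem rep_nat (j : ι) :
    ∀ N : ℕ, 1 ≤ N → ∃ D : ℕ, 1 ≤ D ∧ 2 * D + 1 ≤ 3 * N ^ 2 ∧
      RepG A ι (Pi.single j (N : ℤ)) D := by
  intro N
  induction N using Nat.strong_induction_on with
  | _ N ih =>
    intro hN
    rcases Nat.lt_or_ge N 2 with h2 | h2
    · have : N = 1 := by omega
      subst this
      exact ⟨1, le_rfl, by norm_num, by simpa using rep_single j⟩
    · obtain ⟨M, hM⟩ := Nat.even_or_odd' N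
      rcases hM with hM | hM
      · obtain ⟨D, h1, h3, h4⟩ := ih M (by omega) (by omega)
        refine ⟨2 * D + 2 * D, by omega, ?_, ?_⟩
        · rw [hM]; nlinarith
        · have := rep_add h4 h4
          rw [← Pi.single_add] at this
          have e : ((M : ℤ) + M) = (N : ℤ) := by rw [hM]; push_cast; ring
          rwa [e] at this
      · obtain ⟨D, h1, h3, h4⟩ := ih M (by omega) (by omega)
        obtain ⟨D', h1', h3', h4'⟩ := ih (M + 1) (by omega) (by omega)
        refine ⟨2 * D + 2 * D', by omega, ?_, ?_⟩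
        · rw [hM]; nlinarith
        · have := rep_add h4 h4'
          rw [← Pi.single_add] at this
          have e : ((M : ℤ) + ((M + 1 : ℕ) : ℤ)) = (N : ℤ) := by rw [hM]; push_cast; ring
          rwa [e] at this

theorem rep_int (j : ι) (v : ℤ) :
    ∃ D : ℕ, 1 ≤ D ∧ (D : ℤ) ≤ 3 * (1 + v ^ 2) ∧ RepG A ι (Pi.single j v) D := by
  rcases lt_trichotomy v 0 with h | h | h
  · obtain ⟨N, hN⟩ := Int.eq_ofNat_of_zero_le (show 0 ≤ -v by omega)
    obtain ⟨D, h1, h2, h3⟩ := rep_nat (A := A) j N (by omega)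
    refine ⟨2 * 0 + 2 * D, by omega, ?_, ?_⟩
    · have h4 : (2 * (D : ℤ) + 1) ≤ 3 * (N : ℤ) ^ 2 := by exact_mod_cast h2
      have h5 : v ^ 2 = (N : ℤ) ^ 2 := by rw [← hN]; ring
      rw [h5]
      push_cast
      linarith
    · have := rep_sub (rep_zero (A := A) (ι := ι) 0) h3
      rw [zero_sub, ← Pi.single_neg] at this
      have e : -(N : ℤ) = v := by omega
      rwa [e] at this
  · subst h
    refine ⟨1, le_rfl, by norm_num, ?_⟩
    rw [Pi.single_zero]
    exact rep_zero 1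
  · obtain ⟨N, hN⟩ := Int.eq_ofNat_of_zero_le h.le
    obtain ⟨D, h1, h2, h3⟩ := rep_nat (A := A) j N (by omega)
    refine ⟨D, h1, ?_, ?_⟩
    · have h4 : (2 * (D : ℤ) + 1) ≤ 3 * (N : ℤ) ^ 2 := by exact_mod_cast h2
      rw [hN]
      nlinarith [sq_nonneg (N : ℤ)]
    · rwa [hN]

/-- the constants -/
def cst : ℕ → ℕ
  | 0 => 1
  | m + 1 => 2 * cst m + 6

theorem rep_finset (v : ι → ℤ) (s : Finset (ι)) :
    ∃ D : ℕ, 1 ≤ D ∧ (D : ℤ) ≤ cst s.card * (1 + ∑ j ∈ s, v j ^ 2) ∧
      RepG A ι (∑ j ∈ s, Pi.single j (v j)) D := by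
  classical
  induction s using Finset.induction_on with
  | empty => exact ⟨1, le_rfl, by simp [cst], by simpa using rep_zero 1⟩
  | insert j s hj ih =>
    obtain ⟨D, h1, h2, h3⟩ := ih
    obtain ⟨D', h1', h2', h3'⟩ := rep_int (A := A) j (v j)
    refine ⟨2 * D' + 2 * D, by omega, ?_, ?_⟩
    · rw [Finset.sum_insert hj, Finset.card_insert_of_notMem hj]
      simp only [cst]
      push_cast
      have h5 : 0 ≤ ∑ j ∈ s, v j ^ 2 := Finset.sum_nonneg (fun _ _ => sq_nonneg _)
      have h6 : 0 ≤ v j ^ 2 := sq_nonneg _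
      have h7 : (0 : ℤ) ≤ cst s.card := by positivity
      nlinarith [mul_nonneg h7 h6, mul_nonneg h7 h5]
    · rw [Finset.sum_insert hj]
      exact rep_add h3' h3

end rep

section comp

variable {K : Type} [Field K] {n : ℕ}

/-- values of multihomogeneous polynomials at rescaled vectors -/
lemma ev_smul_all {F : Type} [Field F] [Algebra K F] {ι : Type} [Fintype ι] {d : ι → ℕ}
    {f : MvPolynomial (ι × Fin n) K} (hf : MH d f) (s : ι → F) (u : ι → Fin n → F) :
    ev f (fun i => s i • u i) = (∏ i, s i ^ d i) * ev f u := by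
  unfold ev
  rw [aeval_def, eval₂_eq', aeval_def, eval₂_eq', Finset.mul_sum]
  apply Finset.sum_congr rfl
  intro m hm
  have h2 := hf m hm
  have h3 : ∏ i : ι × Fin n, ((s i.1 • u i.1) i.2) ^ m i =
      (∏ i, s i ^ d i) * ∏ i : ι × Fin n, (u i.1 i.2) ^ m i := by
    rw [Fintype.prod_prod_type, Fintype.prod_prod_type, ← Finset.prod_mul_distrib]
    refine Finset.prod_congr rfl fun i _ => ?_
    simp only [Pi.smul_apply, smul_eq_mul, mul_pow]
    rw [Finset.prod_mul_distrib, Finset.prod_pow_eq_pow_sum, h2 i]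
  rw [h3]
  ring

variable {k ρ : ℕ}

/-- substitution of one-group forms -/
noncomputable def cmpR (f : MvPolynomial ((Fin k × Fin ρ) × Fin n) K)
    (T : Fin k × Fin ρ → Fin n → MvPolynomial (Fin n) K) : MvPolynomial (Fin k × Fin n) K :=
  bind₁ (fun t : (Fin k × Fin ρ) × Fin n => rename (Prod.mk t.1.1) (T t.1 t.2)) f

lemma rename_hom {f : MvPolynomial (Fin n) K} {D : ℕ} (hf : f.IsHomogeneous D) (j i : Fin k) :
    IsWeightedHomogeneous (wt (Fin k) n i) (rename (Prod.mk j) f) (if j = i then D else 0) := by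
  classical
  intro m hm
  obtain ⟨u, hu, hcu⟩ := coeff_rename_ne_zero _ _ _ hm
  have h1 := hf hcu
  rw [weight_wt, ← hu]
  have h2 : ∀ c, (Finsupp.mapDomain (Prod.mk j) u) (j, c) = u c := fun c =>
    Finsupp.mapDomain_apply (Prod.mk_right_injective j) u c
  by_cases hji : j = i
  · subst hji
    rw [if_pos rfl]
    simp only [h2]
    rw [← h1, Finsupp.weight_apply, Finsupp.sum_fintype _ _ (by simp)]
    simp
  · rw [if_neg hji]
    refine Finset.sum_eq_zero fun c _ => ?_
    apply Finsupp.mapDomain_of_notMem_range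
    rintro ⟨c', hc'⟩
    exact hji (Prod.ext_iff.1 hc').1

lemma cmpR_hom {f : MvPolynomial ((Fin k × Fin ρ) × Fin n) K} {D : ℕ}
    (hf : MH (fun _ => D) f) {T : Fin k × Fin ρ → Fin n → MvPolynomial (Fin n) K} {E : Fin ρ → ℕ}
    (hT : ∀ p c, (T p c).IsHomogeneous (E p.2)) :
    MH (fun _ => D * ∑ a, E a) (cmpR f T) := by
  classical
  rw [mh_iff]
  intro i
  unfold cmpR
  rw [← aeval_eq_bind₁, aeval_def, eval₂_eq']
  apply IsWeightedHomogeneous.sum
  intro m hm
  have h2 := hf m hm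
  have h3 : IsWeightedHomogeneous (wt (Fin k) n i)
      (∏ t : (Fin k × Fin ρ) × Fin n, (rename (Prod.mk t.1.1) (T t.1 t.2)) ^ m t)
      (∑ t : (Fin k × Fin ρ) × Fin n, m t • (if t.1.1 = i then E t.1.2 else 0)) := by
    apply IsWeightedHomogeneous.prod
    rintro ⟨t1, t2⟩ _
    apply IsWeightedHomogeneous.pow
    exact rename_hom (hT t1 t2) t1.1 i
  have h4 : (∑ t : (Fin k × Fin ρ) × Fin n, m t • (if t.1.1 = i then E t.1.2 else 0)) =
      D * ∑ a, E a := by
    rw [Fintype.sum_prod_type]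
    have h5 : ∀ p : Fin k × Fin ρ, (∑ c : Fin n, m (p, c) • (if p.1 = i then E p.2 else 0)) =
        if p.1 = i then D * E p.2 else 0 := by
      intro p
      rw [← Finset.sum_smul, h2 p]
      split_ifs with h
      · rfl
      · rw [smul_zero]
    simp only [h5]
    rw [Fintype.sum_prod_type, Finset.sum_eq_single i]
    · simp [Finset.mul_sum]
    · intro l _ hl
      simp [hl]
    · simp
  rw [h4] at h3
  have h6 := (isWeightedHomogeneous_C (wt (Fin k) n i) (coeff m f)).mul h3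
  rw [zero_add] at h6
  exact h6

lemma ev_cmpR {F : Type} [Field F] [Algebra K F] (f : MvPolynomial ((Fin k × Fin ρ) × Fin n) K)
    (T : Fin k × Fin ρ → Fin n → MvPolynomial (Fin n) K) (u : Fin k → Fin n → F) :
    ev (cmpR f T) u = ev f (fun p c => aeval (u p.1) (T p c)) := by
  unfold ev cmpR
  rw [aeval_bind₁]
  congr 2
  funext t
  rw [aeval_rename]
  rfl

variable {A : AbR K n}

lemma rep_succ {v : Fin k → Fin A.ρ → ℤ} {D : ℕ} (h : RepR A k v D) : RepR A k v (D + 1) := by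
  classical
  obtain ⟨Fam, h1, h2⟩ := h
  refine ⟨(Fam ×ˢ (Finset.univ : Finset (Fin k → Fin n))).image
    (fun x t => x.1 t * ∏ l, X (l, x.2 l)), ?_, ?_⟩
  · intro C hC t
    rw [Finset.mem_image] at hC
    obtain ⟨⟨C, c⟩, hx, rfl⟩ := hC
    simp only [Finset.mem_product, Finset.mem_univ, and_true] at hx
    rw [mh_iff]
    intro i
    have h3 : IsWeightedHomogeneous (wt (Fin k) n i)
        (∏ l, (X (l, c l) : MvPolynomial (Fin k × Fin n) K))
        (∑ l, if l = i then 1 else 0) :=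
      IsWeightedHomogeneous.prod _ _ _ (fun l _ => mh_X l (c l) i)
    have h4 := (mh_iff.1 (h1 C hx t) i).mul h3
    have h5 : (∑ l : Fin k, if l = i then 1 else 0) = 1 := by simp
    rw [h5] at h4
    exact h4
  · intro F _ _ P
    obtain ⟨h3, C, hC, t, ht⟩ := h2 F P
    have hev : ∀ (C : Fin n → MvPolynomial (Fin k × Fin n) K) (c : Fin k → Fin n) (t : Fin n),
        ev (C t * ∏ l, X (l, c l)) (fun j => (P j).1) =
        (∏ l, (P l).1 (c l)) * ev (C t) (fun j => (P j).1) := by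
      intro C c t
      rw [ev_mul, ev_prod, mul_comm]
      simp only [ev_X]
    constructor
    · intro T hT
      rw [Finset.mem_image] at hT
      obtain ⟨⟨C, c⟩, hx, rfl⟩ := hT
      simp only [Finset.mem_product, Finset.mem_univ, and_true] at hx
      obtain ⟨s, hs⟩ := h3 C hx
      refine ⟨(∏ l, (P l).1 (c l)) * s, ?_⟩
      funext t
      rw [hev, mul_smul, Pi.smul_apply, ← hs, smul_eq_mul]
    · choose c hc using fun l => ex_ne (P l)
      refine ⟨_, Finset.mem_image.mpr ⟨(C, c), by simp [hC], rfl⟩, t, ?_⟩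
      rw [hev]
      exact mul_ne_zero (Finset.prod_ne_zero_iff.mpr (fun l _ => hc l)) ht

theorem rep_comp {E : Fin A.ρ → ℕ} {Fm : Fin A.ρ → Finset (Fin n → MvPolynomial (Fin n) K)}
    (hE : ∀ a, ∀ C ∈ Fm a, ∀ c, (C c).IsHomogeneous (E a))
    (hF : ∀ a, ∀ (F : Type) [Field F] [Algebra K F] (P : A.Pt F),
      (∀ C ∈ Fm a, ∃ s : F, (fun c => aeval P.1 (C c)) = s • (A.end' F (A.basis a) P).1) ∧
      ∃ C ∈ Fm a, ∃ c, aeval P.1 (C c) ≠ 0)
    {v : Fin k → Fin A.ρ → ℤ} {D : ℕ}
    (h : RepG A (Fin k × Fin A.ρ) (fun p => v p.1 p.2) D) : RepR A k v (D * ∑ a, E a) := by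
  classical
  obtain ⟨Fam, h1, h2⟩ := h
  refine ⟨(Fam ×ˢ (Fintype.piFinset fun p : Fin k × Fin A.ρ => Fm p.2)).image
    (fun x t => cmpR (x.1 t) x.2), ?_, ?_⟩
  · intro C hC t
    rw [Finset.mem_image] at hC
    obtain ⟨⟨C, T⟩, hx, rfl⟩ := hC
    simp only [Finset.mem_product, Fintype.mem_piFinset] at hx
    exact cmpR_hom (h1 C hx.1 t) (fun p c => hE p.2 (T p) (hx.2 p) c)
  · intro F _ _ P
    set Q : Fin k × Fin A.ρ → A.Pt F := fun p => A.end' F (A.basis p.2) (P p.1) with hQ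
    obtain ⟨h3, C₀, hC₀, t₀, ht₀⟩ := h2 F Q
    have hlin : ∑ p, v p.1 p.2 • Q p = A.lin v P := by
      rw [AbR.lin, Fintype.sum_prod_type]
    rw [hlin] at h3
    have hev : ∀ (C : Fin n → MvPolynomial ((Fin k × Fin A.ρ) × Fin n) K)
        (T : Fin k × Fin A.ρ → Fin n → MvPolynomial (Fin n) K) (s : Fin k × Fin A.ρ → F),
        C ∈ Fam → (∀ p, (fun c => aeval (P p.1).1 (T p c)) = s p • (Q p).1) → ∀ t,
        ev (cmpR (C t) T) (fun j => (P j).1) =
          (∏ p, s p ^ D) * ev (C t) (fun p => (Q p).1) := by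
      intro C T s hC hs t
      rw [ev_cmpR, ← ev_smul_all (h1 C hC t)]
      congr 1
      funext p
      exact hs p
    constructor
    · intro S hS
      rw [Finset.mem_image] at hS
      obtain ⟨⟨C, T⟩, hx, rfl⟩ := hS
      simp only [Finset.mem_product, Fintype.mem_piFinset] at hx
      obtain ⟨r, hr⟩ := h3 C hx.1
      choose s hs using fun p : Fin k × Fin A.ρ => (hF p.2 F (P p.1)).1 (T p) (hx.2 p)
      refine ⟨(∏ p, s p ^ D) * r, ?_⟩
      funext t
      simp only
      rw [hev C T s hx.1 hs t, mul_smul, Pi.smul_apply, ← hr, smul_eq_mul]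
    · choose T hT c hc using fun p : Fin k × Fin A.ρ => (hF p.2 F (P p.1)).2
      choose s hs using fun p : Fin k × Fin A.ρ => (hF p.2 F (P p.1)).1 (T p) (hT p)
      refine ⟨_, Finset.mem_image.mpr ⟨(C₀, T), ?_, rfl⟩, t₀, ?_⟩
      · simp only [Finset.mem_product, Fintype.mem_piFinset]
        exact ⟨hC₀, hT⟩
      · simp only
        rw [hev C₀ T s hC₀ hs t₀]
        refine mul_ne_zero (Finset.prod_ne_zero_iff.mpr fun p _ => pow_ne_zero _ ?_) ht₀
        intro h0
        apply hc p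
        have := congrFun (hs p) (c p)
        rw [h0, zero_smul] at this
        simpa using this

end comp

end Pool.Agent.TH954.X.FamR

namespace Pool.Agent.TH954.X

/-- **Job 2793.** -/
theorem famR : T_famR := by
  classical
  intro K _ n A k
  choose E Fm hE hF using A.act_forms
  refine ⟨FamR.cst (k * A.ρ) * (∑ a, E a) + 1, fun v => ?_⟩
  obtain ⟨D, h1, h2, h3⟩ := FamR.rep_finset (A := A) (fun p : Fin k × Fin A.ρ => v p.1 p.2)
    Finset.univ
  have e : ∑ p : Fin k × Fin A.ρ, Pi.single p (v p.1 p.2) =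
      (fun p : Fin k × Fin A.ρ => v p.1 p.2) :=
    Finset.univ_sum_single (fun p : Fin k × Fin A.ρ => v p.1 p.2)
  rw [e] at h3
  rw [Fintype.sum_prod_type, Finset.card_univ, Fintype.card_prod, Fintype.card_fin,
    Fintype.card_fin] at h2
  refine ⟨D * (∑ a, E a) + 1, by omega, ?_, FamR.rep_succ (FamR.rep_comp hE (fun a F _ _ P =>
    hF a F P) h3)⟩
  have h4 : (0 : ℤ) ≤ ∑ j, ∑ a, v j a ^ 2 :=
    Finset.sum_nonneg fun _ _ => Finset.sum_nonneg fun _ _ => sq_nonneg _
  have h5 : (0 : ℤ) ≤ ((∑ a, E a : ℕ) : ℤ) := Int.natCast_nonneg _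
  have h6 := mul_le_mul_of_nonneg_right h2 h5
  push_cast at h6 h5 ⊢
  nlinarith

end Pool.Agent.TH954.X

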