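import Pool.Agent.TH954.X.Defs

/-!
# Choice of `R`-independent vectors among `ℤ`-independent ones
-/

set_option autoImplicit false

namespace Pool.Agent.TH954.X

namespace Gre

open Polynomial

/-- a left multiple of a nonzero element is a positive integer -/
theorem mul_int_aux {R : Type} [Ring R] [NoZeroDivisors R] {c : R} (hc : c ≠ 0) (n : ℕ) :
    ∀ p : ℤ[X], p.natDegree ≤ n → p ≠ 0 → aeval c p = 0 →
      ∃ (c' : R) (m : ℕ), 0 < m ∧ c' * c = (m : R) := by
  induction n with
  | zero =>
    intro p hp hp0 hpc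
    have h1 := eq_C_of_natDegree_le_zero hp
    rw [h1, aeval_C] at hpc
    have h2 : p.coeff 0 ≠ 0 := by
      intro h
      rw [h, C_0] at h1
      exact hp0 h1
    have h3 : ((p.coeff 0 : ℤ) : R) = 0 := by simpa using hpc
    rcases Int.eq_nat_or_neg (p.coeff 0) with ⟨m, hm | hm⟩
    · refine ⟨0, m, ?_, ?_⟩
      · rcases Nat.eq_zero_or_pos m with h | h
        · rw [h] at hm; exact absurd (by simpa using hm) h2
        · exact h
      · rw [hm] at h3
        rw [zero_mul]
        simpa using h3.symm
    · refine ⟨0, m, ?_, ?_⟩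
      · rcases Nat.eq_zero_or_pos m with h | h
        · rw [h] at hm; exact absurd (by simpa using hm) h2
        · exact h
      · rw [hm] at h3
        rw [zero_mul]
        have : (m : R) = 0 := by simpa using h3
        exact this.symm
  | succ n ih =>
    intro p hp hp0 hpc
    have hdiv := divX_mul_X_add p
    have h4 : aeval c (divX p) * c + ((p.coeff 0 : ℤ) : R) = 0 := by
      have := hpc
      rw [← hdiv] at this
      simpa using this
    by_cases h0 : p.coeff 0 = 0
    · rw [h0, Int.cast_zero, add_zero] at h4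
      have h5 : aeval c (divX p) = 0 := (mul_eq_zero.1 h4).resolve_right hc
      have h6 : divX p ≠ 0 := by
        intro h
        rw [h, h0, zero_mul, C_0, add_zero] at hdiv
        exact hp0 hdiv.symm
      refine ih (divX p) ?_ h6 h5
      rw [natDegree_divX_eq_natDegree_tsub_one]
      omega
    · rcases Int.eq_nat_or_neg (p.coeff 0) with ⟨m, hm | hm⟩
      · refine ⟨-aeval c (divX p), m, ?_, ?_⟩
        · rcases Nat.eq_zero_or_pos m with h | h
          · rw [h] at hm; exact absurd (by simpa using hm) h0
          · exact h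
        · rw [hm] at h4
          rw [neg_mul]
          have := eq_neg_of_add_eq_zero_left h4
          rw [this]
          simp
      · refine ⟨aeval c (divX p), m, ?_, ?_⟩
        · rcases Nat.eq_zero_or_pos m with h | h
          · rw [h] at hm; exact absurd (by simpa using hm) h0
          · exact h
        · rw [hm] at h4
          have := eq_neg_of_add_eq_zero_left h4
          rw [this]
          simp

theorem mul_int {R : Type} [Ring R] [NoZeroDivisors R] [Module.Finite ℤ R] {c : R} (hc : c ≠ 0) :
    ∃ (c' : R) (m : ℕ), 0 < m ∧ c' * c = (m : R) := by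
  obtain ⟨p, hp, hpc⟩ := IsIntegral.of_finite ℤ c
  exact mul_int_aux hc p.natDegree p le_rfl hp.ne_zero (by rw [aeval_def]; exact hpc)

/-- extension of an independent family -/
theorem extend {R : Type} [Ring R] [NoZeroDivisors R] [Module.Finite ℤ R] {k i : ℕ}
    {v : Fin i → Fin k → R} (hv : LinearIndependent R v) {u : Fin k → R}
    (hu : ∀ m : ℕ, 0 < m → m • u ∉ Submodule.span R (Set.range v)) :
    LinearIndependent R (Fin.snoc v u : Fin (i + 1) → Fin k → R) := by
  apply LinearIndependent.finSnoc' v u hv
  intro c y hy hcy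
  by_contra hc
  obtain ⟨c', m, hm, hcm⟩ := mul_int hc
  apply hu m hm
  have h1 : c' • (c • u + y) = 0 := by rw [hcy, smul_zero]
  rw [smul_add, smul_smul, hcm, Nat.cast_smul_eq_nsmul] at h1
  rw [eq_neg_of_add_eq_zero_left h1]
  exact Submodule.neg_mem _ (Submodule.smul_mem _ _ hy)

/-- the rank of the span -/
theorem exists_free {R : Type} [Ring R] {ρ : ℕ} (b : Module.Basis (Fin ρ) ℤ R) {k i : ℕ}
    (v : Fin i → Fin k → R) (w : Fin (ρ * i + 1) → Fin k → R) (hw : LinearIndependent ℤ w) :
    ∃ l, ∀ m : ℕ, 0 < m → m • w l ∉ Submodule.span R (Set.range v) := by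
  classical
  by_contra hcon
  push Not at hcon
  choose m hm hmem using hcon
  set w' : Fin (ρ * i + 1) → Fin k → R := fun l => m l • w l with hw'
  have hind : LinearIndependent ℤ w' := by
    rw [Fintype.linearIndependent_iff]
    intro g hg l
    rw [Fintype.linearIndependent_iff] at hw
    have h1 := hw (fun l => g l * m l) (by
      rw [← hg]
      apply Finset.sum_congr rfl
      intro l _
      simp only [hw']
      rw [mul_smul, natCast_zsmul]) l
    rcases mul_eq_zero.1 h1 with h2 | h2
    · exact h2
    · have := hm l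
      omega
  set f : Fin ρ × Fin i → Fin k → R := fun p => b p.1 • v p.2 with hf
  have hle : Set.range w' ≤ Submodule.span ℤ (Set.range f) := by
    rintro _ ⟨l, rfl⟩
    obtain ⟨x, hx⟩ := (Submodule.mem_span_range_iff_exists_fun R).1 (hmem l)
    show m l • w l ∈ Submodule.span ℤ (Set.range f)
    rw [← hx]
    apply Submodule.sum_mem
    intro j _
    have h2 : x j • v j = ∑ a, b.repr (x j) a • (b a • v j) := by
      conv_lhs => rw [← b.sum_repr (x j)]
      rw [Finset.sum_smul]
      apply Finset.sum_congr rfl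
      intro a _
      rw [smul_assoc]
    rw [h2]
    apply Submodule.sum_mem
    intro a _
    exact Submodule.smul_mem _ _ (Submodule.subset_span ⟨(a, j), rfl⟩)
  have hfin : Fintype (Set.range f) := Set.fintypeRange f
  have h3 := linearIndependent_le_span' w' hind (Set.range f) hle
  rw [Cardinal.mk_fintype, Fintype.card_fin] at h3
  have h4 : ρ * i + 1 ≤ Fintype.card (Set.range f) := by exact_mod_cast h3
  have h5 : Fintype.card (Set.range f) ≤ Fintype.card (Fin ρ × Fin i) := Fintype.card_range_le f
  rw [Fintype.card_prod, Fintype.card_fin, Fintype.card_fin] at h5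
  omega

/-- greedy choice -/
theorem greedy_aux {R : Type} [Ring R] [NoZeroDivisors R] [Module.Finite ℤ R] {ρ : ℕ}
    (hρ : 0 < ρ) (b : Module.Basis (Fin ρ) ℤ R) {k : ℕ} (w : Fin (k * ρ) → Fin k → R)
    (hw : LinearIndependent ℤ w) (i : ℕ) (hi : i ≤ k) :
    ∃ σ : Fin i → Fin (k * ρ), LinearIndependent R (fun j => w (σ j)) ∧
      ∀ j, (σ j : ℕ) ≤ ρ * j := by
  induction i with
  | zero => exact ⟨Fin.elim0, linearIndependent_empty_type, fun j => j.elim0⟩
  | succ i ih =>
    obtain ⟨σ, hσ, hb⟩ := ih (by omega)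
    have hlt : ρ * i + 1 ≤ k * ρ := by
      have : ρ * (i + 1) ≤ ρ * k := Nat.mul_le_mul_left ρ hi
      rw [mul_comm k ρ]
      calc ρ * i + 1 ≤ ρ * i + ρ := by omega
        _ = ρ * (i + 1) := by ring
        _ ≤ ρ * k := this
    obtain ⟨l, hl⟩ := exists_free b (fun j => w (σ j)) (fun l => w (Fin.castLE hlt l))
      (hw.comp _ (Fin.castLE_injective hlt))
    refine ⟨Fin.snoc σ (Fin.castLE hlt l), ?_, ?_⟩
    · have h1 := extend hσ hl
      have h2 : (fun j => w ((Fin.snoc σ (Fin.castLE hlt l) : Fin (i + 1) → Fin (k * ρ)) j)) =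
          (Fin.snoc (fun j => w (σ j)) (w (Fin.castLE hlt l)) : Fin (i + 1) → Fin k → R) := by
        funext j
        refine Fin.lastCases ?_ (fun j => ?_) j
        · rw [Fin.snoc_last, Fin.snoc_last]
        · rw [Fin.snoc_castSucc, Fin.snoc_castSucc]
      rw [h2]
      exact h1
    · intro j
      refine Fin.lastCases ?_ (fun j => ?_) j
      · rw [Fin.snoc_last, Fin.val_last, Fin.val_castLE]
        omega
      · rw [Fin.snoc_castSucc]
        exact hb j

end Gre

open Gre in
theorem greedy : T_greedy := by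
  intro R _ _ ρ hρ b k w hw d
  have hfin : Module.Finite ℤ R := Module.Finite.of_basis b
  -- sort
  set τ : Equiv.Perm (Fin (k * ρ)) := Tuple.sort (OrderDual.toDual ∘ d) with hτ
  have hmono : ∀ a c : Fin (k * ρ), a ≤ c → d (τ c) ≤ d (τ a) := by
    intro a c hac
    exact Tuple.monotone_sort (OrderDual.toDual ∘ d) hac
  obtain ⟨σ, hσ, hb⟩ := greedy_aux hρ b (fun l => w (τ l)) (hw.comp _ τ.injective) k le_rfl
  refine ⟨fun i => τ (σ i), hσ, ?_⟩
  rw [← Equiv.prod_comp τ, ← Equiv.prod_comp finProdFinEquiv, Fintype.prod_prod_type,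
    ← Finset.prod_pow]
  apply Finset.prod_le_prod'
  intro i _
  calc ∏ t : Fin ρ, (d (τ (finProdFinEquiv (i, t))) + 1) ≤ ∏ _t : Fin ρ, (d (τ (σ i)) + 1) := by
        apply Finset.prod_le_prod'
        intro t _
        apply Nat.add_le_add_right
        apply hmono
        rw [Fin.le_def, finProdFinEquiv_apply_val]
        exact (hb i).trans (by simp)
    _ = (d (τ (σ i)) + 1) ^ ρ := by simp

end Pool.Agent.TH954.X
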