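import Pool.Agent.TH954.X.GenDefs

/-!
# The multiplicative group as a block is geometrically irreducible (written by helper698)

Target `T_irrT` of `X/GenDefs.lean`.
-/

set_option autoImplicit false

open MvPolynomial

namespace Pool.Agent.TH954.X

/-- `g(1, T, 0, ..., 0)` -/
noncomputable def g1 {F : Type} [Field F] {n : ℕ} (g : MvPolynomial (Fin n) F) : Polynomial F :=
  aeval (tvec' n) g
where
  /-- the vector `(1, T, 0, ..., 0)` -/
  tvec' (n : ℕ) : Fin n → Polynomial F :=
    fun c => if c.1 = 0 then 1 else if c.1 = 1 then Polynomial.X else 0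

lemma aeval_tvec {F F' : Type} [Field F] [Field F'] [Algebra F F'] {n : ℕ} (x : F')
    (g : MvPolynomial (Fin n) F) : aeval (tvec n x) g = Polynomial.aeval x (g1 g) := by
  have h : (aeval (tvec n x) : MvPolynomial (Fin n) F →ₐ[F] F') =
      (Polynomial.aeval x : Polynomial F →ₐ[F] F').comp (aeval (g1.tvec' (F := F) n)) := by
    apply MvPolynomial.algHom_ext
    intro c
    rw [aeval_X, AlgHom.comp_apply, aeval_X]
    unfold tvec g1.tvec'
    split_ifs <;> simp
  rw [h]
  rfl

lemma nonZ_iff {K : Type} [Field K] {n : ℕ} (hn : 2 ≤ n) (F : Type) [Field F] [Algebra K F]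
    (g : MvPolynomial (Fin n) F) : (tblk K n hn).NonZ F g ↔ g1 g ≠ 0 := by
  constructor
  · rintro ⟨F', _, _, _, _, P, hP⟩ h0
    apply hP
    have := aeval_tvec (F := F) (F' := F') ((show F'ˣ from P : F'ˣ) : F') g
    rw [h0, map_zero] at this
    exact this
  · intro h
    have tower : IsScalarTower K F (RatFunc F) := by
      apply IsScalarTower.of_algebraMap_eq
      intro x
      rw [IsScalarTower.algebraMap_apply K (Polynomial F) (RatFunc F),
        IsScalarTower.algebraMap_apply F (Polynomial F) (RatFunc F),
        IsScalarTower.algebraMap_apply K F (Polynomial F)]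
    refine ⟨RatFunc F, inferInstance, inferInstance, inferInstance, tower,
      Units.mk0 (RatFunc.X : RatFunc F) RatFunc.X_ne_zero, ?_⟩
    have h1 := aeval_tvec (F := F) (F' := RatFunc F) (RatFunc.X : RatFunc F) g
    intro h2
    have h3 : aeval (tvec n (RatFunc.X : RatFunc F)) g = 0 := h2
    rw [h1, ← RatFunc.algebraMap_X, Polynomial.aeval_algebraMap_apply, Polynomial.aeval_X_left,
      AlgHom.id_apply] at h3
    exact h (RatFunc.algebraMap_injective F (by rw [h3, map_zero]))

lemma irrT_ind (F : Type) [Field F] (g : MvPolynomial (Option (Fin 1)) F) (a : ℕ)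
    (hg : g.IsHomogeneous a) (h0 : g ≠ 0) :
    aeval (fun o => Option.elim o 1 (fun _ => Polynomial.X) : Option (Fin 1) → Polynomial F) g
      ≠ 0 := by
  obtain ⟨m0, hm0⟩ := MvPolynomial.ne_zero_iff.1 h0
  intro h
  apply hm0
  have key : ∀ m : Option (Fin 1) →₀ ℕ, coeff m g ≠ 0 → m (some 0) = m0 (some 0) → m = m0 := by
    intro m hm he
    have h1 := hg hm
    have h2 := hg hm0
    rw [Finsupp.weight_apply, Finsupp.sum_fintype _ _ (by simp)] at h1 h2
    simp only [Pi.one_apply, smul_eq_mul, mul_one, Fintype.sum_option, Finset.univ_unique,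
      Fin.default_eq_zero, Finset.sum_singleton] at h1 h2
    ext o
    rcases o with _ | o
    · omega
    · rw [Subsingleton.elim o 0, he]
  have h4 : (aeval (fun o => Option.elim o 1 (fun _ => Polynomial.X) :
      Option (Fin 1) → Polynomial F) g).coeff (m0 (some 0)) = coeff m0 g := by
    rw [aeval_def, eval₂_eq', Polynomial.finsetSum_coeff]
    rw [Finset.sum_eq_single m0]
    · simp [Fintype.prod_option, Polynomial.algebraMap_eq, Polynomial.coeff_C_mul,
        Polynomial.coeff_X_pow]
    · intro m hm hne
      have hm' : coeff m g ≠ 0 := by rwa [← MvPolynomial.mem_support_iff]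
      have : m (some 0) ≠ m0 (some 0) := fun he => hne (key m hm' he)
      simp [Fintype.prod_option, Polynomial.algebraMap_eq, Polynomial.coeff_C_mul,
        Polynomial.coeff_X_pow, this.symm]
    · intro hm
      exact absurd (MvPolynomial.mem_support_iff.2 hm0) hm
  rw [h, Polynomial.coeff_zero] at h4
  exact h4.symm

/-- **The multiplicative group as a block is geometrically irreducible.** -/
theorem irrT : T_irrT := by
  intro K _ n hn
  constructor
  · intro F _ _ g h a b _ _ hg hh
    rw [nonZ_iff] at hg hh ⊢
    have : g1 (g * h) = g1 g * g1 h := by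
      unfold g1
      rw [map_mul]
    rw [this]
    exact mul_ne_zero hg hh
  · intro F _ _ g a hga hg0
    rw [nonZ_iff]
    have h1 : g1 (rename (fun o => Option.elim o (tblk K n hn).z0 (tblk K n hn).z) g) =
        aeval (fun o => Option.elim o 1 (fun _ => Polynomial.X) : Option (Fin 1) → Polynomial F)
          (show MvPolynomial (Option (Fin 1)) F from g) := by
      unfold g1
      rw [aeval_rename]
      congr 2
      funext o
      rcases o with _ | o
      · simp [g1.tvec', tblk]
      · change (if (1 : ℕ) = 0 then (1 : Polynomial F) else if (1 : ℕ) = 1 then Polynomial.X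
          else 0) = Polynomial.X
        simp
    rw [h1]
    exact irrT_ind F g a hga hg0

end Pool.Agent.TH954.X
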