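import Mathlib

/-!
# Products of powers of abelian varieties with endomorphisms, and tori: definitions and targets
-/

set_option autoImplicit false

open MvPolynomial

namespace Pool.Agent.TH954.X

/-- multihomogeneous of multidegree `d` in groups, indexed by `ι`, of `n` variables -/
def MH {K : Type} [Field K] {ι : Type} {n : ℕ} (d : ι → ℕ) (f : MvPolynomial (ι × Fin n) K) :
    Prop :=
  ∀ m ∈ f.support, ∀ j, ∑ c, m (j, c) = d j

/-- value at a family of vectors over an extension field -/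
noncomputable def ev {K F : Type} [Field K] [Field F] [Algebra K F] {ι : Type} {n : ℕ}
    (f : MvPolynomial (ι × Fin n) K) (u : ι → Fin n → F) : F :=
  aeval (fun p : ι × Fin n => u p.1 p.2) f

/-- normalised coordinates of a point of projective space: the first nonzero coordinate is one -/
def Normed {F : Type} [Field F] {n : ℕ} (v : Fin n → F) : Prop :=
  ∃ i, v i = 1 ∧ ∀ j, j < i → v j = 0

/-- the points over `F` of the closed subset of projective space defined by `eqn` -/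
abbrev PtE {K : Type} [Field K] {n e : ℕ} (eqn : Fin e → MvPolynomial (Fin n) K)
    (F : Type) [Field F] [Algebra K F] : Type :=
  {v : Fin n → F // Normed v ∧ ∀ i, aeval v (eqn i) = 0}

/-- An abelian variety over `K` in the projective space `ℙ ^ (n - 1)`: homogeneous equations, the
group structures on the sets of points over the extension fields, a matrix `Λ` of forms of bidegree
`(2, 2)` with `Λ i j (P, Q) = s (P + Q)_i (P - Q)_j`, `s ≠ 0`; the points over algebraically closed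
fields form a divisible group; the coordinates `z`, `dim` in number, divided by the coordinate `z0`,
will be a transcendence basis of the function field. A ring `R` of endomorphisms, free of rank `ρ` over
`ℤ` and without zero divisors, acts; the elements of a basis of `R` are given by forms. -/
structure AbR (K : Type) [Field K] (n : ℕ) where
  e : ℕ
  eqn : Fin e → MvPolynomial (Fin n) K
  deg : Fin e → ℕ
  hom : ∀ i, (eqn i).IsHomogeneous (deg i)
  grp : ∀ (F : Type) [Field F] [Algebra K F], AddCommGroup (PtE eqn F)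
  Λ : Fin n → Fin n → MvPolynomial (Fin 2 × Fin n) K
  Λ_hom : ∀ i j, MH (fun _ => 2) (Λ i j)
  Λ_spec : ∀ (F : Type) [Field F] [Algebra K F] (P Q : PtE eqn F), ∃ s : F, s ≠ 0 ∧
    ∀ i j, ev (Λ i j) ![P.1, Q.1] = s * (((grp F).add P Q).1 i * ((grp F).sub P Q).1 j)
  div : ∀ (F : Type) [Field F] [Algebra K F] [IsAlgClosed F] (P : PtE eqn F) (m : ℕ), 0 < m →
    ∃ Q : PtE eqn F, (grp F).nsmul m Q = P
  dim : ℕ
  z0 : Fin n
  z : Fin dim → Fin n
  R : Type
  [ring : Ring R]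
  [dom : NoZeroDivisors R]
  ρ : ℕ
  ρ_pos : 0 < ρ
  basis : Module.Basis (Fin ρ) ℤ R
  act : ∀ (F : Type) [Field F] [Algebra K F], letI := grp F; R →+* AddMonoid.End (PtE eqn F)
  act_forms : ∀ a : Fin ρ, ∃ (D : ℕ) (Fam : Finset (Fin n → MvPolynomial (Fin n) K)),
    (∀ C ∈ Fam, ∀ c, (C c).IsHomogeneous D) ∧
    ∀ (F : Type) [Field F] [Algebra K F] (P : PtE eqn F),
      (∀ C ∈ Fam, ∃ s : F, (fun c => aeval P.1 (C c)) = s •
        (letI := grp F; (act F (basis a) : AddMonoid.End (PtE eqn F)) P).1) ∧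
      ∃ C ∈ Fam, ∃ c, aeval P.1 (C c) ≠ 0

attribute [instance] AbR.ring AbR.dom

section

variable {K : Type} [Field K] {n : ℕ}

/-- the points of an abelian variety over an extension field -/
abbrev AbR.Pt (A : AbR K n) (F : Type) [Field F] [Algebra K F] : Type := PtE A.eqn F

instance (A : AbR K n) (F : Type) [Field F] [Algebra K F] : AddCommGroup (A.Pt F) := A.grp F

/-- the endomorphism `x ∈ R` on the points over `F` -/
def AbR.end' (A : AbR K n) (F : Type) [Field F] [Algebra K F] (x : A.R) :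
    AddMonoid.End (A.Pt F) := A.act F x

/-- the point `∑ j, ∑ a, v j a • ω_a (P j)`, for the basis `ω` of `R` -/
noncomputable def AbR.lin (A : AbR K n) {F : Type} [Field F] [Algebra K F] {k : ℕ} (v : Fin k → Fin A.ρ → ℤ)
    (P : Fin k → A.Pt F) : A.Pt F :=
  ∑ j, ∑ a, v j a • A.end' F (A.basis a) (P j)

/-- a finite family of `n`-tuples of forms of multidegree `(D, ..., D)` representing the map
`A.lin v`, without common zero on `A ^ k` over any field -/
def RepR (A : AbR K n) (k : ℕ) (v : Fin k → Fin A.ρ → ℤ) (D : ℕ) : Prop :=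
  ∃ Fam : Finset (Fin n → MvPolynomial (Fin k × Fin n) K),
    (∀ C ∈ Fam, ∀ c, MH (fun _ => D) (C c)) ∧
    ∀ (F : Type) [Field F] [Algebra K F] (P : Fin k → A.Pt F),
      (∀ C ∈ Fam, ∃ s : F, (fun c => ev (C c) (fun j => (P j).1)) = s • (A.lin v P).1) ∧
      ∃ C ∈ Fam, ∃ c, ev (C c) (fun j => (P j).1) ≠ 0

end

/-- **Target.** Such families exist with `D` bounded by a multiple of `1 + ∑ v_ja ^ 2`. -/
def T_famR : Prop := ∀ (K : Type) [Field K] (n : ℕ) (A : AbR K n) (k : ℕ), ∃ c : ℕ,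
  ∀ v : Fin k → Fin A.ρ → ℤ,
    ∃ D : ℕ, 1 ≤ D ∧ (D : ℤ) ≤ c * (1 + ∑ j, ∑ a, v j a ^ 2) ∧ RepR A k v D

/-- **Target.** Geometry of numbers (quadratic version), with a free parameter `T`. -/
def T_latT : Prop := ∀ (s κ : ℕ), 0 < κ → ∀ ε : ℝ, 0 < ε → ∃ c : ℝ, 0 < c ∧
  ∀ T : ℝ, 1 ≤ T → ∃ (H : ℤ) (D : ℕ),
    ∀ (n : Fin s → Fin κ → ℝ) (M : ℝ), 1 ≤ M → (∀ l j, |n l j| ≤ M) →
      ∃ u : Fin κ → Fin κ → ℤ, LinearIndependent ℤ u ∧ (∀ i j, |u i j| ≤ H) ∧
      ∃ d : Fin κ → ℕ, (∀ i, d i ≤ D) ∧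
        ∑ l, (d l : ℝ) * ∑ t, (u l t : ℝ) ^ 2 ≤ T ∧
        c * T ^ κ ≤ T ^ s * ∏ l, ((d l : ℝ) + 1) ∧
        ∑ l, (d l : ℝ) * ∑ i, (∑ t, (u l t : ℝ) * n i t) ^ 2 ≤ ε * M ^ 2

/-- **Target.** Geometry of numbers (linear version), with a free parameter `T`. -/
def T_latU : Prop := ∀ (s κ : ℕ), 0 < κ → ∀ ε : ℝ, 0 < ε → ∃ c : ℝ, 0 < c ∧
  ∀ T : ℝ, 1 ≤ T → ∃ (H : ℤ) (D : ℕ),
    ∀ (n : Fin s → Fin κ → ℝ), (∀ l j, |n l j| ≤ 1) →
      ∃ u : Fin κ → Fin κ → ℤ, LinearIndependent ℤ u ∧ (∀ i j, |u i j| ≤ H) ∧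
      ∃ d : Fin κ → ℕ, (∀ i, d i ≤ D) ∧
        ∑ l, (d l : ℝ) * ∑ t, |(u l t : ℝ)| ≤ T ∧
        c * T ^ κ ≤ T ^ s * ∏ l, ((d l : ℝ) + 1) ∧
        ∑ l, (d l : ℝ) * ∑ i, |∑ t, (u l t : ℝ) * n i t| ≤ ε

/-- **Target.** Choice of `R`-independent vectors among `ℤ`-independent ones. -/
def T_greedy : Prop := ∀ (R : Type) [Ring R] [NoZeroDivisors R] (ρ : ℕ), 0 < ρ →
  ∀ (_ : Module.Basis (Fin ρ) ℤ R) (k : ℕ) (w : Fin (k * ρ) → Fin k → R),
    LinearIndependent ℤ w → ∀ d : Fin (k * ρ) → ℕ,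
      ∃ σ : Fin k → Fin (k * ρ), LinearIndependent R (fun i => w (σ i)) ∧
        ∏ l, (d l + 1) ≤ (∏ i, (d (σ i) + 1)) ^ ρ

/-- **Target.** Solving `R`-linear systems in a divisible group. -/
def T_solveR : Prop := ∀ (R : Type) [Ring R] [NoZeroDivisors R] (ρ : ℕ), 0 < ρ →
  ∀ (_ : Module.Basis (Fin ρ) ℤ R) (M : Type) [AddCommGroup M] (act : R →+* AddMonoid.End M),
  (∀ (P : M) (m : ℕ), 0 < m → ∃ Q : M, m • Q = P) →
  ∀ (k : ℕ) (φ : Fin k → Fin k → R), LinearIndependent R φ →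
    ∀ P : Fin k → M, ∃ Q : Fin k → M, ∀ l, ∑ j, act (φ l j) (Q j) = P l

/-- **Target.** A seminorm on a group of small rank is bounded by a sum of absolute values of linear
forms with coefficients at most one. -/
def T_semi : Prop := ∀ (M : Type) [AddCommGroup M] (h : M → ℝ), (∀ x, 0 ≤ h x) →
  (∀ x y, h (x + y) ≤ h x + h y) → (∀ (m : ℤ) x, h (m • x) = |(m : ℝ)| * h x) →
  ∀ (s κ : ℕ) (x : Fin κ → M),
    Module.finrank ℤ (AddSubgroup.closure (Set.range x)) ≤ s →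
    ∃ n : Fin s → Fin κ → ℝ, (∀ l j, |n l j| ≤ 1) ∧
      ∀ u : Fin κ → ℤ, h (∑ j, u j • x j) ≤ (∑ j, h (x j)) * ∑ i, |∑ j, (u j : ℝ) * n i j|

/-- **Target.** Monomials in algebraically independent coordinates. -/
def T_boxX : Prop := ∀ (K : Type) [Field K] (ι : Type) [Fintype ι] (n : ℕ) (g : ι → ℕ)
  (z0 : ι → Fin n) (z : ∀ i, Fin (g i) → Fin n), (∀ i, Function.Injective (z i)) →
  (∀ i j, z i j ≠ z0 i) → ∀ d : ι → ℕ,
    ∃ B : Finset (ι × Fin n →₀ ℕ), (∀ e ∈ B, ∀ l, ∑ c, e (l, c) = g l * d l) ∧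
      B.card = ∏ l, (d l + 1) ^ g l ∧
      ∀ G : MvPolynomial (ι × Fin n) K, G ≠ 0 → G.support ⊆ B →
        ∀ (Ω : Type) [Field Ω] [Algebra K Ω] (t : ι → Fin n → Ω), (∀ l, t l (z0 l) ≠ 0) →
        AlgebraicIndependent K (fun p : (i : ι) × Fin (g i) => t p.1 (z p.1 p.2) / t p.1 (z0 p.1)) →
        ev G t ≠ 0

end Pool.Agent.TH954.X
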