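import Pool.Agent.TH954.V.LatticeR
import Pool.Agent.TH954.X.Defs

/-!
# Geometry of numbers: linear version with a free parameter
-/

set_option autoImplicit false

open Finset Pool.Agent.H393R2.Geom Pool.Agent.TH954.V.Lat

namespace Pool.Agent.TH954.X

theorem latU : T_latU := by
  intro r k hk1 ε hε
  classical
  have hk0 : (0 : ℝ) < k := by exact_mod_cast hk1
  have hCC := one_le_CC hk1
  have hCC0 : 0 < CC k := by linarith
  set R : ℝ := 1 + r / (k * ε) with hR
  have hR0 : 0 < R := by positivity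
  set c : ℝ := 1 / ((k : ℝ) ^ (2 * k) * ((k : ℝ) ^ k * CC k) * R ^ r) with hc
  have hc0 : 0 < c := by positivity
  refine ⟨c, hc0, fun T hT => ?_⟩
  have hT0 : 0 < T := by linarith
  set X : ℝ := T / (k : ℝ) ^ 2 with hX
  have hX0 : 0 < X := by positivity
  set E : ℝ := max 1 (r * T / (k * ε)) with hE
  have hE1 : 1 ≤ E := le_max_left _ _
  have hE0 : 0 < E := by linarith
  have hE2 : r * T / (k * ε) ≤ E := le_max_right _ _
  have hE3 : E ≤ T * R := by
    rw [hE]
    have h0 : 0 ≤ r * T / (k * ε) := by positivity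
    have e : T * R = T + r * T / (k * ε) := by rw [hR]; ring
    rw [e]
    exact max_le (by linarith) (by linarith)
  set A : ℝ := E ^ ((k : ℝ)⁻¹) with hA
  have hA1 : 1 ≤ A := Real.one_le_rpow hE1 (by positivity)
  have hA0 : 0 < A := by linarith
  have hAk : A ^ k = E := Real.rpow_inv_natCast_pow hE0.le hk1.ne'
  set B : ℝ := A ^ r with hB
  have hB1 : 1 ≤ B := one_le_pow₀ hA1
  have hB0 : 0 < B := by linarith
  have hBk : B ^ k = E ^ r := by
    rw [hB, ← pow_mul, mul_comm, pow_mul, hAk]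
  set W : ℝ := ((k : ℝ) * B) ^ k * CC k with hW
  have hW0 : 0 < W := by positivity
  refine ⟨⌈W⌉, ⌊X⌋₊, fun n hn => ?_⟩
  obtain ⟨G, lam, hG, hl0, -, hlp, hlb⟩ := mink hk1 (formsR n 1 A) Sum.inl
    (formsR_base n 1 A hA0) (fun f hf => formsR_bound n 1 A hA1 le_rfl hn f hf)
  -- coordinates
  have hco : ∀ j t, |(G j t : ℝ)| ≤ k * B * lam j := by
    intro j t
    have h1 := hlb (Sum.inl t) j
    have h2 : ∑ s, formsR n 1 A (Sum.inl t) s * (G j s : ℝ) = B⁻¹ * (G j t : ℝ) := by
      simp only [formsR, ite_mul, zero_mul]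
      rw [Finset.sum_ite_eq' univ t]
      simp [hB]
    rw [h2, abs_mul, abs_of_pos (inv_pos.2 hB0), inv_mul_le_iff₀ hB0] at h1
    linarith
  have hin : ∀ j l, |∑ t, (G j t : ℝ) * n l t| ≤ k * B * lam j / E := by
    intro j l
    have h1 := hlb (Sum.inr l) j
    have h2 : ∑ s, formsR n 1 A (Sum.inr l) s * (G j s : ℝ) =
        (E / B) * ∑ t, (G j t : ℝ) * n l t := by
      simp only [formsR]
      rw [Finset.mul_sum]
      apply Finset.sum_congr rfl
      intro t _
      rw [hAk, ← hB, one_mul]; ring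
    have h3 : 0 < E / B := by positivity
    rw [h2, abs_mul, abs_of_pos h3] at h1
    rw [le_div_iff₀ hE0]
    have h4 : E / B * |∑ t, (G j t : ℝ) * n l t| * B ≤ k * lam j * B :=
      mul_le_mul_of_nonneg_right h1 hB0.le
    have h5 : E / B * |∑ t, (G j t : ℝ) * n l t| * B = |∑ t, (G j t : ℝ) * n l t| * E := by
      field_simp
    rw [h5] at h4
    linarith
  set U : Fin k → ℝ := fun j => k * B * lam j with hU
  have hU1 : ∀ j, 1 ≤ U j := by
    intro j
    have h1 : ∃ t, G j t ≠ 0 := by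
      by_contra hcon
      push Not at hcon
      exact hG (Matrix.det_eq_zero_of_row_eq_zero j hcon)
    obtain ⟨t, ht⟩ := h1
    have h2 : (1 : ℝ) ≤ |(G j t : ℝ)| := by
      have := Int.one_le_abs ht
      exact_mod_cast this
    exact h2.trans (hco j t)
  have hU0 : ∀ j, 0 < U j := fun j => by have := hU1 j; linarith
  have hUprod : ∏ j, U j ≤ W := by
    rw [hU, Finset.prod_mul_distrib, Finset.prod_const, Finset.card_univ, Fintype.card_fin, hW]
    exact mul_le_mul_of_nonneg_left hlp (by positivity)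
  have hUW : ∀ j, U j ≤ W := by
    intro j
    have h1 : 1 ≤ ∏ i ∈ univ.erase j, U i := Finset.one_le_prod fun i _ => hU1 i
    have h2 := Finset.mul_prod_erase univ U (mem_univ j)
    calc U j = U j * 1 := (mul_one _).symm
      _ ≤ U j * ∏ i ∈ univ.erase j, U i := mul_le_mul_of_nonneg_left h1 (hU0 j).le
      _ = ∏ i, U i := h2
      _ ≤ W := hUprod
  have hfl : ∀ l, ((⌊X / U l⌋₊ : ℕ) : ℝ) ≤ X / U l := fun l =>
    Nat.floor_le (by have := hU0 l; positivity)
  refine ⟨G, Matrix.linearIndependent_rows_of_det_ne_zero hG, ?_,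
    fun l => ⌊X / U l⌋₊, ?_, ?_, ?_, ?_⟩
  · intro i j
    have h3 : (|G i j| : ℝ) ≤ ⌈W⌉ := ((hco i j).trans (hUW i)).trans (Int.le_ceil _)
    have h4 : ((|G i j| : ℤ) : ℝ) ≤ ⌈W⌉ := by
      rw [Int.cast_abs]; exact h3
    exact_mod_cast h4
  · intro i
    exact Nat.floor_le_floor (div_le_self hX0.le (hU1 i))
  · -- the sum of the sizes
    calc ∑ l, ((⌊X / U l⌋₊ : ℕ) : ℝ) * ∑ t, |(G l t : ℝ)|
        ≤ ∑ _l : Fin k, (k : ℝ) * X := by
          refine Finset.sum_le_sum (fun l _ => ?_)
          have h2 : ∑ t, |(G l t : ℝ)| ≤ k * U l := by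
            calc ∑ t, |(G l t : ℝ)| ≤ ∑ _t : Fin k, U l :=
                  Finset.sum_le_sum fun t _ => hco _ t
              _ = k * U l := by
                  rw [Finset.sum_const, Finset.card_univ, Fintype.card_fin, nsmul_eq_mul]
          have h3 : 0 < U l := hU0 l
          calc ((⌊X / U l⌋₊ : ℕ) : ℝ) * ∑ t, |(G l t : ℝ)|
              ≤ (X / U l) * (k * U l) :=
                mul_le_mul (hfl l) h2 (Finset.sum_nonneg fun t _ => abs_nonneg _) (by positivity)
            _ = k * X := by field_simp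
      _ = T := by
          rw [Finset.sum_const, Finset.card_univ, Fintype.card_fin, nsmul_eq_mul, hX]
          field_simp
  · -- the product
    have h2 : X ^ k / W ≤ ∏ l, (((⌊X / U l⌋₊ : ℕ) : ℝ) + 1) := by
      have h3 : ∏ l, (X / U l) ≤ ∏ l, (((⌊X / U l⌋₊ : ℕ) : ℝ) + 1) :=
        Finset.prod_le_prod (fun l _ => by have := hU0 l; positivity)
          (fun l _ => (Nat.lt_floor_add_one _).le)
      refine le_trans ?_ h3
      rw [Finset.prod_div_distrib, Finset.prod_const, Finset.card_univ, Fintype.card_fin]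
      have h4 : 0 < ∏ l, U l := Finset.prod_pos (fun l _ => hU0 l)
      exact div_le_div_of_nonneg_left (by positivity) h4 hUprod
    have h5 : W ≤ T ^ r * ((k : ℝ) ^ k * CC k * R ^ r) := by
      rw [hW, mul_pow, hBk]
      have h6 : E ^ r ≤ T ^ r * R ^ r := by
        rw [← mul_pow]
        exact pow_le_pow_left₀ hE0.le hE3 r
      calc (k : ℝ) ^ k * E ^ r * CC k ≤ (k : ℝ) ^ k * (T ^ r * R ^ r) * CC k := by gcongr
        _ = _ := by ring
    calc c * T ^ k = T ^ r * (X ^ k / (T ^ r * ((k : ℝ) ^ k * CC k * R ^ r))) := by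
          rw [hc, hX, div_pow, ← pow_mul]
          field_simp
      _ ≤ T ^ r * (X ^ k / W) := by
          apply mul_le_mul_of_nonneg_left _ (by positivity)
          exact div_le_div_of_nonneg_left (by positivity) hW0 h5
      _ ≤ _ := mul_le_mul_of_nonneg_left h2 (by positivity)
  · -- the small terms
    calc ∑ l, ((⌊X / U l⌋₊ : ℕ) : ℝ) * ∑ i, |∑ t, (G l t : ℝ) * n i t|
        ≤ ∑ _l : Fin k, (r : ℝ) * X / E := by
          refine Finset.sum_le_sum (fun l _ => ?_)
          have h2 : ∑ i, |∑ t, (G l t : ℝ) * n i t| ≤ r * (U l / E) := by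
            calc ∑ i, |∑ t, (G l t : ℝ) * n i t| ≤ ∑ _i : Fin r, U l / E :=
                  Finset.sum_le_sum fun i _ => hin _ i
              _ = r * (U l / E) := by
                  rw [Finset.sum_const, Finset.card_univ, Fintype.card_fin, nsmul_eq_mul]
          have h3 : 0 < U l := hU0 l
          calc ((⌊X / U l⌋₊ : ℕ) : ℝ) * ∑ i, |∑ t, (G l t : ℝ) * n i t|
              ≤ (X / U l) * (r * (U l / E)) :=
                mul_le_mul (hfl l) h2 (Finset.sum_nonneg fun t _ => abs_nonneg _) (by positivity)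
            _ = r * X / E := by field_simp
      _ = (r * T / (k * ε)) * ε / E := by
          rw [Finset.sum_const, Finset.card_univ, Fintype.card_fin, nsmul_eq_mul, hX]
          field_simp
      _ ≤ E * ε / E := by gcongr
      _ = ε := by field_simp

end Pool.Agent.TH954.X
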