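import Mathlib
import Pool.Agent.TH954.X.Defs

/-!
# Seminorms on groups of small rank
-/

set_option autoImplicit false

namespace Pool.Agent.TH954.X.Semi

open Finset

/-- coordinates modulo torsion -/
theorem exists_coord (Γ : Type) [AddCommGroup Γ] [Module.Finite ℤ Γ] :
    ∃ φ : Γ →ₗ[ℤ] (Fin (Module.finrank ℤ Γ) → ℤ), Function.Surjective φ ∧
      ∀ x, φ x = 0 → ∃ m : ℤ, m ≠ 0 ∧ m • x = 0 := by
  have h1 : Module.finrank ℤ (Γ ⧸ Submodule.torsion ℤ Γ) = Module.finrank ℤ Γ :=
    finrank_quotient_eq_of_le_torsion le_rfl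
  let b := (Module.finBasis ℤ (Γ ⧸ Submodule.torsion ℤ Γ)).reindex (finCongr h1)
  refine ⟨b.equivFun.toLinearMap.comp (Submodule.mkQ _), ?_, ?_⟩
  · exact b.equivFun.surjective.comp (Submodule.mkQ_surjective _)
  · intro x hx
    have h2 : Submodule.mkQ (Submodule.torsion ℤ Γ) x = 0 := by
      have : b.equivFun (Submodule.mkQ (Submodule.torsion ℤ Γ) x) = 0 := hx
      simpa using this
    rw [Submodule.mkQ_apply, Submodule.Quotient.mk_eq_zero, Submodule.mem_torsion_iff] at h2
    obtain ⟨a, ha⟩ := h2
    exact ⟨a, nonZeroDivisors.coe_ne_zero a, ha⟩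

/-- Cramer's identity for rows -/
theorem cramer_rows {n : ℕ} (G : Matrix (Fin n) (Fin n) ℤ) (x : Fin n → ℤ) :
    G.det • x = ∑ k, (G.updateRow k x).det • G k := by
  have h := Matrix.mulVec_cramer G.transpose x
  rw [Matrix.det_transpose] at h
  rw [← h]
  ext i
  simp only [Matrix.mulVec, dotProduct, Matrix.transpose_apply, Matrix.cramer_transpose_apply,
    Finset.sum_apply, Pi.smul_apply, smul_eq_mul]
  apply Finset.sum_congr rfl
  intro k _
  ring

/-- a spanning family has a nonzero minor -/
theorem exists_minor {κ r : ℕ} (a : Fin κ → Fin r → ℤ) (hs : Submodule.span ℤ (Set.range a) = ⊤) :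
    ∃ f : Fin r → Fin κ, (Matrix.of fun t => a (f t)).det ≠ 0 := by
  classical
  by_contra hcon
  push Not at hcon
  have key : ∀ S : Finset (Fin r), ∀ v : Matrix (Fin r) (Fin r) ℤ,
      (∀ i, i ∉ S → v i ∈ Set.range a) → v.det = 0 := by
    intro S
    induction S using Finset.induction_on with
    | empty =>
      intro v hv
      choose f hf using fun i => hv i (Finset.notMem_empty i)
      have : v = Matrix.of fun t => a (f t) := by
        ext i j
        rw [Matrix.of_apply, hf i]
      rw [this]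
      exact hcon f
    | insert i S hi ih =>
      intro v hv
      have hlin : ∀ w : Fin r → ℤ, (v.updateRow i w).det = 0 := by
        intro w
        have hw : w ∈ Submodule.span ℤ (Set.range a) := by rw [hs]; trivial
        induction hw using Submodule.span_induction with
        | mem w hw =>
          apply ih
          intro j hj
          by_cases hji : j = i
          · subst hji
            rw [Matrix.updateRow_self]
            exact hw
          · rw [Matrix.updateRow_ne hji]
            exact hv j (by simp [hji, hj])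
        | zero => 
          exact Matrix.det_eq_zero_of_row_eq_zero i (fun j => by rw [Matrix.updateRow_self]; rfl)
        | add x y _ _ hx hy =>
          rw [Matrix.det_updateRow_add, hx, hy, add_zero]
        | smul c x _ hx =>
          rw [Matrix.det_updateRow_smul, hx, mul_zero]
      have := hlin (v i)
      rwa [Matrix.updateRow_eq_self] at this
  have h1 := key Finset.univ 1 (fun i hi => absurd (Finset.mem_univ i) hi)
  rw [Matrix.det_one] at h1
  exact one_ne_zero h1

theorem exists_repr {κ r : ℕ} (a : Fin κ → Fin r → ℤ) (hs : Submodule.span ℤ (Set.range a) = ⊤) :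
    ∃ (f : Fin r → Fin κ) (N : ℤ) (c : Fin r → Fin κ → ℤ), N ≠ 0 ∧ (∀ t j, |c t j| ≤ |N|) ∧
      ∀ j, N • a j = ∑ t, c t j • a (f t) := by
  classical
  obtain ⟨f₀, hf₀⟩ := exists_minor a hs
  obtain ⟨f, -, hf⟩ := Finset.exists_max_image (Finset.univ : Finset (Fin r → Fin κ))
    (fun f => |(Matrix.of fun t => a (f t)).det|) ⟨f₀, Finset.mem_univ _⟩
  refine ⟨f, (Matrix.of fun t => a (f t)).det,
    fun t j => ((Matrix.of fun t => a (f t)).updateRow t (a j)).det, ?_, ?_, ?_⟩
  · have h1 := hf f₀ (Finset.mem_univ _)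
    have h2 : 0 < |(Matrix.of fun t => a (f₀ t)).det| := abs_pos.2 hf₀
    exact abs_pos.1 (h2.trans_le h1)
  · intro t j
    have h1 := hf (Function.update f t j) (Finset.mem_univ _)
    have h2 : (Matrix.of fun s => a (Function.update f t j s)) =
        (Matrix.of fun t => a (f t)).updateRow t (a j) := by
      ext s k
      by_cases hs : s = t
      · subst hs; simp
      · rw [Matrix.updateRow_ne hs]; simp [Function.update_of_ne hs]
    rw [h2] at h1
    exact h1
  · intro j
    exact cramer_rows _ _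

theorem span_sub {M : Type} [AddCommGroup M] {κ : ℕ} (x : Fin κ → M) :
    Submodule.span ℤ (Set.range fun j => (⟨x j, AddSubgroup.subset_closure ⟨j, rfl⟩⟩ :
      AddSubgroup.closure (Set.range x))) = ⊤ := by
  have h1 := AddSubgroup.closure_closure_coe_preimage (k := Set.range x)
  have h2 : (Set.range fun j => (⟨x j, AddSubgroup.subset_closure ⟨j, rfl⟩⟩ :
      AddSubgroup.closure (Set.range x))) =
      ((↑) : AddSubgroup.closure (Set.range x) → M) ⁻¹' (Set.range x) := by
    ext y
    constructor
    · rintro ⟨j, rfl⟩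
      exact ⟨j, rfl⟩
    · rintro ⟨j, hj⟩
      exact ⟨j, Subtype.ext hj⟩
  rw [h2]
  have h3 := congrArg AddSubgroup.toIntSubmodule h1
  rw [AddSubgroup.toIntSubmodule_closure] at h3
  rw [h3]
  rfl

end Pool.Agent.TH954.X.Semi

namespace Pool.Agent.TH954.X

open Finset Semi

theorem semi : T_semi := by
  classical
  intro M _ h hnn hadd hsm s κ x hrk
  have h00 : h 0 = 0 := by
    have := hsm 0 0
    simpa using this
  have htor : ∀ (m : ℤ) (y : M), m ≠ 0 → m • y = 0 → h y = 0 := by
    intro m y hm hy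
    have h1 := hsm m y
    rw [hy, h00] at h1
    have h2 : |(m : ℝ)| ≠ 0 := by
      rw [abs_ne_zero]; exact_mod_cast hm
    rcases mul_eq_zero.1 h1.symm with h3 | h3
    · exact absurd h3 h2
    · exact h3
  set Γ := AddSubgroup.closure (Set.range x) with hΓ
  let x' : Fin κ → Γ := fun j => ⟨x j, AddSubgroup.subset_closure ⟨j, rfl⟩⟩
  have hspan : Submodule.span ℤ (Set.range x') = ⊤ := span_sub x
  haveI : Module.Finite ℤ Γ := ⟨⟨(Set.finite_range x').toFinset, by simpa using hspan⟩⟩
  obtain ⟨φ, hφs, hφ0⟩ := exists_coord Γ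
  have hs2 : Submodule.span ℤ (Set.range fun j => φ (x' j)) = ⊤ := by
    have e : (Set.range fun j => φ (x' j)) = φ '' Set.range x' := by
      rw [← Set.range_comp]; rfl
    rw [e, Submodule.span_image, hspan, Submodule.map_top]
    exact LinearMap.range_eq_top.2 hφs
  obtain ⟨f, N, c, hN, hc, hrel⟩ := exists_repr (fun j => φ (x' j)) hs2
  have hNr : (0 : ℝ) < |(N : ℝ)| := by
    rw [abs_pos]; exact_mod_cast hN
  refine ⟨fun i j => if hi : i.1 < Module.finrank ℤ Γ then (c ⟨i.1, hi⟩ j : ℝ) / N else 0, ?_, ?_⟩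
  · intro l j
    dsimp only
    split_ifs with hi
    · rw [abs_div, div_le_one hNr]
      exact_mod_cast hc ⟨l.1, hi⟩ j
    · simp
  · intro u
    have hH : 0 ≤ ∑ j, h (x j) := Finset.sum_nonneg fun j _ => hnn _
    -- the relation modulo torsion
    have h1 : φ (N • (∑ j, u j • x' j) - ∑ t, (∑ j, u j * c t j) • x' (f t)) = 0 := by
      rw [map_sub, map_zsmul, map_sum, map_sum, sub_eq_zero, Finset.smul_sum]
      calc ∑ j, N • φ (u j • x' j) = ∑ j, u j • ∑ t, c t j • φ (x' (f t)) := by
            refine Finset.sum_congr rfl fun j _ => ?_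
            rw [← hrel j, map_zsmul, smul_comm]
        _ = ∑ j, ∑ t, (u j * c t j) • φ (x' (f t)) := by
            refine Finset.sum_congr rfl fun j _ => ?_
            rw [Finset.smul_sum]
            refine Finset.sum_congr rfl fun t _ => ?_
            rw [smul_smul]
        _ = ∑ t, ∑ j, (u j * c t j) • φ (x' (f t)) := Finset.sum_comm
        _ = _ := by
            refine Finset.sum_congr rfl fun t _ => ?_
            rw [map_zsmul, Finset.sum_smul]
    obtain ⟨m, hm, hm2⟩ := hφ0 _ h1
    set y : Γ := N • (∑ j, u j • x' j) - ∑ t, (∑ j, u j * c t j) • x' (f t) with hy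
    have hy0 : h (y : M) = 0 := by
      refine htor m _ hm ?_
      have := congrArg (Subtype.val) hm2
      simpa using this
    have hyM : N • (∑ j, u j • x j) = ∑ t, (∑ j, u j * c t j) • x (f t) + (y : M) := by
      rw [hy]
      push_cast
      abel
    have h2 : |(N : ℝ)| * h (∑ j, u j • x j) ≤
        ∑ t, |∑ j, (u j : ℝ) * c t j| * ∑ j, h (x j) := by
      rw [← hsm, hyM]
      calc h (∑ t, (∑ j, u j * c t j) • x (f t) + (y : M))
          ≤ h (∑ t, (∑ j, u j * c t j) • x (f t)) + h (y : M) := hadd _ _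
        _ = h (∑ t, (∑ j, u j * c t j) • x (f t)) := by rw [hy0, add_zero]
        _ ≤ ∑ t, h ((∑ j, u j * c t j) • x (f t)) :=
            Finset.le_sum_of_subadditive h h00.le hadd _ _
        _ ≤ _ := by
            refine Finset.sum_le_sum fun t _ => ?_
            rw [hsm]
            have e : |((∑ j, u j * c t j : ℤ) : ℝ)| = |∑ j, (u j : ℝ) * c t j| := by push_cast; rfl
            rw [e]
            refine mul_le_mul_of_nonneg_left ?_ (abs_nonneg _)
            exact Finset.single_le_sum (f := fun j => h (x j)) (fun j _ => hnn _)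
              (Finset.mem_univ (f t))
    have h3 : ∑ t, |∑ j, (u j : ℝ) * c t j| ≤ |(N : ℝ)| * ∑ i : Fin s, |∑ j, (u j : ℝ) *
        (if hi : i.1 < Module.finrank ℤ Γ then (c ⟨i.1, hi⟩ j : ℝ) / N else 0)| := by
      rw [Finset.mul_sum]
      have e1 : ∑ t : Fin (Module.finrank ℤ Γ), |∑ j, (u j : ℝ) * c t j| =
          ∑ i ∈ (univ : Finset (Fin (Module.finrank ℤ Γ))).map (Fin.castLEEmb hrk),
          |(N : ℝ)| * |∑ j, (u j : ℝ) *
            (if hi : i.1 < Module.finrank ℤ Γ then (c ⟨i.1, hi⟩ j : ℝ) / N else 0)| := by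
        rw [Finset.sum_map]
        refine Finset.sum_congr rfl fun t _ => ?_
        rw [← abs_mul, Finset.mul_sum]
        congr 1
        refine Finset.sum_congr rfl fun j _ => ?_
        have ht : ((Fin.castLEEmb hrk) t).1 < Module.finrank ℤ Γ := t.2
        rw [dif_pos ht]
        have hN' : (N : ℝ) ≠ 0 := by exact_mod_cast hN
        have e2 : (⟨((Fin.castLEEmb hrk) t).1, ht⟩ : Fin (Module.finrank ℤ Γ)) = t := rfl
        rw [e2]
        field_simp
      rw [e1]
      exact Finset.sum_le_sum_of_subset_of_nonneg (Finset.subset_univ _)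
        (fun i _ _ => by positivity)
    rw [← Finset.sum_mul] at h2
    have h4 : |(N : ℝ)| * h (∑ j, u j • x j) ≤ |(N : ℝ)| * ((∑ j, h (x j)) * ∑ i : Fin s, |∑ j, (u j : ℝ) *
        (if hi : i.1 < Module.finrank ℤ Γ then (c ⟨i.1, hi⟩ j : ℝ) / N else 0)|) := by
      calc _ ≤ (∑ t, |∑ j, (u j : ℝ) * c t j|) * ∑ j, h (x j) := h2
        _ ≤ (|(N : ℝ)| * ∑ i : Fin s, |∑ j, (u j : ℝ) *
            (if hi : i.1 < Module.finrank ℤ Γ then (c ⟨i.1, hi⟩ j : ℝ) / N else 0)|) *
            ∑ j, h (x j) := mul_le_mul_of_nonneg_right h3 hH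
        _ = _ := by ring
    exact le_of_mul_le_mul_left h4 hNr

end Pool.Agent.TH954.X


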