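import Pool.Agent.TH954.X.Defs

/-!
# Solving `R`-linear systems in a divisible group
-/

set_option autoImplicit false

namespace Pool.Agent.TH954.X

private theorem exists_left_quasi_inverse (R : Type) [Ring R] (ρ : ℕ)
    (b : Module.Basis (Fin ρ) ℤ R) (k : ℕ) (φ : Fin k → Fin k → R)
    (hφ : LinearIndependent R φ) :
    ∃ (m : ℕ) (ψ : Fin k → Fin k → R), 0 < m ∧
      Matrix.of ψ * (Matrix.of φ) = m • (1 : Matrix (Fin k) (Fin k) R) := by
  have : Module.Free ℤ R := Module.Free.of_basis b
  have : Module.Finite ℤ R := Module.Finite.of_basis b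
  let Θ : (Fin k → R) →ₗ[ℤ] (Fin k → R) :=
    { toFun := fun c => ∑ l, c l • φ l
      map_add' := by
        intro c d
        simp only [Pi.add_apply, add_smul, Finset.sum_add_distrib]
      map_smul' := by
        intro a c
        simp only [Pi.smul_apply, RingHom.id_apply, Finset.smul_sum, smul_assoc] }
  have hinj : Function.Injective Θ := by
    rw [← LinearMap.ker_eq_bot, LinearMap.ker_eq_bot']
    intro c hc
    have := Fintype.linearIndependent_iff.1 hφ c hc
    exact funext this
  have hrank : Module.finrank ℤ (LinearMap.range Θ) = Module.finrank ℤ (Fin k → R) :=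
    LinearMap.finrank_range_of_inj hinj
  have hfin : Finite ((Fin k → R) ⧸ LinearMap.range Θ) :=
    Submodule.finiteQuotientOfFreeOfRankEq _ hrank
  have hm : ∀ i : Fin k, ∃ c : Fin k → R, ∑ l, c l • φ l =
      Nat.card ((Fin k → R) ⧸ LinearMap.range Θ) • (Pi.single i (1 : R) : Fin k → R) := by
    intro i
    have h1 : Nat.card ((Fin k → R) ⧸ LinearMap.range Θ) •
        (Submodule.Quotient.mk (Pi.single i (1 : R) : Fin k → R) :
          (Fin k → R) ⧸ LinearMap.range Θ) = 0 := card_nsmul_eq_zero'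
    have h2 : (Submodule.Quotient.mk (Nat.card ((Fin k → R) ⧸ LinearMap.range Θ) •
        (Pi.single i (1 : R) : Fin k → R)) :
          (Fin k → R) ⧸ LinearMap.range Θ) = 0 := by
      rw [← h1]; rfl
    rw [Submodule.Quotient.mk_eq_zero] at h2
    obtain ⟨c, hc⟩ := h2
    exact ⟨c, hc⟩
  choose ψ hψ using hm
  refine ⟨Nat.card ((Fin k → R) ⧸ LinearMap.range Θ), ψ, Nat.card_pos, ?_⟩
  ext i j
  have := congrFun (hψ i) j
  simp only [Finset.sum_apply, Pi.smul_apply, smul_eq_mul] at this
  rw [Matrix.mul_apply, Matrix.smul_apply, Matrix.one_apply]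
  simp only [Matrix.of_apply]
  rw [this, Pi.single_apply]
  by_cases hij : i = j
  · subst hij; simp
  · rw [if_neg hij, if_neg (Ne.symm hij)]

theorem solveR : T_solveR := by
  intro R _ _ ρ _ b M _ act hdiv k φ hφ P
  obtain ⟨m, ψ, hm, h1⟩ := exists_left_quasi_inverse R ρ b k φ hφ
  have h2 : Matrix.of φ * Matrix.of ψ = m • (1 : Matrix (Fin k) (Fin k) R) := by
    have h3 : (Matrix.of φ * Matrix.of ψ - m • (1 : Matrix (Fin k) (Fin k) R)) * Matrix.of φ = 0 := by
      rw [sub_mul, mul_assoc, h1, smul_mul_assoc, one_mul, mul_smul_comm, mul_one, sub_self]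
    rw [← sub_eq_zero]
    ext l i
    have h4 : ∑ j, ((Matrix.of φ * Matrix.of ψ - m • (1 : Matrix (Fin k) (Fin k) R)) l j) • φ j = 0 := by
      funext t
      have := congrFun (congrFun h3 l) t
      rw [Matrix.mul_apply] at this
      simpa [Finset.sum_apply] using this
    exact Fintype.linearIndependent_iff.1 hφ _ h4 i
  choose P' hP' using fun i => hdiv (P i) m hm
  refine ⟨fun j => ∑ i, act (ψ j i) (P' i), fun l => ?_⟩
  have e1 : ∑ j, act (φ l j) (∑ i, act (ψ j i) (P' i)) =
      ∑ i, act ((Matrix.of φ * Matrix.of ψ) l i) (P' i) := by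
    simp only [map_sum, Matrix.mul_apply, Matrix.of_apply]
    rw [Finset.sum_comm]
    refine Finset.sum_congr rfl fun i _ => ?_
    have e2 : ∀ (f : Fin k → AddMonoid.End M) (x : M), (∑ j, f j) x = ∑ j, f j x := by
      intro f x
      exact AddMonoidHom.finsetSum_apply f Finset.univ x
    rw [e2]
    refine Finset.sum_congr rfl fun j _ => ?_
    rw [map_mul]
    rfl
  rw [e1, h2]
  rw [Finset.sum_eq_single l]
  · rw [Matrix.smul_apply, Matrix.one_apply_eq, map_nsmul, map_one]
    exact hP' l
  · intro i _ hi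
    rw [Matrix.smul_apply, Matrix.one_apply_ne (Ne.symm hi), smul_zero, map_zero]
    rfl
  · intro h
    exact absurd (Finset.mem_univ _) h

end Pool.Agent.TH954.X
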