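import Pool.Agent.TH954.X.Defs

/-!
# Abelian varieties with coordinates: geometric irreducibility and a transcendence basis
-/

set_option autoImplicit false

open MvPolynomial

namespace Pool.Agent.TH954.X

/-- the form `g` over `F` does not vanish at all points over extension fields of `F` -/
def AbR.NonZ {K : Type} [Field K] {n : ℕ} (A : AbR K n) (F : Type) [Field F] [Algebra K F]
    (g : MvPolynomial (Fin n) F) : Prop :=
  ∃ (F' : Type) (_ : Field F') (_ : Algebra K F') (_ : Algebra F F') (_ : IsScalarTower K F F')
    (P : A.Pt F'), aeval P.1 g ≠ 0

/-- An abelian variety `A` over `K` in projective space with a ring of endomorphisms, see `AbR`;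
moreover, `A` is geometrically irreducible (the product of two forms that do not vanish identically
on `A` does not vanish identically), and the coordinates `z0`, `z` satisfy no homogeneous equation on
`A`, over any extension field of `K`: thus `dim` is at most the dimension of `A`, and for suitable
coordinates it is the dimension. -/
structure AbV (K : Type) [Field K] (n : ℕ) extends AbR K n where
  irr : ∀ (F : Type) [Field F] [Algebra K F] (g h : MvPolynomial (Fin n) F) (a b : ℕ),
    g.IsHomogeneous a → h.IsHomogeneous b → toAbR.NonZ F g → toAbR.NonZ F h →
      toAbR.NonZ F (g * h)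
  ind : ∀ (F : Type) [Field F] [Algebra K F] (g : MvPolynomial (Option (Fin dim)) F) (a : ℕ),
    g.IsHomogeneous a → g ≠ 0 → toAbR.NonZ F (rename (fun o => Option.elim o z0 z) g)

end Pool.Agent.TH954.X
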