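import Pool.Agent.TH954.X.EndR

/-!
# Blocks: powers of an abelian variety and tori, as factors of a product
-/

set_option autoImplicit false
set_option linter.unusedSectionVars false

open MvPolynomial NumberField Height Pool.Agent.TH954.V

namespace Pool.Agent.TH954.X

/-- a quasi-projective variety: an open part of the closed subset `V` of projective space; `s0` is a
form which vanishes at the other points -/
structure Blk (K : Type) [Field K] (n : ℕ) where
  V : VarE K n
  Pt : ∀ (F : Type) [Field F] [Algebra K F], Type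
  vec : ∀ (F : Type) [Field F] [Algebra K F], Pt F → Fin n → F
  normed : ∀ (F : Type) [Field F] [Algebra K F] (P : Pt F), Normed (vec F P)
  on : ∀ (F : Type) [Field F] [Algebra K F] (P : Pt F) (i : Fin V.e), aeval (vec F P) (V.eqn i) = 0
  s0 : MvPolynomial (Fin n) K
  e0 : ℕ
  s0_hom : s0.IsHomogeneous e0
  s0_ne : ∀ (F : Type) [Field F] [Algebra K F] (P : Pt F), aeval (vec F P) s0 ≠ 0
  s0_pt : ∀ (F : Type) [Field F] [Algebra K F] (v : Fin n → F), Normed v →
    (∀ i, aeval v (V.eqn i) = 0) → aeval v s0 = 0 ∨ ∃ P : Pt F, vec F P = v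
  g : ℕ
  z0 : Fin n
  z : Fin g → Fin n

/-- the condition `Un` on absolute values allows to bound the form `s0` from below -/
def UnOK {K : Type} [Field K] {n : ℕ} (B : Blk K n) (k : ℕ) (Un : Cond K (Fin k) n) : Prop :=
  ∃ (A : Finset K) (M e : ℕ), 1 ≤ M ∧ ∀ (L : Type) [Field L] [Algebra K L]
    (w : AbsoluteValue L ℝ) (u : Fin k → Fin n → L), OnS (wqX (fun _ : Fin k => B.V)) u →
    Un L w u → ∀ j, (⨆ c, w (u j c)) ^ B.e0 ≤ kap A M e w * w (aeval (u j) B.s0)

/-- the facts needed about `k` copies of the variety `B`, for tuples of points with the property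
`rk` (rank at most `r`): for every `ε` and every large `T` a finite set `I` of choices of `k` maps
`B ^ k → B` and `k` degrees -/
def BlkOK {K : Type} [Field K] [NumberField K] {n : ℕ} (B : Blk K n) (k r : ℕ)
    (rk : ∀ (L : Type) [Field L] [Algebra K L], (Fin k → B.Pt L) → Prop)
    (Un : Cond K (Fin k) n) : Prop :=
  ∀ ε : ℝ, 0 < ε → ∃ (c : ℝ) (C1 : ℕ), 0 < c ∧ ∀ T : ℝ, 1 ≤ T →
    ∃ (I : Type) (_ : Fintype I) (d : I → Fin k → ℕ) (σ : I → Fin k → Fin k → ℕ)
      (Fam : I → Fin k → Finset (Fin n → MvPolynomial (Fin k × Fin n) K))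
      (map : I → Fin k → ∀ (F : Type) [Field F] [Algebra K F], (Fin k → B.Pt F) → B.Pt F),
      (∀ i l, ∀ C ∈ Fam i l, ∀ c, MH (σ i l) (C c)) ∧
      (∀ i l (F : Type) [Field F] [Algebra K F] (P : Fin k → B.Pt F),
        (∀ C ∈ Fam i l, ∃ s : F, (fun c => ev (C c) (fun j => B.vec F (P j))) =
          s • B.vec F (map i l F P)) ∧
        ∃ C ∈ Fam i l, ∃ c, ev (C c) (fun j => B.vec F (P j)) ≠ 0) ∧
      (∀ i l, LocF (wqX (fun _ : Fin k => B.V)) Un (σ i l) (Fam i l)) ∧
      (∀ i, ∑ l, (d i l : ℝ) * ∑ j, (σ i l j : ℝ) ≤ C1 * T) ∧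
      (∀ i (Ω : Type) [Field Ω] [Algebra K Ω] [IsAlgClosed Ω] (P : Fin k → B.Pt Ω),
        ∃ Q : Fin k → B.Pt Ω, ∀ l, map i l Ω Q = P l) ∧
      (∀ i, c * T ^ k ≤ T ^ r * ∏ l, ((d i l : ℝ) + 1)) ∧
      ∃ C : ℝ, 0 ≤ C ∧ ∀ (L : Type) [Field L] [NumberField L] [Algebra K L]
        (P : Fin k → B.Pt L), rk L P →
        ∃ i, ∑ l, (d i l : ℝ) * logHeight (B.vec L (map i l L P)) ≤
          ε * ∑ j, logHeight (B.vec L (P j)) + C * Module.finrank ℚ L

/-- the block attached to an abelian variety -/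
noncomputable def AbR.blk {K : Type} [Field K] {n : ℕ} (A : AbR K n) : Blk K n where
  V := A.var
  Pt := fun F _ _ => A.Pt F
  vec := fun _ _ _ P => P.1
  normed := fun _ _ _ P => P.2.1
  on := fun _ _ _ P i => P.2.2 i
  s0 := 1
  e0 := 0
  s0_hom := isHomogeneous_one _ _
  s0_ne := fun F _ _ P => by simp
  s0_pt := fun F _ _ v hv h => Or.inr ⟨⟨v, hv, h⟩, rfl⟩
  g := A.dim
  z0 := A.z0
  z := A.z

/-- the points `P` generate, together with their images under the endomorphisms, a group of rank at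
most `ρ r` -/
def AbR.rk {K : Type} [Field K] {n : ℕ} (A : AbR K n) (k r : ℕ) (L : Type) [Field L] [Algebra K L]
    (P : Fin k → A.Pt L) : Prop :=
  Module.finrank ℤ (AddSubgroup.closure (Set.range
    (fun p : Fin k × Fin A.ρ => A.end' L (A.basis p.2) (P p.1)))) ≤ A.ρ * r

/-- the vector `(1, x, 0, ..., 0)` -/
def tvec {F : Type} [Field F] (n : ℕ) (x : F) : Fin n → F :=
  fun c => if c.1 = 0 then 1 else if c.1 = 1 then x else 0

lemma tvec_eqn {K F : Type} [Field K] [Field F] [Algebra K F] {n : ℕ} (x : F) (c : Fin n) :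
    aeval (tvec n x) (if c.1 < 2 then (0 : MvPolynomial (Fin n) K) else X c) = 0 := by
  by_cases h : c.1 < 2
  · rw [if_pos h, map_zero]
  · rw [if_neg h, aeval_X]
    unfold tvec
    rw [if_neg (by omega), if_neg (by omega)]

/-- the equations of the line in projective space -/
noncomputable def tVar (K : Type) [Field K] (n : ℕ) : VarE K n where
  e := n
  eqn := fun c => if c.1 < 2 then 0 else X c
  deg := fun _ => 1
  hom := fun c => by
    by_cases h : c.1 < 2
    · rw [if_pos h]; exact isHomogeneous_zero _ _ _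
    · rw [if_neg h]; exact isHomogeneous_X _ _

/-- the block attached to the multiplicative group, given by the points `(1 : x : 0 : ... : 0)` of
projective space -/
noncomputable def tblk (K : Type) [Field K] (n : ℕ) (hn : 2 ≤ n) : Blk K n where
  V := tVar K n
  Pt := fun F _ _ => Fˣ
  vec := fun _ _ _ x => tvec n (x : _)
  normed := fun F _ _ x => ⟨⟨0, by omega⟩, by simp [tvec], fun j hj => by
    exact absurd hj (by simp [Fin.lt_def])⟩
  on := fun F _ _ x c => tvec_eqn (x : F) c
  s0 := X ⟨0, by omega⟩ * X ⟨1, by omega⟩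
  e0 := 2
  s0_hom := by
    exact (isHomogeneous_X _ _).mul (isHomogeneous_X _ _)
  s0_ne := fun F _ _ x => by
    rw [map_mul, aeval_X, aeval_X]
    simp [tvec]
  s0_pt := fun F _ _ v hv h => by
    by_cases h0 : v ⟨0, by omega⟩ = 0
    · left
      rw [map_mul, aeval_X, h0, zero_mul]
    by_cases h1 : v ⟨1, by omega⟩ = 0
    · left
      rw [map_mul, aeval_X, aeval_X, h1, mul_zero]
    right
    obtain ⟨i, hi, hi'⟩ := hv
    have hi0 : i = ⟨0, by omega⟩ := by
      by_contra hne
      apply h0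
      refine hi' _ ?_
      rw [Fin.lt_def]
      have : i.1 ≠ 0 := fun h => hne (Fin.ext h)
      change 0 < i.1
      omega
    refine ⟨Units.mk0 _ h1, funext fun c => ?_⟩
    change tvec n (v ⟨1, by omega⟩) c = v c
    unfold tvec
    split_ifs with hc0 hc1
    · have : c = i := by rw [hi0]; exact Fin.ext hc0
      rw [this, hi]
    · congr 1
      exact Fin.ext hc1.symm
    · have h2 := h c
      have h3 : ¬ c.1 < 2 := by omega
      change aeval v (if c.1 < 2 then (0 : MvPolynomial (Fin n) K) else X c) = 0 at h2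
      rw [if_neg h3, aeval_X] at h2
      exact h2.symm
  g := 1
  z0 := ⟨0, by omega⟩
  z := fun _ => ⟨1, by omega⟩

/-- multiplicative rank at most `r` -/
def trk (K : Type) [Field K] (k r : ℕ) (L : Type) [Field L] [Algebra K L] (x : Fin k → Lˣ) :
    Prop :=
  Module.finrank ℤ (AddSubgroup.closure (Set.range (fun j => Additive.ofMul (x j)))) ≤ r

/-- the coordinates are `S`-units at the place `w`, in a generalised sense -/
def tUn (K : Type) [Field K] (n : ℕ) (hn : 2 ≤ n) (k : ℕ) (S : Finset K) : Cond K (Fin k) n :=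
  fun _ _ _ w u => ∀ j, w (u j ⟨1, by omega⟩) ≤ cM S w * w (u j ⟨0, by omega⟩) ∧
    w (u j ⟨0, by omega⟩) ≤ cM S w * w (u j ⟨1, by omega⟩)

/-- **Target.** The torus. -/
def T_blkT : Prop := ∀ (K : Type) [Field K] [NumberField K] (n : ℕ) (hn : 2 ≤ n) (k r : ℕ)
  (S : Finset K), BlkOK (tblk K n hn) k r (trk K k r) (tUn K n hn k S)

/-- **Target.** The condition on the places, for the torus. -/
def T_unT : Prop := ∀ (K : Type) [Field K] (n : ℕ) (hn : 2 ≤ n) (k : ℕ)
  (S : Finset K), UnOK (tblk K n hn) k (tUn K n hn k S)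

/-- **Target.** Powers of abelian varieties. -/
def T_blkA : Prop := ∀ (K : Type) [Field K] [NumberField K] (n : ℕ) (A : AbR K n) (k r : ℕ),
  BlkOK A.blk k r (A.rk k r) (fun _ _ _ _ _ => True)

end Pool.Agent.TH954.X
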