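import Pool.Agent.TH954.X.Blk

/-!
# Powers of an abelian variety with endomorphisms, as a block
-/

set_option autoImplicit false
set_option linter.unusedSectionVars false

open MvPolynomial NumberField Height Pool.Agent.TH954.V

namespace Pool.Agent.TH954.X

/-- the pairs of a family of vectors and a family of degrees which are used -/
def BdX (k ρ : ℕ) (H : ℤ) (D : ℕ) (good : (Fin k → Fin k → Fin ρ → ℤ) → (Fin k → ℕ) → Prop) :
    Set ((Fin k → Fin k → Fin ρ → ℤ) × (Fin k → ℕ)) :=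
  {p | (∀ i j a, |p.1 i j a| ≤ H) ∧ (∀ i, p.2 i ≤ D) ∧ good p.1 p.2}

lemma BdX_finite (k ρ : ℕ) (H : ℤ) (D : ℕ)
    (good : (Fin k → Fin k → Fin ρ → ℤ) → (Fin k → ℕ) → Prop) : (BdX k ρ H D good).Finite := by
  have h0 : ({u : Fin k → Fin k → Fin ρ → ℤ | ∀ i j a, |u i j a| ≤ H}).Finite := by
    have h1 : (Set.univ.pi (fun _ : Fin k => Set.univ.pi (fun _ : Fin k => Set.univ.pi
        (fun _ : Fin ρ => Set.Icc (-H) H)))).Finite :=
      Set.Finite.pi' (fun _ => Set.Finite.pi' (fun _ => Set.Finite.pi'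
        (fun _ => Set.finite_Icc _ _))) |>.subset
        (fun u hu i j a => hu i (Set.mem_univ _) j (Set.mem_univ _) a (Set.mem_univ _))
    refine h1.subset (fun u hu i _ j _ a _ => ?_)
    exact abs_le.mp (hu i j a)
  have h1 := h0.prod (Set.Finite.pi' (fun _ : Fin k => Set.finite_Iic D))
  refine h1.subset (fun p hp => ?_)
  exact ⟨hp.1, fun i => hp.2.1 i⟩

/-- the linear map from integral vectors to vectors over `R` -/
noncomputable def toR {K : Type} [Field K] {n : ℕ} (A : AbR K n) (k : ℕ) :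
    (Fin (k * A.ρ) → ℤ) ≃ₗ[ℤ] (Fin k → A.R) :=
  (LinearEquiv.funCongrLeft ℤ ℤ (finProdFinEquiv (m := k) (n := A.ρ))).trans
    ((LinearEquiv.curry ℤ ℤ (Fin k) (Fin A.ρ)).trans
      (LinearEquiv.piCongrRight (fun _ => A.basis.equivFun.symm)))

lemma toR_apply {K : Type} [Field K] {n : ℕ} (A : AbR K n) (k : ℕ) (x : Fin (k * A.ρ) → ℤ)
    (j : Fin k) : toR A k x j = ∑ a, x (finProdFinEquiv (j, a)) • A.basis a := by
  unfold toR
  rw [LinearEquiv.trans_apply, LinearEquiv.trans_apply, LinearEquiv.piCongrRight_apply,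
    Module.Basis.equivFun_symm_apply]
  rfl

lemma lin_end {K : Type} [Field K] {n : ℕ} (A : AbR K n) {F : Type} [Field F] [Algebra K F]
    {k : ℕ} (v : Fin k → Fin A.ρ → ℤ) (P : Fin k → A.Pt F) :
    A.lin v P = ∑ j, A.end' F (∑ a, v j a • A.basis a) (P j) := by
  unfold AbR.lin
  refine Finset.sum_congr rfl (fun j _ => ?_)
  have h1 : A.end' F (∑ a, v j a • A.basis a) = ∑ a, v j a • A.end' F (A.basis a) := by
    unfold AbR.end'
    rw [map_sum]
    refine Finset.sum_congr rfl (fun a _ => ?_)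
    exact map_zsmul _ _ _
  have h2 : ∀ (s : Finset (Fin A.ρ)) (f : Fin A.ρ → AddMonoid.End (A.Pt F)) (x : A.Pt F),
      (∑ a ∈ s, f a) x = ∑ a ∈ s, f a x := by
    classical
    intro s f x
    induction s using Finset.induction_on with
    | empty => rfl
    | insert a s ha ih =>
      rw [Finset.sum_insert ha, Finset.sum_insert ha, ← ih]
      rfl
  rw [h1, h2]
  rfl

theorem blkA (hfam : T_famR) (hlat : T_latT) (hgr : T_greedy) (hsolve : T_solveR) : T_blkA := by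
  classical
  intro K _ _ n A k r ε hε
  rcases Nat.eq_zero_or_pos k with hk0 | hk0
  · subst hk0
    refine ⟨1, 0, one_pos, fun T hT => ⟨Unit, inferInstance, fun _ _ => 0, fun _ _ _ => 0,
      fun _ l => l.elim0, fun _ l => l.elim0, fun _ l => l.elim0, fun _ l => l.elim0,
      fun _ l => l.elim0, fun _ => ?_, fun _ Ω _ _ _ P => ⟨P, fun l => l.elim0⟩, fun _ => ?_,
      0, le_rfl, fun L _ _ _ P _ => ⟨(), ?_⟩⟩⟩
    · simp
    · rw [Finset.univ_eq_empty, Finset.prod_empty, pow_zero, mul_one, mul_one]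
      exact one_le_pow₀ hT
    · simp
  set ρ : ℕ := A.ρ with hρ
  have hρ0 : 0 < ρ := A.ρ_pos
  set κ : ℕ := k * ρ with hκ
  have hκ0 : 0 < κ := Nat.mul_pos hk0 hρ0
  obtain ⟨Ch, hCh, hcan⟩ := canA A
  obtain ⟨c1, B1, hc1, hB1, hend⟩ := end_height A
  obtain ⟨cf, hcf⟩ := hfam K n A k
  choose Dn hDn1 hDn2 hDn3 using hcf
  choose Fam hhom hrep using hDn3
  have hIsFam : ∀ v, IsFam (wqX (fun _ : Fin k => A.var)) (fun _ => Dn v) (Fam v) := by
    intro v
    refine ⟨hhom v, fun F _ _ u hu => ?_⟩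
    obtain ⟨P, s, hs, rfl⟩ := exists_ptA A hu
    obtain ⟨C, hC, e, he⟩ := (hrep v F P).2
    refine ⟨C, hC, e, ?_⟩
    rw [ev_smul (hhom v C hC e)]
    exact mul_ne_zero (Finset.prod_ne_zero_iff.mpr (fun j _ => pow_ne_zero _ (hs j))) he
  set ε' : ℝ := ε / (1 + ρ * c1) with hε'
  have hden : 0 < 1 + (ρ:ℝ) * c1 := by positivity
  have hε'0 : 0 < ε' := div_pos hε hden
  obtain ⟨c, hc, hH⟩ := hlat (ρ * r) κ hκ0 ε' hε'0
  set c' : ℝ := min 1 c with hc'
  have hc'0 : 0 < c' := lt_min one_pos hc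
  have hc'ρ : c' ^ ρ ≤ c := by
    calc c' ^ ρ ≤ c' ^ 1 := pow_le_pow_of_le_one hc'0.le (min_le_left _ _) hρ0
      _ = c' := pow_one _
      _ ≤ c := min_le_right _ _
  refine ⟨c', 2 * cf * k, hc'0, fun T hT => ?_⟩
  have hT0 : 0 < T := by linarith
  obtain ⟨H, D, hHD⟩ := hH T hT
  set good : (Fin k → Fin k → Fin ρ → ℤ) → (Fin k → ℕ) → Prop := fun v d =>
    LinearIndependent A.R (fun (l j : Fin k) => ∑ a, v l j a • A.basis a) ∧
    (∑ l, (d l : ℝ) * ∑ _j : Fin k, (Dn (v l) : ℝ)) ≤ ((2 * cf * k : ℕ) : ℝ) * T ∧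
    c' * T ^ k ≤ T ^ r * ∏ l, ((d l : ℝ) + 1) with hgood
  have hfin := (BdX_finite k ρ H D good).to_subtype
  refine ⟨↥(BdX k ρ H D good), Fintype.ofFinite _, fun p => p.1.2, fun p l _ => Dn (p.1.1 l),
    fun p l => Fam (p.1.1 l), fun p l F _ _ P => A.lin (p.1.1 l) P, ?_, ?_, ?_, ?_, ?_, ?_, ?_⟩
  · intro p l
    exact hhom (p.1.1 l)
  · intro p l F _ _ P
    exact hrep (p.1.1 l) F P
  · intro p l
    exact locF_fam (wqX (fun _ : Fin k => A.var)) (wqX_MH _) _ (Fam (p.1.1 l)) (hIsFam _)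
  · intro p
    exact p.2.2.2.2.1
  · intro p Ω _ _ _ P
    obtain ⟨Q, hQ⟩ := hsolve A.R A.ρ A.ρ_pos A.basis (A.Pt Ω) (A.act Ω)
      (fun P m hm => A.div Ω P m hm) k _ p.2.2.2.1 P
    refine ⟨Q, fun l => ?_⟩
    change A.lin (p.1.1 l) Q = P l
    rw [lin_end]
    exact hQ l
  · intro p
    exact p.2.2.2.2.2
  -- heights
  refine ⟨ε' * (1 + κ * (B1 + Ch)) + k * D * Ch, by positivity, fun L _ _ _ P hrk => ?_⟩
  change Fin k → A.Pt L at P
  obtain ⟨q, hq2, hq3, hqh⟩ := hcan L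
  set e := finProdFinEquiv (m := k) (n := ρ) with he
  set Rt : Fin κ → A.Pt L := fun t => A.end' L (A.basis (e.symm t).2) (P (e.symm t).1) with hRt
  have hrange : Set.range Rt = Set.range
      (fun p : Fin k × Fin A.ρ => A.end' L (A.basis p.2) (P p.1)) :=
    e.symm.surjective.range_comp (fun p : Fin k × Fin A.ρ => A.end' L (A.basis p.2) (P p.1))
  have hrk' : Module.finrank ℤ (AddSubgroup.closure (Set.range Rt)) ≤ ρ * r := by
    rw [hrange]
    exact hrk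
  have hfg : AddGroup.FG (AddSubgroup.closure (Set.range Rt)) := by
    rw [AddGroup.fg_iff_addSubgroup_fg]
    exact ⟨Finset.univ.image Rt, by rw [Finset.coe_image, Finset.coe_univ, Set.image_univ]⟩
  obtain ⟨Nm, hNm⟩ := gram_decomp Rt hfg hrk' q hq2 hq3
  set DL : ℝ := (Module.finrank ℚ L : ℝ) with hDL
  have hDL0 : 0 < DL := by
    have : 0 < Module.finrank ℚ L := Module.finrank_pos
    rw [hDL]
    exact_mod_cast this
  set M2 : ℝ := 1 + (∑ t, q (Rt t)) / DL with hM2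
  have hM21 : 1 ≤ M2 := by
    have : 0 ≤ (∑ t, q (Rt t)) / DL :=
      div_nonneg (Finset.sum_nonneg (fun _ _ => hq2 _)) hDL0.le
    linarith
  have hsq : (√DL) ^ 2 = DL := Real.sq_sqrt hDL0.le
  have hcol : ∀ j, q (Rt j) = ∑ l, Nm l j ^ 2 := by
    intro j
    have h1 := hNm (Pi.single j 1)
    have h2 : ∑ i, (Pi.single j 1 : Fin κ → ℤ) i • Rt i = Rt j := by
      rw [Finset.sum_eq_single j]
      · simp
      · intro i _ hi
        simp [hi]
      · simp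
    rw [h2] at h1
    rw [h1]
    refine Finset.sum_congr rfl (fun l _ => ?_)
    congr 1
    rw [Finset.sum_eq_single j]
    · simp
    · intro i _ hi
      simp [hi]
    · simp
  obtain ⟨u, hu1, hu2, d, hd0, hd1, hd2, hd3⟩ := hHD (fun l j => Nm l j / √DL) (√M2)
    (by rw [Real.one_le_sqrt]; exact hM21) (by
      intro l j
      rw [← Real.sqrt_sq_eq_abs]
      apply Real.sqrt_le_sqrt
      rw [div_pow, hsq]
      have h1 : Nm l j ^ 2 ≤ ∑ l, Nm l j ^ 2 :=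
        Finset.single_le_sum (f := fun l => Nm l j ^ 2) (fun _ _ => sq_nonneg _)
          (Finset.mem_univ l)
      rw [← hcol j] at h1
      have h2 : q (Rt j) ≤ ∑ j, q (Rt j) :=
        Finset.single_le_sum (f := fun j => q (Rt j)) (fun _ _ => hq2 _) (Finset.mem_univ j)
      have h3 : Nm l j ^ 2 / DL ≤ (∑ j, q (Rt j)) / DL :=
        div_le_div_of_nonneg_right (h1.trans h2) hDL0.le
      linarith)
  rw [Real.sq_sqrt (by linarith)] at hd3
  -- the vectors over `R`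
  have hw : LinearIndependent ℤ (fun l => toR A k (u l)) :=
    hu1.map' (toR A k).toLinearMap (LinearEquiv.ker _)
  obtain ⟨σ0, hσ1, hσ2⟩ := hgr A.R A.ρ A.ρ_pos A.basis k (fun l => toR A k (u l)) hw d
  have hnt : Nontrivial A.R := ⟨⟨A.basis ⟨0, hρ0⟩, 0, A.basis.ne_zero _⟩⟩
  have hσinj : Function.Injective σ0 := by
    intro x y hxy
    exact hσ1.injective (by simp only [hxy])
  set v : Fin k → Fin k → Fin ρ → ℤ := fun i j a => u (σ0 i) (e (j, a)) with hv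
  set d' : Fin k → ℕ := fun i => d (σ0 i) with hd'
  have hnorm1 : ∀ j, 1 ≤ ∑ t, (u j t : ℝ) ^ 2 := by
    intro j
    obtain ⟨t0, ht0⟩ := Function.ne_iff.mp (hu1.ne_zero j)
    have h1 : (u j t0 : ℝ) ^ 2 ≤ ∑ t, (u j t : ℝ) ^ 2 :=
      Finset.single_le_sum (f := fun t => (u j t : ℝ) ^ 2) (fun _ _ => sq_nonneg _)
        (Finset.mem_univ t0)
    have h2 : (1 : ℤ) ≤ (u j t0) ^ 2 := by
      have h3 : u j t0 ≠ 0 := ht0
      have : 0 < (u j t0) ^ 2 := by positivity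
      omega
    have h4 : (1 : ℝ) ≤ (u j t0 : ℝ) ^ 2 := by exact_mod_cast h2
    linarith
  have hvu : ∀ l, ∑ j, ∑ a, ((v l j a : ℤ) : ℝ) ^ 2 = ∑ t, (u (σ0 l) t : ℝ) ^ 2 := by
    intro l
    rw [← e.sum_comp, Fintype.sum_prod_type]
  have hDn : ∀ l, (Dn (v l) : ℝ) ≤ 2 * cf * ∑ t, (u (σ0 l) t : ℝ) ^ 2 := by
    intro l
    have h1 : (Dn (v l) : ℝ) ≤ cf * (1 + ∑ j, ∑ a, ((v l j a : ℤ) : ℝ) ^ 2) := by
      exact_mod_cast hDn2 (v l)
    rw [hvu] at h1
    have h2 := hnorm1 (σ0 l)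
    have h3 : (0 : ℝ) ≤ cf := Nat.cast_nonneg _
    nlinarith
  have hsub : ∀ f : Fin κ → ℝ, (∀ t, 0 ≤ f t) → ∑ l, f (σ0 l) ≤ ∑ t, f t := by
    intro f hf
    rw [← Finset.sum_image (f := f) (s := Finset.univ) (g := σ0)
      (fun x _ y _ h => hσinj h)]
    exact Finset.sum_le_sum_of_subset_of_nonneg (Finset.subset_univ _) (fun t _ _ => hf t)
  have hsum1 : (∑ l, (d' l : ℝ) * ∑ _j : Fin k, (Dn (v l) : ℝ)) ≤ ((2 * cf * k : ℕ) : ℝ) * T := by
    have h1 : ∀ l ∈ (Finset.univ : Finset (Fin k)), (d' l : ℝ) * ∑ _j : Fin k, (Dn (v l) : ℝ) ≤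
        (2 * cf * k) * ((d (σ0 l) : ℝ) * ∑ t, (u (σ0 l) t : ℝ) ^ 2) := by
      intro l _
      rw [Finset.sum_const, Finset.card_univ, Fintype.card_fin, nsmul_eq_mul]
      have h2 := mul_le_mul_of_nonneg_left (hDn l)
        (by positivity : (0 : ℝ) ≤ (d' l : ℝ) * k)
      calc (d' l : ℝ) * (k * Dn (v l)) = d' l * k * Dn (v l) := by ring
        _ ≤ d' l * k * (2 * cf * ∑ t, (u (σ0 l) t : ℝ) ^ 2) := h2
        _ = _ := by rw [hd']; ring
    refine (Finset.sum_le_sum h1).trans ?_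
    rw [← Finset.mul_sum]
    have h3 := hsub (fun t => (d t : ℝ) * ∑ i, (u t i : ℝ) ^ 2)
      (fun t => mul_nonneg (Nat.cast_nonneg _) (Finset.sum_nonneg (fun _ _ => sq_nonneg _)))
    have h4 : (0 : ℝ) ≤ 2 * cf * k := by positivity
    push_cast
    exact mul_le_mul_of_nonneg_left (h3.trans hd1) h4
  have hprod1 : c' * T ^ k ≤ T ^ r * ∏ l, ((d' l : ℝ) + 1) := by
    have h1 : (∏ l, ((d l : ℝ) + 1)) ≤ (∏ i, ((d (σ0 i) : ℝ) + 1)) ^ ρ := by
      exact_mod_cast hσ2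
    have h2 : (c' * T ^ k) ^ ρ ≤ (T ^ r * ∏ l, ((d' l : ℝ) + 1)) ^ ρ := by
      calc (c' * T ^ k) ^ ρ = c' ^ ρ * T ^ κ := by rw [mul_pow, ← pow_mul, hκ]
        _ ≤ c * T ^ κ := mul_le_mul_of_nonneg_right hc'ρ (by positivity)
        _ ≤ T ^ (ρ * r) * ∏ l, ((d l : ℝ) + 1) := hd2
        _ ≤ T ^ (ρ * r) * (∏ i, ((d (σ0 i) : ℝ) + 1)) ^ ρ :=
            mul_le_mul_of_nonneg_left h1 (by positivity)
        _ = _ := by rw [mul_pow, ← pow_mul, mul_comm ρ r]
    exact le_of_pow_le_pow_left₀ hρ0.ne' (by positivity) h2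
  have hgd : (v, d') ∈ BdX k ρ H D good := by
    refine ⟨fun i j a => hu2 _ _, fun i => hd0 _, ?_, hsum1, hprod1⟩
    have h1 : (fun (l j : Fin k) => ∑ a, v l j a • A.basis a) =
        fun i => toR A k (u (σ0 i)) := by
      funext l j
      rw [toR_apply]
    change LinearIndependent A.R (fun (l j : Fin k) => ∑ a, v l j a • A.basis a)
    rw [h1]
    exact hσ1
  refine ⟨⟨(v, d'), hgd⟩, ?_⟩
  change ∑ l, (d' l : ℝ) * logHeight (A.lin (v l) P).1 ≤
    ε * ∑ j, logHeight (P j).1 + (ε' * (1 + κ * (B1 + Ch)) + k * D * Ch) * DL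
  have hlin : ∀ l, A.lin (v l) P = ∑ t, u (σ0 l) t • Rt t := by
    intro l
    rw [← e.sum_comp, Fintype.sum_prod_type]
    unfold AbR.lin
    refine Finset.sum_congr rfl (fun j _ => Finset.sum_congr rfl (fun a _ => ?_))
    rw [hRt]
    simp only [Equiv.symm_apply_apply]
    rfl
  have hS : ∀ l, q (A.lin (v l) P) =
      DL * ∑ i, (∑ t, (u (σ0 l) t : ℝ) * (Nm i t / √DL)) ^ 2 := by
    intro l
    rw [hlin, hNm, Finset.mul_sum]
    refine Finset.sum_congr rfl (fun i _ => ?_)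
    have h1 : ∑ j, (u (σ0 l) j : ℝ) * (Nm i j / √DL) = (∑ j, (u (σ0 l) j : ℝ) * Nm i j) / √DL := by
      rw [Finset.sum_div]
      exact Finset.sum_congr rfl (fun j _ => by ring)
    rw [h1, div_pow, hsq, mul_div_cancel₀ _ hDL0.ne']
  have hupp : ∀ R : A.Pt L, logHeight R.1 ≤ q R + Ch * DL := fun R => by
    have := (abs_le.mp (hqh R)).1
    linarith
  have hlow : ∀ R : A.Pt L, q R ≤ logHeight R.1 + Ch * DL := fun R => by
    have := (abs_le.mp (hqh R)).2
    linarith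
  have hterm : ∀ l, (d' l : ℝ) * logHeight (A.lin (v l) P).1 ≤
      DL * ((d (σ0 l) : ℝ) * ∑ i, (∑ t, (u (σ0 l) t : ℝ) * (Nm i t / √DL)) ^ 2) + D * Ch * DL := by
    intro l
    have h1 := hupp (A.lin (v l) P)
    rw [hS l] at h1
    have h2 := mul_le_mul_of_nonneg_left h1 (Nat.cast_nonneg (α := ℝ) (d' l))
    have h3 : (d' l : ℝ) ≤ D := by exact_mod_cast hd0 (σ0 l)
    have h4 := mul_le_mul_of_nonneg_right h3 (mul_nonneg hCh hDL0.le)
    have h5 : (d (σ0 l) : ℝ) = d' l := rfl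
    rw [h5]
    linarith
  have hsum2 : ∑ l, (d (σ0 l) : ℝ) * ∑ i, (∑ t, (u (σ0 l) t : ℝ) * (Nm i t / √DL)) ^ 2 ≤
      ε' * M2 := by
    refine le_trans ?_ hd3
    exact hsub (fun m => (d m : ℝ) * ∑ i, (∑ t, (u m t : ℝ) * (Nm i t / √DL)) ^ 2)
      (fun t => mul_nonneg (Nat.cast_nonneg _) (Finset.sum_nonneg (fun _ _ => sq_nonneg _)))
  have hsumle : ∑ l, (d' l : ℝ) * logHeight (A.lin (v l) P).1 ≤
      DL * (ε' * M2) + k * (D * Ch * DL) := by
    refine (Finset.sum_le_sum (fun l _ => hterm l)).trans ?_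
    rw [Finset.sum_add_distrib, ← Finset.mul_sum, Finset.sum_const, Finset.card_univ,
      Fintype.card_fin, nsmul_eq_mul]
    have := mul_le_mul_of_nonneg_left hsum2 hDL0.le
    linarith
  have hqR : ∑ t, q (Rt t) ≤ ρ * c1 * ∑ j, logHeight (P j).1 + κ * (B1 + Ch) * DL := by
    have h1 : ∀ p : Fin k × Fin ρ, q (Rt (e p)) ≤ c1 * logHeight (P p.1).1 + (B1 + Ch) * DL := by
      intro p
      have h2 : Rt (e p) = A.end' L (A.basis p.2) (P p.1) := by
        rw [hRt]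
        simp only [Equiv.symm_apply_apply]
      rw [h2]
      have h3 := hlow (A.end' L (A.basis p.2) (P p.1))
      have h4 := hend L p.2 (P p.1)
      linarith
    rw [← e.sum_comp]
    refine (Finset.sum_le_sum (fun p _ => h1 p)).trans (le_of_eq ?_)
    rw [Fintype.sum_prod_type, Finset.mul_sum]
    simp only [Finset.sum_const, Finset.card_univ, Fintype.card_fin, nsmul_eq_mul]
    rw [← Finset.mul_sum, Finset.sum_add_distrib, ← Finset.mul_sum, Finset.sum_const,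
      Finset.card_univ, Fintype.card_fin, nsmul_eq_mul, hκ, ← Finset.mul_sum]
    push_cast
    ring
  have hM2D : DL * M2 = DL + ∑ t, q (Rt t) := by
    rw [hM2]
    field_simp
  have hε1 : ε' * (ρ * c1) ≤ ε := by
    have h1 : ε' * (1 + ρ * c1) = ε := by
      rw [hε']
      field_simp
    nlinarith
  have hsumh : 0 ≤ ∑ j, logHeight (P j).1 := Finset.sum_nonneg (fun _ _ => logHeight_nonneg _)
  have h6 := mul_le_mul_of_nonneg_left hqR hε'0.le
  have h7 := mul_le_mul_of_nonneg_right hε1 hsumh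
  calc _ ≤ DL * (ε' * M2) + k * (D * Ch * DL) := hsumle
    _ = ε' * (DL * M2) + k * (D * Ch * DL) := by ring
    _ = ε' * DL + ε' * (∑ t, q (Rt t)) + k * (D * Ch * DL) := by rw [hM2D]; ring
    _ ≤ ε' * DL + ε' * (ρ * c1 * ∑ j, logHeight (P j).1 + κ * (B1 + Ch) * DL) +
        k * (D * Ch * DL) := by linarith
    _ = ε' * (ρ * c1) * ∑ j, logHeight (P j).1 +
        (ε' * (1 + κ * (B1 + Ch)) + k * D * Ch) * DL := by ring
    _ ≤ _ := by linarith

end Pool.Agent.TH954.X
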