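import Pool.Agent.TH954.X.Blk

/-!
# The block of the torus (helper364 for helper954)
-/

set_option autoImplicit false
set_option linter.unusedSectionVars false

open MvPolynomial NumberField Height Pool.Agent.TH954.V

namespace Pool.Agent.TH954.X.BT

/-! ### heights on the multiplicative group -/

lemma logHeight_tvec {L : Type} [Field L] [NumberField L] {n : ℕ} (hn : 2 ≤ n) (x : L) :
    logHeight (tvec n x) = logHeight₁ x := by
  rw [logHeight₁_eq_logHeight]
  refine le_antisymm ?_ ?_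
  · have h1 : tvec n x = (Sum.elim ![x, 1] (0 : Unit → L)) ∘
        (fun c : Fin n => if c.1 = 0 then Sum.inl 1 else if c.1 = 1 then Sum.inl 0 else Sum.inr ()) := by
      funext c
      unfold tvec
      simp only [Function.comp_apply]
      split_ifs <;> simp
    rw [h1, ← logHeight_sumElim_zero_eq (ι' := Unit) ![x, 1]]
    exact logHeight_comp_le _ _
  · have h1 : ![x, 1] = (tvec n x) ∘ ![(⟨1, by omega⟩ : Fin n), ⟨0, by omega⟩] := by
      funext c
      fin_cases c <;> simp [tvec]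
    rw [h1]
    exact logHeight_comp_le _ _

/-- the height on the multiplicative group -/
noncomputable def hT (L : Type) [Field L] [NumberField L] (x : Additive Lˣ) : ℝ :=
  logHeight₁ ((x.toMul : Lˣ) : L)

lemma hT_nonneg {L : Type} [Field L] [NumberField L] (x : Additive Lˣ) : 0 ≤ hT L x :=
  zero_le_logHeight₁ _

lemma hT_add {L : Type} [Field L] [NumberField L] (x y : Additive Lˣ) :
    hT L (x + y) ≤ hT L x + hT L y := by
  unfold hT
  rw [toMul_add, Units.val_mul]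
  exact logHeight₁_mul_le _ _

lemma hT_smul {L : Type} [Field L] [NumberField L] (m : ℤ) (x : Additive Lˣ) :
    hT L (m • x) = |(m : ℝ)| * hT L x := by
  unfold hT
  rw [toMul_zsmul, Units.val_zpow_eq_zpow_val, logHeight₁_zpow, Nat.cast_natAbs, Int.cast_abs]

/-! ### the monomial maps -/

/-- the forms of the monomial map with exponents `v` -/
noncomputable def tup (K : Type) [Field K] {n : ℕ} (hn : 2 ≤ n) {k : ℕ} (v : Fin k → ℤ) :
    Fin n → MvPolynomial (Fin k × Fin n) K := fun c =>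
  if c.1 = 0 then ∏ j, X (j, if 0 ≤ v j then (⟨0, by omega⟩ : Fin n) else ⟨1, by omega⟩) ^ (v j).natAbs
  else if c.1 = 1 then
    ∏ j, X (j, if 0 ≤ v j then (⟨1, by omega⟩ : Fin n) else ⟨0, by omega⟩) ^ (v j).natAbs
  else 0

lemma MH_zero {K : Type} [Field K] {ι : Type} {n : ℕ} (d : ι → ℕ) :
    MH d (0 : MvPolynomial (ι × Fin n) K) := by
  intro m hm
  simp at hm

lemma MH_X' {K : Type} [Field K] {k n : ℕ} (j : Fin k) (a : Fin n) :
    MH (fun i => if i = j then 1 else 0) (X (j, a) : MvPolynomial (Fin k × Fin n) K) := by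
  classical
  intro m hm i
  rw [support_X, Finset.mem_singleton] at hm
  subst hm
  change _ = if i = j then 1 else 0
  by_cases h : i = j
  · subst h
    rw [if_pos rfl, Finset.sum_eq_single a]
    · simp
    · intro b _ hb
      rw [Finsupp.single_eq_of_ne]
      intro h
      exact hb (Prod.ext_iff.mp h).2
    · simp
  · rw [if_neg h]
    refine Finset.sum_eq_zero fun b _ => ?_
    rw [Finsupp.single_eq_of_ne]
    intro h'
    exact h (Prod.ext_iff.mp h').1

lemma MH_mon {K : Type} [Field K] {k n : ℕ} (v : Fin k → ℤ) (a : Fin k → Fin n) :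
    MH (fun j => (v j).natAbs) (∏ j, X (j, a j) ^ (v j).natAbs : MvPolynomial (Fin k × Fin n) K) := by
  have h1 := MH_prod (K := K) (ι := Fin k) (n := n) Finset.univ
    (fun j i => (v j).natAbs * (if i = j then 1 else 0)) (fun j => X (j, a j) ^ (v j).natAbs)
    (fun j _ => MH_pow (MH_X' j (a j)) _)
  have h2 : (fun j : Fin k => ∑ i, (v i).natAbs * (if j = i then 1 else 0)) = fun j => (v j).natAbs := by
    funext j
    simp
  rw [h2] at h1
  exact h1

lemma MH_tup (K : Type) [Field K] {n : ℕ} (hn : 2 ≤ n) {k : ℕ} (v : Fin k → ℤ) (c : Fin n) :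
    MH (fun j => (v j).natAbs) (tup K hn v c) := by
  unfold tup
  split_ifs
  · exact MH_mon v _
  · exact MH_mon v _
  · exact MH_zero _

lemma ev_mon {K F : Type} [Field K] [Field F] [Algebra K F] {k n : ℕ} (v : Fin k → ℤ)
    (a : Fin k → Fin n) (u : Fin k → Fin n → F) :
    ev (∏ j, X (j, a j) ^ (v j).natAbs : MvPolynomial (Fin k × Fin n) K) u =
      ∏ j, u j (a j) ^ (v j).natAbs := by
  unfold ev
  rw [map_prod]
  refine Finset.prod_congr rfl fun j _ => ?_
  rw [map_pow, aeval_X]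

lemma ev_tup0 {K F : Type} [Field K] [Field F] [Algebra K F] {n : ℕ} (hn : 2 ≤ n) {k : ℕ}
    (v : Fin k → ℤ) (u : Fin k → Fin n → F) :
    ev (tup K hn v ⟨0, by omega⟩) u =
      ∏ j, u j (if 0 ≤ v j then (⟨0, by omega⟩ : Fin n) else ⟨1, by omega⟩) ^ (v j).natAbs := by
  unfold tup
  rw [if_pos rfl]
  exact ev_mon v _ u

/-- the monomial map on points -/
def mon {k : ℕ} {G : Type} [CommGroup G] (v : Fin k → ℤ) (x : Fin k → G) : G := ∏ j, x j ^ v j

lemma ev_tup {K F : Type} [Field K] [Field F] [Algebra K F] {n : ℕ} (hn : 2 ≤ n) {k : ℕ}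
    (v : Fin k → ℤ) (x : Fin k → Fˣ) : ∃ s : F, s ≠ 0 ∧
    (fun c => ev (tup K hn v c) (fun j => tvec n ((x j : Fˣ) : F))) =
      s • tvec n ((mon v x : Fˣ) : F) := by
  set s : Fˣ := ∏ j, if 0 ≤ v j then 1 else x j ^ (v j).natAbs with hs
  refine ⟨(s : F), s.ne_zero, ?_⟩
  funext c
  rw [Pi.smul_apply, smul_eq_mul]
  unfold tup tvec
  by_cases h0 : c.1 = 0
  · rw [if_pos h0, if_pos h0, ev_mon, mul_one, hs, Units.coe_prod]
    refine Finset.prod_congr rfl fun j _ => ?_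
    by_cases hv : 0 ≤ v j
    · simp [hv]
    · simp [hv]
  · rw [if_neg h0, if_neg h0]
    by_cases h1 : c.1 = 1
    · rw [if_pos h1, if_pos h1, ev_mon, ← Units.val_mul]
      have h2 : s * mon v x = ∏ j, (if 0 ≤ v j then x j ^ (v j).natAbs else 1) := by
        rw [hs]
        unfold mon
        rw [← Finset.prod_mul_distrib]
        refine Finset.prod_congr rfl fun j _ => ?_
        by_cases hv : 0 ≤ v j
        · rw [if_pos hv, if_pos hv, one_mul]
          conv_lhs => rw [← Int.natAbs_of_nonneg hv]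
          rw [zpow_natCast]
        · rw [if_neg hv, if_neg hv]
          have h3 : v j = -((v j).natAbs : ℤ) := by omega
          conv_lhs => rw [h3]
          rw [Int.natAbs_neg, Int.natAbs_natCast, zpow_neg, zpow_natCast, mul_inv_cancel]
      rw [h2, Units.coe_prod]
      refine Finset.prod_congr rfl fun j _ => ?_
      by_cases hv : 0 ≤ v j
      · simp [hv]
      · simp [hv]
    · rw [if_neg h1, if_neg h1, mul_zero]
      simp [ev]

/-! ### absolute values -/

lemma sup_le_tUn {K L : Type} [Field K] [Field L] [Algebra K L] {n : ℕ} (hn : 2 ≤ n) {k : ℕ}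
    {S : Finset K} {w : AbsoluteValue L ℝ} {u : Fin k → Fin n → L}
    (hu : OnS (wqX (fun _ : Fin k => tVar K n)) u) (hUn : tUn K n hn k S L w u) (j : Fin k)
    (a : Fin n) (ha : a.1 < 2) : (⨆ c, w (u j c)) ≤ cM S w * w (u j a) := by
  have : Nonempty (Fin n) := ⟨⟨0, by omega⟩⟩
  have h1 : ∀ c : Fin n, 2 ≤ c.1 → u j c = 0 := by
    intro c hc
    have h2 := hu.2 ⟨j, c⟩
    unfold wqX at h2
    rw [ev_rename] at h2
    change aeval (u j) (if c.1 < 2 then (0 : MvPolynomial (Fin n) K) else X c) = 0 at h2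
    rw [if_neg (by omega), aeval_X] at h2
    exact h2
  have hc1 := one_le_cM S w
  obtain ⟨h3, h4⟩ := hUn j
  have h5 : ∀ c : Fin n, w (u j c) ≤ cM S w * w (u j c) := fun c =>
    le_mul_of_one_le_left (w.nonneg _) hc1
  refine ciSup_le fun c => ?_
  by_cases hc : 2 ≤ c.1
  · rw [h1 c hc, w.map_zero]
    exact mul_nonneg (by linarith) (w.nonneg _)
  · have e : ∀ b : Fin n, b.1 < 2 → b = ⟨0, by omega⟩ ∨ b = ⟨1, by omega⟩ := by
      intro b hb
      by_cases h0 : b.1 = 0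
      · exact Or.inl (Fin.ext h0)
      · exact Or.inr (Fin.ext (by change b.1 = 1; omega))
    rcases e c (by omega) with h6 | h6 <;> rcases e a ha with h7 | h7 <;> rw [h6, h7]
    · exact h5 _
    · exact h4
    · exact h3
    · exact h5 _

lemma kap_one {K L : Type} [Field K] [Field L] [Algebra K L] (S : Finset K) (e : ℕ)
    (w : AbsoluteValue L ℝ) : kap S 1 e w = cM S w ^ e := by
  unfold kap
  split_ifs <;> simp

lemma loc_tup {K : Type} [Field K] {n : ℕ} (hn : 2 ≤ n) {k : ℕ} (S : Finset K) (v : Fin k → ℤ) :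
    LocF (wqX (fun _ : Fin k => tVar K n)) (tUn K n hn k S) (fun j => (v j).natAbs)
      ({tup K hn v} : Finset (Fin n → MvPolynomial (Fin k × Fin n) K)) := by
  refine ⟨S, 1, ∑ j, (v j).natAbs, le_rfl, fun L _ _ w u hu hUn t ht => ?_⟩
  obtain ⟨s, hs⟩ := ht.2 (tup K hn v) (Finset.mem_singleton_self _)
  refine ⟨tup K hn v, Finset.mem_singleton_self _, s, hs, ?_⟩
  rw [kap_one]
  have h1 : w (ev (tup K hn v ⟨0, by omega⟩) u) ≤ w s * ⨆ c, w (t c) := by
    have h2 : ev (tup K hn v ⟨0, by omega⟩) u = (s • t) ⟨0, by omega⟩ := congrFun hs _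
    rw [h2, Pi.smul_apply, smul_eq_mul, w.map_mul]
    exact mul_le_mul_of_nonneg_left (le_supW w _ _) (w.nonneg _)
  have hc1 := one_le_cM S w
  refine le_trans ?_ (mul_le_mul_of_nonneg_left h1 (pow_nonneg (by linarith) _))
  rw [ev_tup0 hn v u, w.map_prod, ← Finset.prod_pow_eq_pow_sum, ← Finset.prod_mul_distrib]
  refine Finset.prod_le_prod (fun j _ => pow_nonneg (Real.iSup_nonneg fun c => w.nonneg _) _) fun j _ => ?_
  rw [w.map_pow, ← mul_pow]
  refine pow_le_pow_left₀ (Real.iSup_nonneg fun c => w.nonneg _) ?_ _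
  exact sup_le_tUn hn hu hUn j _ (by split_ifs <;> simp)

/-- solving monomial equations -/
lemma solveT (hsolve : T_solveR) {Ω : Type} [Field Ω] [IsAlgClosed Ω] {k : ℕ}
    (φ : Fin k → Fin k → ℤ) (hφ : LinearIndependent ℤ φ) (P : Fin k → Ωˣ) :
    ∃ Q : Fin k → Ωˣ, ∀ l, mon (φ l) Q = P l := by
  obtain ⟨Q, hQ⟩ := hsolve ℤ 1 one_pos (Module.Basis.singleton (Fin 1) ℤ) (Additive Ωˣ)
    (Int.castRingHom _) (fun x m hm => by
      obtain ⟨z, hz⟩ := IsAlgClosed.exists_pow_nat_eq ((x.toMul : Ωˣ) : Ω) hm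
      have hz0 : z ≠ 0 := by
        rintro rfl
        rw [zero_pow hm.ne'] at hz
        exact (x.toMul : Ωˣ).ne_zero hz.symm
      refine ⟨Additive.ofMul (Units.mk0 z hz0), ?_⟩
      rw [← ofMul_pow]
      have h1 : (Units.mk0 z hz0) ^ m = x.toMul := Units.ext (by simpa using hz)
      rw [h1]
      rfl) k φ hφ (fun l => Additive.ofMul (P l))
  refine ⟨fun j => (Q j).toMul, fun l => ?_⟩
  have h1 := hQ l
  have h2 : ∑ j, (Int.castRingHom (AddMonoid.End (Additive Ωˣ)) (φ l j)) (Q j) =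
      Additive.ofMul (mon (φ l) (fun j => (Q j).toMul)) := by
    unfold mon
    rw [ofMul_prod]
    refine Finset.sum_congr rfl fun j _ => ?_
    rw [eq_intCast, AddMonoid.End.intCast_apply, ofMul_zpow]
    rfl
  rw [h2] at h1
  exact Additive.ofMul.injective h1


lemma tblk_V (K : Type) [Field K] (n : ℕ) (hn : 2 ≤ n) : (tblk K n hn).V = tVar K n := rfl
lemma tblk_e0 (K : Type) [Field K] (n : ℕ) (hn : 2 ≤ n) : (tblk K n hn).e0 = 2 := rfl
lemma tblk_s0 (K : Type) [Field K] (n : ℕ) (hn : 2 ≤ n) : (tblk K n hn).s0 =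
    X ⟨0, by omega⟩ * X ⟨1, by omega⟩ := rfl

lemma unT_aux {K L : Type} [Field K] [Field L] [Algebra K L] {n : ℕ} (hn : 2 ≤ n) {k : ℕ}
    {S : Finset K} {w : AbsoluteValue L ℝ} {u : Fin k → Fin n → L}
    (hu : OnS (wqX (fun _ : Fin k => tVar K n)) u) (hUn : tUn K n hn k S L w u) (j : Fin k) :
    (⨆ c, w (u j c)) ^ 2 ≤ kap S 1 2 w * w (aeval (u j)
      (X ⟨0, by omega⟩ * X ⟨1, by omega⟩ : MvPolynomial (Fin n) K)) := by
  rw [kap_one, map_mul, aeval_X, aeval_X, w.map_mul]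
  have h0 := sup_le_tUn hn hu hUn j ⟨0, by omega⟩ (by simp)
  have h1 := sup_le_tUn hn hu hUn j ⟨1, by omega⟩ (by simp)
  have h2 : 0 ≤ ⨆ c, w (u j c) := Real.iSup_nonneg fun c => w.nonneg _
  calc (⨆ c, w (u j c)) ^ 2 = (⨆ c, w (u j c)) * (⨆ c, w (u j c)) := sq _
    _ ≤ (cM S w * w (u j ⟨0, by omega⟩)) * (cM S w * w (u j ⟨1, by omega⟩)) :=
        mul_le_mul h0 h1 h2 (h2.trans h0)
    _ = _ := by ring



/-- the explicit form of the target -/
def BlkT' (K : Type) [Field K] [NumberField K] (n : ℕ) (hn : 2 ≤ n) (k r : ℕ) (S : Finset K) : Prop :=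
  ∀ ε : ℝ, 0 < ε → ∃ (c : ℝ) (C1 : ℕ), 0 < c ∧ ∀ T : ℝ, 1 ≤ T →
    ∃ (I : Type) (_ : Fintype I) (d : I → Fin k → ℕ) (σ : I → Fin k → Fin k → ℕ)
      (Fam : I → Fin k → Finset (Fin n → MvPolynomial (Fin k × Fin n) K))
      (map : I → Fin k → ∀ (F : Type) [Field F] [Algebra K F], (Fin k → Fˣ) → Fˣ),
      (∀ i l, ∀ C ∈ Fam i l, ∀ c, MH (σ i l) (C c)) ∧
      (∀ i l (F : Type) [Field F] [Algebra K F] (P : Fin k → Fˣ),
        (∀ C ∈ Fam i l, ∃ s : F, (fun c => ev (C c) (fun j => tvec n ((P j : Fˣ) : F))) =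
          s • tvec n ((map i l F P : Fˣ) : F)) ∧
        ∃ C ∈ Fam i l, ∃ c, ev (C c) (fun j => tvec n ((P j : Fˣ) : F)) ≠ 0) ∧
      (∀ i l, LocF (wqX (fun _ : Fin k => tVar K n)) (tUn K n hn k S) (σ i l) (Fam i l)) ∧
      (∀ i, ∑ l, (d i l : ℝ) * ∑ j, (σ i l j : ℝ) ≤ C1 * T) ∧
      (∀ i (Ω : Type) [Field Ω] [Algebra K Ω] [IsAlgClosed Ω] (P : Fin k → Ωˣ),
        ∃ Q : Fin k → Ωˣ, ∀ l, map i l Ω Q = P l) ∧
      (∀ i, c * T ^ k ≤ T ^ r * ∏ l, ((d i l : ℝ) + 1)) ∧
      ∃ C : ℝ, 0 ≤ C ∧ ∀ (L : Type) [Field L] [NumberField L] [Algebra K L]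
        (P : Fin k → Lˣ), trk K k r L P →
        ∃ i, ∑ l, (d i l : ℝ) * logHeight (tvec n ((map i l L P : Lˣ) : L)) ≤
          ε * ∑ j, logHeight (tvec n ((P j : Lˣ) : L)) + C * Module.finrank ℚ L

theorem blk_of {K : Type} [Field K] [NumberField K] {n : ℕ} {hn : 2 ≤ n} {k r : ℕ} {S : Finset K}
    (h : BlkT' K n hn k r S) : BlkOK (tblk K n hn) k r (trk K k r) (tUn K n hn k S) := h
/-- The torus, explicit form. -/
theorem blkT_core (hlat : T_latU) (hsemi : T_semi) (hsolve : T_solveR) (K : Type) [Field K]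
    [NumberField K] (n : ℕ) (hn : 2 ≤ n) (k r : ℕ) (S : Finset K) : BlkT' K n hn k r S := by
  classical
  intro ε hε
  rcases Nat.eq_zero_or_pos k with hk | hk
  · subst hk
    refine ⟨1, 0, one_pos, fun T hT => ⟨Unit, inferInstance, fun _ l => l.elim0, fun _ l => l.elim0,
      fun _ l => l.elim0, fun _ l => l.elim0, fun _ l => l.elim0, fun _ l => l.elim0, fun _ l => l.elim0,
      fun _ => by simp, fun _ Ω _ _ _ P => ⟨P, fun l => l.elim0⟩, fun _ => ?_, 0, le_rfl,
      fun L _ _ _ P _ => ⟨(), by simp⟩⟩⟩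
    simpa using one_le_pow₀ hT
  obtain ⟨c, hc, hlat'⟩ := hlat r k hk ε hε
  refine ⟨c, 1, hc, fun T hT1 => ?_⟩
  obtain ⟨H, D, hHD⟩ := hlat' T hT1
  set I : Type := {x : (Fin k → Fin k → ℤ) × (Fin k → ℕ) // LinearIndependent ℤ x.1 ∧
    (∀ i j, |x.1 i j| ≤ H) ∧ (∀ i, x.2 i ≤ D) ∧
    ∑ l, (x.2 l : ℝ) * ∑ t, |(x.1 l t : ℝ)| ≤ T ∧
    c * T ^ k ≤ T ^ r * ∏ l, ((x.2 l : ℝ) + 1)} with hI
  have hfin : Finite I := by
    have h1 : {u : Fin k → Fin k → ℤ | ∀ i j, |u i j| ≤ H}.Finite := by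
      have := Set.Finite.pi' (ι := Fin k) (κ := fun _ => Fin k → ℤ) (t := fun _ => {v | ∀ j, |v j| ≤ H})
        (fun i => by
          have := Set.Finite.pi' (ι := Fin k) (κ := fun _ => ℤ) (t := fun _ => {v | |v| ≤ H})
            (fun j => by
              refine (Set.finite_Icc (-H) H).subset fun v hv => ?_
              exact abs_le.mp hv)
          exact this)
      exact this
    have h2 : {d : Fin k → ℕ | ∀ i, d i ≤ D}.Finite :=
      Set.Finite.pi' (ι := Fin k) (κ := fun _ => ℕ) (t := fun _ => {v | v ≤ D}) (fun i => Set.finite_Iic D)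
    have h3 := h1.prod h2
    exact Set.Finite.to_subtype (s := {x : (Fin k → Fin k → ℤ) × (Fin k → ℕ) | LinearIndependent ℤ x.1 ∧
      (∀ i j, |x.1 i j| ≤ H) ∧ (∀ i, x.2 i ≤ D) ∧
      ∑ l, (x.2 l : ℝ) * ∑ t, |(x.1 l t : ℝ)| ≤ T ∧
      c * T ^ k ≤ T ^ r * ∏ l, ((x.2 l : ℝ) + 1)}) (h3.subset fun x hx => ⟨hx.2.1, hx.2.2.1⟩)
  refine ⟨I, Fintype.ofFinite I, fun i l => i.1.2 l, fun i l j => (i.1.1 l j).natAbs,
    fun i l => {tup K hn (i.1.1 l)}, fun i l F _ _ P => mon (i.1.1 l) P, ?_, ?_, ?_, ?_, ?_, ?_, 0, le_rfl, ?_⟩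
  · intro i l C hC c
    rw [Finset.mem_singleton] at hC
    subst hC
    exact MH_tup K hn _ c
  · intro i l F _ _ P
    obtain ⟨s, hs0, hs⟩ := ev_tup (K := K) hn (i.1.1 l) P
    refine ⟨fun C hC => ?_, tup K hn (i.1.1 l), Finset.mem_singleton_self _, ⟨0, by omega⟩, ?_⟩
    · rw [Finset.mem_singleton] at hC
      subst hC
      exact ⟨s, hs⟩
    · have h1 := congrFun hs ⟨0, by omega⟩
      have h2 : ev (tup K hn (i.1.1 l) ⟨0, by omega⟩) (fun j => tvec n ((P j : Fˣ) : F)) = s := by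
        rw [h1]
        simp [tvec]
      change ev (tup K hn (i.1.1 l) ⟨0, by omega⟩) (fun j => tvec n ((P j : Fˣ) : F)) ≠ 0
      rw [h2]
      exact hs0
  · intro i l
    exact loc_tup hn S (i.1.1 l)
  · intro i
    have h1 := i.2.2.2.2.1
    rw [Nat.cast_one, one_mul]
    refine le_trans (le_of_eq ?_) h1
    refine Finset.sum_congr rfl fun l _ => ?_
    congr 1
    refine Finset.sum_congr rfl fun j _ => ?_
    rw [Nat.cast_natAbs, Int.cast_abs]
  · intro i Ω _ _ _ P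
    exact solveT hsolve (i.1.1) i.2.1 P
  · intro i
    exact i.2.2.2.2.2
  · intro L _ _ _ P hP
    obtain ⟨nn, hnn1, hnn⟩ := hsemi (Additive Lˣ) (hT L) hT_nonneg hT_add hT_smul r k
      (fun j => Additive.ofMul (P j)) hP
    obtain ⟨u, hu1, hu2, d, hd1, hd2, hd3, hd4⟩ := hHD nn hnn1
    refine ⟨⟨(u, d), hu1, hu2, hd1, hd2, hd3⟩, ?_⟩
    have hh : ∀ x : Lˣ, logHeight (tvec n (x : L)) = hT L (Additive.ofMul x) := fun x =>
      logHeight_tvec hn _
    change ∑ l, (d l : ℝ) * logHeight (tvec n ((mon (u l) P : Lˣ) : L)) ≤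
      ε * ∑ j, logHeight (tvec n ((P j : Lˣ) : L)) + 0 * (Module.finrank ℚ L : ℝ)
    rw [zero_mul, add_zero]
    simp only [hh]
    have hmon : ∀ l, Additive.ofMul (mon (u l) P) = ∑ j, u l j • Additive.ofMul (P j) := by
      intro l
      unfold mon
      rw [ofMul_prod]
      rfl
    have hsum0 : 0 ≤ ∑ j, hT L (Additive.ofMul (P j)) := Finset.sum_nonneg fun j _ => hT_nonneg _
    calc ∑ l, (d l : ℝ) * hT L (Additive.ofMul (mon (u l) P)) ≤
        ∑ l, (d l : ℝ) * ((∑ j, hT L (Additive.ofMul (P j))) * ∑ i, |∑ j, (u l j : ℝ) * nn i j|) := by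
          refine Finset.sum_le_sum fun l _ => mul_le_mul_of_nonneg_left ?_ (Nat.cast_nonneg _)
          rw [hmon]
          exact hnn (u l)
      _ = (∑ j, hT L (Additive.ofMul (P j))) * ∑ l, (d l : ℝ) * ∑ i, |∑ j, (u l j : ℝ) * nn i j| := by
          rw [Finset.mul_sum]
          refine Finset.sum_congr rfl fun l _ => ?_
          ring
      _ ≤ (∑ j, hT L (Additive.ofMul (P j))) * ε := mul_le_mul_of_nonneg_left hd4 hsum0
      _ = _ := mul_comm _ _

end Pool.Agent.TH954.X.BT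

namespace Pool.Agent.TH954.X

open BT

/-- **The condition on the places, for the torus.** -/
theorem unT : T_unT := by
  intro K _ n hn k S
  unfold UnOK
  rw [tblk_V, tblk_e0, tblk_s0]
  exact ⟨S, 1, 2, le_rfl, fun L _ _ w u hu hUn j => unT_aux hn hu hUn j⟩

/-- **The torus.** -/
theorem blkT (hlat : T_latU) (hsemi : T_semi) (hsolve : T_solveR) : T_blkT :=
  fun K _ _ n hn k r S => blk_of (blkT_core hlat hsemi hsolve K n hn k r S)

end Pool.Agent.TH954.X
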