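import Pool.Agent.TH954.X.Blk

/-!
# Blocks inside a product
-/

set_option autoImplicit false
set_option linter.unusedSectionVars false

open MvPolynomial NumberField Height Pool.Agent.TH954.V

namespace Pool.Agent.TH954.X

variable {K : Type} [Field K] {n : ℕ} {β ι : Type} [Fintype β] [Fintype ι] {k : β → ℕ}
  (e : ((b : β) × Fin (k b)) ≃ ι) (B : β → Blk K n)

/-- the coordinates of a family of points -/
def crd {F : Type} [Field F] [Algebra K F] (P : ∀ b, Fin (k b) → (B b).Pt F) : ι → Fin n → F :=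
  fun i => (B (e.symm i).1).vec F (P (e.symm i).1 (e.symm i).2)

lemma crd_apply {F : Type} [Field F] [Algebra K F] (P : ∀ b, Fin (k b) → (B b).Pt F) (b : β)
    (j : Fin (k b)) : crd e B P (e ⟨b, j⟩) = (B b).vec F (P b j) := by
  have h : ∀ s t : (b : β) × Fin (k b), s = t →
      (B s.1).vec F (P s.1 s.2) = (B t.1).vec F (P t.1 t.2) := by
    rintro s t rfl; rfl
  exact h _ ⟨b, j⟩ (e.symm_apply_apply _)

/-- the varieties of the groups -/
def VX : ι → VarE K n := fun i => (B (e.symm i).1).V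

/-- a polynomial in the groups of one block as a polynomial in all groups -/
noncomputable def emb (b : β) (f : MvPolynomial (Fin (k b) × Fin n) K) :
    MvPolynomial (ι × Fin n) K :=
  rename (fun p : Fin (k b) × Fin n => (e ⟨b, p.1⟩, p.2)) f

lemma ev_emb {F : Type} [Field F] [Algebra K F] (b : β)
    (f : MvPolynomial (Fin (k b) × Fin n) K) (u : ι → Fin n → F) :
    ev (emb e b f) u = ev f (fun j => u (e ⟨b, j⟩)) := by
  unfold ev emb
  rw [aeval_rename]
  rfl

open Classical in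
/-- the multidegree in all groups -/
noncomputable def embd (b : β) (d : Fin (k b) → ℕ) : ι → ℕ :=
  fun i => ∑ j, if e ⟨b, j⟩ = i then d j else 0

lemma embd_apply (b : β) (d : Fin (k b) → ℕ) (j : Fin (k b)) : embd e b d (e ⟨b, j⟩) = d j := by
  classical
  unfold embd
  rw [Finset.sum_eq_single j]
  · simp
  · intro j' _ hj'
    rw [if_neg]
    intro h
    apply hj'
    have := e.injective h
    simpa using this
  · simp

lemma embd_zero (b : β) (d : Fin (k b) → ℕ) (i : ι) (hi : ∀ j, e ⟨b, j⟩ ≠ i) :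
    embd e b d i = 0 := by
  classical
  unfold embd
  exact Finset.sum_eq_zero (fun j _ => if_neg (hi j))

lemma sum_embd (b : β) (d : Fin (k b) → ℕ) : ∑ i, embd e b d i = ∑ j, d j := by
  classical
  unfold embd
  rw [Finset.sum_comm]
  refine Finset.sum_congr rfl (fun j _ => ?_)
  rw [Finset.sum_ite_eq]
  simp

lemma prod_embd (b : β) (d : Fin (k b) → ℕ) (Q : ι → ℝ) :
    ∏ i, Q i ^ embd e b d i = ∏ j, Q (e ⟨b, j⟩) ^ d j := by
  classical
  unfold embd
  simp_rw [← Finset.prod_pow_eq_pow_sum]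
  rw [Finset.prod_comm]
  refine Finset.prod_congr rfl (fun j _ => ?_)
  rw [Finset.prod_eq_single (e ⟨b, j⟩)]
  · simp
  · intro i _ hi
    rw [if_neg (fun h => hi h.symm), pow_zero]
  · simp

lemma emb_MH (b : β) {d : Fin (k b) → ℕ} {f : MvPolynomial (Fin (k b) × Fin n) K}
    (hf : MH d f) : MH (embd e b d) (emb e b f) := by
  classical
  intro m hm i
  have hinj : Function.Injective
      (fun p : Fin (k b) × Fin n => (e ⟨b, p.1⟩, p.2)) := by
    intro p q h
    have h1 := (Prod.ext_iff.mp h).1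
    have h2 := (Prod.ext_iff.mp h).2
    have h3 := e.injective h1
    have h4 : p.1 = q.1 := by simpa using h3
    exact Prod.ext h4 h2
  unfold emb at hm
  rw [support_rename_of_injective hinj] at hm
  obtain ⟨m', hm', rfl⟩ := Finset.mem_image.mp hm
  by_cases hi : ∃ j, e ⟨b, j⟩ = i
  · obtain ⟨j, rfl⟩ := hi
    rw [embd_apply]
    have h1 : ∀ c, (Finsupp.mapDomain (fun p : Fin (k b) × Fin n => (e ⟨b, p.1⟩, p.2)) m')
        (e ⟨b, j⟩, c) = m' (j, c) := fun c =>
      Finsupp.mapDomain_apply hinj m' (j, c)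
    simp_rw [h1]
    exact hf m' hm' j
  · push Not at hi
    rw [embd_zero e b d i hi]
    refine Finset.sum_eq_zero (fun c _ => ?_)
    refine Finsupp.mapDomain_of_notMem_range _ _ ?_
    rintro ⟨p, hp⟩
    exact hi p.1 (Prod.ext_iff.mp hp).1

/-- the points of the product satisfy the equations -/
lemma onS_crd {F : Type} [Field F] [Algebra K F] (P : ∀ b, Fin (k b) → (B b).Pt F) :
    OnS (wqX (VX e B)) (crd e B P) :=
  onS_of (fun j => ((B (e.symm j).1).normed F _).ne_zero) (fun j i => (B (e.symm j).1).on F _ i)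

lemma onS_block {F : Type} [Field F] [Algebra K F] {u : ι → Fin n → F}
    (hu : OnS (wqX (VX e B)) u) (b : β) :
    OnS (wqX (fun _ : Fin (k b) => (B b).V)) (fun j => u (e ⟨b, j⟩)) := by
  refine onS_of (fun j => hu.1 _) ?_
  intro j
  have h1 : ∀ i : ι, ∀ m : Fin (B (e.symm i).1).V.e,
      aeval (u i) ((B (e.symm i).1).V.eqn m) = 0 := by
    intro i m
    have h2 := hu.2 ⟨i, m⟩
    unfold wqX at h2
    rw [ev_rename] at h2
    exact h2
  have h3 := h1 (e ⟨b, j⟩)
  rw [e.symm_apply_apply] at h3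
  exact h3

/-- the condition on the absolute values, in all blocks -/
def UnX (Un : ∀ b, Cond K (Fin (k b)) n) : Cond K ι n :=
  fun L _ _ w u => ∀ b, Un b L w (fun j => u (e ⟨b, j⟩))

open Classical in
/-- the family of a block -/
noncomputable def embF (b : β) (Fm : Finset (Fin n → MvPolynomial (Fin (k b) × Fin n) K)) :
    Finset (Fin n → MvPolynomial (ι × Fin n) K) :=
  Fm.image (fun C c => emb e b (C c))

lemma Tg_embF {F : Type} [Field F] [Algebra K F] (b : β)
    (Fm : Finset (Fin n → MvPolynomial (Fin (k b) × Fin n) K)) (u : ι → Fin n → F)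
    (t : Fin n → F) : Tg (embF e b Fm) u t ↔ Tg Fm (fun j => u (e ⟨b, j⟩)) t := by
  classical
  unfold Tg embF
  refine and_congr Iff.rfl ⟨fun h C hC => ?_, fun h C hC => ?_⟩
  · obtain ⟨s, hs⟩ := h _ (Finset.mem_image_of_mem _ hC)
    refine ⟨s, ?_⟩
    rw [← hs]
    funext c
    rw [ev_emb]
  · obtain ⟨C', hC', rfl⟩ := Finset.mem_image.mp hC
    obtain ⟨s, hs⟩ := h C' hC'
    refine ⟨s, ?_⟩
    rw [← hs]
    funext c
    rw [ev_emb]

lemma LocF_embF (Un : ∀ b, Cond K (Fin (k b)) n) (b : β)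
    (Fm : Finset (Fin n → MvPolynomial (Fin (k b) × Fin n) K)) (σ : Fin (k b) → ℕ)
    (h : LocF (wqX (fun _ : Fin (k b) => (B b).V)) (Un b) σ Fm) :
    LocF (wqX (VX e B)) (UnX e Un) (embd e b σ) (embF e b Fm) := by
  classical
  obtain ⟨A, M, e', hM, hA⟩ := h
  refine ⟨A, M, e', hM, fun L _ _ w u hu hUn t ht => ?_⟩
  obtain ⟨C, hC, s, hs, hle⟩ := hA L w (fun j => u (e ⟨b, j⟩)) (onS_block e B hu b) (hUn b) t
    ((Tg_embF e b Fm u t).mp ht)
  refine ⟨_, Finset.mem_image_of_mem _ hC, s, ?_, ?_⟩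
  · rw [← hs]
    funext c
    rw [ev_emb]
  · rw [prod_embd e b σ (fun i => ⨆ c, w (u i c))]
    exact hle

/-- the product of the forms `s0` -/
noncomputable def S0X : MvPolynomial (ι × Fin n) K :=
  ∏ i : ι, rename (fun c => (i, c)) (B (e.symm i).1).s0

lemma S0X_MH : MH (fun i => (B (e.symm i).1).e0) (S0X e B) := by
  classical
  have h := MH_prod (ι := ι) Finset.univ (fun (i j : ι) => if j = i then (B (e.symm i).1).e0 else 0)
    (fun i => rename (fun c => (i, c)) (B (e.symm i).1).s0)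
    (fun i _ => rename_MH (B (e.symm i).1).s0_hom i)
  have h2 : (fun j : ι => ∑ i ∈ (Finset.univ : Finset ι),
      if j = i then (B (e.symm i).1).e0 else 0) = fun i => (B (e.symm i).1).e0 := by
    funext j
    simp
  rw [h2] at h
  exact h

lemma ev_S0X {F : Type} [Field F] [Algebra K F] (u : ι → Fin n → F) :
    ev (S0X e B) u = ∏ i, aeval (u i) (B (e.symm i).1).s0 := by
  unfold S0X
  have : ev (∏ i : ι, rename (fun c => (i, c)) (B (e.symm i).1).s0) u =
      ∏ i : ι, ev (rename (fun c => (i, c)) (B (e.symm i).1).s0) u := by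
    simp only [ev, map_prod]
  rw [this]
  exact Finset.prod_congr rfl (fun i _ => ev_rename i _ u)

lemma S0X_Un (Un : ∀ b, Cond K (Fin (k b)) n) (hU : ∀ b, UnOK (B b) (k b) (Un b)) :
    ∃ (A : Finset K) (M e' : ℕ), 1 ≤ M ∧ ∀ (L : Type) [Field L] [Algebra K L]
      (w : AbsoluteValue L ℝ) (u : ι → Fin n → L), OnS (wqX (VX e B)) u → UnX e Un L w u →
      1 ≤ kap A M e' w * nvW w (fun i => (B (e.symm i).1).e0) (S0X e B) u := by
  classical
  choose A M e' hM hA using hU
  obtain ⟨A1, hA1⟩ := kap_prod_le (Finset.univ : Finset ι) (fun i => A (e.symm i).1)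
    (fun i => M (e.symm i).1) (fun i => e' (e.symm i).1)
  refine ⟨A1, ∏ i : ι, M (e.symm i).1, ∑ i : ι, e' (e.symm i).1,
    Nat.succ_le_of_lt (Finset.prod_pos (fun i _ => hM _)), fun L _ _ w u hu hUn => ?_⟩
  have hi : ∀ i : ι, (⨆ c, w (u i c)) ^ (B (e.symm i).1).e0 ≤
      kap (A (e.symm i).1) (M (e.symm i).1) (e' (e.symm i).1) w *
        w (aeval (u i) (B (e.symm i).1).s0) := by
    intro i
    have h1 := hA (e.symm i).1 L w (fun j => u (e ⟨(e.symm i).1, j⟩))
      (onS_block e B hu _) (hUn _) (e.symm i).2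
    have h2 : e ⟨(e.symm i).1, (e.symm i).2⟩ = i := e.apply_symm_apply i
    rw [h2] at h1
    exact h1
  have hpos : 0 < ∏ i : ι, (⨆ c, w (u i c)) ^ (B (e.symm i).1).e0 :=
    Finset.prod_pos (fun i _ => pow_pos (sup_posW w (hu.1 i)) _)
  unfold nvW
  rw [← mul_div_assoc, one_le_div hpos, ev_S0X, w.map_prod]
  refine (Finset.prod_le_prod (fun i _ => pow_nonneg (sup_posW w (hu.1 i)).le _)
    (fun i _ => hi i)).trans ?_
  rw [Finset.prod_mul_distrib]
  exact mul_le_mul_of_nonneg_right (hA1 L w) (Finset.prod_nonneg (fun i _ => w.nonneg _))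

end Pool.Agent.TH954.X
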