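import Pool.Agent.TH954.X.ParR

/-!
# Heights and endomorphisms
-/

set_option autoImplicit false
set_option linter.unusedSectionVars false

open MvPolynomial NumberField Height Pool.Agent.TH954.V

namespace Pool.Agent.TH954.X

/-- Upper bound for the height of the image under a tuple of forms. -/
theorem height_forms {K : Type} [Field K] [NumberField K] {n n' D : ℕ}
    (C : Fin n' → MvPolynomial (Fin n) K) (hC : ∀ c, (C c).IsHomogeneous D) :
    ∃ B : ℝ, 0 ≤ B ∧ ∀ (L : Type) [Field L] [NumberField L] [Algebra K L] (v : Fin n → L)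
      (s : L) (t : Fin n' → L), v ≠ 0 → s ≠ 0 → t ≠ 0 → (fun c => aeval v (C c)) = s • t →
      logHeight t ≤ D * logHeight v + B * Module.finrank ℚ L := by
  classical
  set C' : Fin n' → MvPolynomial (Unit × Fin n) K :=
    fun c => rename (fun e : Fin n => ((), e)) (C c) with hC'
  have hMH : ∀ c, MH (fun _ => D) (C' c) := by
    intro c
    have := rename_MH (ι := Unit) (hC c) ()
    simpa using this
  choose A' M' hM' hA' using fun c => nvW_le (C' c) (fun _ => D) (hMH c)
  choose B hB0 hB using fun c => tot_kap (A' c) (hM' c) 1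
  refine ⟨∑ c, B c, Finset.sum_nonneg (fun c _ => hB0 c),
    fun L _ _ _ v s t hv hs ht hst => ?_⟩
  have hev : ∀ c, ev (C' c) (fun _ : Unit => v) = s * t c := by
    intro c
    rw [hC', ev_rename]
    exact congrFun hst c
  have Fs : FS (fun w : AbsoluteValue L ℝ => Real.log (w s)) := FS_log hs
  have Fv : FS (fun w : AbsoluteValue L ℝ => Real.log (⨆ c, w (v c))) := FS_sup' hv
  have Ft : FS (fun w : AbsoluteValue L ℝ => Real.log (⨆ c, w (t c))) := FS_sup' ht
  have Fk : FS (fun w : AbsoluteValue L ℝ => ∑ c, Real.log (kap (A' c) (M' c) 1 w)) :=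
    FS_sum _ (fun c _ => (hB c L).1)
  have key : ∀ w : AbsoluteValue L ℝ, Real.log (w s) + Real.log (⨆ c, w (t c)) ≤
      ∑ c, Real.log (kap (A' c) (M' c) 1 w) + D * Real.log (⨆ c, w (v c)) := by
    intro w
    have hne : Nonempty (Fin n') := let ⟨i, _⟩ := Function.ne_iff.mp ht; ⟨i⟩
    obtain ⟨c, hc⟩ := exists_supW w t
    have h1 := hA' c L w (fun _ => v) (fun _ => hv)
    unfold nvW at h1
    have hpos : 0 < (⨆ c, w (v c)) ^ D := pow_pos (sup_posW w hv) _
    rw [hev, Finset.prod_const, Finset.card_univ, Fintype.card_unit, pow_one,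
      div_le_iff₀ hpos, w.map_mul, hc] at h1
    have hkp : 0 < kap (A' c) (M' c) 1 w := zero_lt_one.trans_le (one_le_kap _ (hM' c) 1 w)
    have h3 := Real.log_le_log (mul_pos (w.pos hs) (sup_posW w ht)) h1
    rw [Real.log_mul (w.pos hs).ne' (sup_posW w ht).ne', Real.log_mul hkp.ne' hpos.ne',
      Real.log_pow] at h3
    have h4 : Real.log (kap (A' c) (M' c) 1 w) ≤ ∑ c, Real.log (kap (A' c) (M' c) 1 w) :=
      Finset.single_le_sum (f := fun c => Real.log (kap (A' c) (M' c) 1 w))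
        (fun c _ => Real.log_nonneg (one_le_kap _ (hM' c) 1 w)) (Finset.mem_univ c)
    linarith
  have t1 := tot_le (FS_add Fs Ft) (FS_add Fk (FS_mul Fv D)) (fun w => key (ai w))
    (fun v => key (av v))
  rw [tot_add Fs Ft, tot_log hs, tot_sup' ht, tot_add Fk (FS_mul Fv D), tot_mul Fv,
    tot_sup' hv, tot_sum _ (fun c _ => (hB c L).1)] at t1
  have h2 : ∑ c, tot (fun w : AbsoluteValue L ℝ => Real.log (kap (A' c) (M' c) 1 w)) ≤
      (∑ c, B c) * Module.finrank ℚ L := by
    rw [Finset.sum_mul]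
    exact Finset.sum_le_sum (fun c _ => (hB c L).2)
  linarith

/-- Heights of the images under the basis endomorphisms. -/
theorem end_height {K : Type} [Field K] [NumberField K] {n : ℕ} (A : AbR K n) :
    ∃ c B : ℝ, 0 ≤ c ∧ 0 ≤ B ∧ ∀ (L : Type) [Field L] [NumberField L] [Algebra K L]
      (a : Fin A.ρ) (P : A.Pt L),
      logHeight (A.end' L (A.basis a) P).1 ≤ c * logHeight P.1 + B * Module.finrank ℚ L := by
  classical
  choose D Fam hhom hrep using A.act_forms
  have hB1 : ∀ (a : Fin A.ρ) (C : ↥(Fam a)), ∃ B : ℝ, 0 ≤ B ∧ ∀ (L : Type) [Field L]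
      [NumberField L] [Algebra K L] (v : Fin n → L)
      (s : L) (t : Fin n → L), v ≠ 0 → s ≠ 0 → t ≠ 0 → (fun c => aeval v (C.1 c)) = s • t →
      logHeight t ≤ D a * logHeight v + B * Module.finrank ℚ L := fun a C =>
    height_forms C.1 (fun c => hhom a C.1 C.2 c)
  choose B hB0 hB using hB1
  refine ⟨∑ a, (D a : ℝ), ∑ a, ∑ C, B a C, Finset.sum_nonneg (fun _ _ => Nat.cast_nonneg _),
    Finset.sum_nonneg (fun a _ => Finset.sum_nonneg (fun C _ => hB0 a C)),
    fun L _ _ _ a P => ?_⟩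
  obtain ⟨h1, C, hC, c, hc⟩ := hrep a L P
  obtain ⟨s, hs⟩ := h1 C hC
  have hs' : (fun c => aeval P.1 (C c)) = s • (A.end' L (A.basis a) P).1 := hs
  have hs0 : s ≠ 0 := by
    rintro rfl
    apply hc
    have := congrFun hs' c
    rw [zero_smul] at this
    exact this
  have h2 := hB a ⟨C, hC⟩ L P.1 s (A.end' L (A.basis a) P).1 P.2.1.ne_zero hs0
    (A.end' L (A.basis a) P).2.1.ne_zero hs'
  have h3 : (D a : ℝ) ≤ ∑ a, (D a : ℝ) :=
    Finset.single_le_sum (f := fun a => (D a : ℝ)) (fun _ _ => Nat.cast_nonneg _)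
      (Finset.mem_univ a)
  have h4 : B a ⟨C, hC⟩ ≤ ∑ a, ∑ C, B a C := by
    refine (Finset.single_le_sum (f := fun C => B a C) (fun C _ => hB0 a C)
      (Finset.mem_univ ⟨C, hC⟩)).trans ?_
    exact Finset.single_le_sum (f := fun a => ∑ C, B a C)
      (fun a _ => Finset.sum_nonneg (fun C _ => hB0 a C)) (Finset.mem_univ a)
  have h5 : 0 ≤ logHeight P.1 := logHeight_nonneg _
  have h6 : (0 : ℝ) ≤ Module.finrank ℚ L := Nat.cast_nonneg _
  have h7 := mul_le_mul_of_nonneg_right h3 h5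
  have h8 := mul_le_mul_of_nonneg_right h4 h6
  linarith

end Pool.Agent.TH954.X
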