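import Pool.Agent.TH954.X.FinA

/-!
# Products of powers of abelian varieties and a torus
-/

set_option autoImplicit false
set_option linter.unusedSectionVars false

open MvPolynomial NumberField Height Pool.Agent.TH954.V

namespace Pool.Agent.TH954.X

section semi

variable {K : Type} [Field K] {n β : ℕ}

/-- multiplicities -/
def kO (m : ℕ) (k : Fin β → ℕ) : Option (Fin β) → ℕ
  | none => m
  | some b => k b

/-- index sets -/
def eO (m : ℕ) (k : Fin β → ℕ) :
    ((b : Option (Fin β)) × Fin (kO m k b)) ≃ (Fin m ⊕ ((b : Fin β) × Fin (k b))) where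
  toFun
    | ⟨none, j⟩ => Sum.inl j
    | ⟨some b, j⟩ => Sum.inr ⟨b, j⟩
  invFun
    | Sum.inl j => ⟨none, j⟩
    | Sum.inr s => ⟨some s.1, s.2⟩
  left_inv := by
    rintro ⟨_ | b, j⟩ <;> rfl
  right_inv := by
    rintro (j | ⟨b, j⟩) <;> rfl

/-- the blocks -/
noncomputable def BO (hn : 2 ≤ n) (A : Fin β → AbV K n) : Option (Fin β) → Blk K n
  | none => tblk K n hn
  | some b => (A b).toAbR.blk

/-- the coordinates of a point of the semiabelian variety -/
def crdS (A : Fin β → AbV K n) {m : ℕ} {k : Fin β → ℕ} {F : Type} [Field F] [Algebra K F]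
    (x : Fin m → Fˣ) (P : ∀ b, Fin (k b) → (A b).Pt F) :
    (Fin m ⊕ ((b : Fin β) × Fin (k b))) → Fin n → F :=
  Sum.elim (fun i => tvec n ((x i : Fˣ) : F)) (fun s => (P s.1 s.2).1)

/-- the coordinates `x` are `S`-units at `w` -/
def UnS {L : Type} [Field L] [Algebra K L] (S : Finset K) {m : ℕ} (x : Fin m → Lˣ)
    (w : AbsoluteValue L ℝ) : Prop :=
  ∀ i, w ((x i : Lˣ) : L) ≤ cM S w ∧ 1 ≤ cM S w * w ((x i : Lˣ) : L)

/-- points of the blocks -/
def PO (hn : 2 ≤ n) (A : Fin β → AbV K n) {m : ℕ} {k : Fin β → ℕ} {F : Type} [Field F]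
    [Algebra K F] (x : Fin m → Fˣ) (P : ∀ b, Fin (k b) → (A b).Pt F) :
    ∀ b : Option (Fin β), Fin (kO m k b) → (BO hn A b).Pt F
  | none => x
  | some b => P b

lemma crd_PO (hn : 2 ≤ n) (A : Fin β → AbV K n) {m : ℕ} {k : Fin β → ℕ} {F : Type} [Field F]
    [Algebra K F] (x : Fin m → Fˣ) (P : ∀ b, Fin (k b) → (A b).Pt F) :
    crd (eO m k) (BO hn A) (PO hn A x P) = crdS A x P := by
  funext i
  rcases i with i | s
  · rfl
  · rfl

lemma crd_O (hn : 2 ≤ n) (A : Fin β → AbV K n) {m : ℕ} {k : Fin β → ℕ} {F : Type} [Field F]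
    [Algebra K F] (Q : ∀ b : Option (Fin β), Fin (kO m k b) → (BO hn A b).Pt F) :
    ∃ (x : Fin m → Fˣ) (P : ∀ b, Fin (k b) → (A b).Pt F),
      crd (eO m k) (BO hn A) Q = crdS A x P := by
  refine ⟨Q none, fun b => Q (some b), ?_⟩
  funext i
  rcases i with i | s
  · rfl
  · rfl

lemma PO_surj (hn : 2 ≤ n) (A : Fin β → AbV K n) {m : ℕ} {k : Fin β → ℕ} {F : Type} [Field F]
    [Algebra K F] (Q : ∀ b : Option (Fin β), Fin (kO m k b) → (BO hn A b).Pt F) :
    PO hn A (Q none) (fun b => Q (some b)) = Q := by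
  funext b
  rcases b with _ | b
  · rfl
  · rfl

/-- the conditions on the absolute values -/
def UnO (hn : 2 ≤ n) (m : ℕ) (k : Fin β → ℕ) (S : Finset K) :
    ∀ b : Option (Fin β), Cond K (Fin (kO m k b)) n
  | none => tUn K n hn m S
  | some _ => fun _ _ _ _ _ => True

lemma UnO_iff (hn : 2 ≤ n) (A : Fin β → AbV K n) {m : ℕ} {k : Fin β → ℕ} (S : Finset K) {L : Type}
    [Field L] [Algebra K L] (x : Fin m → Lˣ) (P : ∀ b, Fin (k b) → (A b).Pt L)
    (w : AbsoluteValue L ℝ) :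
    UnX (eO m k) (UnO hn m k S) L w (crdS A x P) ↔ UnS S x w := by
  constructor
  · intro h i
    have h1 := h none i
    have h2 : crdS A x P (eO m k ⟨none, i⟩) = tvec n ((x i : Lˣ) : L) := rfl
    simp only [h2] at h1
    simp [tvec] at h1
    refine ⟨h1.1, h1.2⟩
  · intro h b
    rcases b with _ | b
    · intro i
      have h2 : crdS A x P (eO m k ⟨none, i⟩) = tvec n ((x i : Lˣ) : L) := rfl
      simp only [h2]
      have h1 := h i
      simp [tvec]
      exact h1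
    · trivial

/-- ranks -/
def rO (r0 : ℕ) (r : Fin β → ℕ) : Option (Fin β) → ℕ
  | none => r0
  | some b => r b

/-- rank conditions -/
def rkO (hn : 2 ≤ n) (A : Fin β → AbV K n) (m : ℕ) (k : Fin β → ℕ) (r0 : ℕ) (r : Fin β → ℕ) :
    ∀ b : Option (Fin β), RkC (BO hn A b) (kO m k b)
  | none => trk2 K n hn m r0
  | some b => (A b).toAbR.rk2 (k b) (r b)

/-- the ranks `r0 ≤ m` and `r b ≤ k b` with `y + r0 + ∑ r b * dim A b < m + ∑ k b * dim A b` -/
def RS (A : Fin β → AbV K n) (m : ℕ) (k : Fin β → ℕ) (y : ℕ) : Type :=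
  {r : Fin (m + 1) × (∀ b, Fin (k b + 1)) //
    y + (r.1.1 + ∑ b, (r.2 b).1 * (A b).dim) < m + ∑ b, k b * (A b).dim}

instance (A : Fin β → AbV K n) (m : ℕ) (k : Fin β → ℕ) (y : ℕ) : Finite (RS A m k y) := by
  unfold RS
  infer_instance

open Classical in
theorem finS (hblk : T_blkA2) (hblkT : T_blkT2) (hunT : T_unT) (hirrT : T_irrT) (hgen : T_gen)
    [NumberField K] (hn : 2 ≤ n) (A : Fin β → AbV K n)
    (m : ℕ) (k : Fin β → ℕ) (y : ℕ) {s : ℕ}
    (f : Fin s → MvPolynomial ((Fin m ⊕ ((b : Fin β) × Fin (k b))) × Fin n) K)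
    (δ : Fin s → (Fin m ⊕ ((b : Fin β) × Fin (k b))) → ℕ) (hf : ∀ i, MH (δ i) (f i))
    (hdim : ∀ (F : Type) [Field F] [Algebra K F] (x : Fin m → Fˣ)
      (P : ∀ b, Fin (k b) → (A b).Pt F),
      (∀ i, ev (f i) (crdS A x P) = 0) →
      Algebra.trdeg K (IntermediateField.adjoin K
        (Set.range (fun p : (Fin m ⊕ ((b : Fin β) × Fin (k b))) × Fin n =>
          crdS A x P p.1 p.2))) ≤ (y : Cardinal))
    (S : Finset K) (ε : ℝ) (hε : 0 < ε) :
    ∃ (Φ : MvPolynomial ((Fin m ⊕ ((b : Fin β) × Fin (k b))) × Fin n) K)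
      (τ : (Fin m ⊕ ((b : Fin β) × Fin (k b))) → ℕ), MH τ Φ ∧
      (∃ (F : Type) (_ : Field F) (_ : Algebra K F) (x : Fin m → Fˣ)
        (P : ∀ b, Fin (k b) → (A b).Pt F), ev Φ (crdS A x P) ≠ 0) ∧
      ∃ δ0 : ℝ, 0 < δ0 ∧ ∃ C : ℝ, ∀ (L : Type) [Field L] [NumberField L] [Algebra K L]
        (x x' : Fin m → Lˣ) (P P' : ∀ b, Fin (k b) → (A b).Pt L) (r0 : ℕ) (r : Fin β → ℕ),
        y + (r0 + ∑ b, r b * (A b).dim) < m + ∑ b, k b * (A b).dim →
        trk K m r0 L x' → (∀ b, (A b).toAbR.rk (k b) (r b) L (P' b)) →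
        ∑ j, logHeight (tvec n ((x j / x' j : Lˣ) : L)) +
          ∑ i : (b : Fin β) × Fin (k b), logHeight (P i.1 i.2 - P' i.1 i.2).1 ≤
          δ0 * (Module.finrank ℚ L + ∑ i, logHeight (crdS A x P i)) →
        ev Φ (crdS A x P) ≠ 0 →
        (∃ i, ev (f i) (crdS A x P) ≠ 0) ∧
        FS (fun w : AbsoluteValue L ℝ => if UnS S x w then
          -Real.log (⨆ i, nvW w (δ i) (f i) (crdS A x P)) else 0) ∧
        tot (fun w => if UnS S x w then -Real.log (⨆ i, nvW w (δ i) (f i) (crdS A x P)) else 0) ≤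
          ε * ∑ i, logHeight (crdS A x P i) + C * Module.finrank ℚ L := by
  have hsum1 : ∀ (r0 : ℕ) (r : Fin β → ℕ),
      ∑ b, rO r0 r b * (BO hn A b).g = r0 + ∑ b, r b * (A b).dim := by
    intro r0 r
    rw [Fintype.sum_option]
    change r0 * 1 + _ = _
    rw [mul_one]
    rfl
  have hsum2 : ∑ b, kO m k b * (BO hn A b).g = m + ∑ b, k b * (A b).dim := by
    rw [Fintype.sum_option]
    change m * 1 + _ = _
    rw [mul_one]
    rfl
  obtain ⟨Φ, τ, h1, h2, δ0, hδ0, C, h3⟩ := main3 (R := RS A m k y) (eO m k) (BO hn A)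
    (fun r => rO r.1.1.1 (fun b => (r.1.2 b).1))
    (fun r => rkO hn A m k r.1.1.1 (fun b => (r.1.2 b).1)) (UnO hn m k S)
    (by
      rintro r (_ | b) δ δ' L _ _ _ H P hδ hH ⟨P', hP', hP⟩
      · exact ⟨P', hP', hP.trans (mul_le_mul_of_nonneg_right hδ hH)⟩
      · exact ⟨P', hP', hP.trans (mul_le_mul_of_nonneg_right hδ hH)⟩)
    (by
      rintro r (_ | b)
      · exact hblkT K n hn m _ S
      · exact hblk K n (A b).toAbR (k b) _)
    (by
      rintro (_ | b)
      · exact hunT K n hn m S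
      · exact trueUn A k b)
    boxX
    (hgen K n (Option (Fin β)) _ (kO m k) (eO m k) (BO hn A)
      (by
        rintro (_ | b)
        · exact (hirrT K n hn).1
        · exact (A b).irr)
      (by
        rintro (_ | b)
        · exact (hirrT K n hn).2
        · exact (A b).ind)) y (fun r => by rw [hsum1, hsum2]; exact r.2)
    f δ hf (fun F _ _ η hη => by
      obtain ⟨x, P, hxP⟩ := crd_O hn A η
      rw [hxP] at hη ⊢
      exact hdim F x P hη) ε hε
  refine ⟨Φ, τ, h1, ?_, δ0, hδ0, C, fun L _ _ _ x x' P P' r0 r hr hx' hP' hnear hP => ?_⟩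
  · obtain ⟨F, iF, iA, Q, hQ⟩ := h2
    obtain ⟨x, P, hxP⟩ := crd_O hn A Q
    rw [hxP] at hQ
    exact ⟨F, iF, iA, x, P, hQ⟩
  have ha0 : 0 ≤ ∑ j, logHeight (tvec n ((x j / x' j : Lˣ) : L)) :=
    Finset.sum_nonneg (fun _ _ => logHeight_nonneg _)
  have hb0 : 0 ≤ ∑ i : (b : Fin β) × Fin (k b), logHeight (P i.1 i.2 - P' i.1 i.2).1 :=
    Finset.sum_nonneg (fun _ _ => logHeight_nonneg _)
  let r' : RS A m k y := ⟨(⟨min r0 m, by omega⟩, fun b => ⟨min (r b) (k b), by omega⟩),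
    lt_of_le_of_lt (Nat.add_le_add_left (Nat.add_le_add (min_le_left _ _) (Finset.sum_le_sum
      (fun b _ => Nat.mul_le_mul_right _ (min_le_left _ _)))) _) hr⟩
  obtain ⟨h4, h5, h6⟩ := h3 L (PO hn A x P) ⟨r', by
    intro b
    rw [crd_PO]
    rcases b with _ | b
    · exact ⟨x', trk_min _ _ _ _ _ hx', by
        refine le_trans ?_ hnear
        exact le_add_of_nonneg_right hb0⟩
    · refine ⟨P' b, AbR.rk_min _ _ _ _ _ (hP' b), ?_⟩
      refine le_trans ?_ hnear
      refine le_trans ?_ (le_add_of_nonneg_left ha0)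
      rw [Fintype.sum_sigma]
      exact Finset.single_le_sum
        (f := fun b => ∑ j, logHeight (P b j - P' b j).1)
        (fun b _ => Finset.sum_nonneg (fun j _ => logHeight_nonneg _)) (Finset.mem_univ b)⟩
    (by rw [crd_PO]; exact hP)
  rw [crd_PO] at h4 h6
  have hfun : (fun w : AbsoluteValue L ℝ =>
      if UnX (eO m k) (UnO hn m k S) L w (crdS A x P) then
        -Real.log (⨆ i, nvW w (δ i) (f i) (crdS A x P)) else 0) =
      fun w => if UnS S x w then -Real.log (⨆ i, nvW w (δ i) (f i) (crdS A x P)) else 0 := by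
    funext w
    exact if_congr (UnO_iff hn A S x P w) rfl rfl
  simp only [crd_PO] at h5
  refine ⟨h4 AbsoluteValue.trivial ((UnO_iff hn A S x P _).mpr ?_), ?_, ?_⟩
  · intro i
    have h7 : AbsoluteValue.trivial (R := L) (S := ℝ) ((x i : Lˣ) : L) = 1 := by
      simp
    have h8 := one_le_cM S (AbsoluteValue.trivial (R := L) (S := ℝ))
    rw [h7]
    exact ⟨h8, by linarith⟩
  · rw [← hfun]
    exact h5
  · unfold hYX at h6
    rw [← hfun]
    exact h6

end semi

end Pool.Agent.TH954.X
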