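import Pool.Agent.TH954.X.LocX
import Pool.Agent.TH954.V.Hilb

/-!
# From the local to the global inequality; existence of the auxiliary form
-/

set_option autoImplicit false
set_option linter.unusedSectionVars false

open MvPolynomial NumberField Height Pool.Agent.TH954.V

namespace Pool.Agent.TH954.X

section glob

open Classical in
/-- height with respect to the closed subscheme defined by the forms `f`, relative to `L`: the part
of the places with the property `Un` -/
noncomputable def hYX {K L : Type} [Field K] [Field L] [NumberField L] [Algebra K L] {ι : Type}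
    [Fintype ι] {n s : ℕ} (Un : Cond K ι n)
    (f : Fin s → MvPolynomial (ι × Fin n) K)
    (δ : Fin s → ι → ℕ) (u : ι → Fin n → L) : ℝ :=
  tot (fun w => if Un L w u then -Real.log (⨆ i, nvW w (δ i) (f i) u) else 0)

open Classical in
/-- From the local to the global inequality. -/
theorem globX {K : Type} [Field K] [NumberField K] {ι : Type} [Fintype ι] {n s : ℕ} {E : Type}
    (wq : E → MvPolynomial (ι × Fin n) K) (Un : Cond K ι n)
    (f : Fin s → MvPolynomial (ι × Fin n) K)
    (δ : Fin s → ι → ℕ) (hf : ∀ i, MH (δ i) (f i)) {N n' : ℕ} {κ : Type} [Fintype κ]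
    (G : MvPolynomial (κ × Fin n') K) (d : κ → ℕ) (hd : MH d G)
    (Fm : κ → Finset (Fin n' → MvPolynomial (ι × Fin n) K))
    (hloc : ∃ (A : Finset K) (M e : ℕ), 1 ≤ M ∧ ∀ (L : Type) [Field L]
      [Algebra K L] (w : AbsoluteValue L ℝ) (u : ι → Fin n → L), OnS wq u → Un L w u →
      ∀ t : κ → Fin n' → L, (∀ l, Tg (Fm l) u (t l)) →
        (w (ev G t) / ∏ l, (⨆ c, w (t l c)) ^ d l) ^ N ≤
          kap A M e w * ⨆ i, nvW w (δ i) (f i) u) :
    ∃ C : ℝ, 0 ≤ C ∧ ∀ (L : Type) [Field L] [NumberField L] [Algebra K L]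
      (u : ι → Fin n → L), OnS wq u →
      ∀ t : κ → Fin n' → L, (∀ l, Tg (Fm l) u (t l)) → ev G t ≠ 0 →
      (∀ w : AbsoluteValue L ℝ, Un L w u → ∃ i, ev (f i) u ≠ 0) ∧
      FS (fun w : AbsoluteValue L ℝ =>
        if Un L w u then -Real.log (⨆ i, nvW w (δ i) (f i) u) else 0) ∧
      hYX Un f δ u ≤ N * ∑ l, (d l : ℝ) * logHeight (t l) + C * Module.finrank ℚ L := by
  classical
  obtain ⟨A, M, e', hM1, hA⟩ := hloc
  obtain ⟨C, hC0, hC⟩ := tot_kap A hM1 e'
  choose A' M' hM' hA' using fun i => nvW_le (f i) (δ i) (hf i)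
  obtain ⟨AG, MG, hMG, hAG⟩ := nvW_le G d hd
  have hMGN : 1 ≤ MG ^ N := Nat.one_le_pow _ _ hMG
  obtain ⟨C2, hC20, hC2⟩ := tot_kap AG hMGN (1 * N)
  refine ⟨C + C2, add_nonneg hC0 hC20, fun L _ _ _ u hu t ht hP => ?_⟩
  obtain ⟨FM, hCL⟩ := hC L
  obtain ⟨FM2, hCL2⟩ := hC2 L
  set g : L := ev G t with hg
  have hw0 : ∀ l, t l ≠ 0 := fun l => (ht l).1
  set T : AbsoluteValue L ℝ → ℝ := fun v => v g / ∏ l, (⨆ c, v (t l c)) ^ d l with hT
  set U : AbsoluteValue L ℝ → ℝ := fun v => ⨆ i, nvW v (δ i) (f i) u with hU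
  have hT0 : ∀ v, 0 < T v := fun v => div_pos (v.pos hP)
    (Finset.prod_pos (fun l _ => pow_pos (sup_posW v (hw0 l)) _))
  have hloc : ∀ v, Un L v u → T v ^ N ≤ kap A M e' v * U v := fun v hv => hA L v u hu hv t ht
  have hTG : ∀ v, T v ^ N ≤ kap AG (MG ^ N) (1 * N) v := by
    intro v
    rw [← kap_pow]
    exact pow_le_pow_left₀ (hT0 v).le (hAG L v t hw0) N
  have hM0 : ∀ v : AbsoluteValue L ℝ, 0 < kap A M e' v := fun v =>
    zero_lt_one.trans_le (one_le_kap A hM1 e' v)
  have hM00 : ∀ v : AbsoluteValue L ℝ, 0 ≤ Real.log (kap A M e' v) := fun v =>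
    Real.log_nonneg (one_le_kap A hM1 e' v)
  have hM20 : ∀ v : AbsoluteValue L ℝ, 0 < kap AG (MG ^ N) (1 * N) v := fun v =>
    zero_lt_one.trans_le (one_le_kap AG hMGN _ v)
  have hM200 : ∀ v : AbsoluteValue L ℝ, 0 ≤ Real.log (kap AG (MG ^ N) (1 * N) v) := fun v =>
    Real.log_nonneg (one_le_kap AG hMGN _ v)
  have hU0 : ∀ v, Un L v u → 0 < U v := by
    intro v hv
    by_contra hcon
    have h1 : kap A M e' v * U v ≤ 0 :=
      mul_nonpos_of_nonneg_of_nonpos (hM0 v).le (not_lt.mp hcon)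
    have h2 := pow_pos (hT0 v) N
    linarith [hloc v hv]
  have hlogT : ∀ v, Real.log (T v) =
      Real.log (v g) - ∑ l, (d l : ℝ) * Real.log (⨆ c, v (t l c)) := by
    intro v
    rw [hT]
    simp only
    rw [Real.log_div (v.pos hP).ne' (Finset.prod_pos
      (fun l _ => pow_pos (sup_posW v (hw0 l)) _)).ne', Real.log_prod
      (fun l _ => (pow_pos (sup_posW v (hw0 l)) _).ne')]
    simp_rw [Real.log_pow]
  have hsplit : ∀ v : AbsoluteValue L ℝ, ∑ l, ((N : ℝ) * d l) * Real.log (⨆ c, v (t l c)) =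
        N * ∑ l, (d l : ℝ) * Real.log (⨆ c, v (t l c)) := by
    intro v
    rw [Finset.mul_sum]
    exact Finset.sum_congr rfl (fun l _ => by ring)
  have hineq : ∀ v, (if Un L v u then -Real.log (U v) else 0) ≤
      Real.log (kap A M e' v) + (Real.log (kap AG (MG ^ N) (1 * N) v) +
        ((-N : ℝ) * Real.log (v g) +
        ∑ l, ((N : ℝ) * d l) * Real.log (⨆ c, v (t l c)))) := by
    intro v
    rw [hsplit]
    have h0 : (-N : ℝ) * Real.log (v g) + N * ∑ l, (d l : ℝ) * Real.log (⨆ c, v (t l c)) =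
        -(N * Real.log (T v)) := by
      rw [hlogT v]; ring
    rw [h0]
    split_ifs with hv
    · have h1 := Real.log_le_log (pow_pos (hT0 v) N) (hloc v hv)
      rw [Real.log_pow, Real.log_mul (hM0 v).ne' (hU0 v hv).ne'] at h1
      have h2 := hM200 v
      linarith
    · have h1 := Real.log_le_log (pow_pos (hT0 v) N) (hTG v)
      rw [Real.log_pow] at h1
      have h2 := hM00 v
      linarith
  have Fg : FS (fun v : AbsoluteValue L ℝ => Real.log (v g)) := FS_log hP
  have Fw : ∀ l, FS (fun v : AbsoluteValue L ℝ => Real.log (⨆ c, v (t l c))) :=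
    fun l => FS_sup' (hw0 l)
  have Fsum : FS (fun v : AbsoluteValue L ℝ =>
      ∑ l, ((N : ℝ) * d l) * Real.log (⨆ c, v (t l c))) :=
    FS_sum _ (fun l _ => FS_mul (Fw l) _)
  have FT : FS (fun v => Real.log (T v)) := by
    have h1 : (fun v => Real.log (T v)) = fun v => Real.log (v g) +
        ∑ l, (-(d l : ℝ)) * Real.log (⨆ c, v (t l c)) := by
      funext v
      rw [hlogT v, sub_eq_add_neg, ← Finset.sum_neg_distrib]
      congr 1
      exact Finset.sum_congr rfl (fun l _ => by ring)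
    rw [h1]
    exact FS_add Fg (FS_sum _ (fun l _ => FS_mul (Fw l) _))
  have Fk : ∀ i, FS (fun v : AbsoluteValue L ℝ => Real.log (kap (A' i) (M' i) 1 v)) := by
    intro i
    obtain ⟨C', -, hC'⟩ := tot_kap (A' i) (hM' i) 1
    exact (hC' L).1
  have FU : FS (fun v => if Un L v u then -Real.log (U v) else 0) := by
    refine ((FM.union FT).union (Set.finite_iUnion (fun i => Fk i))).subset
      (fun v hv => ?_)
    by_contra hcon
    simp only [Set.mem_union, Set.mem_iUnion, Set.mem_ofPred_eq, not_or, not_not, not_exists]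
      at hcon
    obtain ⟨⟨h1, h2⟩, h3⟩ := hcon
    apply hv
    have hlog1 : ∀ x : ℝ, 0 < x → Real.log x = 0 → x = 1 := by
      intro x hx h
      rcases Real.log_eq_zero.mp h with h | h | h
      · exact absurd h hx.ne'
      · exact h
      · linarith
    change (if Un L (av v) u then -Real.log (U (av v)) else 0) = 0
    split_ifs with hvU
    · have hM : kap A M e' (av v) = 1 := hlog1 _ (hM0 _) h1
      have hTv : T (av v) = 1 := hlog1 _ (hT0 _) h2
      have h4 := hloc (av v) hvU
      rw [hM, hTv, one_pow, one_mul] at h4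
      have h5 : U (av v) ≤ 1 := by
        rcases isEmpty_or_nonempty (Fin s) with he | he
        · simp only [hU, Real.iSup_of_isEmpty]
          exact zero_le_one
        · refine ciSup_le (fun i => ?_)
          have h6 : kap (A' i) (M' i) 1 (av v) = 1 :=
            hlog1 _ (zero_lt_one.trans_le (one_le_kap _ (hM' i) _ _)) (h3 i)
          rw [← h6]
          exact hA' i L (av v) u hu.1
      rw [le_antisymm h5 h4, Real.log_one, neg_zero]
    · rfl
  refine ⟨?_, FU, ?_⟩
  · intro w1 hw1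
    by_contra hcon
    push Not at hcon
    have h1 := hU0 w1 hw1
    have h2 : U w1 = 0 := by
      have : (fun i => nvW w1 (δ i) (f i) u) = fun _ => 0 := by
        funext i
        simp [nvW, hcon i]
      rw [hU]
      simp only
      rw [show (⨆ i, nvW w1 (δ i) (f i) u) =
        iSup (fun i => nvW w1 (δ i) (f i) u) from rfl, this]
      rcases isEmpty_or_nonempty (Fin s) with he | he
      · rw [Real.iSup_of_isEmpty]
      · rw [ciSup_const]
    rw [h2] at h1
    exact lt_irrefl _ h1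
  · have h1 : hYX Un f δ u ≤ tot (fun v => Real.log (kap A M e' v) +
        (Real.log (kap AG (MG ^ N) (1 * N) v) + ((-N : ℝ) * Real.log (v g) +
        ∑ l, ((N : ℝ) * d l) * Real.log (⨆ c, v (t l c))))) :=
      tot_le FU (FS_add FM (FS_add FM2 (FS_add (FS_mul Fg _) Fsum))) (fun w => hineq (ai w))
        (fun v => hineq (av v))
    rw [tot_add FM (FS_add FM2 (FS_add (FS_mul Fg _) Fsum)),
      tot_add FM2 (FS_add (FS_mul Fg _) Fsum), tot_add (FS_mul Fg _) Fsum, tot_mul Fg,
      tot_log hP, tot_sum _ (fun l _ => FS_mul (Fw l) _)] at h1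
    have h2 : ∑ l, tot (fun v : AbsoluteValue L ℝ =>
        ((N : ℝ) * d l) * Real.log (⨆ c, v (t l c))) =
        N * ∑ l, (d l : ℝ) * logHeight (t l) := by
      rw [Finset.mul_sum]
      refine Finset.sum_congr rfl (fun l _ => ?_)
      rw [tot_mul (Fw l), tot_sup' (hw0 l)]
      ring
    rw [h2] at h1
    linarith

end glob

section count

lemma totalDegree_le_of_MH {K : Type} [Field K] {ι : Type} [Fintype ι] {n : ℕ} {E : ι → ℕ}
    {f : MvPolynomial (ι × Fin n) K} (hf : MH E f) :
    f.totalDegree ≤ ∑ j, E j := by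
  unfold totalDegree
  refine Finset.sup_le (fun m hm => ?_)
  rw [Finsupp.sum_fintype _ _ (fun _ => rfl), Fintype.sum_prod_type]
  rw [Finset.sum_congr rfl (fun i _ => hf m hm i)]

/-- Existence of the auxiliary form. -/
theorem countX {K : Type} [Field K] {ι : Type} [Fintype ι] {n y : ℕ}
    {τ : Type} [Fintype τ] (F : τ → Type) [∀ i, Field (F i)] [∀ i, Algebra K (F i)]
    (η : ∀ i, ι → Fin n → F i)
    (htr : ∀ i, Algebra.trdeg K (IntermediateField.adjoin K
      (Set.range (fun p : ι × Fin n => η i p.1 p.2))) ≤ (y : Cardinal)) :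
    ∃ c : ℕ, 1 ≤ c ∧ ∀ (κ : Type) [Fintype κ] (n' : ℕ) (σ : κ → ι → ℕ)
      (Fm : κ → Finset (Fin n' → MvPolynomial (ι × Fin n) K)),
      (∀ l, ∀ C ∈ Fm l, ∀ c, MH (σ l) (C c)) → ∀ t : ∀ i, κ → Fin n' → F i,
      (∀ i l, Tg (Fm l) (η i) (t i l)) →
      (∀ i l, ∃ C ∈ Fm l, ∃ c, ev (C c) (η i) ≠ 0) →
      ∀ (d : κ → ℕ) (B : Finset (κ × Fin n' →₀ ℕ)),
      (∀ e ∈ B, ∀ l, ∑ c, e (l, c) = d l) →
      c * (1 + ∑ l, d l * ∑ j, σ l j) ^ y < B.card →
      ∃ G : MvPolynomial (κ × Fin n') K, G ≠ 0 ∧ G.support ⊆ B ∧ MH d G ∧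
        ∀ i, ev G (t i) = 0 := by
  classical
  choose c0 hc0 using fun i => Hil.hilb K (F i) (ι × Fin n)
    (fun p : ι × Fin n => η i p.1 p.2) y (htr i)
  set c1 : ℕ := ∑ i, c0 i with hc1
  refine ⟨c1 + 1, by omega, ?_⟩
  intro κ _ n' σ Fm hMH t ht hne d B hB hlt
  set E : ℕ := ∑ l, d l * ∑ j, σ l j with hE
  -- choice of forms
  choose C hC s hs0 hs using fun (i : τ) (l : κ) =>
    Tg.exists_ne (hne i l) (ht i l)
  -- the spaces
  let V : (i : τ) → Submodule K (F i) := fun i =>
    Submodule.map (aeval (R := K) (fun p : ι × Fin n => η i p.1 p.2)).toLinearMap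
      (restrictTotalDegree (ι × Fin n) K E)
  have hmem : ∀ (i : τ) (G : MvPolynomial (κ × Fin n') K), MH d G →
      ev G (fun l c => ev (C i l c) (η i)) ∈ V i := by
    intro i G hG
    refine ⟨cmp G (C i), ?_, ?_⟩
    · rw [SetLike.mem_coe, mem_restrictTotalDegree]
      refine (totalDegree_le_of_MH (MH_cmp hG (C i) σ
        (fun l c => hMH l _ (hC i l) c))).trans (le_of_eq ?_)
      rw [Finset.sum_comm, hE]
      refine Finset.sum_congr rfl (fun l _ => ?_)
      rw [Finset.mul_sum]
    · change ev (cmp G (C i)) (η i) = _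
      rw [ev_cmp]
  have hmonMH : ∀ e ∈ B, MH d (monomial e (1 : K)) := by
    intro e he m' hm' l
    rw [support_monomial, if_neg one_ne_zero, Finset.mem_singleton] at hm'
    rw [hm']
    exact hB e he l
  let μ : B → ((i : τ) → V i) := fun e i =>
    ⟨ev (monomial e.1 (1 : K)) (fun l c => ev (C i l c) (η i)), hmem i _ (hmonMH e.1 e.2)⟩
  have hdep : ¬ LinearIndependent K μ := by
    intro hli
    have h1 := hli.fintype_card_le_finrank
    have h3 : Module.finrank K ((i : τ) → V i) = ∑ i, Module.finrank K (V i) :=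
      Module.finrank_pi_fintype K
    rw [Fintype.card_coe, h3] at h1
    have h4 : ∑ i, Module.finrank K (V i) ≤ c1 * (E + 1) ^ y := by
      rw [hc1, Finset.sum_mul]
      exact Finset.sum_le_sum (fun i _ => hc0 i E)
    have h6 : c1 * (E + 1) ^ y ≤ (c1 + 1) * (1 + E) ^ y := by
      rw [add_comm E 1]
      exact Nat.mul_le_mul_right _ (by omega)
    omega
  rw [Fintype.not_linearIndependent_iff] at hdep
  obtain ⟨g, hg1, e0, hg2⟩ := hdep
  set G : MvPolynomial (κ × Fin n') K := ∑ e, g e • monomial e.1 (1 : K) with hG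
  have hcoeff : ∀ e : B, coeff e.1 G = g e := by
    intro e
    rw [hG, coeff_sum, Finset.sum_eq_single e]
    · rw [coeff_smul, coeff_monomial, if_pos rfl, smul_eq_mul, mul_one]
    · intro e' _ hne
      rw [coeff_smul, coeff_monomial, if_neg (fun h => hne (Subtype.ext h)), smul_zero]
    · intro h
      exact absurd (Finset.mem_univ _) h
  have hGs : G.support ⊆ B := by
    intro e he
    obtain ⟨e', -, he'⟩ := Finset.mem_biUnion.mp (support_sum he)
    have h6 := support_smul he'
    rw [support_monomial, if_neg one_ne_zero, Finset.mem_singleton] at h6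
    rw [h6]
    exact e'.2
  have hGMH : MH d G := fun e he l => hB e (hGs he) l
  refine ⟨G, ?_, hGs, hGMH, ?_⟩
  · intro h0
    apply hg2
    rw [← hcoeff e0, h0, coeff_zero]
  · intro i
    have h1 : ev G (fun l c => ev (C i l c) (η i)) = 0 := by
      have h2 : (∑ e, g e • μ e) i = 0 := by rw [hg1]; rfl
      have h3 : ((∑ e, g e • μ e) i : V i).val =
          ∑ e : B, g e • ev (monomial e.1 (1 : K)) (fun l c => ev (C i l c) (η i)) := by
        rw [Finset.sum_apply, Submodule.coe_sum]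
        rfl
      rw [h2] at h3
      have h4 : ev G (fun l c => ev (C i l c) (η i)) =
          ∑ e : B, g e • ev (monomial e.1 (1 : K)) (fun l c => ev (C i l c) (η i)) := by
        rw [hG]
        simp only [ev, map_sum, map_smul]
      rw [h4, ← h3]
      rfl
    have h5 : (fun l c => ev (C i l c) (η i)) = fun l => s i l • t i l := by
      funext l
      exact hs i l
    rw [h5, ev_smul hGMH] at h1
    exact (mul_eq_zero.mp h1).resolve_left
      (Finset.prod_ne_zero_iff.mpr (fun l _ => pow_ne_zero _ (hs0 i l)))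

end count

end Pool.Agent.TH954.X
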