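import Pool.Agent.TH954.X.Emb

/-!
# The main theorem for products of blocks
-/

set_option autoImplicit false
set_option linter.unusedSectionVars false

open MvPolynomial NumberField Height Pool.Agent.TH954.V

namespace Pool.Agent.TH954.X

/-- the product of the blocks has a generic point -/
def GenX {K : Type} [Field K] {n : ℕ} {β ι : Type} [Fintype β] [Fintype ι] {k : β → ℕ}
    (e : ((b : β) × Fin (k b)) ≃ ι) (B : β → Blk K n) : Prop :=
  ∃ (Ω : Type) (_ : Field Ω) (_ : Algebra K Ω) (_ : IsAlgClosed Ω)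
    (P : ∀ b, Fin (k b) → (B b).Pt Ω),
    (∀ i : ι, crd e B P i (B (e.symm i).1).z0 ≠ 0) ∧
    AlgebraicIndependent K (fun p : (i : ι) × Fin (B (e.symm i).1).g =>
      crd e B P p.1 ((B (e.symm p.1).1).z p.2) / crd e B P p.1 (B (e.symm p.1).1).z0) ∧
    ∀ (Φ : MvPolynomial (ι × Fin n) K) (τ : ι → ℕ), MH τ Φ →
      (∃ (F : Type) (_ : Field F) (_ : Algebra K F) (Q : ∀ b, Fin (k b) → (B b).Pt F),
        ev Φ (crd e B Q) ≠ 0) → ev Φ (crd e B P) ≠ 0

/-- the choice of the parameter `T` -/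
lemma exists_T (y : ℕ) (c c1 c2 : ℝ) (hc : 0 ≤ c) (hc1 : 0 < c1) (hc2 : 0 ≤ c2) :
    ∃ T : ℝ, 1 ≤ T ∧ c * (1 + c2 * T) ^ y < c1 * T ^ (y + 1) := by
  refine ⟨1 + c * (1 + c2) ^ y / c1, ?_, ?_⟩
  · have : 0 ≤ c * (1 + c2) ^ y / c1 := by positivity
    linarith
  set T : ℝ := 1 + c * (1 + c2) ^ y / c1 with hT
  have h1 : 1 ≤ T := by
    have : 0 ≤ c * (1 + c2) ^ y / c1 := by positivity
    linarith
  have h0 : 0 < T := by linarith
  have h2 : c * (1 + c2 * T) ^ y ≤ c * ((1 + c2) * T) ^ y := by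
    refine mul_le_mul_of_nonneg_left (pow_le_pow_left₀ (by positivity) ?_ y) hc
    nlinarith
  refine h2.trans_lt ?_
  rw [mul_pow, pow_succ, ← mul_assoc]
  have h3 : c * (1 + c2) ^ y < c1 * T := by
    rw [hT, mul_add, mul_div_cancel₀ _ hc1.ne', mul_one]
    linarith
  have h4 : 0 < T ^ y := pow_pos h0 y
  calc c * (1 + c2) ^ y * T ^ y < (c1 * T) * T ^ y := mul_lt_mul_of_pos_right h3 h4
    _ = c1 * (T ^ y * T) := by ring

open Classical in
theorem mainX {K : Type} [Field K] [NumberField K] {n : ℕ} {β ι : Type} [Fintype β] [Fintype ι]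
    {k : β → ℕ} (e : ((b : β) × Fin (k b)) ≃ ι) (B : β → Blk K n) (r : β → ℕ)
    (rk : ∀ b (L : Type) [Field L] [Algebra K L], (Fin (k b) → (B b).Pt L) → Prop)
    (Un : ∀ b, Cond K (Fin (k b)) n)
    (hB : ∀ b, BlkOK (B b) (k b) (r b) (rk b) (Un b)) (hU : ∀ b, UnOK (B b) (k b) (Un b))
    (hbox : T_boxX) (hgen : GenX e B) (y : ℕ)
    (hy : y + ∑ b, r b * (B b).g < ∑ b, k b * (B b).g) {s : ℕ}
    (f : Fin s → MvPolynomial (ι × Fin n) K) (δ : Fin s → ι → ℕ)
    (hf : ∀ i, MH (δ i) (f i))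
    (hdim : ∀ (F : Type) [Field F] [Algebra K F] (η : ∀ b, Fin (k b) → (B b).Pt F),
      (∀ i, ev (f i) (crd e B η) = 0) →
      Algebra.trdeg K (IntermediateField.adjoin K
        (Set.range (fun p : ι × Fin n => crd e B η p.1 p.2))) ≤ (y : Cardinal))
    (ε : ℝ) (hε : 0 < ε) :
    ∃ (Φ : MvPolynomial (ι × Fin n) K) (τ : ι → ℕ), MH τ Φ ∧
      (∃ (F : Type) (_ : Field F) (_ : Algebra K F) (P : ∀ b, Fin (k b) → (B b).Pt F),
        ev Φ (crd e B P) ≠ 0) ∧
      ∃ C : ℝ, ∀ (L : Type) [Field L] [NumberField L] [Algebra K L]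
        (P : ∀ b, Fin (k b) → (B b).Pt L), (∀ b, rk b L (P b)) →
        ev Φ (crd e B P) ≠ 0 →
        (∀ w : AbsoluteValue L ℝ, UnX e Un L w (crd e B P) → ∃ i, ev (f i) (crd e B P) ≠ 0) ∧
        FS (fun w : AbsoluteValue L ℝ => if UnX e Un L w (crd e B P) then
          -Real.log (⨆ i, nvW w (δ i) (f i) (crd e B P)) else 0) ∧
        hYX (UnX e Un) f δ (crd e B P) ≤
          ε * ∑ i, logHeight (crd e B P i) + C * Module.finrank ℚ L := by
  -- the Nullstellensatz
  obtain ⟨N, hN, t', F, iF, iA, η, hη0, hη1, hη2, hη3⟩ := nullW K (wqX (VX e B))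
    (wqX_MH _) f (fun i => ⟨δ i, hf i⟩)
  have hOnη : ∀ i, OnS (wqX (VX e B)) (η i) := fun i => ⟨fun j => (hη0 i j).ne_zero, hη1 i⟩
  -- the points outside the zero set of the product of the forms `s0`
  have hpt : ∀ i : Fin t', ev (S0X e B) (η i) ≠ 0 →
      ∃ P : ∀ b, Fin (k b) → (B b).Pt (F i), crd e B P = η i := by
    intro i hi
    have h1 : ∀ l : ι, ∀ m : Fin (B (e.symm l).1).V.e,
        aeval (η i l) ((B (e.symm l).1).V.eqn m) = 0 := by
      intro l m
      have h2 := (hOnη i).2 ⟨l, m⟩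
      unfold wqX at h2
      rw [ev_rename] at h2
      exact h2
    have h2 : ∀ l : ι, ∃ P : (B (e.symm l).1).Pt (F i), (B (e.symm l).1).vec (F i) P = η i l := by
      intro l
      refine ((B (e.symm l).1).s0_pt (F i) (η i l) (hη0 i l) (h1 l)).resolve_left ?_
      rw [ev_S0X] at hi
      exact Finset.prod_ne_zero_iff.mp hi l (Finset.mem_univ _)
    have h3 : ∀ (b : β) (j : Fin (k b)), ∃ P : (B b).Pt (F i),
        (B b).vec (F i) P = η i (e ⟨b, j⟩) := by
      intro b j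
      have := h2 (e ⟨b, j⟩)
      rw [e.symm_apply_apply] at this
      exact this
    choose P hP using h3
    refine ⟨P, ?_⟩
    funext l
    have h4 := hP (e.symm l).1 (e.symm l).2
    have h5 : e ⟨(e.symm l).1, (e.symm l).2⟩ = l := e.apply_symm_apply l
    rw [h5] at h4
    exact h4
  let τS := {i : Fin t' // ev (S0X e B) (η i) ≠ 0}
  choose Pη hPη using fun i : τS => hpt i.1 i.2
  obtain ⟨c, hc, hcount⟩ := countX (y := y) (fun i : τS => F i.1) (fun i : τS => η i.1)
    (fun i => by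
      have h1 := hdim (F i.1) (Pη i) (fun l => by rw [hPη]; exact hη2 i.1 l)
      rw [hPη] at h1
      exact h1)
  -- constants
  have hN0 : (0 : ℝ) < N := by exact_mod_cast hN
  set Gs : ℝ := 1 + ∑ b, ((B b).g : ℝ) with hGs
  have hGs1 : 1 ≤ Gs := by
    have : 0 ≤ ∑ b, ((B b).g : ℝ) := Finset.sum_nonneg (fun _ _ => Nat.cast_nonneg _)
    linarith
  have hGs0 : 0 < Gs := by linarith
  set ε' : ℝ := ε / (N * Gs) with hε'
  have hε'0 : 0 < ε' := by positivity
  choose cb C1 hcb hB1 using fun b => hB b ε' hε'0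
  set c2 : ℝ := ∑ b, ((B b).g : ℝ) * C1 b with hc2
  have hc20 : 0 ≤ c2 := Finset.sum_nonneg (fun b _ => by positivity)
  set c3 : ℝ := ∏ b, cb b ^ (B b).g with hc3
  have hc30 : 0 < c3 := Finset.prod_pos (fun b _ => pow_pos (hcb b) _)
  obtain ⟨T, hT1, hT2⟩ := exists_T y c c3 c2 (Nat.cast_nonneg _) hc30 hc20
  have hT0 : 0 < T := by linarith
  choose I iI d σ Fam map hMH hrep hLoc hdeg hsol hprod CT hCT0 hCT using fun b => hB1 b T hT1
  -- the data attached to a choice `p`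
  let κd : (∀ b, I b) → ι → ℕ := fun p l => d (e.symm l).1 (p (e.symm l).1) (e.symm l).2
  let κg : ι → ℕ := fun l => (B (e.symm l).1).g
  let κσ : (∀ b, I b) → ι → ι → ℕ := fun p l =>
    embd e (e.symm l).1 (σ (e.symm l).1 (p (e.symm l).1) (e.symm l).2)
  let κF : (∀ b, I b) → ι → Finset (Fin n → MvPolynomial (ι × Fin n) K) := fun p l =>
    embF e (e.symm l).1 (Fam (e.symm l).1 (p (e.symm l).1) (e.symm l).2)
  let κm : (∀ b, I b) → ∀ (F : Type) [Field F] [Algebra K F],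
      (∀ b, Fin (k b) → (B b).Pt F) → ι → Fin n → F := fun p F _ _ P =>
    crd e B (fun b j => map b (p b) j F (P b))
  have hκMH : ∀ p l, ∀ C ∈ κF p l, ∀ c, MH (κσ p l) (C c) := by
    intro p l C hC c
    obtain ⟨C', hC', rfl⟩ := Finset.mem_image.mp hC
    exact emb_MH e _ (hMH _ _ _ C' hC' c)
  have hκTg : ∀ p l (F : Type) [Field F] [Algebra K F] (P : ∀ b, Fin (k b) → (B b).Pt F),
      Tg (κF p l) (crd e B P) (κm p F P l) := by
    intro p l F _ _ P
    refine (Tg_embF e _ _ _ _).mpr ⟨?_, ?_⟩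
    · exact ((B (e.symm l).1).normed F _).ne_zero
    · have h1 := (hrep (e.symm l).1 (p _) (e.symm l).2 F (P (e.symm l).1)).1
      have h2 : (fun j => crd e B P (e ⟨(e.symm l).1, j⟩)) =
          fun j => (B (e.symm l).1).vec F (P (e.symm l).1 j) := by
        funext j
        exact crd_apply e B P _ j
      rw [h2]
      exact h1
  have hκne : ∀ p l (F : Type) [Field F] [Algebra K F] (P : ∀ b, Fin (k b) → (B b).Pt F),
      ∃ C ∈ κF p l, ∃ c, ev (C c) (crd e B P) ≠ 0 := by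
    intro p l F _ _ P
    obtain ⟨C, hC, c, hc⟩ := (hrep (e.symm l).1 (p _) (e.symm l).2 F (P (e.symm l).1)).2
    refine ⟨_, Finset.mem_image_of_mem _ hC, c, ?_⟩
    rw [ev_emb]
    have h2 : (fun j => crd e B P (e ⟨(e.symm l).1, j⟩)) =
        fun j => (B (e.symm l).1).vec F (P (e.symm l).1 j) := by
      funext j
      exact crd_apply e B P _ j
    rw [h2]
    exact hc
  have hκLoc : ∀ p l, LocF (wqX (VX e B)) (UnX e Un) (κσ p l) (κF p l) := fun p l =>
    LocF_embF e B Un _ _ _ (hLoc _ _ _)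
  -- the generic point
  obtain ⟨Ω, iΩ, iAΩ, iCΩ, P0, hP0z, hP0ind, hP0gen⟩ := hgen
  have hz : ∀ i : ι, Function.Injective (B (e.symm i).1).z := by
    intro i a b hab
    have hinj := hP0ind.injective
    have h1 : (⟨i, a⟩ : (i : ι) × Fin (B (e.symm i).1).g) = ⟨i, b⟩ := hinj (by
      simp only [hab])
    simpa using h1
  have hz0 : ∀ (i : ι) (a : Fin (B (e.symm i).1).g),
      (B (e.symm i).1).z a ≠ (B (e.symm i).1).z0 := by
    intro i a ha
    have h1 : crd e B P0 i ((B (e.symm i).1).z a) / crd e B P0 i (B (e.symm i).1).z0 = 1 := by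
      rw [ha]
      exact div_self (hP0z i)
    have h2 := hP0ind.transcendental ⟨i, a⟩
    simp only at h2
    rw [h1] at h2
    exact h2 isAlgebraic_one
  choose Bx hBx1 hBx2 hBx3 using fun dd : ι → ℕ => hbox K ι n κg
    (fun i => (B (e.symm i).1).z0) (fun i => (B (e.symm i).1).z) hz hz0 dd
  -- counting
  have hcnt : ∀ p, c * (1 + ∑ l, κg l * κd p l * ∑ j, κσ p l j) ^ y <
      ∏ l, (κd p l + 1) ^ κg l := by
    intro p
    have h1 : ∑ l, (κg l : ℝ) * κd p l * ∑ j, (κσ p l j : ℝ) ≤ c2 * T := by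
      have h2 : ∀ l, ∑ j, (κσ p l j : ℝ) =
          ∑ j, (σ (e.symm l).1 (p (e.symm l).1) (e.symm l).2 j : ℝ) := by
        intro l
        have := sum_embd e (e.symm l).1 (σ (e.symm l).1 (p (e.symm l).1) (e.symm l).2)
        exact_mod_cast this
      simp_rw [h2]
      have h3 := Equiv.sum_comp e.symm (fun x : (b : β) × Fin (k b) =>
        ((B x.1).g : ℝ) * d x.1 (p x.1) x.2 * ∑ j, (σ x.1 (p x.1) x.2 j : ℝ))
      refine (le_of_eq h3).trans ?_
      rw [Fintype.sum_sigma, hc2, Finset.sum_mul]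
      refine Finset.sum_le_sum (fun b _ => ?_)
      have h4 := mul_le_mul_of_nonneg_left (hdeg b (p b)) (Nat.cast_nonneg (α := ℝ) (B b).g)
      refine le_trans (le_of_eq ?_) (h4.trans (le_of_eq (by ring)))
      rw [Finset.mul_sum]
      exact Finset.sum_congr rfl (fun j _ => by ring)
    have h5 : c3 * T ^ (y + 1) ≤ ∏ l, ((κd p l : ℝ) + 1) ^ κg l := by
      have h6 : ∏ b, (cb b * T ^ k b) ^ (B b).g ≤
          ∏ b, (T ^ r b * ∏ l, ((d b (p b) l : ℝ) + 1)) ^ (B b).g := by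
        refine Finset.prod_le_prod (fun b _ => by have := hcb b; positivity) (fun b _ => ?_)
        exact pow_le_pow_left₀ (by have := hcb b; positivity) (hprod b (p b)) _
      have h7 : ∏ b, (cb b * T ^ k b) ^ (B b).g = c3 * T ^ (∑ b, k b * (B b).g) := by
        rw [hc3, ← Finset.prod_pow_eq_pow_sum, ← Finset.prod_mul_distrib]
        refine Finset.prod_congr rfl (fun b _ => ?_)
        rw [mul_pow, pow_mul]
      have h8 : ∏ b, (T ^ r b * ∏ l, ((d b (p b) l : ℝ) + 1)) ^ (B b).g =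
          T ^ (∑ b, r b * (B b).g) * ∏ l, ((κd p l : ℝ) + 1) ^ κg l := by
        have h9 := Equiv.prod_comp e.symm (fun x : (b : β) × Fin (k b) =>
          ((d x.1 (p x.1) x.2 : ℝ) + 1) ^ (B x.1).g)
        have h10 : ∏ l, ((κd p l : ℝ) + 1) ^ κg l =
            ∏ b, ∏ j, ((d b (p b) j : ℝ) + 1) ^ (B b).g := by
          rw [← Fintype.prod_sigma (fun x : (b : β) × Fin (k b) =>
            ((d x.1 (p x.1) x.2 : ℝ) + 1) ^ (B x.1).g)]
          exact h9
        rw [h10, ← Finset.prod_pow_eq_pow_sum, ← Finset.prod_mul_distrib]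
        refine Finset.prod_congr rfl (fun b _ => ?_)
        rw [mul_pow, pow_mul, Finset.prod_pow]
      rw [h7, h8] at h6
      have h11 : T ^ (∑ b, r b * (B b).g) * (c3 * T ^ (y + 1)) ≤
          c3 * T ^ (∑ b, k b * (B b).g) := by
        have h12 : T ^ (∑ b, r b * (B b).g + (y + 1)) ≤ T ^ (∑ b, k b * (B b).g) :=
          pow_le_pow_right₀ hT1 (by omega)
        calc T ^ (∑ b, r b * (B b).g) * (c3 * T ^ (y + 1)) =
            c3 * T ^ (∑ b, r b * (B b).g + (y + 1)) := by rw [pow_add]; ring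
          _ ≤ _ := mul_le_mul_of_nonneg_left h12 hc30.le
      exact le_of_mul_le_mul_left (h11.trans h6) (pow_pos hT0 _)
    have h13 : (c : ℝ) * (1 + ∑ l, (κg l : ℝ) * κd p l * ∑ j, (κσ p l j : ℝ)) ^ y ≤
        c * (1 + c2 * T) ^ y := by
      refine mul_le_mul_of_nonneg_left (pow_le_pow_left₀ ?_ (by linarith) y) (Nat.cast_nonneg _)
      exact add_nonneg zero_le_one (Finset.sum_nonneg (fun l _ => by positivity))
    have h14 := (h13.trans_lt hT2).trans_le h5
    exact_mod_cast h14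
  -- the auxiliary forms
  have hGex : ∀ p : (∀ b, I b), ∃ G : MvPolynomial (ι × Fin n) K, G ≠ 0 ∧
      G.support ⊆ Bx (κd p) ∧ MH (fun l => κg l * κd p l) G ∧
      ∀ i : τS, ev G (κm p (F i.1) (Pη i)) = 0 := by
    intro p
    refine hcount ι n (κσ p) (κF p) (hκMH p) (fun i => κm p (F i.1) (Pη i))
      (fun i l => ?_) (fun i l => ?_) (fun l => κg l * κd p l) (Bx (κd p)) (hBx1 (κd p)) ?_
    · have := hκTg p l (F i.1) (Pη i)
      rw [hPη] at this
      exact this
    · have := hκne p l (F i.1) (Pη i)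
      rw [hPη] at this
      exact this
    · rw [hBx2]
      exact hcnt p
  choose G hG0 hGs' hGMH hGη using hGex
  -- the global inequality
  choose Cu hCu0 hCu using fun p : (∀ b, I b) => globX (wqX (VX e B)) (UnX e Un) f δ hf (G p)
    (fun l => κg l * κd p l) (hGMH p) (κF p)
    (locX_G (wqX (VX e B)) (wqX_MH _) (UnX e Un) f δ hf F η hη3 (κσ p) (κF p) (hκMH p)
      (hκLoc p) (S0X e B) _ (S0X_MH e B) (S0X_Un e B Un hU) (G p) (fun l => κg l * κd p l)
      (hGMH p) (fun i => by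
        by_cases hi : ev (S0X e B) (η i) = 0
        · exact Or.inl hi
        · right
          refine ⟨κm p (F i) (Pη ⟨i, hi⟩), fun l => ?_, hGη p ⟨i, hi⟩⟩
          have := hκTg p l (F i) (Pη ⟨i, hi⟩)
          rw [hPη ⟨i, hi⟩] at this
          exact this))
  -- the forms on the product
  have hform : ∀ p : (∀ b, I b), ∃ (Ψ : MvPolynomial (ι × Fin n) K)
      (τ : ι → ℕ), MH τ Ψ ∧ ev Ψ (crd e B P0) ≠ 0 ∧
      ∀ (L : Type) [Field L] [Algebra K L] (P : ∀ b, Fin (k b) → (B b).Pt L),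
        ev Ψ (crd e B P) ≠ 0 → ev (G p) (κm p L P) ≠ 0 := by
    intro p
    choose Q hQ using fun b => hsol b (p b) Ω (P0 b)
    choose T0 hT0 ee hee using fun l => hκne p l Ω Q
    have hMH' := MH_cmp (hGMH p) T0 (κσ p) (fun l c => hκMH p _ _ (hT0 l) c)
    have hval : ∀ (L : Type) [Field L] [Algebra K L] (P : ∀ b, Fin (k b) → (B b).Pt L),
        ∃ rr : ι → L, (∀ l, (fun c => ev (T0 l c) (crd e B P)) = rr l • κm p L P l) ∧
          ev (cmp (G p) T0) (crd e B P) =
          (∏ l, rr l ^ (κg l * κd p l)) * ev (G p) (κm p L P) := by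
      intro L _ _ P
      choose rr hrr using fun l => (hκTg p l L P).2 _ (hT0 l)
      refine ⟨rr, hrr, ?_⟩
      rw [ev_cmp]
      have h3 : (fun (l : ι) (c : Fin n) => ev (T0 l c) (crd e B P)) =
          fun l => rr l • κm p L P l := by
        funext l
        exact hrr l
      rw [h3, ev_smul (hGMH p)]
    refine ⟨cmp (G p) T0, _, hMH', ?_, ?_⟩
    · refine hP0gen _ _ hMH' ⟨Ω, iΩ, iAΩ, Q, ?_⟩
      obtain ⟨rr, hrr, hev⟩ := hval Ω Q
      rw [hev]
      refine mul_ne_zero (Finset.prod_ne_zero_iff.mpr (fun l _ => pow_ne_zero _ ?_)) ?_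
      · intro h0
        apply hee l
        have := congrFun (hrr l) (ee l)
        rw [h0, zero_smul] at this
        exact this
      · have h1 : κm p Ω Q = crd e B P0 := by
          change crd e B (fun b j => map b (p b) j Ω (Q b)) = crd e B P0
          have : (fun b j => map b (p b) j Ω (Q b)) = P0 := by
            funext b j
            exact hQ b j
          rw [this]
        rw [h1]
        exact hBx3 (κd p) (G p) (hG0 p) (hGs' p) Ω (crd e B P0) hP0z hP0ind
    · intro L _ _ P hP hcon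
      obtain ⟨rr, hrr, hev⟩ := hval L P
      rw [hev, hcon, mul_zero] at hP
      exact hP rfl
  choose Ψ τ hΨ1 hΨ2 hΨ3 using hform
  have hevprod : ∀ (L : Type) [Field L] [Algebra K L] (u : ι → Fin n → L),
      ev (∏ p, Ψ p) u = ∏ p, ev (Ψ p) u := by
    intro L _ _ u
    simp only [ev, map_prod]
  refine ⟨∏ p, Ψ p, _, MH_prod Finset.univ τ Ψ (fun p _ => hΨ1 p),
    ⟨Ω, iΩ, iAΩ, P0, ?_⟩, ?_⟩
  · rw [hevprod]
    exact Finset.prod_ne_zero_iff.mpr (fun p _ => hΨ2 p)
  -- the constant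
  refine ⟨N * ∑ b, ((B b).g : ℝ) * CT b + ∑ p, Cu p,
    fun L _ _ _ P hrk hP => ?_⟩
  rw [hevprod, Finset.prod_ne_zero_iff] at hP
  choose p hp using fun b => hCT b L (P b) (hrk b)
  set DL : ℝ := (Module.finrank ℚ L : ℝ) with hDL
  have hDL0 : 0 ≤ DL := Nat.cast_nonneg _
  obtain ⟨hne, hFS, hbound⟩ := hCu p L (crd e B P) (onS_crd e B P) (κm p L P)
    (fun l => hκTg p l L P) (hΨ3 p L P (hP p (Finset.mem_univ _)))
  refine ⟨hne, hFS, hbound.trans ?_⟩
  have h1 : ∑ l, ((κg l * κd p l : ℕ) : ℝ) * logHeight (κm p L P l) =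
      ∑ b, ((B b).g : ℝ) * ∑ j, (d b (p b) j : ℝ) *
        logHeight ((B b).vec L (map b (p b) j L (P b))) := by
    have h2 := Equiv.sum_comp e.symm (fun x : (b : β) × Fin (k b) =>
      (((B x.1).g * d x.1 (p x.1) x.2 : ℕ) : ℝ) *
        logHeight ((B x.1).vec L (map x.1 (p x.1) x.2 L (P x.1))))
    refine h2.trans ?_
    rw [Fintype.sum_sigma]
    refine Finset.sum_congr rfl (fun b _ => ?_)
    rw [Finset.mul_sum]
    refine Finset.sum_congr rfl (fun j _ => ?_)
    push_cast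
    ring
  have h2 : ∑ i, logHeight (crd e B P i) = ∑ b, ∑ j, logHeight ((B b).vec L (P b j)) := by
    have h3 := Equiv.sum_comp e.symm (fun x : (b : β) × Fin (k b) =>
      logHeight ((B x.1).vec L (P x.1 x.2)))
    refine h3.trans ?_
    rw [Fintype.sum_sigma]
  have hh0 : ∀ b, 0 ≤ ∑ j, logHeight ((B b).vec L (P b j)) := fun b =>
    Finset.sum_nonneg (fun _ _ => logHeight_nonneg _)
  have h3 : ∑ b, ((B b).g : ℝ) * ∑ j, (d b (p b) j : ℝ) *
        logHeight ((B b).vec L (map b (p b) j L (P b))) ≤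
      Gs * ε' * (∑ b, ∑ j, logHeight ((B b).vec L (P b j))) + (∑ b, ((B b).g : ℝ) * CT b) * DL := by
    have h4 : ∀ b, ((B b).g : ℝ) * ∑ j, (d b (p b) j : ℝ) *
        logHeight ((B b).vec L (map b (p b) j L (P b))) ≤
        Gs * ε' * ∑ j, logHeight ((B b).vec L (P b j)) + ((B b).g : ℝ) * CT b * DL := by
      intro b
      have h5 := mul_le_mul_of_nonneg_left (hp b) (Nat.cast_nonneg (α := ℝ) (B b).g)
      refine h5.trans ?_
      have h6 : ((B b).g : ℝ) ≤ Gs := by
        have : ((B b).g : ℝ) ≤ ∑ b, ((B b).g : ℝ) :=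
          Finset.single_le_sum (f := fun b => ((B b).g : ℝ)) (fun _ _ => Nat.cast_nonneg _)
            (Finset.mem_univ b)
        linarith
      have h7 := mul_le_mul_of_nonneg_right h6 (mul_nonneg hε'0.le (hh0 b))
      calc ((B b).g : ℝ) * (ε' * ∑ j, logHeight ((B b).vec L (P b j)) + CT b * DL) =
          ((B b).g : ℝ) * (ε' * ∑ j, logHeight ((B b).vec L (P b j))) +
            ((B b).g : ℝ) * CT b * DL := by ring
        _ ≤ Gs * (ε' * ∑ j, logHeight ((B b).vec L (P b j))) +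
            ((B b).g : ℝ) * CT b * DL := by linarith
        _ = _ := by ring
    refine (Finset.sum_le_sum (fun b _ => h4 b)).trans (le_of_eq ?_)
    rw [Finset.sum_add_distrib, ← Finset.mul_sum, ← Finset.sum_mul]
  rw [h1, h2]
  have h5 := mul_le_mul_of_nonneg_left h3 hN0.le
  have h6 : Cu p ≤ ∑ p, Cu p :=
    Finset.single_le_sum (f := fun p => Cu p) (fun p _ => hCu0 p) (Finset.mem_univ p)
  have h7 := mul_le_mul_of_nonneg_right h6 hDL0
  have h8 : (N : ℝ) * (Gs * ε') = ε := by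
    rw [hε']
    field_simp
  calc (N : ℝ) * (∑ b, ((B b).g : ℝ) * ∑ j, (d b (p b) j : ℝ) *
        logHeight ((B b).vec L (map b (p b) j L (P b)))) + Cu p * DL ≤
      N * (Gs * ε' * (∑ b, ∑ j, logHeight ((B b).vec L (P b j))) +
        (∑ b, ((B b).g : ℝ) * CT b) * DL) + (∑ p, Cu p) * DL := by linarith
    _ = (N * (Gs * ε')) * (∑ b, ∑ j, logHeight ((B b).vec L (P b j))) +
        (N * (∑ b, ((B b).g : ℝ) * CT b) + ∑ p, Cu p) * DL := by ring
    _ = _ := by rw [h8]

end Pool.Agent.TH954.X
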