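import Pool.Agent.TH954.X.GlobX

/-!
# Products of projective varieties
-/

set_option autoImplicit false
set_option linter.unusedSectionVars false

open MvPolynomial

namespace Pool.Agent.TH954.X

/-- homogeneous equations -/
structure VarE (K : Type) [Field K] (n : ℕ) where
  e : ℕ
  eqn : Fin e → MvPolynomial (Fin n) K
  deg : Fin e → ℕ
  hom : ∀ i, (eqn i).IsHomogeneous (deg i)

/-- the equations of an abelian variety -/
def AbR.var {K : Type} [Field K] {n : ℕ} (A : AbR K n) : VarE K n := ⟨A.e, A.eqn, A.deg, A.hom⟩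

variable {K : Type} [Field K] {ι : Type} [Fintype ι] {n : ℕ}

/-- the equations of a product -/
noncomputable def wqX (V : ι → VarE K n) (i : (j : ι) × Fin (V j).e) :
    MvPolynomial (ι × Fin n) K :=
  rename (fun c => (i.1, c)) ((V i.1).eqn i.2)

lemma ev_rename {F : Type} [Field F] [Algebra K F] (j : ι)
    (f : MvPolynomial (Fin n) K) (u : ι → Fin n → F) :
    ev (rename (fun c => (j, c)) f) u = aeval (u j) f := by
  unfold ev
  rw [aeval_rename]
  rfl

open Classical in
lemma rename_MH {f : MvPolynomial (Fin n) K} {D : ℕ} (hf : f.IsHomogeneous D) (i : ι) :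
    MH (fun j => if j = i then D else 0) (rename (fun c : Fin n => (i, c)) f) := by
  intro m hm j
  have hinj : Function.Injective
      (fun c : Fin n => (i, c)) := fun a b h => (Prod.ext_iff.mp h).2
  rw [support_rename_of_injective hinj] at hm
  obtain ⟨m', hm', rfl⟩ := Finset.mem_image.mp hm
  change _ = if j = i then D else 0
  split_ifs with h
  · subst h
    have h1 : ∀ c, (Finsupp.mapDomain (fun c => (j, c)) m')
        (j, c) = m' c := fun c =>
      Finsupp.mapDomain_apply hinj m' c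
    simp_rw [h1]
    have h2 := hf (mem_support_iff.mp hm')
    rw [← h2, Finsupp.weight_apply, Finsupp.sum_fintype _ _ (by simp)]
    simp
  · refine Finset.sum_eq_zero (fun c _ => ?_)
    refine Finsupp.mapDomain_of_notMem_range _ _ ?_
    rintro ⟨c', hc'⟩
    exact h (Prod.ext_iff.mp hc').1.symm

lemma wqX_MH (V : ι → VarE K n) (i : (j : ι) × Fin (V j).e) : ∃ δ, MH δ (wqX V i) := by
  classical
  exact ⟨_, rename_MH ((V i.1).hom i.2) i.1⟩

lemma onS_of {V : ι → VarE K n} {F : Type} [Field F] [Algebra K F] {u : ι → Fin n → F}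
    (h0 : ∀ j, u j ≠ 0) (h : ∀ j i, aeval (u j) ((V j).eqn i) = 0) : OnS (wqX V) u := by
  refine ⟨h0, fun i => ?_⟩
  unfold wqX
  rw [ev_rename]
  exact h _ _

lemma aeval_smul' {F : Type} [Field F] [Algebra K F] {f : MvPolynomial (Fin n) K} {D : ℕ}
    (hf : f.IsHomogeneous D) (s : F) (v : Fin n → F) :
    aeval (s • v) f = s ^ D * aeval v f := by
  rw [aeval_def, eval₂_eq', aeval_def, eval₂_eq', Finset.mul_sum]
  refine Finset.sum_congr rfl (fun m hm => ?_)
  have h6 : ∑ c, m c = D := by
    have h7 := hf (mem_support_iff.mp hm)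
    rw [Finsupp.weight_apply, Finsupp.sum_fintype _ _ (by simp)] at h7
    simpa using h7
  simp_rw [Pi.smul_apply, smul_eq_mul, mul_pow]
  rw [Finset.prod_mul_distrib, Finset.prod_pow_eq_pow_sum, h6]
  ring

lemma exists_ptX {V : ι → VarE K n} {F : Type} [Field F] [Algebra K F] {u : ι → Fin n → F}
    (hu : OnS (wqX V) u) :
    ∃ (P : ∀ j, PtE (V j).eqn F) (s : ι → F), (∀ j, s j ≠ 0) ∧
      u = fun j => s j • (P j).1 := by
  have hn : ∀ j, ∃ (s : F) (v' : Fin n → F), s ≠ 0 ∧ Normed v' ∧ u j = s • v' :=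
    fun j => exists_normed (hu.1 j)
  choose s v hs hv huv using hn
  have h1 : ∀ j i, aeval (v j) ((V j).eqn i) = 0 := by
    intro j i
    have h2 := hu.2 ⟨j, i⟩
    unfold wqX at h2
    rw [ev_rename] at h2
    simp only at h2
    rw [huv j, aeval_smul' ((V j).hom i)] at h2
    exact (mul_eq_zero.mp h2).resolve_left (pow_ne_zero _ (hs j))
  exact ⟨fun j => ⟨v j, hv j, h1 j⟩, s, hs, funext huv⟩

lemma exists_ptA (A : AbR K n) {F : Type} [Field F] [Algebra K F] {u : ι → Fin n → F}
    (hu : OnS (wqX (fun _ : ι => A.var)) u) :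
    ∃ (P : ι → A.Pt F) (s : ι → F), (∀ j, s j ≠ 0) ∧ u = fun j => s j • (P j).1 :=
  exists_ptX hu

lemma onS_ptA (A : AbR K n) {F : Type} [Field F] [Algebra K F] (P : ι → A.Pt F) :
    OnS (wqX (fun _ : ι => A.var)) (fun j => (P j).1) :=
  onS_of (fun j => (P j).2.1.ne_zero) (fun j i => (P j).2.2 i)

end Pool.Agent.TH954.X
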